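import Pool.Agent.Lib.MP_784a73_co.Mix.Defs

/-! # Basic facts on colourings and recolouring (rows B1, B2) -/

namespace Mix

open Finset Relation

set_option linter.unusedSectionVars false

variable {V : Type*} [DecidableEq V]

theorem tg_mono {α : Type*} {r p : α → α → Prop} (h : ∀ a b, r a b → p a b) {a b : α}
    (hab : TransGen r a b) : TransGen p a b := by
  induction hab with
  | single h1 => exact TransGen.single (h _ _ h1)
  | tail _ h1 ih => exact ih.tail (h _ _ h1)

theorem rtg_mono {α : Type*} {r p : α → α → Prop} (h : ∀ a b, r a b → p a b) {a b : α}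
    (hab : ReflTransGen r a b) : ReflTransGen p a b := by
  induction hab with
  | refl => exact ReflTransGen.refl
  | tail _ h1 ih => exact ih.tail (h _ _ h1)

@[simp] theorem flip_self (c : V → Bool) (z : V) : flip c z z = !c z := by simp [flip]

@[simp] theorem flip_of_ne {c : V → Bool} {z v : V} (h : v ≠ z) : flip c z v = c v := by
  simp [flip, h]

theorem flip_flip (c : V → Bool) (z : V) : flip (flip c z) z = c := by
  funext v
  by_cases h : v = z
  · subst h; simp
  · simp [h]

@[simp] theorem neg_apply (c : V → Bool) (v : V) : neg c v = !c v := rfl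

@[simp] theorem neg_neg' (c : V → Bool) : neg (neg c) = c := by funext v; simp

theorem neg_flip (c : V → Bool) (z : V) : neg (flip c z) = flip (neg c) z := by
  funext v
  by_cases h : v = z
  · subst h; simp
  · simp [h]

theorem Mono.neg_iff {E : Finset (V × V)} {W : Finset V} {c : V → Bool} {p q : V} :
    Mono E W (neg c) p q ↔ Mono E W c p q := by
  simp [Mono]

theorem Mono.mono {E E' : Finset (V × V)} {W W' : Finset V} {c : V → Bool} {p q : V}
    (hE : E ⊆ E') (hW : W ⊆ W') (h : Mono E W c p q) : Mono E' W' c p q :=
  ⟨hE h.1, hW h.2.1, hW h.2.2.1, h.2.2.2⟩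

theorem Val.anti {E E' : Finset (V × V)} {W W' : Finset V} {c : V → Bool}
    (hE : E ⊆ E') (hW : W ⊆ W') (h : Val E' W' c) : Val E W c :=
  fun v hv => h v (tg_mono (fun _ _ hpq => Mono.mono hE hW hpq) hv)

theorem Mono.congr {E : Finset (V × V)} {W : Finset V} {c c' : V → Bool}
    (h : ∀ v ∈ W, c v = c' v) {p q : V} (hm : Mono E W c p q) : Mono E W c' p q :=
  ⟨hm.1, hm.2.1, hm.2.2.1, by rw [← h p hm.2.1, ← h q hm.2.2.1]; exact hm.2.2.2⟩

theorem Val.congr {E : Finset (V × V)} {W : Finset V} {c c' : V → Bool}
    (h : ∀ v ∈ W, c v = c' v) (hv : Val E W c) : Val E W c' :=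
  fun v hc => hv v (tg_mono (fun _ _ hpq => Mono.congr (fun v hv => (h v hv).symm) hpq) hc)

theorem Val.congr_arcs {E E' : Finset (V × V)} {W : Finset V} {c : V → Bool}
    (h : ∀ p ∈ W, ∀ q ∈ W, (p, q) ∈ E' → (p, q) ∈ E) (hv : Val E W c) : Val E' W c :=
  fun v hc => hv v (tg_mono (fun _ _ hpq => ⟨h _ hpq.2.1 _ hpq.2.2.1 hpq.1, hpq.2.1, hpq.2.2.1, hpq.2.2.2⟩) hc)

theorem Val.neg {E : Finset (V × V)} {W : Finset V} {c : V → Bool} (h : Val E W c) :
    Val E W (neg c) :=
  fun v hc => h v (tg_mono (fun _ _ hpq => Mono.neg_iff.1 hpq) hc)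

theorem Step.symm {E : Finset (V × V)} {W : Finset V} {c c' : V → Bool} (h : Step E W c c') :
    Step E W c' c := by
  obtain ⟨h1, h2, z, rfl⟩ := h
  exact ⟨h2, h1, z, (flip_flip c z).symm⟩

theorem Step.neg {E : Finset (V × V)} {W : Finset V} {c c' : V → Bool} (h : Step E W c c') :
    Step E W (neg c) (neg c') := by
  obtain ⟨h1, h2, z, rfl⟩ := h
  exact ⟨h1.neg, h2.neg, z, neg_flip c z⟩

theorem Reach.symm {E : Finset (V × V)} {W : Finset V} {c c' : V → Bool} (h : Reach E W c c') :
    Reach E W c' c := by
  induction h with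
  | refl => exact ReflTransGen.refl
  | tail _ hs ih => exact ReflTransGen.head hs.symm ih

theorem Reach.trans {E : Finset (V × V)} {W : Finset V} {c c' c'' : V → Bool}
    (h : Reach E W c c') (h' : Reach E W c' c'') : Reach E W c c'' := ReflTransGen.trans h h'

theorem Reach.neg {E : Finset (V × V)} {W : Finset V} {c c' : V → Bool} (h : Reach E W c c') :
    Reach E W (neg c) (neg c') := by
  induction h with
  | refl => exact ReflTransGen.refl
  | tail _ hs ih => exact ih.tail hs.neg

theorem Reach.val {E : Finset (V × V)} {W : Finset V} {c c' : V → Bool} (h : Reach E W c c')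
    (hc : Val E W c) : Val E W c' := by
  induction h with
  | refl => exact hc
  | tail _ hs _ => exact hs.2.1

theorem Reach.flip {E : Finset (V × V)} {W : Finset V} {c : V → Bool} {z : V}
    (hc : Val E W c) (hc' : Val E W (flip c z)) : Reach E W c (flip c z) :=
  ReflTransGen.single ⟨hc, hc', z, rfl⟩

/-- induction along a connected space: a property closed under valid flips holds everywhere -/
theorem Conn.induct {E : Finset (V × V)} {W : Finset V} (hC : Conn E W) {P : (V → Bool) → Prop}
    {c0 : V → Bool} (h0 : Val E W c0) (hP : P c0)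
    (hs : ∀ c, Val E W c → P c → ∀ z, Val E W (flip c z) → P (flip c z)) :
    ∀ c, Val E W c → P c := by
  intro c hc
  have h := hC c0 c h0 hc
  clear hc
  induction h with
  | refl => exact hP
  | tail _ hst ih =>
    obtain ⟨h1, h2, z, rfl⟩ := hst
    exact hs _ h1 ih z h2

/-- colourings which agree on `W` are joined -/
theorem reach_of_agree [Fintype V] {E : Finset (V × V)} {W : Finset V} {c c' : V → Bool} (hc : Val E W c)
    (h : ∀ v ∈ W, c v = c' v) : Reach E W c c' := by
  classical
  -- induct on the number of vertices where they differ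
  have key : ∀ (n : ℕ) (c : V → Bool), Val E W c → (∀ v ∈ W, c v = c' v) →
      (Finset.univ.filter (fun v => c v ≠ c' v)).card = n → Reach E W c c' := by
    intro n
    induction n with
    | zero =>
      intro c _ _ hn
      have : c = c' := by
        funext v
        by_contra hv
        have : v ∈ Finset.univ.filter (fun v => c v ≠ c' v) := by simp [hv]
        rw [Finset.card_eq_zero.1 hn] at this
        simp at this
      subst this
      exact ReflTransGen.refl
    | succ n ih =>
      intro c hc hagree hn
      obtain ⟨z, hz⟩ : (Finset.univ.filter (fun v => c v ≠ c' v)).Nonempty := by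
        rw [← Finset.card_pos]; omega
      have hz' : c z ≠ c' z := by simpa using hz
      have hzW : z ∉ W := fun hzW => hz' (hagree z hzW)
      have hag2 : ∀ v ∈ W, c v = flip c z v := by
        intro v hv
        have : v ≠ z := fun h => hzW (h ▸ hv)
        simp [this]
      have hv2 : Val E W (flip c z) := hc.congr hag2
      refine Reach.trans (Reach.flip hc hv2) (ih _ hv2 (fun v hv => by rw [← hag2 v hv]; exact hagree v hv) ?_)
      have : Finset.univ.filter (fun v => flip c z v ≠ c' v)
          = (Finset.univ.filter (fun v => c v ≠ c' v)).erase z := by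
        ext v
        by_cases hvz : v = z
        · subst hvz
          have h1 : (!c v) = c' v := by
            cases h1 : c v <;> cases h2 : c' v <;> simp_all
          simp [h1]
        · simp [hvz]
      rw [this, Finset.card_erase_of_mem hz]; omega
  exact key _ c hc h rfl

end Mix
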