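import Pool.Agent.Lib.MP_784a73_co.Mix.Count0

/-! # ROW CountB: submodularity

`ff_union_inter`: `(arcs in A) ∪ (arcs in B) ⊆ arcs in A ∪ B`, `(arcs in A) ∩ (arcs in B) = arcs in A ∩ B`, `card_union_add_card_inter`. -/

namespace Mix

open Finset Relation

set_option linter.unusedSectionVars false

variable {V : Type*} [DecidableEq V]

/-- submodularity -/
theorem ff_union_inter (E : Finset (V × V)) (A B : Finset V) :
    ff E (A ∪ B) + ff E (A ∩ B) ≤ ff E A + ff E B := by
  unfold ff ecard
  have h1 : (A ∪ B).card + (A ∩ B).card = A.card + B.card := Finset.card_union_add_card_inter A B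
  set X := E.filter (fun a => a.1 ∈ A ∧ a.2 ∈ A)
  set Y := E.filter (fun a => a.1 ∈ B ∧ a.2 ∈ B)
  have h2 : (X ∪ Y).card + (X ∩ Y).card = X.card + Y.card := Finset.card_union_add_card_inter X Y
  have h3 : (X ∪ Y).card ≤ (E.filter (fun a => a.1 ∈ A ∪ B ∧ a.2 ∈ A ∪ B)).card := by
    refine Finset.card_le_card ?_
    intro a ha
    simp only [X, Y, Finset.mem_union, Finset.mem_filter] at ha ⊢
    tauto
  have h4 : (X ∩ Y).card ≤ (E.filter (fun a => a.1 ∈ A ∩ B ∧ a.2 ∈ A ∩ B)).card := by
    refine Finset.card_le_card ?_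
    intro a ha
    simp only [X, Y, Finset.mem_inter, Finset.mem_filter] at ha ⊢
    tauto
  omega

/-- disjoint sets, no arcs between them in one of the directions etc.: `f(A ∪ B) ≤ f(A) + f(B)` -/
theorem ff_union_le {E : Finset (V × V)} {A B : Finset V} (h : Disjoint A B) :
    ff E (A ∪ B) ≤ ff E A + ff E B := by
  have h1 := ff_union_inter E A B
  rw [Finset.disjoint_iff_inter_eq_empty.1 h] at h1
  have h2 : ff E (∅ : Finset V) = 0 := by simp [ff, ecard]
  rw [h2] at h1
  linarith

theorem ff_anti {E E' : Finset (V × V)} (h : E ⊆ E') (H : Finset V) : ff E' H ≤ ff E H := by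
  unfold ff ecard
  have h1 : (E.filter (fun a => a.1 ∈ H ∧ a.2 ∈ H)).card ≤
      (E'.filter (fun a => a.1 ∈ H ∧ a.2 ∈ H)).card :=
    Finset.card_le_card (Finset.filter_subset_filter _ h)
  omega

theorem ff_rev {E : Finset (V × V)} {H : Finset V} : ff (rev E) H = ff E H := by
  unfold ff ecard rev
  have h1 : ((E.image Prod.swap).filter (fun a => a.1 ∈ H ∧ a.2 ∈ H)).card =
      (E.filter (fun a => a.1 ∈ H ∧ a.2 ∈ H)).card := by
    rw [Finset.filter_image, Finset.card_image_of_injective _ Prod.swap_injective]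
    congr 1
    ext a
    simp only [Finset.mem_filter, Prod.fst_swap, Prod.snd_swap]
    tauto
  rw [h1]

theorem Good.rev {E : Finset (V × V)} {W : Finset V} (h : Good E W) : Good (rev E) W :=
  ⟨h.1.rev, fun H hH hn => by rw [ff_rev]; exact h.2 H hH hn⟩

end Mix
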