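import Pool.Agent.Lib.MP_784a73_co.Mix.Count0

/-! # ROW CountC: degree sums

`sum_deg_pin`: `∑_{z ∈ Y} deg (Y ∪ P) z = 2 e(Y) + e(Y, P)` and `e(Y ∪ P) = e(Y) + e(P) + e(Y, P)`; `sum_deg` is the case `P = ∅` (`ff E ∅ = 0`).
(Possible proof: induction on `Y` with `ecard_insert`-like lemmas, or `card_eq_sum_card_fiberwise` for `Prod.fst`, `Prod.snd`.) -/

namespace Mix

open Finset Relation

set_option linter.unusedSectionVars false

variable {V : Type*} [DecidableEq V]

private def CountC_ar (E : Finset (V × V)) (A B : Finset V) : ℤ :=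
  ∑ p ∈ A, ∑ q ∈ B, (if (p, q) ∈ E then (1 : ℤ) else 0)

private theorem CountC_ecard (E : Finset (V × V)) (H : Finset V) :
    (ecard E H : ℤ) = CountC_ar E H H := by
  have h1 : E.filter (fun a => a.1 ∈ H ∧ a.2 ∈ H) = (H ×ˢ H).filter (fun a => a ∈ E) := by
    ext ⟨p, q⟩
    simp only [Finset.mem_filter, Finset.mem_product]
    tauto
  rw [ecard, h1, Finset.card_filter, CountC_ar, Finset.sum_product]
  push_cast
  rfl

private theorem CountC_deg (E : Finset (V × V)) (W : Finset V) (z : V) :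
    (deg E W z : ℤ) = ∑ p ∈ W, (if (p, z) ∈ E then (1 : ℤ) else 0)
      + ∑ p ∈ W, (if (z, p) ∈ E then (1 : ℤ) else 0) := by
  rw [deg, inN, outN, Finset.card_filter, Finset.card_filter]
  push_cast
  rfl

private theorem CountC_sum (E : Finset (V × V)) (Y W : Finset V) :
    ∑ z ∈ Y, (deg E W z : ℤ) = CountC_ar E W Y + CountC_ar E Y W := by
  simp only [CountC_deg, Finset.sum_add_distrib, CountC_ar]
  rw [Finset.sum_comm]

private theorem CountC_unionL (E : Finset (V × V)) {A A' : Finset V} (B : Finset V)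
    (h : Disjoint A A') : CountC_ar E (A ∪ A') B = CountC_ar E A B + CountC_ar E A' B := by
  rw [CountC_ar, Finset.sum_union h]; rfl

private theorem CountC_unionR (E : Finset (V × V)) (A : Finset V) {B B' : Finset V}
    (h : Disjoint B B') : CountC_ar E A (B ∪ B') = CountC_ar E A B + CountC_ar E A B' := by
  simp only [CountC_ar, Finset.sum_union h, Finset.sum_add_distrib]

/-- degree sum, with a pinned set `P` -/
theorem sum_deg_pin {E : Finset (V × V)} {Y P : Finset V} (hd : Disjoint Y P) (hl : ∀ z ∈ Y, (z, z) ∉ E) :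
    ∑ z ∈ Y, (4 - (deg E (Y ∪ P) z : ℤ)) = ff E Y + ff E (Y ∪ P) - ff E P := by
  rw [Finset.sum_sub_distrib, CountC_sum, Finset.sum_const, ff, ff, ff, CountC_ecard, CountC_ecard,
    CountC_ecard, Finset.card_union_of_disjoint hd, CountC_unionL E (Y ∪ P) hd,
    CountC_unionL E Y hd, CountC_unionR E Y hd, CountC_unionR E P hd]
  push_cast
  simp only [nsmul_eq_mul]
  ring

/-- degree sum -/
theorem sum_deg {E : Finset (V × V)} {W : Finset V} (hl : ∀ z ∈ W, (z, z) ∉ E) :
    ∑ z ∈ W, (4 - (deg E W z : ℤ)) = 2 * ff E W := by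
  have h := sum_deg_pin (E := E) (Y := W) (P := ∅) (Finset.disjoint_empty_right W) hl
  have h0 : ff E (∅ : Finset V) = 0 := by simp [ff, ecard]
  rw [Finset.union_empty, h0] at h
  rw [h]; ring

end Mix
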