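import Pool.Agent.Lib.MP_784a73_co.Mix.CountA
import Pool.Agent.Lib.MP_784a73_co.Mix.CountB

/-! # ROW CountD: adding arcs -/

namespace Mix

open Finset Relation

set_option linter.unusedSectionVars false

variable {V : Type*} [DecidableEq V]

private theorem CountD_ecard_le {E : Finset (V × V)} {H : Finset V} {a b : V} :
    ecard (insert (a, b) E) H ≤ ecard E H + 1 := by
  unfold ecard
  rw [Finset.filter_insert]
  split_ifs
  · exact Finset.card_insert_le _ _
  · exact Nat.le_succ _

private theorem CountD_ecard_eq {E : Finset (V × V)} {H : Finset V} {a b : V} (h : a ∉ H ∨ b ∉ H) :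
    ecard (insert (a, b) E) H = ecard E H := by
  unfold ecard
  rw [Finset.filter_insert, if_neg]
  rintro ⟨h1, h2⟩
  rcases h with h | h
  · exact h h1
  · exact h h2

/-- adding one arc changes `ff` by at most one, and only on sets containing both ends -/
theorem ff_insert_arc {E : Finset (V × V)} {H : Finset V} {a b : V} :
    ff E H - 1 ≤ ff (insert (a, b) E) H := by
  have h := CountD_ecard_le (E := E) (H := H) (a := a) (b := b)
  unfold ff
  omega

theorem ff_insert_arc_eq {E : Finset (V × V)} {H : Finset V} {a b : V} (h : a ∉ H ∨ b ∉ H) :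
    ff (insert (a, b) E) H = ff E H := by
  unfold ff
  rw [CountD_ecard_eq h]

private theorem CountD_ori {E : Finset (V × V)} {W : Finset V} {a b : V} (hO : Ori E W)
    (hab : a ≠ b) (hba : (b, a) ∉ E) : Ori (insert (a, b) E) W := by
  intro p hp q hq hpq hqp
  rcases Finset.mem_insert.1 hpq with h1 | h1
  · rw [Prod.mk.injEq] at h1
    obtain ⟨rfl, rfl⟩ := h1
    rcases Finset.mem_insert.1 hqp with h2 | h2
    · rw [Prod.mk.injEq] at h2
      exact hab h2.1.symm
    · exact hba h2
  · rcases Finset.mem_insert.1 hqp with h2 | h2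
    · rw [Prod.mk.injEq] at h2
      obtain ⟨rfl, rfl⟩ := h2
      exact hba h1
    · exact hO p hp q hq h1 h2

/-- adding one arc to a graph all of whose nonempty sets have `f ≥ 2` -/
theorem Good.add_one {E : Finset (V × V)} {W : Finset V} {a b : V} (hO : Ori E W)
    (h2 : ∀ H ⊆ W, H.Nonempty → 2 ≤ ff E H) (hab : a ≠ b) (hba : (b, a) ∉ E) :
    Good (insert (a, b) E) W := by
  refine ⟨CountD_ori hO hab hba, fun H hH hne => ?_⟩
  have h3 := h2 H hH hne
  have h4 := ff_insert_arc (E := E) (H := H) (a := a) (b := b)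
  omega

/-- adding two arcs `a → b`, `a' → b'`: sets containing all four ends must have `f ≥ 3` -/
theorem Good.add_two {E : Finset (V × V)} {W : Finset V} {a b a' b' : V} (hO : Ori E W)
    (h2 : ∀ H ⊆ W, H.Nonempty → 2 ≤ ff E H) (hab : a ≠ b) (hba : (b, a) ∉ E)
    (hab' : a' ≠ b') (hba' : (b', a') ∉ E) (hne : ¬ (a = b' ∧ b = a'))
    (h3 : ∀ H ⊆ W, a ∈ H → b ∈ H → a' ∈ H → b' ∈ H → 3 ≤ ff E H) :
    Good (insert (a, b) (insert (a', b') E)) W := by
  have hba2 : (b, a) ∉ insert (a', b') E := by
    intro h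
    rcases Finset.mem_insert.1 h with h1 | h1
    · rw [Prod.mk.injEq] at h1
      exact hne ⟨h1.2, h1.1⟩
    · exact hba h1
  refine ⟨CountD_ori (CountD_ori hO hab' hba') hab hba2, fun H hH hne => ?_⟩
  have h5 := h2 H hH hne
  have h6 := ff_insert_arc (E := insert (a', b') E) (H := H) (a := a) (b := b)
  have h7 := ff_insert_arc (E := E) (H := H) (a := a') (b := b')
  by_cases h8 : a' ∉ H ∨ b' ∉ H
  · have h9 := ff_insert_arc_eq (E := E) h8
    omega
  · push Not at h8
    by_cases h10 : a ∉ H ∨ b ∉ H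
    · have h11 := ff_insert_arc_eq (E := insert (a', b') E) h10
      omega
    · push Not at h10
      have h12 := h3 H hH h10.1 h10.2 h8.1 h8.2
      omega

/-- a set with three neighbours of a vertex `u ∉ Y` has `f(Y) ≥ 3` (if `Y + u` is a proper subset): `ff_insert` -/
theorem CE.ff_three {E : Finset (V × V)} {W Y : Finset V} {u : V} (h : CE E W) (huY : u ∉ Y)
    (hY : insert u Y ⊆ W) (hne : insert u Y ≠ W) (h3 : 3 ≤ deg E Y u) : 3 ≤ ff E Y := by
  have h1 := h.two (insert u Y) hY (Finset.insert_nonempty _ _) hne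
  have h2 := ff_insert (E := E) huY (h.good.1.loop (hY (Finset.mem_insert_self _ _)))
  omega

end Mix
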