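import Pool.Agent.Lib.MP_784a73_co.Mix.Basic

/-! # Neighbours, `Ori`, reversal (proved) -/

namespace Mix

open Finset Relation

set_option linter.unusedSectionVars false

variable {V : Type*} [DecidableEq V]

theorem mem_inN {E : Finset (V × V)} {W : Finset V} {z p : V} : p ∈ inN E W z ↔ p ∈ W ∧ (p, z) ∈ E := by
  simp [inN]

theorem mem_outN {E : Finset (V × V)} {W : Finset V} {z p : V} : p ∈ outN E W z ↔ p ∈ W ∧ (z, p) ∈ E := by
  simp [outN]

theorem mem_nbr {E : Finset (V × V)} {W : Finset V} {z p : V} :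
    p ∈ nbr E W z ↔ p ∈ W ∧ ((p, z) ∈ E ∨ (z, p) ∈ E) := by
  simp [nbr, mem_inN, mem_outN]; tauto

theorem Ori.loop {E : Finset (V × V)} {W : Finset V} (hO : Ori E W) {z : V} (hz : z ∈ W) : (z, z) ∉ E :=
  fun h => hO z hz z hz h h

theorem Ori.sub {E : Finset (V × V)} {W W' : Finset V} (hO : Ori E W) (h : W' ⊆ W) : Ori E W' :=
  fun p hp q hq => hO p (h hp) q (h hq)

theorem Good.sub {E : Finset (V × V)} {W W' : Finset V} (hG : Good E W) (h : W' ⊆ W) : Good E W' :=
  ⟨hG.1.sub h, fun H hH hn => hG.2 H (hH.trans h) hn⟩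

/-- reversal -/
theorem mem_rev {E : Finset (V × V)} {p q : V} : (p, q) ∈ rev E ↔ (q, p) ∈ E := by
  simp only [rev, Finset.mem_image, Prod.swap, Prod.mk.injEq]
  constructor
  · rintro ⟨⟨a, b⟩, h, rfl, rfl⟩; exact h
  · intro h; exact ⟨(q, p), h, rfl, rfl⟩

theorem inN_rev {E : Finset (V × V)} {W : Finset V} {z : V} : inN (rev E) W z = outN E W z := by
  ext p; simp [mem_inN, mem_outN, mem_rev]

theorem outN_rev {E : Finset (V × V)} {W : Finset V} {z : V} : outN (rev E) W z = inN E W z := by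
  ext p; simp [mem_inN, mem_outN, mem_rev]

theorem nbr_rev {E : Finset (V × V)} {W : Finset V} {z : V} : nbr (rev E) W z = nbr E W z := by
  rw [nbr, nbr, inN_rev, outN_rev, Finset.union_comm]

theorem deg_rev {E : Finset (V × V)} {W : Finset V} {z : V} : deg (rev E) W z = deg E W z := by
  rw [deg, deg, inN_rev, outN_rev, Nat.add_comm]

theorem rev_rev (E : Finset (V × V)) : rev (rev E) = E := by
  ext ⟨p, q⟩; rw [mem_rev, mem_rev]

theorem Ori.rev {E : Finset (V × V)} {W : Finset V} (h : Ori E W) : Ori (rev E) W :=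
  fun p hp q hq hpq hqp => h q hq p hp (mem_rev.1 hpq) (mem_rev.1 hqp)

end Mix
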