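import Pool.Agent.Lib.MP_784a73_co.Mix.Count0

/-! # ROW CountA: `ff` and `deg`

`ecard_insert`: the arcs inside `insert z H` are the arcs inside `H`, the arcs `(a, z)`, `a ∈ inN E H z` and `(z, a)`, `a ∈ outN E H z`. -/

namespace Mix

open Finset Relation

set_option linter.unusedSectionVars false

variable {V : Type*} [DecidableEq V]

theorem ecard_insert {E : Finset (V × V)} {H : Finset V} {z : V} (hz : z ∉ H) (hl : (z, z) ∉ E) :
    ecard E (insert z H) = ecard E H + deg E H z := by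
  have key : E.filter (fun a => a.1 ∈ insert z H ∧ a.2 ∈ insert z H) =
      E.filter (fun a => a.1 ∈ H ∧ a.2 ∈ H) ∪
        ((inN E H z).image (fun p => (p, z)) ∪ (outN E H z).image (fun p => (z, p))) := by
    ext ⟨a, b⟩
    simp only [Finset.mem_filter, Finset.mem_union, Finset.mem_image, mem_inN, mem_outN,
      Finset.mem_insert, Prod.mk.injEq]
    constructor
    · rintro ⟨he, h1 | h1, h2 | h2⟩
      · subst h1; subst h2
        exact absurd he hl
      · subst h1
        exact Or.inr (Or.inr ⟨b, ⟨h2, he⟩, rfl, rfl⟩)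
      · subst h2
        exact Or.inr (Or.inl ⟨a, ⟨h1, he⟩, rfl, rfl⟩)
      · exact Or.inl ⟨he, h1, h2⟩
    · rintro (⟨he, h1, h2⟩ | ⟨p, ⟨hp, he⟩, rfl, rfl⟩ | ⟨p, ⟨hp, he⟩, rfl, rfl⟩)
      · exact ⟨he, Or.inr h1, Or.inr h2⟩
      · exact ⟨he, Or.inr hp, Or.inl rfl⟩
      · exact ⟨he, Or.inl rfl, Or.inr hp⟩
  have d2 : Disjoint ((inN E H z).image (fun p => (p, z))) ((outN E H z).image (fun p => (z, p))) := by
    rw [Finset.disjoint_left]
    rintro ⟨a, b⟩ h1 h2
    simp only [Finset.mem_image, Prod.mk.injEq, mem_inN, mem_outN] at h1 h2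
    obtain ⟨p, ⟨hp, -⟩, rfl, rfl⟩ := h1
    obtain ⟨p', -, h, -⟩ := h2
    exact hz (h ▸ hp)
  have d1 : Disjoint (E.filter (fun a => a.1 ∈ H ∧ a.2 ∈ H))
      ((inN E H z).image (fun p => (p, z)) ∪ (outN E H z).image (fun p => (z, p))) := by
    rw [Finset.disjoint_left]
    rintro ⟨a, b⟩ h1 h2
    simp only [Finset.mem_filter, Finset.mem_union, Finset.mem_image, Prod.mk.injEq] at h1 h2
    rcases h2 with ⟨p, -, -, h⟩ | ⟨p, -, h, -⟩
    · exact hz (h ▸ h1.2.2)
    · exact hz (h ▸ h1.2.1)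
  unfold ecard deg
  rw [key, Finset.card_union_of_disjoint d1, Finset.card_union_of_disjoint d2,
    Finset.card_image_of_injective _ (fun p q h => (Prod.mk.inj h).1),
    Finset.card_image_of_injective _ (fun p q h => (Prod.mk.inj h).2)]

theorem ff_insert {E : Finset (V × V)} {H : Finset V} {z : V} (hz : z ∉ H) (hl : (z, z) ∉ E) :
    ff E (insert z H) = ff E H + 2 - (deg E H z : ℤ) := by
  unfold ff
  rw [ecard_insert hz hl, Finset.card_insert_of_notMem hz]
  push_cast
  ring

theorem ff_singleton {E : Finset (V × V)} {z : V} (hl : (z, z) ∉ E) : ff E {z} = 2 := by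
  have : ecard E {z} = 0 := by
    unfold ecard
    rw [Finset.card_eq_zero, Finset.filter_eq_empty_iff]
    rintro ⟨a, b⟩ he ⟨h1, h2⟩
    simp only [Finset.mem_singleton] at h1 h2
    subst h1; subst h2
    exact hl he
  unfold ff
  rw [this]
  simp

theorem deg_mono {E : Finset (V × V)} {H W : Finset V} (h : H ⊆ W) (z : V) : deg E H z ≤ deg E W z := by
  unfold deg
  refine Nat.add_le_add (Finset.card_le_card ?_) (Finset.card_le_card ?_)
  · intro p hp
    rw [mem_inN] at hp ⊢
    exact ⟨h hp.1, hp.2⟩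
  · intro p hp
    rw [mem_outN] at hp ⊢
    exact ⟨h hp.1, hp.2⟩

theorem deg_restrict {E : Finset (V × V)} {H W : Finset V} (hO : Ori E W) (hH : H ⊆ W) {z : V} (hz : z ∈ W) :
    deg E H z = (nbr E W z ∩ H).card := by
  have hd : Disjoint (inN E H z) (outN E H z) := by
    rw [Finset.disjoint_left]
    intro p h1 h2
    rw [mem_inN] at h1
    rw [mem_outN] at h2
    exact hO p (hH h1.1) z hz h1.2 h2.2
  have he : nbr E W z ∩ H = inN E H z ∪ outN E H z := by
    ext p
    rw [Finset.mem_inter, mem_nbr, Finset.mem_union, mem_inN, mem_outN]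
    constructor
    · rintro ⟨⟨-, h⟩, hp⟩
      rcases h with h | h
      · exact Or.inl ⟨hp, h⟩
      · exact Or.inr ⟨hp, h⟩
    · rintro (⟨hp, h⟩ | ⟨hp, h⟩)
      · exact ⟨⟨hH hp, Or.inl h⟩, hp⟩
      · exact ⟨⟨hH hp, Or.inr h⟩, hp⟩
  rw [he, Finset.card_union_of_disjoint hd, deg]

/-- under `Ori`, `deg` is the number of neighbours -/
theorem deg_eq_card_nbr {E : Finset (V × V)} {W : Finset V} (hO : Ori E W) {z : V} (hz : z ∈ W) :
    deg E W z = (nbr E W z).card := by
  rw [deg_restrict hO (Finset.Subset.refl W) hz]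
  congr 1
  rw [Finset.inter_eq_left]
  intro p hp
  exact (mem_nbr.1 hp).1

end Mix
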