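import Mathlib

/-!
# Definitions for MP_784a73_co (2-mixing of sparse oriented graphs)

* `V` is a fixed finite type, a digraph is `(E, W)`: arcs `E : Finset (V × V)`, active vertices `W : Finset V`
  (only arcs with both ends in `W` count; vertices outside `W` are free).
* colourings are `c : V → Bool`.
-/

namespace Mix

open Finset Relation

variable {V : Type*} [DecidableEq V]

/-- a monochromatic arc inside `W` -/
def Mono (E : Finset (V × V)) (W : Finset V) (c : V → Bool) (p q : V) : Prop :=
  (p, q) ∈ E ∧ p ∈ W ∧ q ∈ W ∧ c p = c q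

/-- `c` is a valid colouring of `(E, W)`: no monochromatic directed cycle inside `W` -/
def Val (E : Finset (V × V)) (W : Finset V) (c : V → Bool) : Prop :=
  ∀ v, ¬ TransGen (Mono E W c) v v

/-- `MP E W c p q`: a monochromatic directed path from `p` to `q` inside `W` (length `0` allowed, then `p = q ∈ W`) -/
def MP (E : Finset (V × V)) (W : Finset V) (c : V → Bool) (p q : V) : Prop :=
  p ∈ W ∧ ReflTransGen (Mono E W c) p q

/-- flip the colour of `z` -/
def flip (c : V → Bool) (z : V) : V → Bool := Function.update c z (!c z)

/-- complement of a colouring -/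
def neg (c : V → Bool) : V → Bool := fun v => !c v

/-- the colouring which is `s` on `L` and `c` elsewhere -/
def mix (L : Finset V) (s c : V → Bool) : V → Bool := fun v => if v ∈ L then s v else c v

/-- one recolouring step -/
def Step (E : Finset (V × V)) (W : Finset V) (c c' : V → Bool) : Prop :=
  Val E W c ∧ Val E W c' ∧ ∃ z, c' = flip c z

/-- reachable by recolouring steps -/
def Reach (E : Finset (V × V)) (W : Finset V) : (V → Bool) → (V → Bool) → Prop :=
  ReflTransGen (Step E W)

/-- `(E, W)` is 2-mixing -/
def Conn (E : Finset (V × V)) (W : Finset V) : Prop :=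
  ∀ c c', Val E W c → Val E W c' → Reach E W c c'

/-- recolouring steps that do not touch `H` -/
def StepOff (E : Finset (V × V)) (W H : Finset V) (c c' : V → Bool) : Prop :=
  Val E W c ∧ Val E W c' ∧ ∃ z, z ∉ H ∧ c' = flip c z

/-- reachable without touching `H` -/
def ReachOff (E : Finset (V × V)) (W H : Finset V) : (V → Bool) → (V → Bool) → Prop :=
  ReflTransGen (StepOff E W H)

/-- no loops and no digons inside `W` -/
def Ori (E : Finset (V × V)) (W : Finset V) : Prop :=
  ∀ p ∈ W, ∀ q ∈ W, (p, q) ∈ E → (q, p) ∉ E

/-- number of arcs inside `H` -/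
def ecard (E : Finset (V × V)) (H : Finset V) : ℕ :=
  (E.filter (fun a => a.1 ∈ H ∧ a.2 ∈ H)).card

/-- `f(H) = 2|H| - e(H)` -/
def ff (E : Finset (V × V)) (H : Finset V) : ℤ := 2 * (H.card : ℤ) - (ecard E H : ℤ)

/-- the hypothesis of the main theorem -/
def Good (E : Finset (V × V)) (W : Finset V) : Prop :=
  Ori E W ∧ ∀ H ⊆ W, H.Nonempty → 1 ≤ ff E H

/-- in-neighbours of `z` inside `W` -/
def inN (E : Finset (V × V)) (W : Finset V) (z : V) : Finset V := W.filter (fun p => (p, z) ∈ E)

/-- out-neighbours of `z` inside `W` -/
def outN (E : Finset (V × V)) (W : Finset V) (z : V) : Finset V := W.filter (fun p => (z, p) ∈ E)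

/-- all neighbours of `z` inside `W` -/
def nbr (E : Finset (V × V)) (W : Finset V) (z : V) : Finset V := inN E W z ∪ outN E W z

/-- degree of `z` in `W` -/
def deg (E : Finset (V × V)) (W : Finset V) (z : V) : ℕ := (inN E W z).card + (outN E W z).card

/-- reversed digraph -/
def rev (E : Finset (V × V)) : Finset (V × V) := E.image Prod.swap

variable (V) in
/-- induction hypothesis: the theorem for fewer than `n` active vertices -/
def IH (n : ℕ) : Prop :=
  ∀ (E : Finset (V × V)) (W : Finset V), W.card < n → Good E W → Conn E W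

/-- a minimal counterexample (no proper nonempty set with `f = 1`) -/
structure CE (E : Finset (V × V)) (W : Finset V) : Prop where
  ih : IH V W.card
  good : Good E W
  two : ∀ H ⊆ W, H.Nonempty → H ≠ W → 2 ≤ ff E H
  disc : ¬ Conn E W

end Mix
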