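import Pool.Agent.Lib.MP_784a73_co.Mix.Path
import Pool.Agent.Lib.MP_784a73_co.Mix.Count

/-! # ROW DegA: Lemma E2 (doubled vertex) -/

namespace Mix

open Finset Relation

set_option linter.unusedSectionVars false

variable {V : Type*} [DecidableEq V]

/-- a colour `g` blocked at `z` gives an out-neighbour and an in-neighbour of colour `g` -/
private theorem DegA_blocked {E E1 : Finset (V × V)} {W : Finset V} {c : V → Bool} {z : V} {g : Bool}
    (hz : z ∉ W) (hl : (z, z) ∉ E1) (ho : ∀ p, (z, p) ∈ E1 → (z, p) ∈ E)
    (hi : ∀ q, (q, z) ∈ E1 → (q, z) ∈ E) (hv : Val E1 W c)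
    (hb : ¬ Val E1 (insert z W) (Function.update c z g)) :
    ∃ p ∈ outN E W z, ∃ q ∈ inN E W z, c p = g ∧ c q = g := by
  rw [val_insert hz hl] at hb
  have hagree : ∀ v ∈ W, c v = Function.update c z g v := by
    intro v hv'
    have : v ≠ z := fun h => hz (h ▸ hv')
    simp [this]
  have hv' : Val E1 W (Function.update c z g) := hv.congr hagree
  have hb' : ¬ ∀ p ∈ W, ∀ q ∈ W, (z, p) ∈ E1 → (q, z) ∈ E1 →
      Function.update c z g p = Function.update c z g z →
      Function.update c z g q = Function.update c z g z →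
      ¬ ReflTransGen (Mono E1 W (Function.update c z g)) p q := fun h => hb ⟨hv', h⟩
  push Not at hb'
  obtain ⟨p, hp, q, hq, h1, h2, h3, h4, -⟩ := hb'
  rw [← hagree p hp, Function.update_self] at h3
  rw [← hagree q hq, Function.update_self] at h4
  exact ⟨p, mem_outN.2 ⟨hp, ho p h1⟩, q, mem_inN.2 ⟨hq, hi q h2⟩, h3, h4⟩

/-- two vertices of a set with different colours in copies `j1`, `j2`: the set and the indicator of `z0`
together count at least two -/
private theorem DegA_two {S T : Finset V} {c1 c2 : V → Bool} {z0 a b : V}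
    (ha : a ∈ S) (hb : b ∈ S) (h1 : c1 a = true) (h2 : c2 b = false)
    (hc : ∀ v, v ≠ z0 → c1 v = c2 v) (hT : z0 ∈ S → z0 ∈ T) : 2 ≤ S.card + T.card := by
  by_cases hab : a = b
  · subst hab
    have ha0 : a = z0 := by
      by_contra hne
      rw [hc a hne, h2] at h1
      exact Bool.noConfusion h1
    rw [ha0] at ha
    have h3 : 1 ≤ S.card := Finset.card_pos.2 ⟨z0, ha⟩
    have h4 : 1 ≤ T.card := Finset.card_pos.2 ⟨z0, hT ha⟩
    omega
  · have h3 : ({a, b} : Finset V).card ≤ S.card := by
      apply Finset.card_le_card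
      intro x hx
      rcases Finset.mem_insert.1 hx with rfl | hx
      · exact ha
      · rw [Finset.mem_singleton.1 hx]; exact hb
    rw [Finset.card_pair hab] at h3
    omega

/-- ROW G1 (Lemma E2 of the paper: doubled vertex). `B` coloured by `h` and, in a second copy, by `flip h z0`; the second copy may have
other arcs inside `B`. If every nonempty `Y' ⊆ Y` has a vertex with `deg + #(arcs to z0) ≤ 3` in `Y' ∪ B` then both copies extend by the
same colouring of `Y`.

Proof: induction on `Y`: take `Y' = Y`, `z` with small degree, colour `Y \ {z}` first. Colour `g` is blocked at `z` in copy `j` iff `z` has an in-neighbour and an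
out-neighbour of colour `g` joined by a mono path (`val_insert`); if both colours are blocked (in copies `j1`, `j2`) we have four arcs at `z`
(arc to colour `true` in copy `j1` in each direction, arc to colour `false` in copy `j2` in each direction); an arc can be used twice only if it goes to `z0`
and then it is counted twice in `deg + #(arcs to z0)`. -/
theorem ext_double {E E1 E2 : Finset (V × V)} {B Y : Finset V} {h : V → Bool} {z0 : V}
    (hd : Disjoint Y B) (hz0 : z0 ∈ B) (hl : ∀ z ∈ Y, (z, z) ∉ E)
    (hE1 : ∀ p q, (p ∉ B ∨ q ∉ B) → (p, q) ∈ E1 → (p, q) ∈ E)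
    (hE2 : ∀ p q, (p ∉ B ∨ q ∉ B) → (p, q) ∈ E2 → (p, q) ∈ E)
    (h1 : Val E1 B h) (h2 : Val E2 B (flip h z0))
    (hdeg : ∀ Y' ⊆ Y, Y'.Nonempty → ∃ z ∈ Y', deg E (Y' ∪ B) z + deg E {z0} z ≤ 3) :
    ∃ c : V → Bool, (∀ b ∈ B, c b = h b) ∧ Val E1 (Y ∪ B) c ∧ Val E2 (Y ∪ B) (flip c z0) := by
  induction Y using Finset.strongInduction with
  | H Y ih =>
    rcases Y.eq_empty_or_nonempty with rfl | hne
    · refine ⟨h, fun _ _ => rfl, ?_, ?_⟩
      · rw [Finset.empty_union]; exact h1
      · rw [Finset.empty_union]; exact h2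
    obtain ⟨z, hzY, hz3⟩ := hdeg Y (Finset.Subset.refl _) hne
    have hzB : z ∉ B := Finset.disjoint_left.1 hd hzY
    have hzz0 : z ≠ z0 := fun h' => hzB (h' ▸ hz0)
    obtain ⟨c, hcB, hc1, hc2⟩ := ih (Y.erase z) (Finset.erase_ssubset hzY)
      (Finset.disjoint_of_subset_left (Finset.erase_subset _ _) hd)
      (fun y hy => hl y (Finset.mem_of_mem_erase hy))
      (fun Y' hY' hne' => hdeg Y' (hY'.trans (Finset.erase_subset _ _)) hne')
    set W : Finset V := Y.erase z ∪ B with hW
    have hzW : z ∉ W := by
      rw [hW, Finset.mem_union, not_or]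
      exact ⟨Finset.notMem_erase _ _, hzB⟩
    have hins : Y ∪ B = insert z W := by
      rw [hW, ← Finset.insert_union, Finset.insert_erase hzY]
    have hz0W : z0 ∈ W := by
      rw [hW]; exact Finset.mem_union_right _ hz0
    have hlz : (z, z) ∉ E := hl z hzY
    have hl1 : (z, z) ∉ E1 := fun h' => hlz (hE1 z z (Or.inl hzB) h')
    have hl2 : (z, z) ∉ E2 := fun h' => hlz (hE2 z z (Or.inl hzB) h')
    have hflip : ∀ g : Bool, flip (Function.update c z g) z0 = Function.update (flip c z0) z g := by
      intro g
      funext v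
      by_cases hv0 : v = z0
      · subst hv0
        rw [flip_self, Function.update_of_ne (Ne.symm hzz0), Function.update_of_ne (Ne.symm hzz0),
          flip_self]
      · rw [flip_of_ne hv0]
        by_cases hvz : v = z
        · subst hvz
          rw [Function.update_self, Function.update_self]
        · rw [Function.update_of_ne hvz, Function.update_of_ne hvz, flip_of_ne hv0]
    -- a colour which is good in both copies suffices
    by_contra hcon
    have hbad : ∀ g : Bool, ¬ Val E1 (insert z W) (Function.update c z g) ∨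
        ¬ Val E2 (insert z W) (Function.update (flip c z0) z g) := by
      intro g
      by_contra hg
      push Not at hg
      apply hcon
      refine ⟨Function.update c z g, ?_, ?_, ?_⟩
      · intro b hb
        have : b ≠ z := fun h' => hzB (h' ▸ hb)
        rw [Function.update_of_ne this]
        exact hcB b hb
      · rw [hins]; exact hg.1
      · rw [hins, hflip]; exact hg.2
    -- blocked colours give neighbours
    have hblock : ∀ g : Bool, ∃ c' : V → Bool, (∀ v, v ≠ z0 → c' v = c v) ∧
        ∃ p ∈ outN E W z, ∃ q ∈ inN E W z, c' p = g ∧ c' q = g := by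
      intro g
      rcases hbad g with hb | hb
      · exact ⟨c, fun _ _ => rfl, DegA_blocked hzW hl1 (fun p => hE1 z p (Or.inl hzB))
          (fun q => hE1 q z (Or.inr hzB)) hc1 hb⟩
      · exact ⟨flip c z0, fun v hv => flip_of_ne hv, DegA_blocked hzW hl2
          (fun p => hE2 z p (Or.inl hzB)) (fun q => hE2 q z (Or.inr hzB)) hc2 hb⟩
    obtain ⟨c1, hc1e, p1, hp1, q1, hq1, hp1c, hq1c⟩ := hblock true
    obtain ⟨c2, hc2e, p2, hp2, q2, hq2, hp2c, hq2c⟩ := hblock false
    have hce : ∀ v, v ≠ z0 → c1 v = c2 v := fun v hv => by rw [hc1e v hv, hc2e v hv]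
    have hout : 2 ≤ (outN E W z).card + (outN E {z0} z).card :=
      DegA_two hp1 hp2 hp1c hp2c hce (fun h' => mem_outN.2 ⟨Finset.mem_singleton_self _, (mem_outN.1 h').2⟩)
    have hin : 2 ≤ (inN E W z).card + (inN E {z0} z).card :=
      DegA_two hq1 hq2 hq1c hq2c hce (fun h' => mem_inN.2 ⟨Finset.mem_singleton_self _, (mem_inN.1 h').2⟩)
    have hmono : deg E W z ≤ deg E (Y ∪ B) z := by
      apply deg_mono
      rw [hins]
      exact Finset.subset_insert _ _
    have hd1 : deg E W z = (inN E W z).card + (outN E W z).card := rfl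
    have hd2 : deg E {z0} z = (inN E {z0} z).card + (outN E {z0} z).card := rfl
    omega

end Mix
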