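import Pool.Agent.Lib.MP_784a73_co.Mix.Path
import Pool.Agent.Lib.MP_784a73_co.Mix.Count

/-! # ROW DegB: degeneracy, one copy

`ext_single`: strong induction on `Y`: `z` of degree `≤ 3` in `Y ∪ B`; extend to `Y \ {z}` first; then `z` has at most one in-neighbour or at most one
out-neighbour in `Y ∪ B`; give it a colour such that it has no mono in-arc or no mono out-arc (`val_dead` with `T = {z}`).
`Good.exists_val`: `B = ∅`, `sum_deg` gives a vertex of degree `≤ 3` in every nonempty subset. -/

namespace Mix

open Finset Relation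

set_option linter.unusedSectionVars false

variable {V : Type*} [DecidableEq V]

/-- a colour `g` blocked at `z` gives an out-neighbour and an in-neighbour of colour `g` -/
private theorem DegB_blocked {E : Finset (V × V)} {W : Finset V} {c : V → Bool} {z : V} {g : Bool}
    (hz : z ∉ W) (hl : (z, z) ∉ E) (hv : Val E W c)
    (hb : ¬ Val E (insert z W) (Function.update c z g)) :
    ∃ p ∈ outN E W z, ∃ q ∈ inN E W z, c p = g ∧ c q = g := by
  rw [val_insert hz hl] at hb
  have hagree : ∀ v ∈ W, c v = Function.update c z g v := by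
    intro v hv'
    have : v ≠ z := fun h => hz (h ▸ hv')
    simp [this]
  have hv' : Val E W (Function.update c z g) := hv.congr hagree
  have hb' : ¬ ∀ p ∈ W, ∀ q ∈ W, (z, p) ∈ E → (q, z) ∈ E →
      Function.update c z g p = Function.update c z g z →
      Function.update c z g q = Function.update c z g z →
      ¬ ReflTransGen (Mono E W (Function.update c z g)) p q := fun h => hb ⟨hv', h⟩
  push Not at hb'
  obtain ⟨p, hp, q, hq, h1, h2, h3, h4, -⟩ := hb'
  rw [← hagree p hp, Function.update_self] at h3
  rw [← hagree q hq, Function.update_self] at h4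
  exact ⟨p, mem_outN.2 ⟨hp, h1⟩, q, mem_inN.2 ⟨hq, h2⟩, h3, h4⟩

private theorem DegB_two {S : Finset V} {c : V → Bool} {a b : V}
    (ha : a ∈ S) (hb : b ∈ S) (h1 : c a = true) (h2 : c b = false) : 2 ≤ S.card := by
  have hab : a ≠ b := by
    rintro rfl
    rw [h1] at h2
    exact Bool.noConfusion h2
  have h3 : ({a, b} : Finset V).card ≤ S.card := by
    apply Finset.card_le_card
    intro x hx
    rcases Finset.mem_insert.1 hx with rfl | hx
    · exact ha
    · rw [Finset.mem_singleton.1 hx]; exact hb
  rwa [Finset.card_pair hab] at h3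

/-- ROW G2. single copy version: if every nonempty `Y' ⊆ Y` has a vertex of degree `≤ 3` in `Y' ∪ B` then a valid colouring of `B` extends. -/
theorem ext_single {E : Finset (V × V)} {B Y : Finset V} {h : V → Bool}
    (hd : Disjoint Y B) (hl : ∀ z ∈ Y, (z, z) ∉ E) (h1 : Val E B h)
    (hdeg : ∀ Y' ⊆ Y, Y'.Nonempty → ∃ z ∈ Y', deg E (Y' ∪ B) z ≤ 3) :
    ∃ c : V → Bool, (∀ b ∈ B, c b = h b) ∧ Val E (Y ∪ B) c := by
  induction Y using Finset.strongInduction with
  | H Y ih =>
    rcases Y.eq_empty_or_nonempty with rfl | hne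
    · refine ⟨h, fun _ _ => rfl, ?_⟩
      rw [Finset.empty_union]; exact h1
    obtain ⟨z, hzY, hz3⟩ := hdeg Y (Finset.Subset.refl _) hne
    have hzB : z ∉ B := Finset.disjoint_left.1 hd hzY
    obtain ⟨c, hcB, hc1⟩ := ih (Y.erase z) (Finset.erase_ssubset hzY)
      (Finset.disjoint_of_subset_left (Finset.erase_subset _ _) hd)
      (fun y hy => hl y (Finset.mem_of_mem_erase hy))
      (fun Y' hY' hne' => hdeg Y' (hY'.trans (Finset.erase_subset _ _)) hne')
    set W : Finset V := Y.erase z ∪ B with hW
    have hzW : z ∉ W := by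
      rw [hW, Finset.mem_union, not_or]
      exact ⟨Finset.notMem_erase _ _, hzB⟩
    have hins : Y ∪ B = insert z W := by
      rw [hW, ← Finset.insert_union, Finset.insert_erase hzY]
    by_contra hcon
    have hblock : ∀ g : Bool, ∃ p ∈ outN E W z, ∃ q ∈ inN E W z, c p = g ∧ c q = g := by
      intro g
      apply DegB_blocked hzW (hl z hzY) hc1
      intro hg
      apply hcon
      refine ⟨Function.update c z g, ?_, ?_⟩
      · intro b hb
        have : b ≠ z := fun h' => hzB (h' ▸ hb)
        rw [Function.update_of_ne this]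
        exact hcB b hb
      · rw [hins]; exact hg
    obtain ⟨p1, hp1, q1, hq1, hp1c, hq1c⟩ := hblock true
    obtain ⟨p2, hp2, q2, hq2, hp2c, hq2c⟩ := hblock false
    have hout : 2 ≤ (outN E W z).card := DegB_two hp1 hp2 hp1c hp2c
    have hin : 2 ≤ (inN E W z).card := DegB_two hq1 hq2 hq1c hq2c
    have hmono : deg E W z ≤ deg E (Y ∪ B) z := by
      apply deg_mono
      rw [hins]
      exact Finset.subset_insert _ _
    have hd1 : deg E W z = (inN E W z).card + (outN E W z).card := rfl
    omega

/-- ROW G2. -/
theorem Good.exists_val {E : Finset (V × V)} {W : Finset V} (hG : Good E W) : ∃ c, Val E W c := by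
  have h := ext_single (E := E) (B := ∅) (Y := W) (h := fun _ => true)
    (Finset.disjoint_empty_right W) (fun z hz => hG.1.loop hz)
    (by
      intro v hv
      exact Finset.notMem_empty _ (tg_mem_left hv))
    (by
      intro Y' hY' hne
      rw [Finset.union_empty]
      by_contra hcon
      push Not at hcon
      have h1 := hG.2 Y' hY' hne
      have h2 := sum_deg (E := E) (W := Y') (fun z hz => hG.1.loop (hY' hz))
      have h3 : ∑ z ∈ Y', (4 - (deg E Y' z : ℤ)) ≤ 0 := by
        apply Finset.sum_nonpos
        intro z hz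
        have := hcon z hz
        omega
      omega)
  obtain ⟨c, -, hc⟩ := h
  rw [Finset.union_empty] at hc
  exact ⟨c, hc⟩

end Mix
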