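import Pool.Agent.Lib.MP_784a73_co.Mix.Path
import Pool.Agent.Lib.MP_784a73_co.Mix.Count

/-! # ROW DegC: Lemma N

`c0` and `neg c0` are joined (`hC`), so `p` is flipped somewhere: otherwise `Conn.induct` with `P c := c p = c0 p` gives `neg c0 p = c0 p`.  At a flip of `p`: `c`, `flip c p` valid: one of
them has `c p = c q`, the other `c p = !c q` (`p ≠ q`). -/

namespace Mix

open Finset Relation

set_option linter.unusedSectionVars false

variable {V : Type*} [DecidableEq V]

theorem degC_flip {E : Finset (V × V)} {W : Finset V} (hC : Conn E W) {c0 : V → Bool} (h0 : Val E W c0)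
    (p : V) : ∃ c, Val E W c ∧ Val E W (flip c p) := by
  by_contra hno
  push Not at hno
  have key := hC.induct (P := fun c => c p = c0 p) h0 rfl (by
    intro c hc hcp z hz
    by_cases hzp : p = z
    · subst hzp; exact absurd hz (hno c hc)
    · show flip c z p = c0 p
      rw [flip_of_ne hzp]; exact hcp) (neg c0) h0.neg
  simp only [neg_apply] at key
  cases h : c0 p <;> simp [h] at key

/-- ROW G3. Lemma N: in a connected space (with at least one valid colouring) there are colourings with `c p = c q`. -/
theorem Conn.exists_eq {E : Finset (V × V)} {W : Finset V} (hC : Conn E W) {c0 : V → Bool} (h0 : Val E W c0)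
    {p q : V} (hpq : p ≠ q) : ∃ c, Val E W c ∧ c p = c q := by
  obtain ⟨c, h1, h2⟩ := degC_flip hC h0 p
  by_cases h : c p = c q
  · exact ⟨c, h1, h⟩
  · refine ⟨flip c p, h2, ?_⟩
    rw [flip_self, flip_of_ne hpq.symm]
    cases hp : c p <;> cases hq : c q <;> simp_all

/-- ROW G3. -/
theorem Conn.exists_ne {E : Finset (V × V)} {W : Finset V} (hC : Conn E W) {c0 : V → Bool} (h0 : Val E W c0)
    {p q : V} (hpq : p ≠ q) : ∃ c, Val E W c ∧ c p = !c q := by
  obtain ⟨c, h1, h2⟩ := degC_flip hC h0 p
  by_cases h : c p = c q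
  · refine ⟨flip c p, h2, ?_⟩
    rw [flip_self, flip_of_ne hpq.symm, h]
  · refine ⟨c, h1, ?_⟩
    cases hp : c p <;> cases hq : c q <;> simp_all

end Mix
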