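import Pool.Agent.Lib.MP_784a73_co.Mix.Path
import Pool.Agent.Lib.MP_784a73_co.Mix.Count

/-! # ROW DegD: largest minimiser

among the subsets of `M` containing `b` let `m` be the minimum of `ff E` (`{b}` has `ff = 2`), and `H0` one of maximal cardinality with `ff = m`.  For `Y ⊆ M \ H0` nonempty
`ff (Y ∪ H0) ≥ m` and `≠ m` by maximality. -/

namespace Mix

open Finset Relation

set_option linter.unusedSectionVars false

variable {V : Type*} [DecidableEq V]

/-- ROW G4. largest minimiser of `ff E` among the subsets of `M` containing `b`. (The sets with minimal value are closed under union by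
submodularity; take the one of maximal cardinality.) -/
theorem exists_max_min {E : Finset (V × V)} {M : Finset V} {b : V} (hb : b ∈ M) (hl : (b, b) ∉ E) :
    ∃ H0 ⊆ M, b ∈ H0 ∧ ff E H0 ≤ 2 ∧ (∀ Y ⊆ M, b ∈ Y → ff E H0 ≤ ff E Y) ∧
      (∀ Y ⊆ M \ H0, Y.Nonempty → ff E H0 + 1 ≤ ff E (Y ∪ H0)) := by
  classical
  set S : Finset (Finset V) := M.powerset.filter (fun Y => b ∈ Y) with hS
  have hmemS : ∀ Y, Y ∈ S ↔ Y ⊆ M ∧ b ∈ Y := by
    intro Y
    rw [hS, Finset.mem_filter, Finset.mem_powerset]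
  have hbS : ({b} : Finset V) ∈ S := by
    rw [hmemS]
    exact ⟨Finset.singleton_subset_iff.2 hb, Finset.mem_singleton_self b⟩
  obtain ⟨H1, hH1, hmin⟩ := Finset.exists_min_image S (ff E) ⟨_, hbS⟩
  set S' : Finset (Finset V) := S.filter (fun Y => ff E Y = ff E H1) with hS'
  have hH1' : H1 ∈ S' := by
    rw [hS', Finset.mem_filter]
    exact ⟨hH1, rfl⟩
  obtain ⟨H0, hH0, hmax⟩ := Finset.exists_max_image S' Finset.card ⟨_, hH1'⟩
  rw [hS', Finset.mem_filter] at hH0
  obtain ⟨hH0S, hH0e⟩ := hH0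
  have hH0S' := (hmemS H0).1 hH0S
  refine ⟨H0, hH0S'.1, hH0S'.2, ?_, ?_, ?_⟩
  · rw [hH0e]
    have := hmin _ hbS
    rw [ff_singleton hl] at this
    exact this
  · intro Y hY hbY
    rw [hH0e]
    exact hmin Y ((hmemS Y).2 ⟨hY, hbY⟩)
  · intro Y hY hYn
    have hsub : Y ∪ H0 ⊆ M := Finset.union_subset (hY.trans Finset.sdiff_subset) hH0S'.1
    have hmemU : Y ∪ H0 ∈ S := (hmemS _).2 ⟨hsub, Finset.mem_union_right _ hH0S'.2⟩
    have h1 := hmin _ hmemU
    have h2 : ff E (Y ∪ H0) ≠ ff E H1 := by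
      intro h
      have h3 : Y ∪ H0 ∈ S' := by
        rw [hS', Finset.mem_filter]
        exact ⟨hmemU, h⟩
      have h4 := hmax _ h3
      obtain ⟨y, hy⟩ := hYn
      have hyH : y ∉ H0 := (Finset.mem_sdiff.1 (hY hy)).2
      have h5 : H0 ⊂ Y ∪ H0 := by
        refine ⟨Finset.subset_union_right, fun hh => hyH (hh (Finset.mem_union_left _ hy))⟩
      have := Finset.card_lt_card h5
      omega
    rw [hH0e]
    omega

end Mix
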