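import Pool.Agent.Lib.MP_784a73_co.Mix.DegB

/-! # ROW DegE: Lemma E -/

namespace Mix

open Finset Relation

set_option linter.unusedSectionVars false

variable {V : Type*} [DecidableEq V]

/-- two disjoint parts without arcs between them -/
theorem val_union_of_no_arcs {E : Finset (V × V)} {A B : Finset V} {c : V → Bool}
    (hab : ∀ p ∈ A, ∀ q ∈ B, (p, q) ∉ E ∧ (q, p) ∉ E) (hA : Val E A c) (hB : Val E B c) :
    Val E (A ∪ B) c := by
  -- a mono path starting in `A` stays in `A`
  have key : ∀ (S T : Finset V), (∀ p ∈ S, ∀ q ∈ T, (p, q) ∉ E) → ∀ p ∈ S, ∀ q,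
      TransGen (Mono E (S ∪ T) c) p q → q ∈ S ∧ TransGen (Mono E S c) p q := by
    intro S T hST p hp q h
    induction h with
    | @single b h1 =>
      have hb : b ∈ S := by
        rcases Finset.mem_union.1 h1.2.2.1 with h2 | h2
        · exact h2
        · exact absurd h1.1 (hST p hp b h2)
      exact ⟨hb, TransGen.single ⟨h1.1, hp, hb, h1.2.2.2⟩⟩
    | @tail b d _ h1 ih =>
      have hd : d ∈ S := by
        rcases Finset.mem_union.1 h1.2.2.1 with h2 | h2
        · exact h2
        · exact absurd h1.1 (hST b ih.1 d h2)
      exact ⟨hd, ih.2.tail ⟨h1.1, ih.1, hd, h1.2.2.2⟩⟩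
  intro v hv
  rcases Finset.mem_union.1 (tg_mem_left hv) with h1 | h1
  · exact hA v (key A B (fun p hp q hq => (hab p hp q hq).1) v h1 v hv).2
  · rw [Finset.union_comm] at hv
    exact hB v (key B A (fun p hp q hq => (hab q hq p hp).2) v h1 v hv).2

theorem lemE_aux {E : Finset (V × V)} {W H0 : Finset V} (hO : Ori E W)
    (hg : ∀ Y ⊆ W \ H0, Y.Nonempty → ff E H0 + 1 ≤ ff E (Y ∪ H0))
    {h : V → Bool} (hh : Val E H0 h) {x : V} (hx : x ∈ W \ H0) (a : Bool) :
    ∀ (n : ℕ) (Y : Finset V), Y.card = n → Y ⊆ (W \ H0).erase x →
    ∃ c, Val E (Y ∪ insert x H0) c ∧ (∀ p ∈ H0, c p = h p) ∧ c x = a := by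
  have hxW : x ∈ W := (Finset.mem_sdiff.1 hx).1
  have hxH : x ∉ H0 := (Finset.mem_sdiff.1 hx).2
  have hxl : (x, x) ∉ E := hO.loop hxW
  have hffx : ff E (insert x H0) = ff E H0 + 2 - (deg E H0 x : ℤ) := ff_insert hxH hxl
  intro n
  induction n with
  | zero =>
    intro Y hY _
    rw [Finset.card_eq_zero] at hY
    subst hY
    rw [Finset.empty_union]
    refine ⟨fun v => if v = x then a else h v, ?_, ?_, by simp⟩
    · have h1 : ff E H0 + 1 ≤ ff E ({x} ∪ H0) :=
        hg {x} (Finset.singleton_subset_iff.2 hx) (Finset.singleton_nonempty x)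
      have h2 : ({x} ∪ H0 : Finset V) = insert x H0 := by
        rw [Finset.insert_eq]
      rw [h2, hffx] at h1
      have h3 : deg E H0 x ≤ 1 := by omega
      have hdead : ∀ v ∈ ({x} : Finset V), Dead E (insert x H0) (fun v => if v = x then a else h v) v := by
        intro v hv
        rw [Finset.mem_singleton] at hv
        subst hv
        by_cases h4 : (inN E H0 v).card = 0
        · left
          intro p hp hpE
          exfalso
          rw [Finset.card_eq_zero] at h4
          rcases Finset.mem_insert.1 hp with h5 | h5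
          · subst h5; exact hxl hpE
          · have : p ∈ inN E H0 v := mem_inN.2 ⟨h5, hpE⟩
            rw [h4] at this
            exact absurd this (Finset.notMem_empty _)
        · right
          intro q hq hqE
          exfalso
          have h6 : (outN E H0 v).card = 0 := by
            unfold deg at h3
            omega
          rw [Finset.card_eq_zero] at h6
          rcases Finset.mem_insert.1 hq with h5 | h5
          · subst h5; exact hxl hqE
          · have : q ∈ outN E H0 v := mem_outN.2 ⟨h5, hqE⟩
            rw [h6] at this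
            exact absurd this (Finset.notMem_empty _)
      rw [val_dead hdead]
      have h7 : (insert x H0 \ {x} : Finset V) = H0 := by
        ext v
        simp only [Finset.mem_sdiff, Finset.mem_insert, Finset.mem_singleton]
        constructor
        · rintro ⟨h8 | h8, h9⟩
          · exact absurd h8 h9
          · exact h8
        · intro h8
          exact ⟨Or.inr h8, fun h9 => hxH (h9 ▸ h8)⟩
      rw [h7]
      refine hh.congr (fun v hv => ?_)
      have : v ≠ x := fun h9 => hxH (h9 ▸ hv)
      simp [this]
    · intro p hp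
      have : p ≠ x := fun h9 => hxH (h9 ▸ hp)
      simp [this]
  | succ n ih =>
    intro Y hYn hY
    have hYW : Y ⊆ W \ H0 := hY.trans (Finset.erase_subset _ _)
    have hYne : Y.Nonempty := by
      rw [← Finset.card_pos]; omega
    have hxY : x ∉ Y := fun h1 => (Finset.mem_erase.1 (hY h1)).1 rfl
    have hdYH : Disjoint Y H0 := by
      rw [Finset.disjoint_left]
      intro v hv
      exact (Finset.mem_sdiff.1 (hYW hv)).2
    have hdYB : Disjoint Y (insert x H0) := by
      rw [Finset.disjoint_left]
      intro v hv hv2
      rcases Finset.mem_insert.1 hv2 with h1 | h1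
      · exact hxY (h1 ▸ hv)
      · exact (Finset.mem_sdiff.1 (hYW hv)).2 h1
    have hlY : ∀ z ∈ Y, (z, z) ∉ E := fun z hz => hO.loop (Finset.mem_sdiff.1 (hYW hz)).1
    by_cases hz : ∃ z ∈ Y, deg E (Y ∪ insert x H0) z ≤ 3
    · obtain ⟨z, hzY, hzd⟩ := hz
      obtain ⟨c, hc1, hc2, hc3⟩ := ih (Y.erase z) (by rw [Finset.card_erase_of_mem hzY]; omega)
        ((Finset.erase_subset _ _).trans hY)
      have hzB : z ∉ Y.erase z ∪ insert x H0 := by
        intro h1
        rcases Finset.mem_union.1 h1 with h2 | h2
        · exact Finset.notMem_erase _ _ h2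
        · exact (Finset.disjoint_left.1 hdYB) hzY h2
      have hU : ({z} ∪ (Y.erase z ∪ insert x H0) : Finset V) = Y ∪ insert x H0 := by
        rw [← Finset.union_assoc, ← Finset.insert_eq, Finset.insert_erase hzY]
      obtain ⟨c', h1, h2⟩ := ext_single (E := E) (B := Y.erase z ∪ insert x H0) (Y := {z}) (h := c)
        (Finset.disjoint_singleton_left.2 hzB)
        (by intro v hv; rw [Finset.mem_singleton] at hv; subst hv; exact hlY v hzY) hc1
        (by
          intro Y' hY' hne
          obtain ⟨v, hv⟩ := hne
          have hvz : v = z := Finset.mem_singleton.1 (hY' hv)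
          subst hvz
          refine ⟨v, hv, ?_⟩
          have : Y' = {v} := by
            apply Finset.Subset.antisymm hY'
            intro w hw
            rw [Finset.mem_singleton] at hw
            exact hw ▸ hv
          rw [this, hU]
          exact hzd)
      rw [hU] at h2
      refine ⟨c', h2, ?_, ?_⟩
      · intro p hp
        rw [h1 p (Finset.mem_union_right _ (Finset.mem_insert_of_mem hp))]
        exact hc2 p hp
      · rw [h1 x (Finset.mem_union_right _ (Finset.mem_insert_self _ _))]
        exact hc3
    · push Not at hz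
      -- the sum of the slacks is not positive
      have hsum : ∑ z ∈ Y, (4 - (deg E (Y ∪ insert x H0) z : ℤ)) ≤ 0 := by
        apply Finset.sum_nonpos
        intro z hzY
        have := hz z hzY
        omega
      rw [sum_deg_pin hdYB hlY] at hsum
      have hU2 : Y ∪ insert x H0 = insert x Y ∪ H0 := by
        ext v; simp only [Finset.mem_union, Finset.mem_insert]; tauto
      rw [hU2, hffx] at hsum
      have hg1 : ff E H0 + 1 ≤ ff E (Y ∪ H0) := hg Y hYW hYne
      have hg2 : ff E H0 + 1 ≤ ff E (insert x Y ∪ H0) :=
        hg _ (Finset.insert_subset hx hYW) (Finset.insert_nonempty _ _)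
      have hsub : ff E (Y ∪ H0) ≤ ff E Y + ff E H0 := ff_union_le hdYH
      have hdx : deg E H0 x = 0 := by omega
      have hfY : ff E Y + ff E H0 ≤ ff E (Y ∪ H0) := by omega
      have hdz : ∀ z ∈ Y, deg E H0 z = 0 := by
        intro z hzY
        have hzH : z ∉ H0 := (Finset.mem_sdiff.1 (hYW hzY)).2
        have h1 := ff_union_inter E Y (insert z H0)
        have h2 : Y ∪ insert z H0 = Y ∪ H0 := by
          ext v; simp only [Finset.mem_union, Finset.mem_insert]
          constructor
          · rintro (h3 | h3 | h3)
            · exact Or.inl h3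
            · exact Or.inl (h3 ▸ hzY)
            · exact Or.inr h3
          · rintro (h3 | h3)
            · exact Or.inl h3
            · exact Or.inr (Or.inr h3)
        have h3 : Y ∩ insert z H0 = {z} := by
          ext v; simp only [Finset.mem_inter, Finset.mem_insert, Finset.mem_singleton]
          constructor
          · rintro ⟨h4, h5 | h5⟩
            · exact h5
            · exact absurd h5 (Finset.mem_sdiff.1 (hYW h4)).2
          · intro h4; subst h4; exact ⟨hzY, Or.inl rfl⟩
        rw [h2, h3, ff_singleton (hlY z hzY), ff_insert hzH (hlY z hzY)] at h1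
        omega
      -- no arcs between `insert x Y` and `H0`
      have hdT : ∀ z ∈ insert x Y, deg E H0 z = 0 := by
        intro z hz
        rcases Finset.mem_insert.1 hz with h1 | h1
        · rw [h1]; exact hdx
        · exact hdz z h1
      have hno : ∀ p ∈ insert x Y, ∀ q ∈ H0, (p, q) ∉ E ∧ (q, p) ∉ E := by
        intro p hp q hq
        have h1 := hdT p hp
        unfold deg at h1
        have h2 : (inN E H0 p) = ∅ := Finset.card_eq_zero.1 (by omega)
        have h3 : (outN E H0 p) = ∅ := Finset.card_eq_zero.1 (by omega)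
        constructor
        · intro h4
          have : q ∈ outN E H0 p := mem_outN.2 ⟨hq, h4⟩
          rw [h3] at this
          exact absurd this (Finset.notMem_empty _)
        · intro h4
          have : q ∈ inN E H0 p := mem_inN.2 ⟨hq, h4⟩
          rw [h2] at this
          exact absurd this (Finset.notMem_empty _)
      have hTW : insert x Y ⊆ W \ H0 := Finset.insert_subset hx hYW
      have hGood : Good E (insert x Y) := by
        refine ⟨hO.sub (hTW.trans Finset.sdiff_subset), ?_⟩
        intro H hH' hne
        have h1 : ff E H0 + 1 ≤ ff E (H ∪ H0) := hg H (hH'.trans hTW) hne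
        have h2 : ff E (H ∪ H0) ≤ ff E H + ff E H0 := by
          apply ff_union_le
          rw [Finset.disjoint_left]
          intro v hv
          exact (Finset.mem_sdiff.1 (hTW (hH' hv))).2
        omega
      obtain ⟨c0, hc0⟩ : ∃ c0, Val E (insert x Y) c0 ∧ c0 x = a := by
        obtain ⟨c1, hc1⟩ := hGood.exists_val
        by_cases h1 : c1 x = a
        · exact ⟨c1, hc1, h1⟩
        · refine ⟨neg c1, hc1.neg, ?_⟩
          rw [neg_apply]
          revert h1
          cases c1 x <;> cases a <;> simp
      refine ⟨fun v => if v ∈ H0 then h v else c0 v, ?_, ?_, ?_⟩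
      · rw [hU2]
        refine val_union_of_no_arcs hno ?_ ?_
        · refine hc0.1.congr (fun v hv => ?_)
          have : v ∉ H0 := (Finset.mem_sdiff.1 (hTW hv)).2
          simp [this]
        · refine hh.congr (fun v hv => ?_)
          simp [hv]
      · intro p hp
        simp [hp]
      · simp [hxH, hc0.2]

/-- ROW G5 (Lemma E of the paper). In a system `(W, H0, h)` with slack at least one outside `H0` every vertex outside takes both colours.

Proof: see section 1.3 of mp784a73_proof.md. More generally for `Y ⊆ W \ H0 \ {x}` there is a colouring of `H0 ∪ {x} ∪ Y`, induction on `Y`. -/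
theorem lemE {E : Finset (V × V)} {W H0 : Finset V} (hH : H0 ⊆ W) (hO : Ori E W)
    (hg : ∀ Y ⊆ W \ H0, Y.Nonempty → ff E H0 + 1 ≤ ff E (Y ∪ H0))
    {h : V → Bool} (hh : Val E H0 h) {x : V} (hx : x ∈ W \ H0) (a : Bool) :
    ∃ c, Val E W c ∧ (∀ p ∈ H0, c p = h p) ∧ c x = a := by
  obtain ⟨c, h1, h2, h3⟩ := lemE_aux hO hg hh hx a _ ((W \ H0).erase x) rfl (Finset.Subset.refl _)
  refine ⟨c, ?_, h2, h3⟩
  have hU : (W \ H0).erase x ∪ insert x H0 = W := by
    ext v
    simp only [Finset.mem_union, Finset.mem_erase, Finset.mem_sdiff, Finset.mem_insert]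
    constructor
    · rintro (h4 | h4 | h4)
      · exact h4.2.1
      · rw [h4]; exact (Finset.mem_sdiff.1 hx).1
      · exact hH h4
    · intro h4
      by_cases h5 : v ∈ H0
      · exact Or.inr (Or.inr h5)
      · by_cases h6 : v = x
        · exact Or.inr (Or.inl h6)
        · exact Or.inl ⟨h6, h4, h5⟩
  rwa [hU] at h1

end Mix
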