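import Pool.Agent.Lib.MP_784a73_co.Mix.DegA

/-! # ROW DegF: common extensions (uses `ext_double`)

`ext_flip` (1.5 (a)): `B = H0`, `Y = W \ H0`, `E1 = E2 = E`.  For nonempty `Y' ⊆ Y`: `∑_{z ∈ Y'} (4 - deg (Y' ∪ H0) z - deg {z0} z) = 2 g(Y') + e(Y', H0) - e(Y', z0) ≥ 2` where
`g(Y') = ff (Y' ∪ H0) - ff H0 ≥ 1` (`sum_deg_pin`: `∑ (4 - deg (Y' ∪ H0) z) = ff Y' + ff (Y' ∪ H0) - ff H0` and `ff Y' = g(Y') + e(Y', H0)`); so some `z` has
`deg (Y' ∪ H0) z + deg {z0} z ≤ 3`.
`ext_flip_pin` (1.5 (b)): `B = insert w H0`, `Y = W \ H0 \ {w}`, `h := Function.update h w om`, `z0 := b`, `E1 = E`, `E2 = E ∪ A'` (first check `Val E (insert w H0)` for it: `w` has only one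
neighbour in `H0`).  For nonempty `Y' ⊆ Y`: `sum_deg_pin` with `P = B` and `ff B = ff H0 + 1` (`ff_insert`, `hwb`):
`∑_{z ∈ Y'} (4 - deg (Y' ∪ B) z) = ff Y' + ff (Y' ∪ B) - ff H0 - 1 ≥ ff Y'` (by `hg` for `Y' ∪ {w}`), and `ff Y' = g(Y') + e(Y', H0) ≥ 1 + e(Y', b)`, so
`∑ (4 - deg (Y' ∪ B) z - deg {b} z) ≥ 1`. -/

namespace Mix

open Finset Relation

set_option linter.unusedSectionVars false

variable {V : Type*} [DecidableEq V]

private theorem DegF_deg_union {E : Finset (V × V)} {A B : Finset V} (hd : Disjoint A B) (z : V) :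
    deg E (A ∪ B) z = deg E A z + deg E B z := by
  have h1 : inN E (A ∪ B) z = inN E A z ∪ inN E B z := by
    rw [inN, Finset.filter_union]; rfl
  have h2 : outN E (A ∪ B) z = outN E A z ∪ outN E B z := by
    rw [outN, Finset.filter_union]; rfl
  have d1 : Disjoint (inN E A z) (inN E B z) := Finset.disjoint_filter_filter hd
  have d2 : Disjoint (outN E A z) (outN E B z) := Finset.disjoint_filter_filter hd
  rw [deg, deg, deg, h1, h2, Finset.card_union_of_disjoint d1, Finset.card_union_of_disjoint d2]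
  ring

/-- the number of arcs between `Y` and `P` -/
private theorem DegF_sum {E : Finset (V × V)} {Y P : Finset V} (hd : Disjoint Y P) (hl : ∀ z ∈ Y, (z, z) ∉ E) :
    ff E Y = ff E (Y ∪ P) - ff E P + ∑ z ∈ Y, (deg E P z : ℤ) := by
  have h1 := sum_deg_pin hd hl
  have h2 := sum_deg hl
  have h3 : ∑ z ∈ Y, (4 - (deg E (Y ∪ P) z : ℤ)) =
      ∑ z ∈ Y, (4 - (deg E Y z : ℤ)) - ∑ z ∈ Y, (deg E P z : ℤ) := by
    rw [← Finset.sum_sub_distrib]
    refine Finset.sum_congr rfl fun z _ => ?_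
    rw [DegF_deg_union hd z]
    push_cast
    ring
  rw [h1, h2] at h3
  linarith

/-- the degree condition -/
private theorem DegF_deg {E : Finset (V × V)} {Y B H0 : Finset V} {z0 : V} (hYB : Disjoint Y B) (hHB : H0 ⊆ B)
    (hl : ∀ z ∈ Y, (z, z) ∉ E) (hz0 : z0 ∈ H0) (h1 : ff E H0 + 1 ≤ ff E (Y ∪ H0))
    (h2 : ff E B ≤ ff E (Y ∪ B)) :
    ∃ z ∈ Y, deg E (Y ∪ B) z + deg E {z0} z ≤ 3 := by
  by_contra hcon
  push Not at hcon
  have hYH : Disjoint Y H0 := Finset.disjoint_of_subset_right hHB hYB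
  have e1 := sum_deg_pin hYB hl
  have e2 := DegF_sum hYH hl
  have e3 : ∑ z ∈ Y, (deg E {z0} z : ℤ) ≤ ∑ z ∈ Y, (deg E H0 z : ℤ) := by
    refine Finset.sum_le_sum fun z _ => ?_
    exact_mod_cast deg_mono (Finset.singleton_subset_iff.2 hz0) z
  have e4 : ∑ z ∈ Y, (4 - (deg E (Y ∪ B) z : ℤ)) ≤ ∑ z ∈ Y, (deg E {z0} z : ℤ) := by
    refine Finset.sum_le_sum fun z hz => ?_
    have := hcon z hz
    omega
  linarith

/-- ROW G6 (1.5 (a)). common extension of two colourings of `H0` differing at `z0`. -/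
theorem ext_flip {E : Finset (V × V)} {W H0 : Finset V} (hH : H0 ⊆ W) (hO : Ori E W)
    (hg : ∀ Y ⊆ W \ H0, Y.Nonempty → ff E H0 + 1 ≤ ff E (Y ∪ H0))
    {h : V → Bool} {z0 : V} (hz0 : z0 ∈ H0) (hh : Val E H0 h) (hh' : Val E H0 (flip h z0)) :
    ∃ c, (∀ p ∈ H0, c p = h p) ∧ Val E W c ∧ Val E W (flip c z0) := by
  have hW : W \ H0 ∪ H0 = W := Finset.sdiff_union_of_subset hH
  have hl : ∀ z ∈ W \ H0, (z, z) ∉ E := fun z hz => hO.loop (Finset.mem_sdiff.1 hz).1
  obtain ⟨c, h1, h2, h3⟩ := ext_double (E := E) (E1 := E) (E2 := E) (B := H0) (Y := W \ H0) (h := h) (z0 := z0)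
    Finset.sdiff_disjoint hz0 hl (fun _ _ _ h => h) (fun _ _ _ h => h) hh hh' (fun Y' hY' hne => by
      have hd : Disjoint Y' H0 := Finset.disjoint_of_subset_left hY' Finset.sdiff_disjoint
      have := hg Y' hY' hne
      exact DegF_deg hd (Finset.Subset.refl _) (fun z hz => hl z (hY' hz)) hz0 this (by linarith))
  rw [hW] at h2 h3
  exact ⟨c, h1, h2, h3⟩

/-- ROW G6 (1.5 (b)). common extension of two colourings of `H0` differing at `b`, with a prescribed colour `om` at a vertex `w ∉ H0` which has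
exactly one neighbour in `H0`. In the second copy additional arcs `A'` inside `H0 ∪ {w}` are allowed provided the colouring
`flip h b`, `w ↦ om` is valid for `E ∪ A'` on `insert w H0`. -/
theorem ext_flip_pin {E A' : Finset (V × V)} {W H0 : Finset V} (hH : H0 ⊆ W) (hO : Ori E W)
    (hg : ∀ Y ⊆ W \ H0, Y.Nonempty → ff E H0 + 1 ≤ ff E (Y ∪ H0))
    {h : V → Bool} {b w : V} {om : Bool} (hb : b ∈ H0) (hw : w ∈ W \ H0) (hwb : deg E H0 w = 1)
    (hA' : ∀ a ∈ A', a.1 ∈ insert w H0 ∧ a.2 ∈ insert w H0)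
    (hh : Val E H0 h) (hh' : Val (E ∪ A') (insert w H0) (Function.update (flip h b) w om)) :
    ∃ c, (∀ p ∈ H0, c p = h p) ∧ c w = om ∧ Val E W c ∧ Val (E ∪ A') W (flip c b) := by
  obtain ⟨hwW, hwH⟩ := Finset.mem_sdiff.1 hw
  have hbw : b ≠ w := fun h => hwH (h ▸ hb)
  have hBW : insert w H0 ⊆ W := Finset.insert_subset hwW hH
  have hW : W \ insert w H0 ∪ insert w H0 = W := Finset.sdiff_union_of_subset hBW
  have hl : ∀ z ∈ W \ insert w H0, (z, z) ∉ E := fun z hz => hO.loop (Finset.mem_sdiff.1 hz).1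
  have hlw : (w, w) ∉ E := hO.loop hwW
  have hB : ff E (insert w H0) = ff E H0 + 1 := by
    rw [ff_insert hwH hlw, hwb]
    push_cast
    ring
  have hcongr : ∀ v ∈ H0, h v = Function.update h w om v := fun v hv => by
    have hvw : v ≠ w := fun hvw => hwH (hvw ▸ hv)
    rw [Function.update_of_ne hvw]
  have hflip : flip (Function.update h w om) b = Function.update (flip h b) w om := by
    funext v
    by_cases hvw : v = w
    · subst hvw
      rw [flip_of_ne hbw.symm, Function.update_self, Function.update_self]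
    · rw [Function.update_of_ne hvw]
      by_cases hvb : v = b
      · subst hvb
        rw [flip_self, flip_self, Function.update_of_ne hvw]
      · rw [flip_of_ne hvb, flip_of_ne hvb, Function.update_of_ne hvw]
  have h1 : Val E (insert w H0) (Function.update h w om) := by
    refine (val_insert hwH hlw).2 ⟨hh.congr hcongr, fun p hp q hq hwp hqw _ _ _ => ?_⟩
    have c1 : 1 ≤ (outN E H0 w).card := Finset.card_pos.2 ⟨p, mem_outN.2 ⟨hp, hwp⟩⟩
    have c2 : 1 ≤ (inN E H0 w).card := Finset.card_pos.2 ⟨q, mem_inN.2 ⟨hq, hqw⟩⟩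
    rw [deg] at hwb
    omega
  obtain ⟨c, g1, g2, g3⟩ := ext_double (E := E) (E1 := E) (E2 := E ∪ A') (B := insert w H0) (Y := W \ insert w H0)
    (h := Function.update h w om) (z0 := b) Finset.sdiff_disjoint (Finset.mem_insert_of_mem hb) hl
    (fun _ _ _ h => h) (fun p q hpq hm => by
      rcases Finset.mem_union.1 hm with h | h
      · exact h
      · obtain ⟨a1, a2⟩ := hA' _ h
        rcases hpq with hpq | hpq
        · exact absurd a1 hpq
        · exact absurd a2 hpq) h1 (by rw [hflip]; exact hh') (fun Y' hY' hne => by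
      have hd : Disjoint Y' (insert w H0) := Finset.disjoint_of_subset_left hY' Finset.sdiff_disjoint
      have hY'' : Y' ⊆ W \ H0 := hY'.trans (Finset.sdiff_subset_sdiff (Finset.Subset.refl _) (Finset.subset_insert _ _))
      have k1 := hg Y' hY'' hne
      have k2 := hg (insert w Y') (Finset.insert_subset hw hY'') (Finset.insert_nonempty _ _)
      have k3 : insert w Y' ∪ H0 = Y' ∪ insert w H0 := by
        rw [Finset.insert_union, Finset.union_insert]
      rw [k3] at k2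
      exact DegF_deg hd (Finset.subset_insert _ _) (fun z hz => hl z (hY' hz)) hb k1 (by rw [hB]; exact k2))
  rw [hW] at g2 g3
  refine ⟨c, fun p hp => ?_, ?_, g2, g3⟩
  · rw [g1 p (Finset.mem_insert_of_mem hp), ← hcongr p hp]
  · rw [g1 w (Finset.mem_insert_self _ _), Function.update_self]

end Mix
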