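import Pool.Agent.Lib.MP_784a73_co.Mix.DegA
import Pool.Agent.Lib.MP_784a73_co.Mix.DegB
import Pool.Agent.Lib.MP_784a73_co.Mix.DegC
import Pool.Agent.Lib.MP_784a73_co.Mix.DegD
import Pool.Agent.Lib.MP_784a73_co.Mix.DegE
import Pool.Agent.Lib.MP_784a73_co.Mix.DegF
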