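import Pool.Agent.Lib.MP_784a73_co.Mix.Degen
import Pool.Agent.Lib.MP_784a73_co.LB7
import Pool.Agent.Lib.MP_784a73_co.Full

/-! # The two linear algebra theorems (helper32): bridge from `Pool.Agent.Lib.MP_784a73_co.LB7` -/

namespace Mix

open Finset Relation

set_option linter.unusedSectionVars false

variable {V : Type*} [DecidableEq V] [Fintype V]

theorem la_mono_arcs {E : Finset (V × V)} {W Z : Finset V} (hZ : Z ⊆ W) {c : V → Bool} :
    Pool.Agent.MP_784a73_co.mono (Pool.Agent.MP_784a73_co.arcs E W) Z c = Mono E Z c := by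
  funext a b
  apply propext
  constructor
  · rintro ⟨h1, h2, h3, h4⟩
    exact ⟨(Finset.mem_filter.1 h1).1, h2, h3, h4⟩
  · rintro ⟨h1, h2, h3, h4⟩
    exact ⟨Finset.mem_filter.2 ⟨h1, hZ h2, hZ h3⟩, h2, h3, h4⟩

theorem la_val {E : Finset (V × V)} {W Z : Finset V} (hZ : Z ⊆ W) {c : V → Bool} :
    Pool.Agent.MP_784a73_co.Val (Pool.Agent.MP_784a73_co.arcs E W) Z c ↔ Val E Z c := by
  unfold Pool.Agent.MP_784a73_co.Val Val
  rw [la_mono_arcs hZ]

theorem la_eN {E : Finset (V × V)} {W Z : Finset V} (hZ : Z ⊆ W) :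
    Pool.Agent.MP_784a73_co.eN (Pool.Agent.MP_784a73_co.arcs E W) Z = ecard E Z := by
  unfold Pool.Agent.MP_784a73_co.eN Pool.Agent.MP_784a73_co.arcs ecard
  congr 1
  ext e
  simp only [Finset.mem_filter]
  constructor
  · rintro ⟨⟨h1, _⟩, h2⟩
    exact ⟨h1, h2⟩
  · rintro ⟨h1, h2⟩
    exact ⟨⟨h1, hZ h2.1, hZ h2.2⟩, h2⟩

theorem la_ori {E : Finset (V × V)} {W : Finset V} (hO : Ori E W) :
    Pool.Agent.MP_784a73_co.Ori (Pool.Agent.MP_784a73_co.arcs E W) := by
  intro a b hab hba
  have h1 := Finset.mem_filter.1 hab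
  have h2 := Finset.mem_filter.1 hba
  exact hO a h1.2.1 b h1.2.2 h1.1 h2.1

theorem la_mix_of_conn {E : Finset (V × V)} {W Z : Finset V} (hZ : Z ⊆ W) (h : Conn E Z) :
    Pool.Agent.MP_784a73_co.Mix (Pool.Agent.MP_784a73_co.arcs E W) Z ∅ := by
  intro c c' hc hc'
  have h1 := h c c' ((la_val hZ).1 hc.1) ((la_val hZ).1 hc'.1)
  have key : ∀ d, Reach E Z c d → Pool.Agent.MP_784a73_co.Reach (Pool.Agent.MP_784a73_co.arcs E W) Z ∅ c d := by
    intro d hd
    induction hd with
    | refl => exact ReflTransGen.refl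
    | tail _ hs ih =>
      obtain ⟨h2, h3, z, rfl⟩ := hs
      refine ih.tail ⟨⟨(la_val hZ).2 h2, by simp⟩, ⟨(la_val hZ).2 h3, by simp⟩, z, fun w _ hw => ?_⟩
      simp [hw]
  exact key c' h1

theorem la_reach_of_step {E : Finset (V × V)} {W Z : Finset V} (hZ : Z ⊆ W) {Q : Finset V} {d d' : V → Bool}
    (hs : Pool.Agent.MP_784a73_co.Step (Pool.Agent.MP_784a73_co.arcs E W) Z Q d d') : Reach E Z d d' := by
  obtain ⟨h1, h2, v, hv⟩ := hs
  have hd : Val E Z d := (la_val hZ).1 h1.1
  have hd' : Val E Z d' := (la_val hZ).1 h2.1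
  by_cases hvv : d v = d' v
  · refine reach_of_agree hd fun w hw => ?_
    by_cases hwv : w = v
    · rw [hwv, hvv]
    · exact hv w hw hwv
  · have hag : ∀ w ∈ Z, flip d v w = d' w := by
      intro w hw
      by_cases hwv : w = v
      · subst hwv
        rw [flip_self]
        cases h3 : d w <;> cases h4 : d' w <;> simp_all
      · rw [flip_of_ne hwv]
        exact hv w hw hwv
    have hf : Val E Z (flip d v) := hd'.congr fun w hw => (hag w hw).symm
    exact (Reach.flip hd hf).trans (reach_of_agree hf hag)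

theorem la_conn_of_mix {E : Finset (V × V)} {W Z : Finset V} (hZ : Z ⊆ W)
    (h : Pool.Agent.MP_784a73_co.Mix (Pool.Agent.MP_784a73_co.arcs E W) Z ∅) : Conn E Z := by
  intro c c' hc hc'
  have h1 := h c c' ⟨(la_val hZ).2 hc, by simp⟩ ⟨(la_val hZ).2 hc', by simp⟩
  have key : ∀ d, Pool.Agent.MP_784a73_co.Reach (Pool.Agent.MP_784a73_co.arcs E W) Z ∅ c d → Reach E Z c d := by
    intro d hd
    induction hd with
    | refl => exact ReflTransGen.refl
    | tail _ hs ih => exact ih.trans (la_reach_of_step hZ hs)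
  exact key c' h1

/-- colourings which agree on `W` are joined without touching `H ⊆ W` -/
theorem la_reachOff_of_agree {E : Finset (V × V)} {W H : Finset V} (hH : H ⊆ W) {c c' : V → Bool} (hc : Val E W c)
    (h : ∀ v ∈ W, c v = c' v) : ReachOff E W H c c' := by
  classical
  have key : ∀ (n : ℕ) (c : V → Bool), Val E W c → (∀ v ∈ W, c v = c' v) →
      (Finset.univ.filter (fun v => c v ≠ c' v)).card = n → ReachOff E W H c c' := by
    intro n
    induction n with
    | zero =>
      intro c _ _ hn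
      have : c = c' := by
        funext v
        by_contra hv
        have : v ∈ Finset.univ.filter (fun v => c v ≠ c' v) := by simp [hv]
        rw [Finset.card_eq_zero.1 hn] at this
        simp at this
      subst this
      exact ReflTransGen.refl
    | succ n ih =>
      intro c hc hagree hn
      obtain ⟨z, hz⟩ : (Finset.univ.filter (fun v => c v ≠ c' v)).Nonempty := by
        rw [← Finset.card_pos]; omega
      have hz' : c z ≠ c' z := by simpa using hz
      have hzW : z ∉ W := fun hzW => hz' (hagree z hzW)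
      have hag2 : ∀ v ∈ W, c v = flip c z v := by
        intro v hv
        have : v ≠ z := fun h => hzW (h ▸ hv)
        simp [this]
      have hv2 : Val E W (flip c z) := hc.congr hag2
      refine ReflTransGen.head ⟨hc, hv2, z, fun hzH => hzW (hH hzH), rfl⟩
        (ih _ hv2 (fun v hv => by rw [← hag2 v hv]; exact hagree v hv) ?_)
      have : Finset.univ.filter (fun v => flip c z v ≠ c' v)
          = (Finset.univ.filter (fun v => c v ≠ c' v)).erase z := by
        ext v
        by_cases hvz : v = z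
        · subst hvz
          have h1 : (!c v) = c' v := by
            cases h1 : c v <;> cases h2 : c' v <;> simp_all
          simp [h1]
        · simp [hvz]
      rw [this, Finset.card_erase_of_mem hz]; omega
  exact key _ c hc h rfl

theorem la_reachOff_of_step {E : Finset (V × V)} {W H : Finset V} (hH : H ⊆ W) {h d d' : V → Bool}
    (hs : Pool.Agent.MP_784a73_co.StepP (Pool.Agent.MP_784a73_co.arcs E W) W H h d d') : ReachOff E W H d d' := by
  obtain ⟨h1, h2, v, hv⟩ := hs
  have hW : W ⊆ W := Finset.Subset.refl W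
  have hd : Val E W d := (la_val hW).1 h1.1
  have hd' : Val E W d' := (la_val hW).1 h2.1
  by_cases hvv : d v = d' v
  · refine la_reachOff_of_agree hH hd fun w hw => ?_
    by_cases hwv : w = v
    · rw [hwv, hvv]
    · exact hv w hw hwv
  · have hag : ∀ w ∈ W, flip d v w = d' w := by
      intro w hw
      by_cases hwv : w = v
      · subst hwv
        rw [flip_self]
        cases h3 : d w <;> cases h4 : d' w <;> simp_all
      · rw [flip_of_ne hwv]
        exact hv w hw hwv
    have hf : Val E W (flip d v) := hd'.congr fun w hw => (hag w hw).symm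
    have hvH : v ∉ H := fun hvH => hvv (by rw [h1.2 v hvH (hH hvH), h2.2 v hvH (hH hvH)])
    exact ReflTransGen.head ⟨hd, hf, v, hvH, rfl⟩ (la_reachOff_of_agree hH hf hag)

/-- (P1) pinned systems with slack at least one. -/
theorem P1 {E : Finset (V × V)} {W H0 : Finset V} (hH : H0 ⊆ W) (hO : Ori E W)
    (hg : ∀ Y ⊆ W \ H0, Y.Nonempty → ff E H0 + 1 ≤ ff E (Y ∪ H0))
    (hC : ∀ Z ⊆ W \ H0, Conn E Z)
    {c c' : V → Bool} (hc : Val E W c) (hc' : Val E W c') (h : ∀ p ∈ H0, c p = c' p) :
    ReachOff E W H0 c c' := by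
  have hW : W ⊆ W := Finset.Subset.refl W
  have hm := Pool.Agent.MP_784a73_co.P1 (D := Pool.Agent.MP_784a73_co.arcs E W) (W := W) (P := H0) (h := c)
    (la_ori hO) hH ((la_val hH).2 (hc.anti (Finset.Subset.refl E) hH))
    (fun Z hZ => la_mix_of_conn (hZ.trans Finset.sdiff_subset) (hC Z hZ))
    (fun Y hY hYne => by
      have h1 := hg Y hY hYne
      have hYW : Y ⊆ W := hY.trans Finset.sdiff_subset
      have hdis : Disjoint Y H0 := Finset.disjoint_of_subset_left hY Finset.sdiff_disjoint
      rw [Finset.union_comm H0 Y, la_eN (Finset.union_subset hYW hH), la_eN hH]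
      unfold ff at h1
      rw [Finset.card_union_of_disjoint hdis] at h1
      push_cast at h1
      omega)
  have h1 := hm c c' ⟨(la_val hW).2 hc, fun _ _ _ => rfl⟩ ⟨(la_val hW).2 hc', fun p hp _ => (h p hp).symm⟩
  have key : ∀ d, Pool.Agent.MP_784a73_co.ReachP (Pool.Agent.MP_784a73_co.arcs E W) W H0 c c d →
      ReachOff E W H0 c d := by
    intro d hd
    induction hd with
    | refl => exact ReflTransGen.refl
    | tail _ hs ih => exact ReflTransGen.trans ih (la_reachOff_of_step hH hs)
  exact key c' h1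

/-- (T) proper tight sets. -/
theorem T1 {E : Finset (V × V)} {W H : Finset V} (hG : Good E W) (hIH : IH V W.card)
    (hH : H ⊆ W) (hne : H.Nonempty) (hneW : H ≠ W) (hf : ff E H = 1) : Conn E W := by
  have hW : W ⊆ W := Finset.Subset.refl W
  refine la_conn_of_mix hW (Pool.Agent.MP_784a73_co.T (D := Pool.Agent.MP_784a73_co.arcs E W) (la_ori hG.1) hne
    (Finset.ssubset_iff_subset_ne.2 ⟨hH, hneW⟩) ?_ ?_ ?_)
  · rw [la_eN hH]
    unfold ff at hf
    omega
  · intro Y hY hYne
    have h1 := hG.2 Y hY hYne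
    rw [la_eN hY]
    unfold ff at h1
    omega
  · intro Z hZ
    refine la_mix_of_conn hZ.1 (hIH E Z (Finset.card_lt_card hZ) ⟨?_, fun Y hY => hG.2 Y (hY.trans hZ.1)⟩)
    intro p hp q hq
    exact hG.1 p (hZ.1 hp) q (hZ.1 hq)

/-- the official statement from the main theorem of this folder -/
theorem official_of_main (hmain : ∀ (E : Finset (V × V)) (W : Finset V), Good E W → Conn E W)
    {A : V → V → Prop} (hA : Pool.Agent.MP_784a73_co.IsOriented A) (hnot : ¬ Pool.Agent.MP_784a73_co.Mixing 2 A) :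
    4 ≤ Pool.Agent.MP_784a73_co.Mad A := by
  refine Pool.Agent.MP_784a73_co.mad_ge_four (fun D W hD hs => ?_) hA hnot
  have hW : W ⊆ W := Finset.Subset.refl W
  have hconn : Conn D W := hmain D W ⟨fun p _ q _ => hD p q, fun H hH hne => by
    have h1 := hs H hH hne
    have h2 : Pool.Agent.MP_784a73_co.eN D H = ecard D H := rfl
    unfold ff
    omega⟩
  intro c c' hc hc'
  have h1 := hconn c c' hc.1 hc'.1
  have key : ∀ d, Reach D W c d → Pool.Agent.MP_784a73_co.Reach D W ∅ c d := by
    intro d hd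
    induction hd with
    | refl => exact ReflTransGen.refl
    | tail _ hs ih =>
      obtain ⟨h2, h3, z, rfl⟩ := hs
      refine ih.tail ⟨⟨h2, by simp⟩, ⟨h3, by simp⟩, z, fun w _ hw => ?_⟩
      simp [hw]
  exact key c' h1

end Mix
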