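import Pool.Agent.Lib.MP_784a73_co.Mix.Princ

/-! # Vertices of degree 3 with apex `x`; colourings which are not joined to their complement (proved) -/

namespace Mix

open Finset Relation

set_option linter.unusedSectionVars false

variable {V : Type*} [DecidableEq V] [Fintype V]

/-- `v` has the unique in-neighbour `x` and two out-neighbours (`x → v → w1, w2`) -/
def TP (E : Finset (V × V)) (W : Finset V) (x v : V) : Prop :=
  v ∈ W ∧ inN E W v = {x} ∧ (outN E W v).card = 2

/-- `v` has the unique out-neighbour `x` and two in-neighbours (`w1, w2 → v → x`) -/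
def TM (E : Finset (V × V)) (W : Finset V) (x v : V) : Prop :=
  v ∈ W ∧ outN E W v = {x} ∧ (inN E W v).card = 2

theorem TP_rev {E : Finset (V × V)} {W : Finset V} {x v : V} : TP (rev E) W x v ↔ TM E W x v := by
  rw [TP, TM, inN_rev, outN_rev]

theorem TM_rev {E : Finset (V × V)} {W : Finset V} {x v : V} : TM (rev E) W x v ↔ TP E W x v := by
  rw [TP, TM, inN_rev, outN_rev]

open Classical in
/-- all degree 3 vertices with apex `x` -/
noncomputable def Tset (E : Finset (V × V)) (W : Finset V) (x : V) : Finset V :=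
  W.filter (fun v => TP E W x v ∨ TM E W x v)

theorem mem_Tset {E : Finset (V × V)} {W : Finset V} {x v : V} :
    v ∈ Tset E W x ↔ TP E W x v ∨ TM E W x v := by
  classical
  simp only [Tset, Finset.mem_filter]
  exact ⟨fun h => h.2, fun h => ⟨h.elim (fun h => h.1) (fun h => h.1), h⟩⟩

theorem Tset_rev {E : Finset (V × V)} {W : Finset V} {x : V} : Tset (rev E) W x = Tset E W x := by
  ext v; rw [mem_Tset, mem_Tset, TP_rev, TM_rev, or_comm]

/-- a valid colouring which is not joined to its complement -/
def Bad (E : Finset (V × V)) (W : Finset V) (c : V → Bool) : Prop :=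
  Val E W c ∧ ¬ Reach E W c (neg c)


theorem Bad.reach {E : Finset (V × V)} {W : Finset V} {c c' : V → Bool} (h : Bad E W c) (hr : Reach E W c c') :
    Bad E W c' := by
  refine ⟨hr.val h.1, fun hb => h.2 ?_⟩
  exact (hr.trans hb).trans hr.neg.symm

/-- `Bad` is closed under flips and complement -/
theorem Bad.flip {E : Finset (V × V)} {W : Finset V} {c : V → Bool} (h : Bad E W c) {z : V}
    (hz : Val E W (flip c z)) : Bad E W (flip c z) := h.reach (Reach.flip h.1 hz)

theorem Bad.neg {E : Finset (V × V)} {W : Finset V} {c : V → Bool} (h : Bad E W c) : Bad E W (neg c) := by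
  refine ⟨h.1.neg, fun hr => h.2 ?_⟩
  rw [neg_neg'] at hr
  exact hr.symm

theorem Bad.closed (E : Finset (V × V)) (W : Finset V) : Closed E W {c | Bad E W c} :=
  ⟨fun _ hc => hc.1, fun _ hc _ hz => hc.flip hz⟩

/-- if `x` cannot be flipped in `Bad` colourings then `Bad` colourings with `c x = a` form a closed set -/
theorem Bad.closed_frozen {E : Finset (V × V)} {W : Finset V} {x : V} (a : Bool)
    (hx : ∀ c, Bad E W c → ¬ Val E W (Mix.flip c x)) : Closed E W {c | Bad E W c ∧ c x = a} := by
  refine ⟨fun c hc => hc.1.1, fun c hc z hz => ⟨hc.1.flip hz, ?_⟩⟩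
  by_cases hzx : z = x
  · subst hzx; exact absurd hz (hx c hc.1)
  · rw [flip_of_ne (Ne.symm hzx)]; exact hc.2

theorem Bad.rev_iff {E : Finset (V × V)} {W : Finset V} {c : V → Bool} : Bad (rev E) W c ↔ Bad E W c := by
  rw [Bad, Bad, val_rev, reach_rev]

end Mix
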