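import Pool.Agent.Lib.MP_784a73_co.Mix.Nb0

/-! # ROW NbB (3.1)

`CE.deg_ge`.  Let `v ∈ W` with `inN E W v = ∅` or `outN E W v = ∅` or `deg E W v ≤ 2`.  Show that `(E, W)` is connected (contradiction to `h.disc`), where `W' := W.erase v`, `Conn E W'` by `h.conn_ssub`:
* no in- or no out-neighbour: `v` is on no cycle: `Val E W c ↔ Val E W' c` (`val_dead` with `T = {v}`), so `Reach E W' c c'` gives `Reach E W c c'`.
* otherwise `deg = 2`, `inN = {p}`, `outN = {q}`: `v` may get the colour `g` unless `c p = c q = g` (and `q ⇒ p` in colour `g`), `v := !c p` is always valid (`Dead`).  For `c` valid on `W'` let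
  `ĉ := c, v ↦ !c p`.  A flip of `z ≠ p` lifts to `ĉ`.  A flip of `p`: `c, flip c p` valid on `W'`; `q ≠ p` (`Ori`); one of the two colours `g` of `v` is `!c q`, with `v := !c q` both `(c, v)` and `(flip c p, v)` are valid
  (`v` dead: its only out-neighbour has the other colour), and `(c, v := !c p) → (c, v := !c q)` is a flip of `v` (or nothing).  So all colourings with `v = !c p` are joined, and any valid colouring of `W` can be
  moved to one of these by flipping `v`.
`CE.apex`: `deg = 3`, both neighbourhoods nonempty, so one has one element and the other two. -/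

namespace Mix

open Finset Relation

set_option linter.unusedSectionVars false

variable {V : Type*} [DecidableEq V] [Fintype V]

private theorem NbB_val_dead {E : Finset (V × V)} {W : Finset V} {v : V} {c c' : V → Bool}
    (hc : Val E (W.erase v) c) (hd : Dead E W c' v) (h : ∀ u, u ≠ v → c u = c' u) : Val E W c' := by
  rw [val_dead (T := {v}) (fun u hu => by
    rw [Finset.mem_singleton] at hu
    rw [hu]
    exact hd), Finset.sdiff_singleton_eq_erase]
  exact hc.congr fun u hu => h u (Finset.ne_of_mem_erase hu)

/-- valid colourings which differ only in `v` are joined -/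
private theorem NbB_join {E : Finset (V × V)} {W : Finset V} {v : V} {c c' : V → Bool}
    (hc : Val E W c) (hc' : Val E W c') (h : ∀ u, u ≠ v → c u = c' u) : Reach E W c c' := by
  by_cases hv : c v = c' v
  · have e : c = c' := by
      funext u
      by_cases hu : u = v
      · rw [hu, hv]
      · exact h u hu
    rw [e]
    exact ReflTransGen.refl
  · have e : c' = flip c v := by
      funext u
      by_cases hu : u = v
      · subst hu
        rw [flip_self]
        cases h1 : c u <;> cases h2 : c' u <;> simp_all
      · rw [flip_of_ne hu, h u hu]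
    rw [e] at hc' ⊢
    exact Reach.flip hc hc'

private theorem NbB_conn_dead {E : Finset (V × V)} {W : Finset V} {v : V}
    (hC : Conn E (W.erase v)) (hd : ∀ c, Dead E W c v) : Conn E W := by
  have hiff : ∀ c, Val E W c ↔ Val E (W.erase v) c := fun c =>
    ⟨fun h => Val.anti (Finset.Subset.refl E) (Finset.erase_subset _ _) h,
      fun h => NbB_val_dead h (hd c) fun _ _ => rfl⟩
  intro c c' hc hc'
  have h1 := hC c c' ((hiff c).1 hc) ((hiff c').1 hc')
  exact rtg_mono (fun a b hab => ⟨(hiff a).2 hab.1, (hiff b).2 hab.2.1, hab.2.2⟩) h1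

private theorem NbB_conn_two {E : Finset (V × V)} {W : Finset V} {v p q : V}
    (hC : Conn E (W.erase v)) (hpv : p ≠ v) (hqv : q ≠ v) (hpq : p ≠ q)
    (hin : ∀ u ∈ W, (u, v) ∈ E → u = p) (hout : ∀ u ∈ W, (v, u) ∈ E → u = q) : Conn E W := by
  have hdp : ∀ c : V → Bool, c v = !c p → Dead E W c v := by
    intro c h
    refine Or.inl fun u hu huv => ?_
    rw [hin u hu huv, h]
    cases c p <;> simp
  have hdq : ∀ c : V → Bool, c v = !c q → Dead E W c v := by
    intro c h
    refine Or.inr fun u hu huv => ?_
    rw [hout u hu huv, h]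
    cases c q <;> simp
  let lift : (V → Bool) → V → Bool := fun c u => if u = v then !c p else c u
  let mid : (V → Bool) → V → Bool := fun c u => if u = v then !c q else c u
  have lv : ∀ c, lift c v = !c p := fun c => by simp [lift]
  have ln : ∀ c u, u ≠ v → lift c u = c u := fun c u hu => by simp [lift, hu]
  have mv : ∀ c, mid c v = !c q := fun c => by simp [mid]
  have mn : ∀ c u, u ≠ v → mid c u = c u := fun c u hu => by simp [mid, hu]
  have hl : ∀ c, Val E (W.erase v) c → Val E W (lift c) := fun c hc =>
    NbB_val_dead hc (hdp _ (by rw [lv, ln c p hpv])) fun u hu => (ln c u hu).symm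
  have hm : ∀ c, Val E (W.erase v) c → Val E W (mid c) := fun c hc =>
    NbB_val_dead hc (hdq _ (by rw [mv, mn c q hqv])) fun u hu => (mn c u hu).symm
  have hlm : ∀ c, Val E (W.erase v) c → Reach E W (lift c) (mid c) := fun c hc =>
    NbB_join (v := v) (hl c hc) (hm c hc) fun u hu => by rw [ln c u hu, mn c u hu]
  have key : ∀ c z, Val E (W.erase v) c → Val E (W.erase v) (flip c z) →
      Reach E W (lift c) (lift (flip c z)) := by
    intro c z hc hcz
    by_cases hzv : z = v
    · subst hzv
      refine NbB_join (v := z) (hl c hc) (hl _ hcz) fun u hu => ?_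
      rw [ln c u hu, ln _ u hu, flip_of_ne hu]
    · by_cases hzp : z = p
      · subst hzp
        have e : mid (flip c z) = flip (mid c) z := by
          funext u
          by_cases huv : u = v
          · subst huv
            rw [flip_of_ne (Ne.symm hzv), mv, mv, flip_of_ne (Ne.symm hpq)]
          · by_cases huz : u = z
            · subst huz
              rw [mn _ u huv, flip_self, flip_self, mn c u huv]
            · rw [mn _ u huv, flip_of_ne huz, flip_of_ne huz, mn c u huv]
        have h1 := hm _ hcz
        rw [e] at h1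
        have h2 := hlm _ hcz
        rw [e] at h2
        exact (hlm c hc).trans (Reach.trans (Reach.flip (hm c hc) h1) h2.symm)
      · have e : lift (flip c z) = flip (lift c) z := by
          funext u
          by_cases huv : u = v
          · subst huv
            rw [flip_of_ne (Ne.symm hzv), lv, lv, flip_of_ne (Ne.symm hzp)]
          · by_cases huz : u = z
            · subst huz
              rw [ln _ u huv, flip_self, flip_self, ln c u huv]
            · rw [ln _ u huv, flip_of_ne huz, flip_of_ne huz, ln c u huv]
        have h1 := hl _ hcz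
        rw [e] at h1 ⊢
        exact Reach.flip (hl c hc) h1
  intro c c' hc hc'
  have hr : ∀ c, Val E W c → Val E (W.erase v) c := fun c h =>
    Val.anti (Finset.Subset.refl E) (Finset.erase_subset _ _) h
  have h1 := hC c c' (hr c hc) (hr c' hc')
  have h2 : Reach E W (lift c) (lift c') := by
    clear hc'
    induction h1 with
    | refl => exact ReflTransGen.refl
    | tail _ hst ih =>
      obtain ⟨a1, a2, z, rfl⟩ := hst
      exact Reach.trans ih (key _ z a1 a2)
  exact (NbB_join (v := v) hc (hl c (hr c hc)) fun u hu => (ln c u hu).symm).trans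
    (h2.trans (NbB_join (v := v) (hl c' (hr c' hc')) hc' fun u hu => ln c' u hu))

/-- ROW N2 (3.1). -/
theorem CE.deg_ge {E : Finset (V × V)} {W : Finset V} (h : CE E W) {v : V} (hv : v ∈ W) :
    3 ≤ deg E W v ∧ (inN E W v).Nonempty ∧ (outN E W v).Nonempty := by
  have hC : Conn E (W.erase v) := h.conn_ssub (Finset.erase_ssubset hv)
  have hin : (inN E W v).Nonempty := by
    rw [Finset.nonempty_iff_ne_empty]
    intro he
    refine h.disc (NbB_conn_dead hC fun c => Or.inl fun p hp hpv => ?_)
    have : p ∈ inN E W v := mem_inN.2 ⟨hp, hpv⟩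
    rw [he] at this
    exact absurd this (Finset.notMem_empty p)
  have hout : (outN E W v).Nonempty := by
    rw [Finset.nonempty_iff_ne_empty]
    intro he
    refine h.disc (NbB_conn_dead hC fun c => Or.inr fun p hp hpv => ?_)
    have : p ∈ outN E W v := mem_outN.2 ⟨hp, hpv⟩
    rw [he] at this
    exact absurd this (Finset.notMem_empty p)
  refine ⟨?_, hin, hout⟩
  by_contra hlt
  have h1 := Finset.card_pos.2 hin
  have h2 := Finset.card_pos.2 hout
  have h3 : (inN E W v).card + (outN E W v).card < 3 := by
    have := hlt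
    rw [deg] at this
    omega
  obtain ⟨p, hp⟩ := Finset.card_eq_one.1 (show (inN E W v).card = 1 by omega)
  obtain ⟨q, hq⟩ := Finset.card_eq_one.1 (show (outN E W v).card = 1 by omega)
  have hp' : p ∈ W ∧ (p, v) ∈ E := mem_inN.1 (by rw [hp]; exact Finset.mem_singleton_self p)
  have hq' : q ∈ W ∧ (v, q) ∈ E := mem_outN.1 (by rw [hq]; exact Finset.mem_singleton_self q)
  have hO := h.good.1
  refine h.disc (NbB_conn_two (p := p) (q := q) hC ?_ ?_ ?_ ?_ ?_)
  · rintro rfl
    exact hO.loop hv hp'.2
  · rintro rfl
    exact hO.loop hv hq'.2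
  · rintro rfl
    exact hO p hp'.1 v hv hp'.2 hq'.2
  · intro u hu huv
    have : u ∈ inN E W v := mem_inN.2 ⟨hu, huv⟩
    rw [hp] at this
    exact Finset.mem_singleton.1 this
  · intro u hu huv
    have : u ∈ outN E W v := mem_outN.2 ⟨hu, huv⟩
    rw [hq] at this
    exact Finset.mem_singleton.1 this

/-- ROW N2 (3.1). a vertex of degree three has an apex -/
theorem CE.apex {E : Finset (V × V)} {W : Finset V} (h : CE E W) {v : V} (hv : v ∈ W) (hd : deg E W v = 3) :
    ∃ x, TP E W x v ∨ TM E W x v := by
  obtain ⟨-, h1, h2⟩ := h.deg_ge hv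
  rw [← Finset.card_pos] at h1 h2
  rw [deg] at hd
  by_cases h3 : (inN E W v).card = 1
  · obtain ⟨x, hx⟩ := Finset.card_eq_one.1 h3
    exact ⟨x, Or.inl ⟨hv, hx, by omega⟩⟩
  · obtain ⟨x, hx⟩ := Finset.card_eq_one.1 (show (outN E W v).card = 1 by omega)
    exact ⟨x, Or.inr ⟨hv, hx, by omega⟩⟩

end Mix
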