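import Pool.Agent.Lib.MP_784a73_co.Mix.NbB

/-! # ROW NbC (3.3)

Notation: `outN E W v = {w, w'}` (`w ≠ w'`, both `≠ v, x`), `W' := W.erase v`, `G := insert (x, w) E` on `W'`.
(1) `G` is good on `W'`: `Good.add_one` (`h.two'` for `W' ⊂ W`; `x ≠ w`; `(w, x) ∉ E` is `hwx`), so `Conn G W'` (`h.conn_good`).
(2) for `c` valid on `(G, W')` put `ĉ := Function.update c v (!c x)`; it is valid on `(E, W)` (`v` is dead: its only in-neighbour is `x`).
(3) if `c` and `flip c z` are valid on `(G, W')` then `ĉ` and `(flip c z)^` are joined in `(E, W)`: `z ≠ x`: one flip (`z = v`: nothing changes, `z ∉ W`, ...).  `z = x`: let `d := c w'`.  The colouring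
  `Function.update c v (!d)` is valid on `(E, W)`: if `!d ≠ c x`, `v` is dead (no mono in-arc).  If `!d = c x`: a mono cycle through `v` would be `x → v → w ⇒ x` (`c w' = d ≠ c v`), a mono path `w ⇒ x` in `W'` of
  colour `c x`, impossible because `c` is valid for `G ∋ (x, w)` (`val_insert_arc`, `val_insert` for `v`).  The same for `flip c x` (`w' ≠ x`).  So
  `ĉ → update c v (!d) → update (flip c x) v (!d) → (flip c x)^`, each step is a flip or nothing.
(4) so `Reach E W ĉ ĉ'` for all `c, c'` valid on `(G, W')` (`Conn.induct`), in particular for `c' = neg c`, and `(neg c)^ = neg ĉ`.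
(4') `CE.nonadj_join`: for both `c`, `c'` as in (5).
(5) let `c` be valid on `(E, W)` without a mono path `w ⇒ x` in `W' = W.erase v`: then `c` is valid on `(G, W')` (`val_insert_arc`), and `c` is joined to `ĉ` (flip of `v` or nothing), `ĉ` to `neg ĉ`, `neg ĉ` to `neg c`.
(6) `(x, w) ∉ E`: otherwise `G = E`, all `c` valid on `(E, W)` are joined to `ĉ` and (4) gives `Conn E W`, contradiction to `h.disc`. -/

namespace Mix

open Finset Relation

set_option linter.unusedSectionVars false

variable {V : Type*} [DecidableEq V] [Fintype V]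

private theorem nbc_val_dead {E : Finset (V × V)} {W : Finset V} {x v : V} {c : V → Bool}
    {b : Bool} (hin : inN E W v = {x}) (hxv : x ≠ v) (hc : Val E (W.erase v) c) (hb : c x ≠ b) :
    Val E W (Function.update c v b) := by
  have hd : ∀ z ∈ ({v} : Finset V), Dead E W (Function.update c v b) z := by
    intro z hz
    rw [Finset.mem_singleton] at hz
    subst hz
    left
    intro p hp hpz
    have hpx : p ∈ inN E W z := mem_inN.2 ⟨hp, hpz⟩
    rw [hin, Finset.mem_singleton] at hpx
    subst hpx
    rw [Function.update_of_ne hxv, Function.update_self]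
    exact hb
  rw [val_dead hd, Finset.sdiff_singleton_eq_erase]
  refine hc.congr fun p hp => ?_
  rw [Function.update_of_ne (Finset.ne_of_mem_erase hp)]

private theorem nbc_val_out {E : Finset (V × V)} {W : Finset V} {x v w w' : V} {c : V → Bool}
    {b : Bool} (hv : v ∈ W) (hl : (v, v) ∉ E) (hin : inN E W v = {x}) (hout : outN E W v = {w, w'})
    (hxv : x ≠ v) (hwv : w ≠ v) (hw'v : w' ≠ v)
    (hc : Val (insert (x, w) E) (W.erase v) c) (hb : c w' ≠ b) :
    Val E W (Function.update c v b) := by
  rw [val_insert_arc] at hc
  obtain ⟨hc1, hc2⟩ := hc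
  have hag : ∀ p ∈ W.erase v, c p = Function.update c v b p := fun p hp => by
    rw [Function.update_of_ne (Finset.ne_of_mem_erase hp)]
  have hW : W = insert v (W.erase v) := (Finset.insert_erase hv).symm
  rw [hW, val_insert (Finset.notMem_erase _ _) hl]
  refine ⟨hc1.congr hag, ?_⟩
  intro p hp q hq hvp hqv hcp hcq hR
  have hqx : q ∈ inN E W v := mem_inN.2 ⟨Finset.mem_of_mem_erase hq, hqv⟩
  rw [hin, Finset.mem_singleton] at hqx
  subst hqx
  have hpo : p ∈ outN E W v := mem_outN.2 ⟨Finset.mem_of_mem_erase hp, hvp⟩
  rw [hout, Finset.mem_insert, Finset.mem_singleton] at hpo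
  rw [Function.update_self] at hcp hcq
  rcases hpo with hpo | hpo
  · subst hpo
    rw [Function.update_of_ne hwv] at hcp
    rw [Function.update_of_ne hxv] at hcq
    refine hc2 hq hp (hcq.trans hcp.symm) ?_
    exact rtg_mono (fun a b hab => Mono.congr (fun p hp => (hag p hp).symm) hab) hR
  · subst hpo
    rw [Function.update_of_ne hw'v] at hcp
    exact hb hcp

private theorem nbc_reach_update {E : Finset (V × V)} {W : Finset V} {v : V} {c : V → Bool}
    {a b : Bool} (ha : Val E W (Function.update c v a)) (hb : Val E W (Function.update c v b)) :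
    Reach E W (Function.update c v a) (Function.update c v b) := by
  by_cases hab : a = b
  · subst hab
    exact ReflTransGen.refl
  · have he : Function.update c v b = flip (Function.update c v a) v := by
      have hba : b = !a := by
        cases a <;> cases b <;> simp_all
      rw [flip, Function.update_self, Function.update_idem, hba]
    rw [he] at hb ⊢
    exact Reach.flip ha hb

private theorem nbc_core {E : Finset (V × V)} {W : Finset V} (h : CE E W) {x v w : V}
    (hv : TP E W x v) (hw : w ∈ outN E W v) (hwx : (w, x) ∉ E) {c c' : V → Bool}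
    (hc : Val E W c) (hc' : Val E W c')
    (hp : Val (insert (x, w) E) (W.erase v) c) (hp' : Val (insert (x, w) E) (W.erase v) c') :
    Reach E W c c' := by
  obtain ⟨hvW, hin, hcard⟩ := hv
  have hO : Ori E W := h.good.1
  have hx1 : x ∈ inN E W v := by rw [hin]; exact Finset.mem_singleton_self x
  obtain ⟨hxW, hxvE⟩ := mem_inN.1 hx1
  obtain ⟨hwW, hvwE⟩ := mem_outN.1 hw
  obtain ⟨w', hww', hout⟩ : ∃ w', w' ≠ w ∧ outN E W v = {w, w'} := by
    obtain ⟨a, b, hab, hO2⟩ := Finset.card_eq_two.1 hcard
    rw [hO2, Finset.mem_insert, Finset.mem_singleton] at hw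
    rcases hw with hw | hw
    · subst hw
      exact ⟨b, hab.symm, hO2⟩
    · subst hw
      exact ⟨a, hab, by rw [hO2, Finset.pair_comm]⟩
  have hw'1 : w' ∈ outN E W v := by rw [hout]; simp
  obtain ⟨hw'W, hvw'E⟩ := mem_outN.1 hw'1
  have hl : (v, v) ∉ E := hO.loop hvW
  have hxv : x ≠ v := by
    rintro rfl
    exact hl hxvE
  have hwv : w ≠ v := by
    rintro rfl
    exact hl hvwE
  have hw'v : w' ≠ v := by
    rintro rfl
    exact hl hvw'E
  have hxw : x ≠ w := by
    rintro rfl
    exact hO _ hxW _ hvW hxvE hvwE
  have hw'x : w' ≠ x := by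
    rintro rfl
    exact hO _ hxW _ hvW hxvE hvw'E
  have hss : W.erase v ⊂ W := Finset.erase_ssubset hvW
  have hG : Good (insert (x, w) E) (W.erase v) :=
    Good.add_one (hO.sub (Finset.erase_subset _ _)) (h.two' hss) hxw hwx
  have hConn : Conn (insert (x, w) E) (W.erase v) := h.conn_good hss hG
  have hval : ∀ d : V → Bool, Val (insert (x, w) E) (W.erase v) d →
      Val E W (Function.update d v (!d x)) := by
    intro d hd
    refine nbc_val_dead hin hxv (Val.anti (Finset.subset_insert _ _) (Finset.Subset.refl _) hd) ?_
    cases d x <;> simp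
  have hstep : ∀ d : V → Bool, Val (insert (x, w) E) (W.erase v) d → ∀ z,
      Val (insert (x, w) E) (W.erase v) (flip d z) →
      Reach E W (Function.update d v (!d x)) (Function.update (flip d z) v (!(flip d z) x)) := by
    intro d hd z hz
    by_cases hzx : z = x
    · subst hzx
      have hdw' : d w' ≠ !d w' := by cases d w' <;> simp
      have hu1 : Val E W (Function.update d v (!d w')) :=
        nbc_val_out hvW hl hin hout hxv hwv hw'v hd hdw'
      have hu2 : Val E W (Function.update (flip d z) v (!d w')) :=
        nbc_val_out hvW hl hin hout hxv hwv hw'v hz (by rw [flip_of_ne hw'x]; exact hdw')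
      have he : Function.update (flip d z) v (!d w') = flip (Function.update d v (!d w')) z := by
        rw [flip, flip, Function.update_of_ne hxv, Function.update_comm hxv.symm]
      have h1 := nbc_reach_update (hval d hd) hu1
      have h2 : Reach E W (Function.update d v (!d w')) (Function.update (flip d z) v (!d w')) := by
        rw [he] at hu2 ⊢
        exact Reach.flip hu1 hu2
      have h3 := nbc_reach_update hu2 (hval _ hz)
      exact (h1.trans h2).trans h3
    · have hx' : flip d z x = d x := flip_of_ne (Ne.symm hzx)
      rw [hx']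
      by_cases hzv : z = v
      · subst hzv
        have he : Function.update (flip d z) z (!d x) = Function.update d z (!d x) := by
          rw [flip, Function.update_idem]
        rw [he]
        exact ReflTransGen.refl
      · have he : Function.update (flip d z) v (!d x) = flip (Function.update d v (!d x)) z := by
          rw [flip, flip, Function.update_of_ne hzv, Function.update_comm (Ne.symm hzv)]
        have hv2 := hval _ hz
        rw [hx', he] at hv2
        rw [he]
        exact Reach.flip (hval d hd) hv2
  have hall : ∀ d, Val (insert (x, w) E) (W.erase v) d →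
      Reach E W (Function.update c v (!c x)) (Function.update d v (!d x)) := by
    refine Conn.induct hConn (P := fun d => Reach E W (Function.update c v (!c x))
      (Function.update d v (!d x))) hp ReflTransGen.refl ?_
    intro d hd hP z hz
    exact Reach.trans hP (hstep d hd z hz)
  have hto : ∀ d : V → Bool, Val E W d → Val (insert (x, w) E) (W.erase v) d →
      Reach E W d (Function.update d v (!d x)) := by
    intro d hd hd2
    have he : Function.update d v (d v) = d := Function.update_eq_self v d
    have h1 : Val E W (Function.update d v (d v)) := by rw [he]; exact hd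
    have h2 := nbc_reach_update h1 (hval d hd2)
    rw [he] at h2
    exact h2
  exact ((hto c hc hp).trans (hall c' hp')).trans (hto c' hc' hp').symm

private theorem nbc_val {E : Finset (V × V)} {W : Finset V} {x v w : V} {c : V → Bool}
    (hc : Val E W c) (hp : ¬ ReflTransGen (Mono E (W.erase v) c) w x) :
    Val (insert (x, w) E) (W.erase v) c := by
  rw [val_insert_arc]
  exact ⟨Val.anti (Finset.Subset.refl _) (Finset.erase_subset _ _) hc, fun _ _ _ => hp⟩

/-- ROW NbC: all valid colourings without a mono path `w ⇒ x` in `W \ {v}` are joined -/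
theorem CE.nonadj_join {E : Finset (V × V)} {W : Finset V} (h : CE E W) {x v w : V} (hv : TP E W x v)
    (hw : w ∈ outN E W v) (hwx : (w, x) ∉ E) {c c' : V → Bool} (hc : Val E W c) (hc' : Val E W c')
    (hp : ¬ ReflTransGen (Mono E (W.erase v) c) w x) (hp' : ¬ ReflTransGen (Mono E (W.erase v) c') w x) :
    Reach E W c c' :=
  nbc_core h hv hw hwx hc hc' (nbc_val hc hp) (nbc_val hc' hp')

/-- ROW N3 (3.3). If `x → v → w1, w2` and `w = w_i` with no arc `w → x` then `w` is not adjacent to `x`, and every valid colouring for which
there is no mono path `w ⇒ x` in `W \ {v}` is joined to its complement. -/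
theorem CE.nonadj {E : Finset (V × V)} {W : Finset V} (h : CE E W) {x v w : V} (hv : TP E W x v)
    (hw : w ∈ outN E W v) (hwx : (w, x) ∉ E) :
    (x, w) ∉ E ∧ ∀ c, Val E W c → ¬ ReflTransGen (Mono E (W.erase v) c) w x → Reach E W c (neg c) := by
  refine ⟨fun hxw => ?_, fun c hc hp => ?_⟩
  · refine h.disc fun c c' hc hc' => ?_
    have hE : insert (x, w) E = E := Finset.insert_eq_of_mem hxw
    refine nbc_core h hv hw hwx hc hc' ?_ ?_
    · rw [hE]
      exact Val.anti (Finset.Subset.refl _) (Finset.erase_subset _ _) hc
    · rw [hE]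
      exact Val.anti (Finset.Subset.refl _) (Finset.erase_subset _ _) hc'
  · refine CE.nonadj_join h hv hw hwx hc hc.neg hp fun hp' => hp ?_
    exact rtg_mono (fun a b hab => Mono.neg_iff.1 hab) hp'

end Mix
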