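import Pool.Agent.Lib.MP_784a73_co.Mix.NbC

/-! # ROW NbD (3.4)

`bad_beta`: `c` is valid and not joined to `neg c`, so by `CE.nonadj` there is a mono path `w ⇒ x` in `W.erase v`, hence `c w = c x` (`rtg_color`); if `c v = c x` then `x → v → w ⇒ x` is a mono cycle in `W`.
`bad_beta_frozen`: if `flip c z` (`z ∈ {x, v, w}`) is valid, it is `Bad` (`Bad.flip`) and `bad_beta` for `c` and `flip c z` gives a contradiction (`x, v, w` different).
`exists_bad`: otherwise every valid colouring is joined to its complement; by `h.disc` there are `c, c'` valid, not joined.  The colourings `c` without a mono path `w ⇒ x` in `W.erase v`: see `CE.nonadj_join`: they are all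
joined to each other.  So one of `c, c'`, say `c`, is joined to no such colouring: put
`K := {d | Reach E W c d}`, closed, all `d ∈ K` have a mono path `w ⇒ x`, so `d x` is constant on `K` (a flip of `x` or `w` would destroy `d x = d w`), so `neg c ∉ K`: `c` is `Bad`. -/

namespace Mix

open Finset Relation

set_option linter.unusedSectionVars false

variable {V : Type*} [DecidableEq V] [Fintype V]

private theorem nbD_facts {E : Finset (V × V)} {W : Finset V} (h : CE E W) {x v w : V} (hv : TP E W x v)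
    (hw : w ∈ outN E W v) :
    x ∈ W ∧ v ∈ W ∧ w ∈ W ∧ (x, v) ∈ E ∧ (v, w) ∈ E ∧ x ≠ v ∧ v ≠ w ∧ w ≠ x := by
  have hx : x ∈ inN E W v := by rw [hv.2.1]; exact Finset.mem_singleton_self x
  have hx1 := Finset.mem_filter.1 hx
  have hw1 := Finset.mem_filter.1 hw
  have hO := h.good.1
  refine ⟨hx1.1, hv.1, hw1.1, hx1.2, hw1.2, ?_, ?_, ?_⟩
  · rintro rfl
    exact hO x hx1.1 x hx1.1 hx1.2 hx1.2
  · rintro rfl
    exact hO v hw1.1 v hw1.1 hw1.2 hw1.2
  · rintro rfl
    exact hO w hx1.1 v hv.1 hx1.2 hw1.2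

private theorem nbD_ne (b : Bool) : b ≠ !b := by cases b <;> decide

/-- ROW N4 (3.4) for `Bad` colourings -/
theorem CE.bad_beta {E : Finset (V × V)} {W : Finset V} (h : CE E W) {x v w : V} (hv : TP E W x v)
    (hw : w ∈ outN E W v) (hwx : (w, x) ∉ E) {c : V → Bool} (hc : Bad E W c) :
    ReflTransGen (Mono E (W.erase v) c) w x ∧ c w = c x ∧ c v = !c x := by
  obtain ⟨hxW, hvW, hwW, hxv, hvw, hne1, hne2, hne3⟩ := nbD_facts h hv hw
  have hP : ReflTransGen (Mono E (W.erase v) c) w x := by
    by_contra hno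
    exact hc.2 ((h.nonadj hv hw hwx).2 c hc.1 hno)
  have hwc : c w = c x := rtg_color hP
  refine ⟨hP, hwc, ?_⟩
  by_contra hcv
  have hcv' : c v = c x := by
    cases h1 : c v <;> cases h2 : c x <;> simp_all
  refine hc.1.no_back (p := x) (q := v) ⟨hxv, hxW, hvW, hcv'.symm⟩ ?_
  refine ReflTransGen.head (b := w) ⟨hvw, hvW, hwW, hcv'.trans hwc.symm⟩ ?_
  exact rtg_mono (fun _ _ hm => Mono.mono (Finset.Subset.refl E) (Finset.erase_subset v W) hm) hP

/-- ROW N4 `x`, `v`, `w` cannot be flipped in `Bad` colourings -/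
theorem CE.bad_beta_frozen {E : Finset (V × V)} {W : Finset V} (h : CE E W) {x v w : V} (hv : TP E W x v)
    (hw : w ∈ outN E W v) (hwx : (w, x) ∉ E) {c : V → Bool} (hc : Bad E W c) :
    ¬ Val E W (flip c x) ∧ ¬ Val E W (flip c v) ∧ ¬ Val E W (flip c w) := by
  obtain ⟨hxW, hvW, hwW, hxv, hvw, hne1, hne2, hne3⟩ := nbD_facts h hv hw
  obtain ⟨-, h1, h2⟩ := h.bad_beta hv hw hwx hc
  refine ⟨fun hz => ?_, fun hz => ?_, fun hz => ?_⟩
  · obtain ⟨-, h3, h4⟩ := h.bad_beta hv hw hwx (hc.flip hz)
    rw [flip_self, flip_of_ne hne3] at h3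
    rw [h1] at h3
    exact nbD_ne _ h3
  · obtain ⟨-, h3, h4⟩ := h.bad_beta hv hw hwx (hc.flip hz)
    rw [flip_self, flip_of_ne hne1] at h4
    rw [h2] at h4
    exact nbD_ne _ h4.symm
  · obtain ⟨-, h3, h4⟩ := h.bad_beta hv hw hwx (hc.flip hz)
    rw [flip_self, flip_of_ne hne3.symm] at h3
    rw [h1] at h3
    exact nbD_ne _ h3.symm

/-- ROW N4 if a vertex `w` as above exists then `Bad` colourings exist -/
theorem CE.exists_bad {E : Finset (V × V)} {W : Finset V} (h : CE E W) {x v w : V} (hv : TP E W x v)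
    (hw : w ∈ outN E W v) (hwx : (w, x) ∉ E) : ∃ c, Bad E W c := by
  obtain ⟨hxW, hvW, hwW, hxv, hvw, hne1, hne2, hne3⟩ := nbD_facts h hv hw
  by_contra hbad
  have hall : ∀ c, Val E W c → Reach E W c (neg c) := by
    intro c hc
    by_contra hno
    exact hbad ⟨c, hc, hno⟩
  -- every valid colouring is joined to one without the path
  have key : ∀ d, Val E W d → ∃ e, Reach E W d e ∧ ¬ ReflTransGen (Mono E (W.erase v) e) w x := by
    intro d hd
    by_contra hno
    have hpath : ∀ e, Reach E W d e → ReflTransGen (Mono E (W.erase v) e) w x := by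
      intro e he
      by_contra hne
      exact hno ⟨e, he, hne⟩
    have hconst : ∀ e, Reach E W d e → e x = d x := by
      intro e he
      induction he with
      | refl => rfl
      | @tail b e hdb hst ih =>
        obtain ⟨hb1, hb2, z, rfl⟩ := hst
        have hde : Reach E W d (flip b z) := ReflTransGen.tail hdb ⟨hb1, hb2, z, rfl⟩
        by_cases hzx : z = x
        · subst hzx
          have h1 : b w = b z := rtg_color (hpath b hdb)
          have h2 : flip b z w = flip b z z := rtg_color (hpath _ hde)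
          rw [flip_self, flip_of_ne hne3, h1] at h2
          exact absurd h2 (nbD_ne _)
        · rw [flip_of_ne (Ne.symm hzx)]
          exact ih
    have h1 := hconst (neg d) (hall d hd)
    rw [neg_apply] at h1
    exact nbD_ne _ h1.symm
  apply h.disc
  intro c c' hc hc'
  obtain ⟨e, he, hne⟩ := key c hc
  obtain ⟨e', he', hne'⟩ := key c' hc'
  exact (he.trans (h.nonadj_join hv hw hwx (he.val hc) (he'.val hc') hne hne')).trans he'.symm

end Mix
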