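import Pool.Agent.Lib.MP_784a73_co.Mix.NbD

/-! # ROW NbE (3.5)

Otherwise both out-neighbours `w₁, w₂` of `v` have no arc to `x`.  Take a `Bad` colouring `c₀` (`exists_bad`), `K := {c | Bad E W c ∧ c x = c₀ x}`, closed (`Bad.closed_frozen`, `bad_beta_frozen`).  In `K`: `c w₁ = c w₂ = c x = !c v`
(`bad_beta`).  `W' := W.erase v`, `Conn E W'`.  `Conn.induct` for `P c := Function.update c v (!c₀ x) ∈ K`, start `c₀`.  Step: `ĉ := update c v (!c₀ x) ∈ K`, so `c x = c₀ x` (`x ≠ v`); flip of `z ≠ x, v`: `flip ĉ z` is valid
(`v` dead: its only in-neighbour `x` has the other colour), so in `K`.  Flip of `x`: `flip ĉ x` (`v = !c₀ x` is the new colour of `x`, but `w₁, w₂` have colour `c₀ x ≠ c v`, so `v` has no mono out-arc: dead) is valid: contradiction to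
`bad_beta_frozen`.  So every valid `c` on `W'` satisfies `c x = c₀ x`, but `neg c₀` is valid. -/

namespace Mix

open Finset Relation

set_option linter.unusedSectionVars false

variable {V : Type*} [DecidableEq V] [Fintype V]

theorem nbE_val_erase {E : Finset (V × V)} {W : Finset V} {v : V} {c : V → Bool}
    (hd : Dead E W c v) (hc : Val E (W.erase v) c) : Val E W c := by
  have hT : ∀ u ∈ ({v} : Finset V), Dead E W c u := by
    intro u hu
    rw [Finset.mem_singleton.1 hu]; exact hd
  rw [val_dead hT, Finset.sdiff_singleton_eq_erase]
  exact hc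

/-- ROW N5 (3.5). not both `w1, w2` are non-adjacent to `x` -/
theorem CE.one_adj {E : Finset (V × V)} {W : Finset V} (h : CE E W) {x v : V} (hv : TP E W x v) :
    ∃ w ∈ outN E W v, (w, x) ∈ E := by
  classical
  by_contra hno
  push Not at hno
  obtain ⟨w, hw⟩ : (outN E W v).Nonempty := by
    rw [← Finset.card_pos, hv.2.2]; norm_num
  have hwx := hno w hw
  obtain ⟨c0, hc0⟩ := h.exists_bad hv hw hwx
  have hxmem : x ∈ inN E W v := by rw [hv.2.1]; exact Finset.mem_singleton_self x
  obtain ⟨hxW, hxv⟩ := mem_inN.1 hxmem
  have hvW : v ∈ W := hv.1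
  have hne : x ≠ v := by
    intro he
    rw [he] at hxv
    exact h.good.1.loop hvW hxv
  have hK : Closed E W {c | Bad E W c ∧ c x = c0 x} :=
    Bad.closed_frozen (c0 x) (fun c hc => (h.bad_beta_frozen hv hw hwx hc).1)
  have hC : Conn E (W.erase v) := h.conn_ssub (Finset.erase_ssubset hvW)
  have hc0v : c0 v = !c0 x := (h.bad_beta hv hw hwx hc0).2.2
  have hup : ∀ (c : V → Bool) (u : V), u ≠ v → Function.update c v (!c0 x) u = c u := by
    intro c u hu
    exact Function.update_of_ne hu _ _
  have key := hC.induct (c0 := c0)
    (P := fun c => Function.update c v (!c0 x) ∈ {c | Bad E W c ∧ c x = c0 x})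
    (hc0.1.anti (Finset.Subset.refl _) (Finset.erase_subset _ _)) (by
      have : Function.update c0 v (!c0 x) = c0 := by
        rw [← hc0v]; exact Function.update_eq_self v c0
      show Function.update c0 v (!c0 x) ∈ {c | Bad E W c ∧ c x = c0 x}
      rw [this]; exact ⟨hc0, rfl⟩) (by
      intro c hc hP z hz
      show Function.update (flip c z) v (!c0 x) ∈ {c | Bad E W c ∧ c x = c0 x}
      have hP' : Function.update c v (!c0 x) ∈ {c | Bad E W c ∧ c x = c0 x} := hP
      have hx1 : Function.update c v (!c0 x) x = c0 x := hP'.2
      have hv1 : Function.update c v (!c0 x) v = !c0 x := Function.update_self _ _ _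
      by_cases hzv : z = v
      · have : Function.update (flip c z) v (!c0 x) = Function.update c v (!c0 x) := by
          funext u
          by_cases hu : u = v
          · subst hu; simp
          · rw [hup _ _ hu, hup _ _ hu, flip_of_ne (by rw [hzv]; exact hu)]
        rw [this]; exact hP'
      · have hfl : flip (Function.update c v (!c0 x)) z = Function.update (flip c z) v (!c0 x) := by
          funext u
          by_cases hu : u = v
          · subst hu
            rw [flip_of_ne (Ne.symm hzv)]; simp
          · by_cases huz : u = z
            · subst huz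
              rw [flip_self, hup _ _ hu, hup _ _ hu, flip_self]
            · rw [flip_of_ne huz, hup _ _ hu, hup _ _ hu, flip_of_ne huz]
        have hag : Val E (W.erase v) (flip (Function.update c v (!c0 x)) z) := by
          refine hz.congr ?_
          intro u hu
          have hu' : u ≠ v := (Finset.mem_erase.1 hu).1
          rw [hfl, hup _ _ hu']
        by_cases hzx : z = x
        · exfalso
          subst hzx
          apply (h.bad_beta_frozen hv hw hwx hP'.1).1
          refine nbE_val_erase (Or.inr ?_) hag
          intro q hqW hvq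
          have hq : q ∈ outN E W v := mem_outN.2 ⟨hqW, hvq⟩
          have hqx : q ≠ z := by
            intro he
            rw [he] at hvq
            exact h.good.1 z hxW v hvW hxv hvq
          have hb := (h.bad_beta hv hq (hno q hq) hP'.1).2.1
          rw [flip_of_ne hqx, flip_of_ne (Ne.symm hzv), hb, hv1, hx1]
          cases c0 z <;> simp
        · have hval : Val E W (flip (Function.update c v (!c0 x)) z) := by
            refine nbE_val_erase (Or.inl ?_) hag
            intro p hpW hpv
            have hp : p = x := by
              have : p ∈ inN E W v := mem_inN.2 ⟨hpW, hpv⟩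
              rw [hv.2.1] at this
              exact Finset.mem_singleton.1 this
            subst hp
            rw [flip_of_ne (Ne.symm hzx), flip_of_ne (Ne.symm hzv), hv1, hx1]
            cases c0 p <;> simp
          rw [← hfl]
          exact hK.step _ hP' z hval)
    (neg c0) (hc0.1.anti (Finset.Subset.refl _) (Finset.erase_subset _ _)).neg
  have h2 : Function.update (neg c0) v (!c0 x) x = c0 x := key.2
  rw [hup _ _ hne, neg_apply] at h2
  cases h3 : c0 x <;> simp [h3] at h2

end Mix
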