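import Pool.Agent.Lib.MP_784a73_co.Mix.Path0

/-! # ROW PathB: adding arcs

`←`: let `R := Mono E W c` and let the new relation be `Mono (E ∪ I ×ˢ {o}) W c`, whose new arcs are `i → o`.  A mono path of the new relation from `a` to `b` either is an
`R`-path or contains a new arc; every path contains only new arcs with head `o`: (induction on the path) `a ⇒ b` in the new relation implies `a ⇒ b` in `R`, or
`a ⇒ i` in `R`, `i → o` new, `o ⇒ b` in `R` for some `i` (an `R`-path `o ⇒ i'` followed by a new arc `i' → o` contradicts the hypothesis, or just shorten: cut the cycle at `o`). -/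

namespace Mix

open Finset Relation

set_option linter.unusedSectionVars false

variable {V : Type*} [DecidableEq V]

private theorem PathB_split {E : Finset (V × V)} {W : Finset V} {c : V → Bool} {I : Finset V} {o a b : V}
    (h : ReflTransGen (Mono (E ∪ I ×ˢ {o}) W c) a b) :
    ReflTransGen (Mono E W c) a b ∨
      ∃ i ∈ I, i ∈ W ∧ o ∈ W ∧ c i = c o ∧ ReflTransGen (Mono E W c) a i ∧
        ReflTransGen (Mono E W c) o b := by
  induction h with
  | refl => exact Or.inl ReflTransGen.refl
  | @tail x d _ hxd ih =>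
    obtain ⟨hE, hx, hd, hc⟩ := hxd
    rcases Finset.mem_union.1 hE with hE | hE
    · rcases ih with h | ⟨i, hi, h1, h2, h3, h4, h5⟩
      · exact Or.inl (h.tail ⟨hE, hx, hd, hc⟩)
      · exact Or.inr ⟨i, hi, h1, h2, h3, h4, h5.tail ⟨hE, hx, hd, hc⟩⟩
    · rw [Finset.mem_product] at hE
      obtain ⟨hxI, hdo⟩ := hE
      have hdo' : d = o := Finset.mem_singleton.1 hdo
      subst hdo'
      rcases ih with h | ⟨i, hi, h1, h2, h3, h4, -⟩
      · exact Or.inr ⟨x, hxI, hx, hd, hc, h, ReflTransGen.refl⟩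
      · exact Or.inr ⟨i, hi, h1, h2, h3, h4, ReflTransGen.refl⟩

/-- ROW P2. adding the arcs `I × {o}` -/
theorem val_add_heads {E : Finset (V × V)} {W : Finset V} {c : V → Bool} {I : Finset V} {o : V} :
    Val (E ∪ I ×ˢ {o}) W c ↔ Val E W c ∧
      (∀ i ∈ I, i ∈ W → o ∈ W → c i = c o → ¬ ReflTransGen (Mono E W c) o i) := by
  constructor
  · intro h
    refine ⟨h.anti Finset.subset_union_left (Finset.Subset.refl _), fun i hi hiW hoW hc hp => ?_⟩
    refine h.no_back (p := i) (q := o) ⟨?_, hiW, hoW, hc⟩ (rtg_mono (fun _ _ hpq => Mono.mono Finset.subset_union_left (Finset.Subset.refl _) hpq) hp)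
    exact Finset.mem_union_right _ (Finset.mem_product.2 ⟨hi, Finset.mem_singleton_self _⟩)
  · rintro ⟨hv, hI⟩
    apply val_of_no_back
    rintro p q ⟨hE, hp, hq, hc⟩ hback
    rcases Finset.mem_union.1 hE with hE | hE
    · rcases PathB_split hback with h | ⟨i, hi, h1, h2, h3, h4, h5⟩
      · exact hv.no_back ⟨hE, hp, hq, hc⟩ h
      · exact hI i hi h1 h2 h3 ((h5.tail ⟨hE, hp, hq, hc⟩).trans h4)
    · rw [Finset.mem_product] at hE
      obtain ⟨hpI, hqo⟩ := hE
      have hqo' : q = o := Finset.mem_singleton.1 hqo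
      subst hqo'
      rcases PathB_split hback with h | ⟨i, hi, h1, h2, h3, h4, -⟩
      · exact hI p hpI hp hq hc h
      · exact hI i hi h1 h2 h3 h4

/-- ROW P3. adding one arc -/
theorem val_insert_arc {E : Finset (V × V)} {W : Finset V} {c : V → Bool} {a b : V} :
    Val (insert (a, b) E) W c ↔ Val E W c ∧
      (a ∈ W → b ∈ W → c a = c b → ¬ ReflTransGen (Mono E W c) b a) := by
  have h : insert (a, b) E = E ∪ ({a} : Finset V) ×ˢ {b} := by
    rw [Finset.singleton_product_singleton, Finset.union_comm, Finset.insert_eq]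
  rw [h, val_add_heads]
  constructor
  · rintro ⟨h1, h2⟩
    exact ⟨h1, h2 a (Finset.mem_singleton_self _)⟩
  · rintro ⟨h1, h2⟩
    refine ⟨h1, fun i hi => ?_⟩
    rw [Finset.mem_singleton.1 hi]
    exact h2

end Mix
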