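import Pool.Agent.Lib.MP_784a73_co.Mix.Path0

/-! # ROW PathC: dead vertices

an inner vertex of a mono path, and each vertex of a mono cycle, has a mono in-arc and a mono out-arc, so it is not dead. -/

namespace Mix

open Finset Relation

set_option linter.unusedSectionVars false

variable {V : Type*} [DecidableEq V]

/-- a vertex `v` is dead for `c` in `(E, W)`: no mono in-arc or no mono out-arc -/
def Dead (E : Finset (V × V)) (W : Finset V) (c : V → Bool) (v : V) : Prop :=
  (∀ p ∈ W, (p, v) ∈ E → c p ≠ c v) ∨ (∀ q ∈ W, (v, q) ∈ E → c q ≠ c v)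

/-- a dead vertex has no mono in-arc together with a mono out-arc -/
theorem Dead.not_through {E : Finset (V × V)} {W : Finset V} {c : V → Bool} {p v q : V}
    (h : Dead E W c v) (h1 : Mono E W c p v) (h2 : Mono E W c v q) : False := by
  rcases h with h | h
  · exact h p h1.2.1 h1.1 h1.2.2.2
  · exact h q h2.2.2.1 h2.1 h2.2.2.2.symm

/-- ROW P5. dead vertices are not on mono paths between other vertices -/
theorem rtg_dead {E : Finset (V × V)} {W T : Finset V} {c : V → Bool}
    (hT : ∀ v ∈ T, Dead E W c v) {p q : V} (hp : p ∉ T) (hq : q ∉ T) (h : ReflTransGen (Mono E W c) p q) :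
    ReflTransGen (Mono E (W \ T) c) p q := by
  have key : ∀ r, ReflTransGen (Mono E W c) p r →
      (r ∉ T → ReflTransGen (Mono E (W \ T) c) p r) ∧ (r ∈ T → ∃ s, Mono E W c s r) := by
    intro r hr
    induction hr with
    | refl => exact ⟨fun _ => ReflTransGen.refl, fun h1 => absurd h1 hp⟩
    | @tail b d _ hbd ih =>
      have hb : b ∉ T := by
        intro hbT
        obtain ⟨s, hs⟩ := ih.2 hbT
        exact (hT b hbT).not_through hs hbd
      refine ⟨fun hd => (ih.1 hb).tail ⟨hbd.1, Finset.mem_sdiff.2 ⟨hbd.2.1, hb⟩,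
        Finset.mem_sdiff.2 ⟨hbd.2.2.1, hd⟩, hbd.2.2.2⟩, fun _ => ⟨b, hbd⟩⟩
  exact (key q h).1 hq

/-- ROW P4. dead vertices can be deleted -/
theorem val_dead {E : Finset (V × V)} {W T : Finset V} {c : V → Bool}
    (hT : ∀ v ∈ T, Dead E W c v) : Val E W c ↔ Val E (W \ T) c := by
  refine ⟨fun h => h.anti (Finset.Subset.refl _) Finset.sdiff_subset, fun h => ?_⟩
  apply val_of_no_back
  intro p q hpq hqp
  -- both `p` and `q` have a mono in-arc and a mono out-arc
  have hq : q ∉ T := by
    intro hqT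
    rcases ReflTransGen.cases_head hqp with h1 | ⟨s, h1, _⟩
    · subst h1
      exact (hT q hqT).not_through hpq hpq
    · exact (hT q hqT).not_through hpq h1
  have hp : p ∉ T := by
    intro hpT
    rcases ReflTransGen.cases_tail hqp with h1 | ⟨s, _, h1⟩
    · subst h1
      exact (hT p hpT).not_through hpq hpq
    · exact (hT p hpT).not_through h1 hpq
  exact h.no_back (p := p) (q := q) ⟨hpq.1, Finset.mem_sdiff.2 ⟨hpq.2.1, hp⟩,
    Finset.mem_sdiff.2 ⟨hpq.2.2.1, hq⟩, hpq.2.2.2⟩ (rtg_dead hT hq hp hqp)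

end Mix
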