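import Pool.Agent.Lib.MP_784a73_co.Mix.Path0

/-! # ROW PathD: reversal (`transGen_swap`, or induction) -/

namespace Mix

open Finset Relation

set_option linter.unusedSectionVars false

variable {V : Type*} [DecidableEq V]

/-- ROW P6. reversal -/
theorem val_rev {E : Finset (V × V)} {W : Finset V} {c : V → Bool} : Val (rev E) W c ↔ Val E W c := by
  have hmem : ∀ (E : Finset (V × V)) (p q : V), (p, q) ∈ rev E → (q, p) ∈ E := by
    intro E p q h
    simp only [rev, Finset.mem_image, Prod.swap, Prod.mk.injEq] at h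
    obtain ⟨⟨a, b⟩, h, rfl, rfl⟩ := h
    exact h
  have hmem' : ∀ (E : Finset (V × V)) (p q : V), (q, p) ∈ E → (p, q) ∈ rev E := by
    intro E p q h
    simp only [rev, Finset.mem_image, Prod.swap, Prod.mk.injEq]
    exact ⟨(q, p), h, rfl, rfl⟩
  have key : ∀ a b, TransGen (Mono (rev E) W c) a b → TransGen (Mono E W c) b a := by
    intro a b h
    induction h with
    | single h1 => exact TransGen.single ⟨hmem _ _ _ h1.1, h1.2.2.1, h1.2.1, h1.2.2.2.symm⟩
    | tail _ h2 ih => exact TransGen.head ⟨hmem _ _ _ h2.1, h2.2.2.1, h2.2.1, h2.2.2.2.symm⟩ ih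
  have key' : ∀ a b, TransGen (Mono E W c) a b → TransGen (Mono (rev E) W c) b a := by
    intro a b h
    induction h with
    | single h1 => exact TransGen.single ⟨hmem' _ _ _ h1.1, h1.2.2.1, h1.2.1, h1.2.2.2.symm⟩
    | tail _ h2 ih => exact TransGen.head ⟨hmem' _ _ _ h2.1, h2.2.2.1, h2.2.1, h2.2.2.2.symm⟩ ih
  exact ⟨fun h v hv => h v (key' v v hv), fun h v hv => h v (key v v hv)⟩

end Mix
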