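import Pool.Agent.Lib.MP_784a73_co.Mix.Basic

/-! # Monochromatic paths (proved) -/

namespace Mix

open Finset Relation

set_option linter.unusedSectionVars false

variable {V : Type*} [DecidableEq V]

/-- along a mono path the colour is constant -/
theorem rtg_color {E : Finset (V × V)} {W : Finset V} {c : V → Bool} {p q : V}
    (h : ReflTransGen (Mono E W c) p q) : c p = c q := by
  induction h with
  | refl => rfl
  | tail _ h1 ih => rw [ih, h1.2.2.2]

theorem tg_color {E : Finset (V × V)} {W : Finset V} {c : V → Bool} {p q : V}
    (h : TransGen (Mono E W c) p q) : c p = c q := rtg_color h.to_reflTransGen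

theorem tg_mem_right {E : Finset (V × V)} {W : Finset V} {c : V → Bool} {p q : V}
    (h : TransGen (Mono E W c) p q) : q ∈ W := by
  cases h with
  | single h => exact h.2.2.1
  | tail _ h => exact h.2.2.1

theorem tg_mem_left {E : Finset (V × V)} {W : Finset V} {c : V → Bool} {p q : V}
    (h : TransGen (Mono E W c) p q) : p ∈ W := by
  induction h with
  | single h => exact h.2.1
  | tail _ _ ih => exact ih

/-- a mono cycle that does not exist: arc `p → q` and mono path `q ⇒ p` -/
theorem Val.no_back {E : Finset (V × V)} {W : Finset V} {c : V → Bool} (h : Val E W c) {p q : V}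
    (h1 : Mono E W c p q) (h2 : ReflTransGen (Mono E W c) q p) : False :=
  h p (TransGen.head' h1 h2)

/-- `Val` from the absence of an arc with a way back -/
theorem val_of_no_back {E : Finset (V × V)} {W : Finset V} {c : V → Bool}
    (h : ∀ p q, Mono E W c p q → ¬ ReflTransGen (Mono E W c) q p) : Val E W c := by
  intro v hv
  obtain ⟨w, h1, h2⟩ := TransGen.head'_iff.1 hv
  exact h v w h1 h2

/-- restricting to a subset which all interior vertices of the paths avoid: a mono path in `W` from `p` to `q` either stays
in `W \ {z}` or goes through `z` -/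
theorem rtg_erase_or {E : Finset (V × V)} {W : Finset V} {c : V → Bool} {p q z : V}
    (h : ReflTransGen (Mono E W c) p q) (hp : p ≠ z) :
    ReflTransGen (Mono E (W.erase z) c) p q ∨
      ∃ r, r ≠ z ∧ ReflTransGen (Mono E (W.erase z) c) p r ∧ Mono E W c r z ∧ ReflTransGen (Mono E W c) z q := by
  induction h with
  | refl => exact Or.inl ReflTransGen.refl
  | @tail b d hb hbd ih =>
    rcases ih with h | ⟨r, hr, h1, h2, h3⟩
    · have hbz : b ≠ z ∨ b = z := by tauto
      rcases hbz with hbz | hbz
      · by_cases hdz : d = z
        · subst hdz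
          exact Or.inr ⟨b, hbz, h, hbd, ReflTransGen.refl⟩
        · exact Or.inl (h.tail ⟨hbd.1, Finset.mem_erase.2 ⟨hbz, hbd.2.1⟩, Finset.mem_erase.2 ⟨hdz, hbd.2.2.1⟩, hbd.2.2.2⟩)
      · subst hbz
        -- a path in `W.erase b` ending in `b` must be trivial
        exfalso
        rcases ReflTransGen.cases_tail h with h | ⟨x, _, hx⟩
        · exact hp h.symm
        · exact (Finset.notMem_erase _ _) hx.2.2.1
    · exact Or.inr ⟨r, hr, h1, h2, h3.tail hbd⟩

end Mix
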