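import Pool.Agent.Lib.MP_784a73_co.Mix.Path0

/-! # ROW PathA: adding a vertex

`→`: `Val.anti`, and a mono path `p ⇒ q` in `W` with `z → p`, `q → z` closes to a cycle through `z`.
`←`: let `v ⇒ v` be a mono cycle of `insert z W`.  If it avoids `z` it is in `W` (`erase_insert`, `rtg_erase_or`).  Otherwise there is a mono cycle at `z`:
`z → p ⇒ z`; by `rtg_erase_or` (with `W := insert z W`) cut at the first return to `z`: `z → p`, `p ⇒ q` in `W`, `q → z`. -/

namespace Mix

open Finset Relation

set_option linter.unusedSectionVars false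

variable {V : Type*} [DecidableEq V]

/-- ROW P1. adding a vertex `z`: a colouring is valid on `insert z W` iff it is valid on `W` and no mono path leads in `W` from an
out-neighbour of `z` to an in-neighbour of `z` in the colour of `z`. -/
theorem val_insert {E : Finset (V × V)} {W : Finset V} {c : V → Bool} {z : V} (hz : z ∉ W) (hloop : (z, z) ∉ E) :
    Val E (insert z W) c ↔ Val E W c ∧
      ∀ p ∈ W, ∀ q ∈ W, (z, p) ∈ E → (q, z) ∈ E → c p = c z → c q = c z → ¬ ReflTransGen (Mono E W c) p q := by
  constructor
  · intro h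
    refine ⟨Val.anti (Finset.Subset.refl E) (Finset.subset_insert z W) h, ?_⟩
    intro p hp q hq hzp hqz hcp hcq hpq
    refine h z (TransGen.head' (b := p) ⟨hzp, Finset.mem_insert_self z W,
      Finset.mem_insert_of_mem hp, hcp.symm⟩ ?_)
    refine ReflTransGen.tail (b := q) (rtg_mono (fun _ _ hab =>
      Mono.mono (Finset.Subset.refl E) (Finset.subset_insert z W) hab) hpq) ?_
    exact ⟨hqz, Finset.mem_insert_of_mem hq, Finset.mem_insert_self z W, hcq⟩
  · rintro ⟨hV, hno⟩
    have hWe : (insert z W).erase z = W := Finset.erase_insert hz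
    have mW : ∀ v, v ∈ insert z W → v ≠ z → v ∈ W := by
      intro v hv hvz
      rcases Finset.mem_insert.1 hv with h | h
      · exact absurd h hvz
      · exact h
    -- no cycle at `z`
    have hcz : ¬ TransGen (Mono E (insert z W) c) z z := by
      intro h
      obtain ⟨p, h1, h2⟩ := TransGen.head'_iff.1 h
      have hpz : p ≠ z := by
        rintro rfl
        exact hloop h1.1
      have hp : p ∈ W := mW p h1.2.2.1 hpz
      rcases rtg_erase_or h2 hpz with h3 | ⟨r, hr, h3, h4, -⟩
      · rw [hWe] at h3
        rcases ReflTransGen.cases_tail h3 with h5 | ⟨y, -, h5⟩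
        · exact hpz h5.symm
        · exact hz h5.2.2.1
      · rw [hWe] at h3
        have hrW : r ∈ W := mW r h4.2.1 hr
        exact hno p hp r hrW h1.1 h4.1 h1.2.2.2.symm h4.2.2.2 h3
    intro v hv
    obtain ⟨w, h1, h2⟩ := TransGen.head'_iff.1 hv
    by_cases hwz : w = z
    · subst hwz
      exact hcz (TransGen.tail' h2 h1)
    · by_cases hvz : v = z
      · subst hvz
        exact hcz hv
      · rcases rtg_erase_or h2 hwz with h3 | ⟨r, hr, h3, h4, h5⟩
        · rw [hWe] at h3
          refine hV v (TransGen.head' (b := w) ⟨h1.1, mW v h1.2.1 hvz, mW w h1.2.2.1 hwz,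
            h1.2.2.2⟩ h3)
        · rw [hWe] at h3
          have h6 : ReflTransGen (Mono E (insert z W) c) w r := rtg_mono (fun _ _ hab =>
            Mono.mono (Finset.Subset.refl E) (Finset.subset_insert z W) hab) h3
          exact hcz (TransGen.tail' ((h5.tail h1).trans h6) h4)

end Mix
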