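import Pool.Agent.Lib.MP_784a73_co.Mix.Degen

/-! # Closed sets of colourings, minimal counterexample (proved) -/

namespace Mix

open Finset Relation

set_option linter.unusedSectionVars false

variable {V : Type*} [DecidableEq V] [Fintype V]

/-- a set of valid colourings closed under valid flips (a union of components) -/
structure Closed (E : Finset (V × V)) (W : Finset V) (K : Set (V → Bool)) : Prop where
  val : ∀ c ∈ K, Val E W c
  step : ∀ c ∈ K, ∀ z, Val E W (flip c z) → flip c z ∈ K

theorem Closed.reach {E : Finset (V × V)} {W : Finset V} {K : Set (V → Bool)} (hK : Closed E W K)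
    {c c' : V → Bool} (hc : c ∈ K) (h : Reach E W c c') : c' ∈ K := by
  induction h with
  | refl => exact hc
  | tail _ hst ih =>
    obtain ⟨_, h2, z, rfl⟩ := hst
    exact hK.step _ ih z h2

/-- colourings which agree with an element of `K` on `W` are in `K` -/
theorem Closed.agree {E : Finset (V × V)} {W : Finset V} {K : Set (V → Bool)} (hK : Closed E W K)
    {c c' : V → Bool} (hc : c ∈ K) (h : ∀ v ∈ W, c v = c' v) : c' ∈ K :=
  hK.reach hc (reach_of_agree (hK.val c hc) h)

theorem CE.conn_ssub {E : Finset (V × V)} {W W' : Finset V} (h : CE E W) (hs : W' ⊂ W) : Conn E W' :=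
  h.ih E W' (Finset.card_lt_card hs) (h.good.sub hs.1)

theorem CE.conn_good {E E' : Finset (V × V)} {W W' : Finset V} (h : CE E W) (hs : W' ⊂ W) (hG : Good E' W') :
    Conn E' W' :=
  h.ih E' W' (Finset.card_lt_card hs) hG

theorem CE.two' {E : Finset (V × V)} {W W' : Finset V} (h : CE E W) (hs : W' ⊂ W) :
    ∀ H ⊆ W', H.Nonempty → 2 ≤ ff E H := fun H hH hn =>
  h.two H (hH.trans hs.1) hn (fun he => hs.2 (he ▸ hH))

theorem sdiff_ssub {W L : Finset V} (hLW : L ⊆ W) (hL : L.Nonempty) : W \ L ⊂ W := by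
  obtain ⟨l, hl⟩ := hL
  refine ⟨Finset.sdiff_subset, fun h => ?_⟩
  exact (Finset.mem_sdiff.1 (h (hLW hl))).2 hl

theorem reach_rev {E : Finset (V × V)} {W : Finset V} {c c' : V → Bool} :
    Reach (rev E) W c c' ↔ Reach E W c c' := by
  constructor
  · exact fun h => rtg_mono (fun _ _ h1 => ⟨val_rev.1 h1.1, val_rev.1 h1.2.1, h1.2.2⟩) h
  · exact fun h => rtg_mono (fun _ _ h1 => ⟨val_rev.2 h1.1, val_rev.2 h1.2.1, h1.2.2⟩) h

theorem conn_rev {E : Finset (V × V)} {W : Finset V} : Conn (rev E) W ↔ Conn E W := by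
  constructor
  · exact fun h c c' hc hc' => reach_rev.1 (h c c' (val_rev.2 hc) (val_rev.2 hc'))
  · exact fun h c c' hc hc' => reach_rev.2 (h c c' (val_rev.1 hc) (val_rev.1 hc'))

theorem Closed.rev {E : Finset (V × V)} {W : Finset V} {K : Set (V → Bool)} (hK : Closed E W K) :
    Closed (rev E) W K :=
  ⟨fun c hc => val_rev.2 (hK.val c hc), fun c hc z hz => hK.step c hc z (val_rev.1 hz)⟩

/-- a minimal counterexample is symmetric under reversal -/
theorem CE.rev {E : Finset (V × V)} {W : Finset V} (h : CE E W) : CE (rev E) W where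
  ih := h.ih
  good := h.good.rev
  two := fun H hH hn hne => by rw [ff_rev]; exact h.two H hH hn hne
  disc := fun hc => h.disc (conn_rev.1 hc)

end Mix
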