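import Pool.Agent.Lib.MP_784a73_co.Mix.PrP

/-! # ROW PrF: principle (FX)

Let `S h := ∃ c ∈ K, c = c0 on L, c = h on H0` and `h b = c0 b`.  Claim: every valid colouring `h` of `(E, H0)` satisfies `S h`; contradiction for `h := neg c0` (`neg c0 b ≠ c0 b`).
`Conn.induct` for `(E, H0)` (connected: `H0 ⊂ W`, `hCE.conn_ssub`), `P h := h b = c0 b ∧ ∃ c ∈ K, (∀ l ∈ L, c l = c0 l) ∧ ∀ p ∈ H0, c p = h p`, start `c0`.
Fibre: if `S h` holds, then every `c` valid on `W \ L` with `c = c0` on `L`, `c = h` on `H0` is in `K`: `princPX_mem` with `E' := E`, `c0 :=` the witness of `S h` (its `hext` from `hext`).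
Step: flip of `z ∈ H0`, `z ≠ b` (`z ∉ H0`: nothing changes on `H0`): `ext_flip` on `W \ L`: `c` with `c = h` on `H0`, `c` and `flip c z` valid on `W \ L`; make it `c0` on `L` (`mix`); by the fibre claim `c ∈ K`;
`flip c z` is valid on `W` by `hext`, so it is in `K`.
Step: flip of `b`: `hAv` and `ext_flip_pin` on `W \ L` give `c` with `c = h` on `H0`, `c w = om`, valid on `W \ L` and `Val (E ∪ A') (W \ L) (flip c b)`; `c ∈ K` by the fibre claim: contradiction to `hno`. -/

namespace Mix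

open Finset Relation

set_option linter.unusedSectionVars false

variable {V : Type*} [DecidableEq V] [Fintype V]

/-- ROW X4 (FX) fibration principle (3.11). `H0` is the largest set with `f = 2` containing `b` in `W \ L`. -/
theorem princFX {E A' : Finset (V × V)} {W L H0 : Finset V} (hCE : CE E W) (hLW : L ⊆ W) (hL : L.Nonempty)
    (hH0 : H0 ⊆ W \ L)
    (hg : ∀ Y ⊆ (W \ L) \ H0, Y.Nonempty → ff E H0 + 1 ≤ ff E (Y ∪ H0))
    {K : Set (V → Bool)} (hK : Closed E W K) {c0 : V → Bool} (h0 : c0 ∈ K)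
    {b w : V} (hb : b ∈ H0) (hw : w ∈ (W \ L) \ H0) (hwb : deg E H0 w = 1) {om : Bool}
    -- every valid colouring of `W \ L` with the colours of `c0` on `L` and at `b` is valid
    (hext : ∀ c, (∀ l ∈ L, c l = c0 l) → c b = c0 b → Val E (W \ L) c → Val E W c)
    -- additional arcs in the flipped copy
    (hA' : ∀ a ∈ A', a.1 ∈ insert w H0 ∧ a.2 ∈ insert w H0)
    (hAv : ∀ h, Val E H0 h → Val E H0 (flip h b) → h b = c0 b → (∃ c ∈ K, (∀ l ∈ L, c l = c0 l) ∧ ∀ p ∈ H0, c p = h p) →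
      Val (E ∪ A') (insert w H0) (Function.update (flip h b) w om))
    -- no element of `K` of this kind with colour `om` at `w` has a valid `b`-flip in `(E ∪ A', W \ L)`
    (hno : ∀ c ∈ K, (∀ l ∈ L, c l = c0 l) → c b = c0 b → c w = om → ¬ Val (E ∪ A') (W \ L) (flip c b)) :
    False := by
  have hM : W \ L ⊂ W := sdiff_ssub hLW hL
  have hG : Good E (W \ L) := hCE.good.sub hM.1
  have hO : Ori E (W \ L) := hG.1
  have hconn : Conn E H0 := hCE.conn_ssub (Finset.ssubset_of_subset_of_ssubset hH0 hM)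
  have hH0W : H0 ⊆ W := hH0.trans hM.1
  have hnL : ∀ p ∈ W \ L, p ∉ L := fun p hp => (Finset.mem_sdiff.1 hp).2
  have hmixM : ∀ (c : V → Bool), ∀ v ∈ W \ L, c v = mix L c0 c v := by
    intro c v hv
    simp [mix, hnL v hv]
  have hmixL : ∀ (c : V → Bool), ∀ l ∈ L, mix L c0 c l = c0 l := by
    intro c l hl
    simp [mix, hl]
  -- the fibre claim
  have hfib : ∀ h : V → Bool, h b = c0 b →
      (∃ c ∈ K, (∀ l ∈ L, c l = c0 l) ∧ ∀ p ∈ H0, c p = h p) →
      ∀ c, (∀ l ∈ L, c l = c0 l) → (∀ p ∈ H0, c p = h p) → Val E (W \ L) c → c ∈ K := by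
    rintro h hhb ⟨c1, hc1K, hc1L, hc1H⟩ c hcL hcH hcv
    refine princPX_mem hCE hLW hL hG hH0 hg hK hc1K ((hK.val c1 hc1K).anti (Finset.Subset.refl _) hM.1)
      ?_ c (fun l hl => by rw [hcL l hl, hc1L l hl]) (fun p hp => by rw [hcH p hp, hc1H p hp]) hcv
    intro d hdL hdH hdv
    refine hext d (fun l hl => by rw [hdL l hl, hc1L l hl]) ?_ hdv
    rw [hdH b hb, hc1H b hb, hhb]
  have hall : ∀ h, Val E H0 h → (h b = c0 b ∧ ∃ c ∈ K, (∀ l ∈ L, c l = c0 l) ∧ ∀ p ∈ H0, c p = h p) := by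
    refine Conn.induct hconn ((hK.val c0 h0).anti (Finset.Subset.refl _) hH0W)
      (P := fun h => h b = c0 b ∧ ∃ c ∈ K, (∀ l ∈ L, c l = c0 l) ∧ ∀ p ∈ H0, c p = h p)
      ⟨rfl, c0, h0, fun _ _ => rfl, fun _ _ => rfl⟩ ?_
    rintro h hh ⟨hhb, hex⟩ z hhz
    by_cases hz : z ∈ H0
    · by_cases hzb : z = b
      · subst hzb
        exfalso
        have hAvh := hAv h hh hhz hhb hex
        obtain ⟨c, hcH, hcw, hcv, hcf⟩ := ext_flip_pin hH0 hO hg hb hw hwb hA' hh hAvh
        have hcK : mix L c0 c ∈ K := by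
          refine hfib h hhb hex _ (hmixL c) (fun p hp => ?_) (hcv.congr (hmixM c))
          rw [← hmixM c p (hH0 hp), hcH p hp]
        refine hno _ hcK (hmixL c) ?_ ?_ ?_
        · rw [← hmixM c z (hH0 hz), hcH z hz, hhb]
        · rw [← hmixM c w (Finset.mem_sdiff.1 hw).1, hcw]
        · refine hcf.congr (fun v hv => ?_)
          by_cases hvz : v = z
          · subst hvz
            rw [flip_self, flip_self, ← hmixM c v hv]
          · rw [flip_of_ne hvz, flip_of_ne hvz, ← hmixM c v hv]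
      · obtain ⟨c, hcH, hcv, hcf⟩ := ext_flip hH0 hO hg hz hh hhz
        have hcK : mix L c0 c ∈ K := by
          refine hfib h hhb hex _ (hmixL c) (fun p hp => ?_) (hcv.congr (hmixM c))
          rw [← hmixM c p (hH0 hp), hcH p hp]
        have hbz : b ≠ z := fun e => hzb e.symm
        have hfL : ∀ l ∈ L, flip (mix L c0 c) z l = c0 l := by
          intro l hl
          have hlz : l ≠ z := fun e => hnL z (hH0 hz) (e ▸ hl)
          rw [flip_of_ne hlz, hmixL c l hl]
        have hfK : flip (mix L c0 c) z ∈ K := by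
          refine hK.step _ hcK z (hext _ hfL ?_ ?_)
          · rw [flip_of_ne hbz, ← hmixM c b (hH0 hb), hcH b hb, hhb]
          · refine hcf.congr (fun v hv => ?_)
            by_cases hvz : v = z
            · subst hvz
              rw [flip_self, flip_self, ← hmixM c v hv]
            · rw [flip_of_ne hvz, flip_of_ne hvz, ← hmixM c v hv]
        refine ⟨by rw [flip_of_ne hbz, hhb], _, hfK, hfL, fun p hp => ?_⟩
        by_cases hpz : p = z
        · subst hpz
          rw [flip_self, flip_self, ← hmixM c p (hH0 hp), hcH p hp]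
        · rw [flip_of_ne hpz, flip_of_ne hpz, ← hmixM c p (hH0 hp), hcH p hp]
    · have hbz : b ≠ z := fun e => hz (e ▸ hb)
      obtain ⟨c1, hc1K, hc1L, hc1H⟩ := hex
      refine ⟨by rw [flip_of_ne hbz, hhb], c1, hc1K, hc1L, fun p hp => ?_⟩
      have hpz : p ≠ z := fun e => hz (e ▸ hp)
      rw [flip_of_ne hpz, hc1H p hp]
  have hfin := (hall (neg c0) (((hK.val c0 h0).anti (Finset.Subset.refl _) hH0W).neg)).1
  rw [neg_apply] at hfin
  cases h : c0 b <;> simp [h] at hfin

end Mix
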