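import Pool.Agent.Lib.MP_784a73_co.Mix.Pr0
import Pool.Agent.Lib.MP_784a73_co.Mix.LA

/-! # ROW PrP: principle (PX)

`princPX_mem`: `(E', W \ L)` is a pinned system for `P1` (with `W := W \ L`, `H0`, `E := E'`; `hC`: `Conn E' Z` for `Z ⊆ (W \ L) \ H0` from `hCE.conn_good` and `hG.sub`), so for `c` as in `hext` there is a
path from `c0` to `c` off `H0` in `(E', W \ L)`; restrict the path to be constant on `L` (replace each `d` by `mix L c0 d`): each colouring is valid on `W` by `hext` and consecutive ones differ by a flip or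
agree on `W`; so all are in `K` (`hK.step`, `Closed.agree`).
`princPX`: `lemE` for `(E', W \ L)`, `h := c0`, `x`, `a` gives `c` valid with `c = c0` on `H0`, `c x = a`; take `mix L c0 c`. -/

namespace Mix

open Finset Relation

set_option linter.unusedSectionVars false

variable {V : Type*} [DecidableEq V] [Fintype V]

theorem prp_mix_off {L : Finset V} {s c : V → Bool} {v : V} (hv : v ∉ L) : mix L s c v = c v := by
  simp [mix, hv]

theorem prp_mix_on {L : Finset V} {s c : V → Bool} {v : V} (hv : v ∈ L) : mix L s c v = s v := by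
  simp [mix, hv]

theorem prp_mix_flip_on {L : Finset V} {s c : V → Bool} {z : V} (hz : z ∈ L) :
    mix L s (flip c z) = mix L s c := by
  funext v
  by_cases hv : v ∈ L
  · rw [prp_mix_on hv, prp_mix_on hv]
  · have hne : v ≠ z := fun h => hv (h ▸ hz)
    rw [prp_mix_off hv, prp_mix_off hv, flip_of_ne hne]

theorem prp_mix_flip_off {L : Finset V} {s c : V → Bool} {z : V} (hz : z ∉ L) :
    mix L s (flip c z) = flip (mix L s c) z := by
  funext v
  by_cases hvz : v = z
  · subst hvz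
    rw [prp_mix_off hz, flip_self, flip_self, prp_mix_off hz]
  · rw [flip_of_ne hvz]
    by_cases hv : v ∈ L
    · rw [prp_mix_on hv, prp_mix_on hv]
    · rw [prp_mix_off hv, prp_mix_off hv, flip_of_ne hvz]

/-- ROW X3. every colouring as in `hext` is in `K`. -/
theorem princPX_mem {E E' : Finset (V × V)} {W L H0 : Finset V} (hCE : CE E W) (hLW : L ⊆ W) (hL : L.Nonempty)
    (hG : Good E' (W \ L)) (hH0 : H0 ⊆ W \ L)
    (hg : ∀ Y ⊆ (W \ L) \ H0, Y.Nonempty → ff E' H0 + 1 ≤ ff E' (Y ∪ H0))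
    {K : Set (V → Bool)} (hK : Closed E W K) {c0 : V → Bool} (h0 : c0 ∈ K) (h0v : Val E' (W \ L) c0)
    (hext : ∀ c, (∀ l ∈ L, c l = c0 l) → (∀ p ∈ H0, c p = c0 p) → Val E' (W \ L) c → Val E W c) :
    ∀ c, (∀ l ∈ L, c l = c0 l) → (∀ p ∈ H0, c p = c0 p) → Val E' (W \ L) c → c ∈ K := by
  intro c hcL hcH hcv
  have hss : W \ L ⊂ W := sdiff_ssub hLW hL
  have hC : ∀ Z ⊆ (W \ L) \ H0, Conn E' Z := by
    intro Z hZ
    have hZ' : Z ⊆ W \ L := hZ.trans Finset.sdiff_subset
    exact hCE.conn_good (Finset.ssubset_of_subset_of_ssubset hZ' hss) (hG.sub hZ')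
  have hR : ReachOff E' (W \ L) H0 c0 c :=
    P1 hH0 hG.1 hg hC h0v hcv (fun p hp => (hcH p hp).symm)
  have key : ∀ d, ReachOff E' (W \ L) H0 c0 d →
      (∀ p ∈ H0, d p = c0 p) ∧ Val E' (W \ L) d ∧ mix L c0 d ∈ K := by
    intro d hd
    induction hd with
    | refl =>
      refine ⟨fun _ _ => rfl, h0v, ?_⟩
      have : mix L c0 c0 = c0 := by
        funext v; unfold mix; split_ifs <;> rfl
      rw [this]; exact h0
    | @tail d1 d2 _ hst ih =>
      obtain ⟨ih1, ih2, ih3⟩ := ih
      obtain ⟨_, hv2, z, hzH, rfl⟩ := hst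
      have hagr : ∀ p ∈ H0, flip d1 z p = c0 p := by
        intro p hp
        have : p ≠ z := fun h => hzH (h ▸ hp)
        rw [flip_of_ne this]; exact ih1 p hp
      refine ⟨hagr, hv2, ?_⟩
      by_cases hz : z ∈ L
      · rw [prp_mix_flip_on hz]; exact ih3
      · have hval : Val E W (mix L c0 (flip d1 z)) := by
          apply hext
          · intro l hl; exact prp_mix_on hl
          · intro p hp
            rw [prp_mix_off (Finset.mem_sdiff.1 (hH0 hp)).2]
            exact hagr p hp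
          · refine hv2.congr ?_
            intro v hv
            rw [prp_mix_off (Finset.mem_sdiff.1 hv).2]
        rw [prp_mix_flip_off hz] at hval ⊢
        exact hK.step _ ih3 z hval
  have h3 := (key c hR).2.2
  have : mix L c0 c = c := by
    funext v
    by_cases hv : v ∈ L
    · rw [prp_mix_on hv, hcL v hv]
    · exact prp_mix_off hv
  rwa [this] at h3

/-- ROW X3 (PX). pinned version: `H0 ⊆ W \ L` with slack at least one outside for `E'`; every colouring valid for `(E', W \ L)` with the colours of `c0` on `L` and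
on `H0` is valid in `(E, W)`. Then every vertex `x` of `W \ L \ H0` takes both colours in `K` (with the colours of `c0` on `L` and `H0`, and valid for `E'`). -/
theorem princPX {E E' : Finset (V × V)} {W L H0 : Finset V} (hCE : CE E W) (hLW : L ⊆ W) (hL : L.Nonempty)
    (hG : Good E' (W \ L)) (hH0 : H0 ⊆ W \ L)
    (hg : ∀ Y ⊆ (W \ L) \ H0, Y.Nonempty → ff E' H0 + 1 ≤ ff E' (Y ∪ H0))
    {K : Set (V → Bool)} (hK : Closed E W K) {c0 : V → Bool} (h0 : c0 ∈ K) (h0v : Val E' (W \ L) c0)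
    (hext : ∀ c, (∀ l ∈ L, c l = c0 l) → (∀ p ∈ H0, c p = c0 p) → Val E' (W \ L) c → Val E W c)
    {x : V} (hx : x ∈ (W \ L) \ H0) (a : Bool) :
    ∃ c ∈ K, (∀ l ∈ L, c l = c0 l) ∧ (∀ p ∈ H0, c p = c0 p) ∧ Val E' (W \ L) c ∧ c x = a := by
  have h0H : Val E' H0 c0 := h0v.anti (Finset.Subset.refl _) hH0
  obtain ⟨c, hcv, hcH, hcx⟩ := lemE hH0 hG.1 hg h0H hx a
  have hv : Val E' (W \ L) (mix L c0 c) := by
    refine hcv.congr ?_
    intro v hv
    rw [prp_mix_off (Finset.mem_sdiff.1 hv).2]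
  have hL' : ∀ l ∈ L, mix L c0 c l = c0 l := fun l hl => prp_mix_on hl
  have hH' : ∀ p ∈ H0, mix L c0 c p = c0 p := by
    intro p hp
    rw [prp_mix_off (Finset.mem_sdiff.1 (hH0 hp)).2]
    exact hcH p hp
  refine ⟨mix L c0 c, princPX_mem hCE hLW hL hG hH0 hg hK h0 h0v hext _ hL' hH' hv, hL', hH', hv, ?_⟩
  rw [prp_mix_off (Finset.mem_sdiff.1 (Finset.mem_sdiff.1 hx).1).2]
  exact hcx

end Mix
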