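import Pool.Agent.Lib.MP_784a73_co.Mix.Pr0

/-! # ROW PrX: principle (X)

`princX`: put `s(c) := mix L c0 c` (`c0` on `L`, `c` elsewhere).  `Conn.induct` for `hCE.conn_good (sdiff_ssub hLW hL) hG` with `P c := mix L c0 c ∈ K`, start `c0`
(`mix L c0 c0 = c0`).  Step: `c` valid for `(E', W \ L)`, `mix L c0 c ∈ K`, `flip c z` valid: if `z ∉ L`, `z ∈ W`: `hstep` for `mix L c0 c` gives `Val E W (flip (mix L c0 c) z)`, which is in `K` by
`hK.step`, and it equals `mix L c0 (flip c z)`; `z ∉ W`: `Closed.agree`; `z ∈ L`: `mix L c0 (flip c z) = mix L c0 c`.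
`princX_false`: `(neg c0)` is valid for `(E', W \ L)`, so `mix L c0 (neg c0) ∈ K`, but its colour at `p` is `!c0 p`. -/

namespace Mix

open Finset Relation

set_option linter.unusedSectionVars false

variable {V : Type*} [DecidableEq V] [Fintype V]

/-- ROW X2 (X). `K` closed, `L` a set of vertices, `E'` another arc set on `W \ L` satisfying the hypothesis of the theorem, `c0 ∈ K` valid for `E'`; every valid
flip in `(E', W \ L)` of an element of `K` (with the colours of `c0` on `L`) is valid in `(E, W)`. Then all colourings valid for `(E', W \ L)` with the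
colours of `c0` on `L` are in `K`. -/
theorem princX {E E' : Finset (V × V)} {W L : Finset V} (hCE : CE E W) (hLW : L ⊆ W) (hL : L.Nonempty)
    (hG : Good E' (W \ L)) {K : Set (V → Bool)} (hK : Closed E W K) {c0 : V → Bool} (h0 : c0 ∈ K)
    (h0v : Val E' (W \ L) c0)
    (hstep : ∀ c ∈ K, (∀ l ∈ L, c l = c0 l) → Val E' (W \ L) c → ∀ z ∈ W \ L, Val E' (W \ L) (flip c z) →
      Val E W (flip c z)) :
    ∀ c, (∀ l ∈ L, c l = c0 l) → Val E' (W \ L) c → c ∈ K := by
  have hmixL : ∀ c : V → Bool, ∀ l ∈ L, mix L c0 c l = c0 l := by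
    intro c l hl
    simp [mix, hl]
  have hmixN : ∀ c : V → Bool, ∀ v, v ∉ L → mix L c0 c v = c v := by
    intro c v hv
    simp [mix, hv]
  have hvalmix : ∀ c : V → Bool, Val E' (W \ L) c → Val E' (W \ L) (mix L c0 c) := by
    intro c hc
    exact hc.congr (fun v hv => (hmixN c v (Finset.mem_sdiff.1 hv).2).symm)
  have key : ∀ c, Val E' (W \ L) c → mix L c0 c ∈ K := by
    refine Conn.induct (hCE.conn_good (sdiff_ssub hLW hL) hG) (P := fun c => mix L c0 c ∈ K) h0v ?_ ?_
    · have : mix L c0 c0 = c0 := by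
        funext v
        by_cases hv : v ∈ L
        · exact hmixL c0 v hv
        · exact hmixN c0 v hv
      show mix L c0 c0 ∈ K
      rw [this]
      exact h0
    · intro c hc hP z hz
      have hP' : mix L c0 c ∈ K := hP
      show mix L c0 (flip c z) ∈ K
      by_cases hzL : z ∈ L
      · have : mix L c0 (flip c z) = mix L c0 c := by
          funext v
          by_cases hv : v ∈ L
          · rw [hmixL _ v hv, hmixL _ v hv]
          · have hvz : v ≠ z := fun h => hv (h ▸ hzL)
            rw [hmixN _ v hv, hmixN _ v hv, flip_of_ne hvz]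
        rw [this]
        exact hP'
      · have hfm : flip (mix L c0 c) z = mix L c0 (flip c z) := by
          funext v
          by_cases hv : v ∈ L
          · have hvz : v ≠ z := fun h => hzL (h ▸ hv)
            rw [flip_of_ne hvz, hmixL _ v hv, hmixL _ v hv]
          · by_cases hvz : v = z
            · subst hvz
              rw [flip_self, hmixN _ v hv, hmixN _ v hv, flip_self]
            · rw [flip_of_ne hvz, hmixN _ v hv, hmixN _ v hv, flip_of_ne hvz]
        by_cases hzW : z ∈ W
        · have hzWL : z ∈ W \ L := Finset.mem_sdiff.2 ⟨hzW, hzL⟩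
          have hv2 : Val E' (W \ L) (flip (mix L c0 c) z) := by
            rw [hfm]; exact hvalmix _ hz
          have := hstep _ hP' (hmixL c) (hvalmix c hc) z hzWL hv2
          rw [← hfm]
          exact hK.step _ hP' z this
        · refine hK.agree hP' ?_
          intro v hv
          have hvz : v ≠ z := fun h => hzW (h ▸ hv)
          rw [← hfm, flip_of_ne hvz]
  intro c hcL hc
  have h1 := key c hc
  have : mix L c0 c = c := by
    funext v
    by_cases hv : v ∈ L
    · rw [hmixL _ v hv, hcL v hv]
    · exact hmixN c v hv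
  rw [← this]
  exact h1

/-- ROW X2. (X), contradiction form: no vertex outside `L` is frozen. -/
theorem princX_false {E E' : Finset (V × V)} {W L : Finset V} (hCE : CE E W) (hLW : L ⊆ W) (hL : L.Nonempty)
    (hG : Good E' (W \ L)) {K : Set (V → Bool)} (hK : Closed E W K) {c0 : V → Bool} (h0 : c0 ∈ K)
    (h0v : Val E' (W \ L) c0)
    (hstep : ∀ c ∈ K, (∀ l ∈ L, c l = c0 l) → Val E' (W \ L) c → ∀ z ∈ W \ L, Val E' (W \ L) (flip c z) →
      Val E W (flip c z))
    {p : V} (hp : p ∈ W \ L) (hfr : ∀ c ∈ K, c p = c0 p) : False := by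
  have hpL : p ∉ L := (Finset.mem_sdiff.1 hp).2
  have h1 : Val E' (W \ L) (mix L c0 (neg c0)) := by
    refine (h0v.neg).congr ?_
    intro v hv
    simp [mix, (Finset.mem_sdiff.1 hv).2]
  have h2 : ∀ l ∈ L, mix L c0 (neg c0) l = c0 l := by
    intro l hl
    simp [mix, hl]
  have h3 := princX hCE hLW hL hG hK h0 h0v hstep _ h2 h1
  have h4 := hfr _ h3
  have h5 : mix L c0 (neg c0) p = !c0 p := by simp [mix, hpL]
  rw [h5] at h4
  revert h4
  cases c0 p <;> simp

end Mix
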