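import Pool.Agent.Lib.MP_784a73_co.Mix.Nb

/-! # MP_784a73_co, section 4: definitions (S4Defs) -/

namespace Mix

open Finset Relation

set_option linter.unusedSectionVars false

variable {V : Type*} [DecidableEq V] [Fintype V]

/-- `x` together with `T(x)` -/
noncomputable def Lx (E : Finset (V × V)) (W : Finset V) (x : V) : Finset V := insert x (Tset E W x)

/-- the in-neighbours of `x` outside `T(x)` -/
noncomputable def Em (E : Finset (V × V)) (W : Finset V) (x : V) : Finset V := inN E W x \ Tset E W x

/-- the out-neighbours of `x` outside `T(x)` -/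
noncomputable def Ep (E : Finset (V × V)) (W : Finset V) (x : V) : Finset V := outN E W x \ Tset E W x

open Classical in
/-- colour `T(x)` opposite to `x` -/
noncomputable def fill (E : Finset (V × V)) (W : Finset V) (x : V) (c : V → Bool) : V → Bool :=
  fun v => if v ∈ Tset E W x then !c x else c v

open Classical in
/-- colour the vertices `v` of `T(x)` with `x → v` by `h`, those with `v → x` by `!h` -/
noncomputable def setT (E : Finset (V × V)) (W : Finset V) (x : V) (h : Bool) (c : V → Bool) : V → Bool :=
  fun v => if TP E W x v then h else if TM E W x v then !h else c v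

/-- all vertices of `T(x)` are DT (double triangles) -/
def AllDT (E : Finset (V × V)) (W : Finset V) (x : V) : Prop :=
  (∀ v, TP E W x v → ∀ w ∈ outN E W v, (w, x) ∈ E) ∧ ∀ v, TM E W x v → ∀ y ∈ inN E W v, (x, y) ∈ E

open Classical in
/-- outside vertices touched by `T⁺(x)` -/
noncomputable def Op (E : Finset (V × V)) (W : Finset V) (x : V) : Finset V :=
  (W \ Lx E W x).filter fun w => ∃ v, TP E W x v ∧ (v, w) ∈ E

open Classical in
/-- outside vertices touching `T⁻(x)` -/
noncomputable def Om (E : Finset (V × V)) (W : Finset V) (x : V) : Finset V :=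
  (W \ Lx E W x).filter fun y => ∃ v, TM E W x v ∧ (y, v) ∈ E

/-- the auxiliary digraph: `T(x)` is replaced by one vertex `z` (`x → z → q₁, q₂`) -/
noncomputable def domE (E : Finset (V × V)) (W : Finset V) (x z q₁ q₂ : V) : Finset (V × V) :=
  E.filter (fun a => a.1 ∉ Tset E W x ∧ a.2 ∉ Tset E W x) ∪ {(x, z), (z, q₁), (z, q₂)}

/-- `v` is a BETA vertex with `x → v`, `w` is its out-neighbour not adjacent to `x` -/
def BP (E : Finset (V × V)) (W : Finset V) (x v w : V) : Prop := TP E W x v ∧ w ∈ outN E W v ∧ (w, x) ∉ E

/-- `v` is a BETA vertex with `v → x`, `w` is its in-neighbour not adjacent to `x` -/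
def BM (E : Finset (V × V)) (W : Finset V) (x v w : V) : Prop := TM E W x v ∧ w ∈ inN E W v ∧ (x, w) ∉ E

/-- the class of the colourings which are not joined to their complement and have `c x = true` -/
def Kx (E : Finset (V × V)) (W : Finset V) (x : V) : Set (V → Bool) := {c | Bad E W c ∧ c x = true}

/-- the structure found at a vertex `v` of degree three whose apex `u` has degree 4 (type II: `w` not adjacent to `u`; type III.1: `w = a`) -/
structure SP (E : Finset (V × V)) (W : Finset V) (x v u a b w : V) : Prop where
  vW : v ∈ W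
  inv : inN E W v = {u}
  outv : outN E W v = {x, w}
  inu : inN E W u = {x, a}
  outu : outN E W u = {v, b}
  hxw : x ≠ w
  hxa : x ≠ a
  hvb : v ≠ b
  ax : (a, x) ∈ E
  bx : (b, x) ∈ E
  wx : (w, x) ∈ E
  ba : (b, a) ∉ E
  hw : w = a ∨ ((w, u) ∉ E ∧ (u, w) ∉ E)
  /-- colours of the colourings that are not joined to their complement -/
  bad : ∀ c, Bad E W c → c u = !c x ∧ c v = c x ∧ c a = !c x ∧ c w = !c x

open Classical in
/-- the vertices of degree 3 assigned to `x` because their apex has degree 4 -/
noncomputable def Sset (E : Finset (V × V)) (W : Finset V) (x : V) : Finset V :=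
  W.filter fun v => ∃ u a b w, SP E W x v u a b w ∨ SP (rev E) W x v u a b w

end Mix
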