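import Pool.Agent.Lib.MP_784a73_co.Mix.SV0b

/-! # MP_784a73_co, row S-B0 -/

namespace Mix

open Finset Relation

set_option linter.unusedSectionVars false

variable {V : Type*} [DecidableEq V] [Fintype V] {E : Finset (V × V)} {W : Finset V} {x : V}

theorem BP_rev {v w : V} : BP (rev E) W x v w ↔ BM E W x v w := by
  unfold BP BM
  rw [TP_rev, outN_rev, mem_rev]

theorem BM_rev {v w : V} : BM (rev E) W x v w ↔ BP E W x v w := by
  unfold BP BM
  rw [TM_rev, inN_rev, mem_rev]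

theorem Kx_rev : Kx (rev E) W x = Kx E W x := by
  ext c
  constructor
  · rintro ⟨h1, h2⟩
    exact ⟨Bad.rev_iff.1 h1, h2⟩
  · rintro ⟨h1, h2⟩
    exact ⟨Bad.rev_iff.2 h1, h2⟩

theorem not_AllDT (h : ¬ AllDT E W x) : ∃ v w, BP E W x v w ∨ BM E W x v w := by
  by_contra hcon
  push Not at hcon
  apply h
  refine ⟨fun v hv w hw => ?_, fun v hv y hy => ?_⟩
  · by_contra hwx
    exact (hcon v w).1 ⟨hv, hw, hwx⟩
  · by_contra hxy
    exact (hcon v y).2 ⟨hv, hy, hxy⟩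

theorem sb0_col_P (hC : CE E W) {v w : V} (h : BP E W x v w) {c : V → Bool} (hc : c ∈ Kx E W x) :
    w ∈ W \ Lx E W x ∧ c w = true := by
  obtain ⟨hv, hw, hwx⟩ := h
  obtain ⟨hc1, hc2⟩ := hc
  have h1 := hC.bad_beta hv hw hwx hc1
  have h2 := hC.out_cases hv hw
  have hwW : w ∈ W := (mem_outN.1 hw).1
  refine ⟨?_, by rw [h1.2.1, hc2]⟩
  rcases h2.2.2 with h3 | h3 | h3
  · exact absurd (TM.arc h3).1 hwx
  · rw [Em, Finset.mem_sdiff, mem_inN] at h3
    exact absurd h3.1.2 hwx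
  · exact Finset.mem_sdiff.2 ⟨hwW, h3.1⟩

/-- the non-adjacent neighbour of a BETA vertex is outside `L(x)` and `true` in `Kx` (`bad_beta`, reversal for `BM`) -/
theorem CE.beta_col (hC : CE E W) {v w : V} (h : BP E W x v w ∨ BM E W x v w) {c : V → Bool} (hc : c ∈ Kx E W x) :
    w ∈ W \ Lx E W x ∧ c w = true := by
  rcases h with h | h
  · exact sb0_col_P hC h hc
  · have h1 := sb0_col_P hC.rev (BP_rev.2 h) (c := c) (by rw [Kx_rev]; exact hc)
    rwa [Lx_rev] at h1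

theorem sb0_closed_P (hC : CE E W) {v w : V} (h : BP E W x v w) :
    Closed E W (Kx E W x) ∧ ∃ c, c ∈ Kx E W x := by
  obtain ⟨hv, hw, hwx⟩ := h
  refine ⟨Bad.closed_frozen true fun c hc => (hC.bad_beta_frozen hv hw hwx hc).1, ?_⟩
  obtain ⟨c, hc⟩ := hC.exists_bad hv hw hwx
  by_cases h1 : c x = true
  · exact ⟨c, hc, h1⟩
  · exact ⟨neg c, hc.neg, by simpa using h1⟩

/-- if a BETA vertex exists then `x` cannot be flipped in `Bad` colourings, so `Kx` is closed and nonempty -/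
theorem CE.Kx_closed (hC : CE E W) (hB : ∃ v w, BP E W x v w ∨ BM E W x v w) :
    Closed E W (Kx E W x) ∧ ∃ c, c ∈ Kx E W x := by
  obtain ⟨v, w, h | h⟩ := hB
  · exact sb0_closed_P hC h
  · have h1 := sb0_closed_P hC.rev (BP_rev.2 h)
    rw [Kx_rev] at h1
    exact ⟨⟨fun c hc => val_rev.1 (h1.1.val c hc), fun c hc z hz => h1.1.step c hc z (val_rev.2 hz)⟩, h1.2⟩

end Mix
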