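import Pool.Agent.Lib.MP_784a73_co.Mix.SV0b

/-! # MP_784a73_co, row S-V1 -/

namespace Mix

open Finset Relation

set_option linter.unusedSectionVars false

variable {V : Type*} [DecidableEq V] [Fintype V] {E : Finset (V × V)} {W : Finset V} {x : V}

private theorem SV1_dead {c : V → Bool} {v : V} (hv : v ∈ Tset E W x) (h : c v = !c x) :
    Dead E W c v := by
  have hne : c x ≠ c v := by
    rw [h]
    cases c x <;> simp
  rcases mem_Tset.1 hv with h' | h'
  · refine Or.inl fun p hp hpv => ?_
    rw [h'.in_eq hp hpv]
    exact hne
  · refine Or.inr fun q hq hvq => ?_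
    rw [h'.out_eq hq hvq]
    exact hne

private theorem SV1_fill_mem {c : V → Bool} {v : V} (hv : v ∈ Tset E W x) :
    fill E W x c v = !c x := by
  simp only [fill, hv, if_true]

private theorem SV1_fill_not {c : V → Bool} {v : V} (hv : v ∉ Tset E W x) :
    fill E W x c v = c v := by
  simp only [fill, hv, if_false]

/-- In `fill c` every vertex of `T(x)` is dead (its unique in- or out-neighbour `x` has the other colour), so `val_dead` applies. -/
theorem val_fill (hO : Ori E W) {c : V → Bool} (hc : Val E (W \ Tset E W x) c) : Val E W (fill E W x c) := by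
  have hx : fill E W x c x = c x := SV1_fill_not (not_mem_Tset hO)
  rw [val_dead (T := Tset E W x) (fun v hv => SV1_dead hv (by rw [SV1_fill_mem hv, hx]))]
  refine hc.congr fun v hv => ?_
  rw [SV1_fill_not (Finset.mem_sdiff.1 hv).2]

/-- flip the vertices of `T(x)` that have the colour of `x` one after the other: in each intermediate colouring the already flipped vertices are
dead, so validity follows from `val_dead` and the validity of `c`. (Induction over a finset `S ⊆ T(x)` of vertices already given the colour `!c x`.) -/
theorem reach_fill (hO : Ori E W) {c : V → Bool} (hc : Val E W c) : Reach E W c (fill E W x c) := by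
  have hxT : x ∉ Tset E W x := not_mem_Tset hO
  have hval : ∀ S : Finset V, S ⊆ Tset E W x → Val E W (fun v => if v ∈ S then !c x else c v) := by
    intro S hS
    have hxS : x ∉ S := fun h => hxT (hS h)
    rw [val_dead (T := S) (fun v hv => SV1_dead (hS hv) (by
      simp only [hv, hxS, if_true, if_false]))]
    refine (Val.anti (Finset.Subset.refl E) Finset.sdiff_subset hc).congr fun v hv => ?_
    simp only [(Finset.mem_sdiff.1 hv).2, if_false]
  have key : ∀ S : Finset V, S ⊆ Tset E W x →
      Reach E W c (fun v => if v ∈ S then !c x else c v) := by
    intro S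
    induction S using Finset.induction_on with
    | empty =>
      intro _
      simp only [Finset.notMem_empty, if_false]
      exact ReflTransGen.refl
    | insert a S ha ih =>
      intro hS
      have hS' : S ⊆ Tset E W x := (Finset.subset_insert _ _).trans hS
      by_cases h : c a = !c x
      · have e : (fun v => if v ∈ insert a S then !c x else c v)
            = fun v => if v ∈ S then !c x else c v := by
          funext v
          by_cases hv : v = a
          · subst hv
            simp [h]
          · simp [Finset.mem_insert, hv]
        rw [e]
        exact ih hS'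
      · have h2 : c a = c x := by
          cases h3 : c a <;> cases h4 : c x <;> simp_all
        have e : (fun v => if v ∈ insert a S then !c x else c v)
            = flip (fun v => if v ∈ S then !c x else c v) a := by
          funext v
          by_cases hv : v = a
          · subst hv
            simp [ha, h2]
          · simp [Finset.mem_insert, hv]
        have hv1 := hval (insert a S) hS
        rw [e] at hv1 ⊢
        exact (ih hS').trans (Reach.flip (hval S hS') hv1)
  have e : fill E W x c = fun v => if v ∈ Tset E W x then !c x else c v := by
    funext v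
    by_cases hv : v ∈ Tset E W x
    · rw [SV1_fill_mem hv, if_pos hv]
    · rw [SV1_fill_not hv, if_neg hv]
  rw [e]
  exact key _ (Finset.Subset.refl _)

/-- flips of `z ≠ x` lift -/
theorem fill_flip (hO : Ori E W) {c : V → Bool} {z : V} (hz : z ≠ x) (hc : Val E (W \ Tset E W x) c)
    (hc' : Val E (W \ Tset E W x) (flip c z)) : Reach E W (fill E W x c) (fill E W x (flip c z)) := by
  have hxz : flip c z x = c x := flip_of_ne (Ne.symm hz)
  by_cases hzT : z ∈ Tset E W x
  · have e : fill E W x (flip c z) = fill E W x c := by
      funext v
      by_cases hv : v ∈ Tset E W x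
      · rw [SV1_fill_mem hv, SV1_fill_mem hv, hxz]
      · rw [SV1_fill_not hv, SV1_fill_not hv]
        exact flip_of_ne (fun h => hv (h ▸ hzT))
    rw [e]
    exact ReflTransGen.refl
  · have e : fill E W x (flip c z) = flip (fill E W x c) z := by
      funext v
      by_cases hv : v ∈ Tset E W x
      · have hvz : v ≠ z := fun h => hzT (h ▸ hv)
        rw [SV1_fill_mem hv, flip_of_ne hvz, SV1_fill_mem hv, hxz]
      · by_cases hvz : v = z
        · subst hvz
          rw [SV1_fill_not hv, flip_self, flip_self, SV1_fill_not hv]
        · rw [SV1_fill_not hv, flip_of_ne hvz, flip_of_ne hvz, SV1_fill_not hv]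
    have h1 := val_fill hO hc
    have h2 := val_fill hO hc'
    rw [e] at h2 ⊢
    exact Reach.flip h1 h2

/-- valid colourings with the same restriction to `W \ T(x)` are joined -/
theorem reach_same (hO : Ori E W) {c c' : V → Bool} (hc : Val E W c) (hc' : Val E W c')
    (h : ∀ v ∈ W \ Tset E W x, c v = c' v) : Reach E W c c' := by
  have h1 := reach_fill (x := x) hO hc
  have h2 := reach_fill (x := x) hO hc'
  refine h1.trans (Reach.trans (reach_of_agree (h1.val hc) fun v hv => ?_) h2.symm)
  by_cases hvT : v ∈ Tset E W x
  · have hxW : x ∈ W := by
      rcases mem_Tset.1 hvT with h' | h'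
      · exact h'.arc.2.1
      · exact h'.arc.2.1
    have hx := h x (Finset.mem_sdiff.2 ⟨hxW, not_mem_Tset hO⟩)
    rw [SV1_fill_mem hvT, SV1_fill_mem hvT, hx]
  · rw [SV1_fill_not hvT, SV1_fill_not hvT]
    exact h v (Finset.mem_sdiff.2 ⟨hv, hvT⟩)

end Mix
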