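import Pool.Agent.Lib.MP_784a73_co.Mix.SB0
import Pool.Agent.Lib.MP_784a73_co.Mix.SV1

/-! # MP_784a73_co, row S-B2 -/

namespace Mix

open Finset Relation

set_option linter.unusedSectionVars false

variable {V : Type*} [DecidableEq V] [Fintype V] {E : Finset (V × V)} {W : Finset V} {x : V}

theorem sb2_fill_not {c : V → Bool} {v : V} (hv : v ∉ Tset E W x) : fill E W x c v = c v := by
  classical
  unfold fill
  rw [if_neg hv]

theorem sb2_fill_mem {c : V → Bool} {v : V} (hv : v ∈ Tset E W x) : fill E W x c v = !c x := by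
  classical
  unfold fill
  rw [if_pos hv]

/-- there is `c ∈ Kx`, equal to its `fill`, for which `x` is neutral in `W \ T(x)`. Otherwise for every `c` valid on `W \ T(x)` `fill c ∈ Kx`
(`Conn.induct` on `(E, W \ T(x))` starting from an element of `Kx`; `fill_flip`), but `c x` is not constant (`neg`). -/
theorem CE.exists_neutral (hC : CE E W) (hx : x ∈ W) (hB : ∃ v w, BP E W x v w ∨ BM E W x v w) :
    ∃ c ∈ Kx E W x, (∀ v ∈ Tset E W x, c v = false) ∧ Val E (W \ Tset E W x) (flip c x) := by
  by_contra hcon
  push Not at hcon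
  have hO : Ori E W := hC.good.1
  have hxT : x ∉ Tset E W x := not_mem_Tset hO
  obtain ⟨hK, c0, hc0⟩ := hC.Kx_closed hB
  have hTW : Tset E W x ⊆ W := Tset_sub
  have hTne : (Tset E W x).Nonempty := by
    obtain ⟨v, w, h | h⟩ := hB
    · exact ⟨v, mem_Tset.mpr (Or.inl h.1)⟩
    · exact ⟨v, mem_Tset.mpr (Or.inr h.1)⟩
  have hss : W \ Tset E W x ⊂ W := Finset.sdiff_ssubset hTW hTne
  have hconn : Conn E (W \ Tset E W x) := hC.conn_ssub hss
  have hv0 : Val E W c0 := hK.val c0 hc0
  have hv0' : Val E (W \ Tset E W x) c0 := hv0.anti (Finset.Subset.refl _) Finset.sdiff_subset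
  have key : ∀ c, Val E (W \ Tset E W x) c → fill E W x c ∈ Kx E W x := by
    refine hconn.induct (P := fun c => fill E W x c ∈ Kx E W x) hv0'
      (hK.reach hc0 (reach_fill hO hv0)) ?_
    intro c hc hPc z hz
    by_cases hzx : z = x
    · subst hzx
      exfalso
      have hcx : c z = true := by
        have := hPc.2
        rwa [sb2_fill_not hxT] at this
      refine hcon (fill E W z c) hPc (fun v hv => ?_) ?_
      · rw [sb2_fill_mem hv, hcx]
        rfl
      · refine hz.congr fun v hv => ?_
        by_cases hvz : v = z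
        · subst hvz
          rw [flip_self, flip_self, sb2_fill_not hxT]
        · rw [flip_of_ne hvz, flip_of_ne hvz, sb2_fill_not (Finset.mem_sdiff.mp hv).2]
    · exact hK.reach hPc (fill_flip hO hzx hc hz)
  have h1 := key (neg c0) hv0'.neg
  have h2 : fill E W x (neg c0) x = true := h1.2
  rw [sb2_fill_not hxT, neg_apply, hc0.2] at h2
  exact Bool.noConfusion h2

end Mix
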