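import Pool.Agent.Lib.MP_784a73_co.Mix.SV0b

/-! # MP_784a73_co, row S-V5 -/

namespace Mix

open Finset Relation

set_option linter.unusedSectionVars false

variable {V : Type*} [DecidableEq V] [Fintype V] {E : Finset (V × V)} {W : Finset V} {x : V}

private theorem sv5_rtg {W' : Finset V} {c c' : V → Bool} (h : ∀ v ∈ W', c v = c' v) {p q : V}
    (hr : ReflTransGen (Mono E W' c) p q) : ReflTransGen (Mono E W' c') p q :=
  rtg_mono (fun _ _ hab => Mono.congr h hab) hr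

/-- the neutral set for `|E⁺| ≤ 1`: `x` is neutral iff the colouring is valid for `E ∪ E⁻ × E⁺`
(a mono path `o ⇒ i`, `o ∈ E⁺`, `i ∈ E⁻` in `W \ L(x)` is the same as a mono cycle through the new arc `i → o`; `E⁺ = ∅` or `E⁺ = {o}`: `val_add_heads`; `val_insert` for `x`). -/
theorem neutral_iff (hO : Ori E W) (hx : x ∈ W) (ho : (Ep E W x).card ≤ 1) {c : V → Bool} :
    (Val E (W \ Tset E W x) c ∧ Val E (W \ Tset E W x) (flip c x)) ↔
      Val (E ∪ Em E W x ×ˢ Ep E W x) (W \ Lx E W x) c := by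
  have hloop : (x, x) ∉ E := fun h => hO x hx x hx h h
  have hxT : x ∉ Tset E W x := not_mem_Tset hO
  set W0 := W \ Lx E W x with hW0
  have hW1 : W \ Tset E W x = insert x W0 := by
    ext v
    rw [hW0, mem_sdiff, mem_insert, mem_sdiff, Lx, mem_insert]
    constructor
    · rintro ⟨h1, h2⟩
      by_cases hv : v = x
      · exact Or.inl hv
      · exact Or.inr ⟨h1, not_or.mpr ⟨hv, h2⟩⟩
    · rintro (rfl | ⟨h1, h2⟩)
      · exact ⟨hx, hxT⟩
      · exact ⟨h1, (not_or.mp h2).2⟩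
  have hx0 : x ∉ W0 := by
    rw [hW0, mem_sdiff, Lx]
    exact fun h => h.2 (mem_insert_self _ _)
  have hout : ∀ p, (p ∈ W0 ∧ (x, p) ∈ E) ↔ p ∈ Ep E W x := by
    intro p
    rw [hW0, mem_sdiff, Lx, mem_insert, Ep, mem_sdiff, outN, mem_filter]
    constructor
    · rintro ⟨⟨h1, h2⟩, h3⟩
      exact ⟨⟨h1, h3⟩, (not_or.mp h2).2⟩
    · rintro ⟨⟨h1, h3⟩, h2⟩
      refine ⟨⟨h1, not_or.mpr ⟨?_, h2⟩⟩, h3⟩
      rintro rfl
      exact hloop h3
  have hin : ∀ p, (p ∈ W0 ∧ (p, x) ∈ E) ↔ p ∈ Em E W x := by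
    intro p
    rw [hW0, mem_sdiff, Lx, mem_insert, Em, mem_sdiff, inN, mem_filter]
    constructor
    · rintro ⟨⟨h1, h2⟩, h3⟩
      exact ⟨⟨h1, h3⟩, (not_or.mp h2).2⟩
    · rintro ⟨⟨h1, h3⟩, h2⟩
      refine ⟨⟨h1, not_or.mpr ⟨?_, h2⟩⟩, h3⟩
      rintro rfl
      exact hloop h3
  have hag : ∀ v ∈ W0, c v = flip c x v := by
    intro v hv
    rw [flip_of_ne (by rintro rfl; exact hx0 hv)]
  have hag' : ∀ v ∈ W0, flip c x v = c v := fun v hv => (hag v hv).symm
  -- both colourings together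
  have key : (Val E (W \ Tset E W x) c ∧ Val E (W \ Tset E W x) (flip c x)) ↔
      Val E W0 c ∧ ∀ p ∈ Ep E W x, ∀ q ∈ Em E W x, ¬ ReflTransGen (Mono E W0 c) p q := by
    rw [hW1, val_insert hx0 hloop, val_insert hx0 hloop]
    constructor
    · rintro ⟨⟨h1, h2⟩, h3, h4⟩
      refine ⟨h1, fun p hp q hq hr => ?_⟩
      obtain ⟨hp1, hp2⟩ := (hout p).mpr hp
      obtain ⟨hq1, hq2⟩ := (hin q).mpr hq
      have hcol : c p = c q := rtg_color hr
      by_cases hc : c p = c x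
      · exact h2 p hp1 q hq1 hp2 hq2 hc (hcol ▸ hc) hr
      · have hc' : c p = flip c x x := by
          rw [flip_self]
          cases hcp : c p <;> cases hcx : c x <;> simp_all
        refine h4 p hp1 q hq1 hp2 hq2 ?_ ?_ (sv5_rtg hag hr)
        · rw [← hag p hp1]
          exact hc'
        · rw [← hag q hq1, ← hcol]
          exact hc'
    · rintro ⟨h1, h2⟩
      refine ⟨⟨h1, fun p hp q hq h3 h4 _ _ hr => ?_⟩, h1.congr hag, fun p hp q hq h3 h4 _ _ hr => ?_⟩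
      · exact h2 p ((hout p).mp ⟨hp, h3⟩) q ((hin q).mp ⟨hq, h4⟩) hr
      · exact h2 p ((hout p).mp ⟨hp, h3⟩) q ((hin q).mp ⟨hq, h4⟩) (sv5_rtg hag' hr)
  rw [key]
  rcases Nat.le_one_iff_eq_zero_or_eq_one.mp ho with h0 | h1
  · rw [card_eq_zero] at h0
    rw [h0, product_empty, union_empty]
    constructor
    · exact fun h => h.1
    · exact fun h => ⟨h, fun p hp => absurd hp (notMem_empty p)⟩
  · obtain ⟨o, ho'⟩ := card_eq_one.mp h1
    have hoW : o ∈ W0 := ((hout o).mpr (by rw [ho']; exact mem_singleton_self o)).1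
    rw [ho', val_add_heads]
    constructor
    · rintro ⟨h2, h3⟩
      exact ⟨h2, fun i hi _ _ _ => h3 o (mem_singleton_self o) i hi⟩
    · rintro ⟨h2, h3⟩
      refine ⟨h2, fun p hp q hq hr => ?_⟩
      rw [mem_singleton] at hp
      subst hp
      exact h3 q hq ((hin q).mpr hq).1 hoW (rtg_color hr).symm hr

end Mix
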