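import Pool.Agent.Lib.MP_784a73_co.Mix.SV0b

/-! # MP_784a73_co, row S-V5b -/

namespace Mix

open Finset Relation

set_option linter.unusedSectionVars false

variable {V : Type*} [DecidableEq V] [Fintype V] {E : Finset (V × V)} {W : Finset V} {x : V}

private theorem SV5b_ff (E : Finset (V × V)) (A B Y : Finset V) :
    ff E Y - ((A ∩ Y).card * (B ∩ Y).card : ℕ) ≤ ff (E ∪ A ×ˢ B) Y := by
  unfold ff ecard
  have h1 : ((E ∪ A ×ˢ B).filter (fun a => a.1 ∈ Y ∧ a.2 ∈ Y)).card ≤
      (E.filter (fun a => a.1 ∈ Y ∧ a.2 ∈ Y)).card + (A ∩ Y).card * (B ∩ Y).card := by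
    rw [Finset.filter_union]
    refine (Finset.card_union_le _ _).trans ?_
    rw [← Finset.card_product]
    refine Nat.add_le_add_left (Finset.card_le_card ?_) _
    intro a ha
    simp only [Finset.mem_filter, Finset.mem_product, Finset.mem_inter] at ha ⊢
    tauto
  push_cast
  have h2 : (((E ∪ A ×ˢ B).filter (fun a => a.1 ∈ Y ∧ a.2 ∈ Y)).card : ℤ) ≤
      ((E.filter (fun a => a.1 ∈ Y ∧ a.2 ∈ Y)).card : ℤ) + (A ∩ Y).card * (B ∩ Y).card := by
    exact_mod_cast h1
  linarith

/-- at most two new arcs `i → o`; a set `Y ⊆ W \ L(x)` with `k` of them: `k = 0, 1`: `ff E Y ≥ 2`; `k = 2`: `Y` contains the three neighbours `i₁, i₂, o` of `x` and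
`insert x Y ≠ W`, so `ff E Y = ff E (insert x Y) - 2 + 3 ≥ 3`. -/
theorem CE.good_neutral (hC : CE E W) (hx : x ∈ W) (hT : (Tset E W x).Nonempty) (ho : (Ep E W x).card ≤ 1)
    (hm : (Em E W x).card + (Ep E W x).card ≤ 3)
    (hno : ∀ i ∈ Em E W x, ∀ o ∈ Ep E W x, (o, i) ∉ E) :
    Good (E ∪ Em E W x ×ˢ Ep E W x) (W \ Lx E W x) := by
  have hO : Ori E W := hC.good.1
  have hdisj := Em_disj_Ep hO hx
  refine ⟨?_, ?_⟩
  · intro p hp q hq hpq hqp
    have hpW : p ∈ W := (Finset.mem_sdiff.1 hp).1
    have hqW : q ∈ W := (Finset.mem_sdiff.1 hq).1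
    rw [Finset.mem_union, Finset.mem_product] at hpq hqp
    rcases hpq with h1 | ⟨h1, h2⟩
    · rcases hqp with h3 | ⟨h3, h4⟩
      · exact hO p hpW q hqW h1 h3
      · exact hno q h3 p h4 h1
    · rcases hqp with h3 | ⟨h3, h4⟩
      · exact hno p h1 q h2 h3
      · exact (Finset.disjoint_left.1 hdisj h3) h2
  · intro Y hY hne
    have hYW : Y ⊆ W := fun y hy => (Finset.mem_sdiff.1 (hY hy)).1
    have hxL : x ∈ Lx E W x := Finset.mem_insert_self _ _
    have hxY : x ∉ Y := fun h => (Finset.mem_sdiff.1 (hY h)).2 hxL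
    have h2 : 2 ≤ ff E Y := hC.two Y hYW hne (by
      rintro rfl
      exact hxY hx)
    have key := SV5b_ff E (Em E W x) (Ep E W x) Y
    have hcm : (Em E W x ∩ Y).card ≤ (Em E W x).card := Finset.card_le_card Finset.inter_subset_left
    have hcp : (Ep E W x ∩ Y).card ≤ (Ep E W x).card := Finset.card_le_card Finset.inter_subset_left
    by_cases hk : (Em E W x ∩ Y).card * (Ep E W x ∩ Y).card ≤ 1
    · have : (((Em E W x ∩ Y).card * (Ep E W x ∩ Y).card : ℕ) : ℤ) ≤ 1 := by exact_mod_cast hk
      linarith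
    · have hp1 : (Ep E W x ∩ Y).card = 1 := by
        rcases Nat.lt_or_ge (Ep E W x ∩ Y).card 1 with h | h
        · interval_cases h' : (Ep E W x ∩ Y).card
          simp at hk
        · omega
      rw [hp1, Nat.mul_one] at hk key
      have hm2 : (Em E W x ∩ Y).card = 2 := by omega
      rw [hm2] at key
      -- the three neighbours
      have hdeg : 3 ≤ deg E Y x := by
        have h3 : (Em E W x ∩ Y).card ≤ (inN E Y x).card := Finset.card_le_card (by
          intro y hy
          rw [Finset.mem_inter] at hy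
          have := (Finset.mem_sdiff.1 hy.1).1
          rw [mem_inN] at this ⊢
          exact ⟨hy.2, this.2⟩)
        have h4 : (Ep E W x ∩ Y).card ≤ (outN E Y x).card := Finset.card_le_card (by
          intro y hy
          rw [Finset.mem_inter] at hy
          have := (Finset.mem_sdiff.1 hy.1).1
          rw [mem_outN] at this ⊢
          exact ⟨hy.2, this.2⟩)
        unfold deg
        omega
      obtain ⟨v, hv⟩ := hT
      have hvW : v ∈ W := Tset_sub hv
      have hvx : v ≠ x := by
        rintro rfl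
        exact not_mem_Tset hO hv
      have hvY : v ∉ insert x Y := by
        rw [Finset.mem_insert]
        rintro (h | h)
        · exact hvx h
        · exact (Finset.mem_sdiff.1 (hY h)).2 (Finset.mem_insert_of_mem hv)
      have h5 : 2 ≤ ff E (insert x Y) := hC.two _ (Finset.insert_subset hx hYW)
        (Finset.insert_nonempty _ _) (by
          intro h
          exact hvY (h ▸ hvW))
      rw [ff_insert hxY (hO.loop hx)] at h5
      have h6 : (3 : ℤ) ≤ (deg E Y x : ℤ) := by exact_mod_cast hdeg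
      push_cast at key
      linarith

end Mix
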