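import Pool.Agent.Lib.MP_784a73_co.Mix.SB2
import Pool.Agent.Lib.MP_784a73_co.Mix.SV5
import Pool.Agent.Lib.MP_784a73_co.Mix.SV5b

/-! # MP_784a73_co, row S-B4 -/

namespace Mix

open Finset Relation

set_option linter.unusedSectionVars false

variable {V : Type*} [DecidableEq V] [Fintype V] {E : Finset (V × V)} {W : Finset V} {x : V}

/-- ROW B4 (case P1). a BETA vertex exists, `|E⁺| ≤ 1`, no arcs `E⁺ → E⁻` : (X) with `L = L(x)`, `E' = E ∪ E⁻ × E⁺`, `c₀` from `exists_neutral` (`neutral_iff`, `good_neutral`); every colouring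
`c = c₀` on `L(x)` valid for `E'` on `W \ L(x)` is valid on `W` (`neutral_iff` and `val_dead`, i.e. `c = fill c`); the non-adjacent neighbour `w` of a BETA vertex is outside `L(x)` and always `true`
in `Kx` (`beta_col`): `princX_false`. -/
theorem CE.caseP1 (hC : CE E W) (hx : x ∈ W) (hB : ∃ v w, BP E W x v w ∨ BM E W x v w)
    (h3 : (Em E W x).card + (Ep E W x).card ≤ 3) (ho : (Ep E W x).card ≤ 1)
    (hno : ∀ i ∈ Em E W x, ∀ o ∈ Ep E W x, (o, i) ∉ E) : False := by
  have hO : Ori E W := hC.good.1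
  obtain ⟨c₀, hc₀, hT0, hflip⟩ := hC.exists_neutral hx hB
  have hT : (Tset E W x).Nonempty := by
    obtain ⟨v, w, h | h⟩ := hB
    · exact ⟨v, mem_Tset.2 (Or.inl h.1)⟩
    · exact ⟨v, mem_Tset.2 (Or.inr h.1)⟩
  have hxL : x ∈ Lx E W x := Finset.mem_insert_self _ _
  have h0v : Val (E ∪ Em E W x ×ˢ Ep E W x) (W \ Lx E W x) c₀ :=
    (neutral_iff hO hx ho).1 ⟨Val.anti (fun _ h => h) Finset.sdiff_subset hc₀.1.1, hflip⟩
  obtain ⟨v, w, hvw⟩ := hB
  refine princX_false hC (Lx_sub hx) ⟨x, hxL⟩ (hC.good_neutral hx hT ho h3 hno)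
    (hC.Kx_closed ⟨v, w, hvw⟩).1 hc₀ h0v ?_ (p := w) (hC.beta_col hvw hc₀).1 ?_
  · intro c _ hcL _ z hz hval
    have hzL : z ∉ Lx E W x := (Finset.mem_sdiff.1 hz).2
    have hdL : ∀ l ∈ Lx E W x, flip c z l = c₀ l := by
      intro l hl
      have hne : l ≠ z := fun h => hzL (h ▸ hl)
      rw [flip_of_ne hne]
      exact hcL l hl
    have hd := ((neutral_iff hO hx ho).2 hval).1
    have hf := val_fill hO hd
    have heq : fill E W x (flip c z) = flip c z := by
      funext u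
      by_cases hu : u ∈ Tset E W x
      · have huL : u ∈ Lx E W x := Finset.mem_insert_of_mem hu
        have h1 : fill E W x (flip c z) u = !(flip c z x) := by simp [fill, hu]
        rw [h1, hdL x hxL, hdL u huL, hT0 u hu, hc₀.2]
        rfl
      · simp [fill, hu]
    rwa [heq] at hf
  · intro c hc
    rw [(hC.beta_col hvw hc).2, (hC.beta_col hvw hc₀).2]

end Mix
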