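import Pool.Agent.Lib.MP_784a73_co.Mix.SV0b

/-! # MP_784a73_co, row S-D1 -/

namespace Mix

open Finset Relation

set_option linter.unusedSectionVars false

variable {V : Type*} [DecidableEq V] [Fintype V] {E : Finset (V × V)} {W : Finset V} {x : V}

/-- the auxiliary digraph satisfies the hypothesis (`Y ∌ z`: `ff` as in `E`; `Y ∋ z`, `Y ≠ {z}`: `ff E (Y \ z) ≥ 2` and `z` has at most 3 arcs) -/
theorem CE.good_dom (hC : CE E W) {z q₁ q₂ : V} (hx : x ∈ W) (hz : z ∈ Tset E W x)
    (h1 : q₁ ∈ W \ Lx E W x) (h2 : q₂ ∈ W \ Lx E W x) :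
    Good (domE E W x z q₁ q₂) (insert z (W \ Tset E W x)) := by
  have hO := hC.good.1
  have hzW : z ∈ W := Tset_sub hz
  have hxT : x ∉ Tset E W x := not_mem_Tset hO
  have hzx : z ≠ x := fun h => hxT (h ▸ hz)
  have hq : ∀ q, q ∈ W \ Lx E W x → q ∈ W ∧ q ≠ x ∧ q ∉ Tset E W x := by
    intro q hq
    rw [Finset.mem_sdiff, Lx, Finset.mem_insert, not_or] at hq
    exact ⟨hq.1, hq.2.1, hq.2.2⟩
  obtain ⟨hq1W, hq1x, hq1T⟩ := hq q₁ h1
  obtain ⟨hq2W, hq2x, hq2T⟩ := hq q₂ h2
  have hq1z : q₁ ≠ z := fun h => hq1T (h ▸ hz)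
  have hq2z : q₂ ≠ z := fun h => hq2T (h ▸ hz)
  -- membership of arcs
  have hmem : ∀ p q, (p, q) ∈ domE E W x z q₁ q₂ ↔
      ((p, q) ∈ E ∧ p ∉ Tset E W x ∧ q ∉ Tset E W x) ∨ (p = x ∧ q = z) ∨ (p = z ∧ q = q₁) ∨ (p = z ∧ q = q₂) := by
    intro p q
    simp only [domE, Finset.mem_union, Finset.mem_filter, Finset.mem_insert, Finset.mem_singleton, Prod.mk.injEq]
  have hloop : (z, z) ∉ domE E W x z q₁ q₂ := by
    rw [hmem]
    rintro (h | h | h | h)
    · exact h.2.1 hz
    · exact hzx h.1
    · exact hq1z h.2.symm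
    · exact hq2z h.2.symm
  refine ⟨?_, ?_⟩
  · intro p hp q hq hpq hqp
    rw [hmem] at hpq hqp
    rcases hpq with ⟨a1, a2, a3⟩ | ⟨rfl, rfl⟩ | ⟨rfl, rfl⟩ | ⟨rfl, rfl⟩
    · rcases hqp with ⟨b1, _, _⟩ | ⟨_, rfl⟩ | ⟨rfl, _⟩ | ⟨rfl, _⟩
      · exact hO.loop (z := p) (by
          rcases Finset.mem_insert.1 hp with h | h
          · exact absurd (h ▸ hz) a2
          · exact (Finset.mem_sdiff.1 h).1) (by
          have hpW : p ∈ W := by
            rcases Finset.mem_insert.1 hp with h | h
            · exact absurd (h ▸ hz) a2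
            · exact (Finset.mem_sdiff.1 h).1
          have hqW : q ∈ W := by
            rcases Finset.mem_insert.1 hq with h | h
            · exact absurd (h ▸ hz) a3
            · exact (Finset.mem_sdiff.1 h).1
          exact absurd b1 (hO p hpW q hqW a1))
      · exact a2 hz
      · exact a3 hz
      · exact a3 hz
    · rcases hqp with ⟨_, b2, _⟩ | ⟨h, _⟩ | ⟨_, h⟩ | ⟨_, h⟩
      · exact b2 hz
      · exact hzx h
      · exact hq1x h.symm
      · exact hq2x h.symm
    · rcases hqp with ⟨_, _, b3⟩ | ⟨h, _⟩ | ⟨h, _⟩ | ⟨h, _⟩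
      · exact b3 hz
      · exact hq1x h
      · exact hq1z h
      · exact hq1z h
    · rcases hqp with ⟨_, _, b3⟩ | ⟨h, _⟩ | ⟨h, _⟩ | ⟨h, _⟩
      · exact b3 hz
      · exact hq2x h
      · exact hq2z h
      · exact hq2z h
  · -- sparsity
    have hff : ∀ Y ⊆ W \ Tset E W x, Y.Nonempty → 2 ≤ ff (domE E W x z q₁ q₂) Y := by
      intro Y hY hne
      have hYW : Y ⊆ W := hY.trans Finset.sdiff_subset
      have h2 : 2 ≤ ff E Y := hC.two Y hYW hne (fun h => by
        have : z ∈ Y := h ▸ hzW
        exact (Finset.mem_sdiff.1 (hY this)).2 hz)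
      have hle : ecard (domE E W x z q₁ q₂) Y ≤ ecard E Y := by
        unfold ecard
        refine Finset.card_le_card ?_
        rintro ⟨p, q⟩ hpq
        rw [Finset.mem_filter] at hpq ⊢
        obtain ⟨hpq1, hpY, hqY⟩ := hpq
        rw [hmem] at hpq1
        have hnp := (Finset.mem_sdiff.1 (hY hpY)).2
        have hnq := (Finset.mem_sdiff.1 (hY hqY)).2
        refine ⟨?_, hpY, hqY⟩
        rcases hpq1 with h | ⟨_, h⟩ | ⟨h, _⟩ | ⟨h, _⟩
        · exact h.1
        · exact absurd hz (h ▸ hnq)
        · exact absurd hz (h ▸ hnp)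
        · exact absurd hz (h ▸ hnp)
      unfold ff at h2 ⊢
      omega
    intro H hH hne
    by_cases hzH : z ∈ H
    · set Y := H.erase z with hYdef
      have hzY : z ∉ Y := Finset.notMem_erase z H
      have hins : insert z Y = H := Finset.insert_erase hzH
      have hYsub : Y ⊆ W \ Tset E W x := by
        intro y hy
        rcases Finset.mem_insert.1 (hH (Finset.mem_of_mem_erase hy)) with h | h
        · exact absurd h (Finset.ne_of_mem_erase hy)
        · exact h
      have hdeg : deg (domE E W x z q₁ q₂) Y z ≤ 3 := by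
        have h1' : inN (domE E W x z q₁ q₂) Y z ⊆ {x} := by
          intro p hp
          rw [inN, Finset.mem_filter, hmem] at hp
          rcases hp.2 with h | h | h | h
          · exact absurd hz h.2.2
          · exact Finset.mem_singleton.2 h.1
          · exact absurd h.2.symm hq1z
          · exact absurd h.2.symm hq2z
        have h2' : outN (domE E W x z q₁ q₂) Y z ⊆ {q₁, q₂} := by
          intro p hp
          rw [outN, Finset.mem_filter, hmem] at hp
          rcases hp.2 with h | h | h | h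
          · exact absurd hz h.2.1
          · exact absurd h.1 hzx
          · rw [h.2]; simp
          · rw [h.2]; simp
        have c1 := Finset.card_le_card h1'
        have c2 := Finset.card_le_card h2'
        have c3 : ({q₁, q₂} : Finset V).card ≤ 2 := Finset.card_le_two
        rw [Finset.card_singleton] at c1
        unfold deg
        omega
      rw [← hins, ff_insert hzY hloop]
      rcases Y.eq_empty_or_nonempty with h0 | h0
      · rw [h0]
        have : deg (domE E W x z q₁ q₂) ∅ z = 0 := by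
          simp [deg, inN, outN]
        have hf0 : ff (domE E W x z q₁ q₂) ∅ = 0 := by
          simp [ff, ecard]
        rw [this, hf0]
        norm_num
      · have := hff Y hYsub h0
        omega
    · have hHs : H ⊆ W \ Tset E W x := by
        intro y hy
        rcases Finset.mem_insert.1 (hH hy) with h | h
        · exact absurd (h ▸ hy) hzH
        · exact h
      have := hff H hHs hne
      omega

end Mix
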