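import Pool.Agent.Lib.MP_784a73_co.Mix.SV0b

/-! # MP_784a73_co, row S-D2 -/

namespace Mix

open Finset Relation

set_option linter.unusedSectionVars false

variable {V : Type*} [DecidableEq V] [Fintype V] {E : Finset (V × V)} {W : Finset V} {x : V}

/-- a valid colouring of `(E, W \ T)` with `c z = !c x` is valid for the auxiliary digraph (`z` is dead); a colouring valid for the auxiliary digraph is valid on `(E, W \ T)`, and
if `c z = c x` then no `q ∈ {q₁, q₂}` with an arc `q → x` has the colour of `x` (triangle `x → z → q → x`). -/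
theorem dom_val (hO : Ori E W) {z q₁ q₂ : V} (hx : x ∈ W) (hz : z ∈ Tset E W x)
    (h1 : q₁ ∈ W \ Lx E W x) (h2 : q₂ ∈ W \ Lx E W x) {c : V → Bool} :
    (Val E (W \ Tset E W x) c → c z = !c x → Val (domE E W x z q₁ q₂) (insert z (W \ Tset E W x)) c) ∧
    (Val (domE E W x z q₁ q₂) (insert z (W \ Tset E W x)) c → Val E (W \ Tset E W x) c ∧
      (c z = c x → ∀ q, (q = q₁ ∨ q = q₂) → (q, x) ∈ E → c q = !c x)) := by
  have hxT : x ∉ Tset E W x := not_mem_Tset hO
  have hq : ∀ q, (q = q₁ ∨ q = q₂) → q ∈ W ∧ q ≠ x ∧ q ∉ Tset E W x := by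
    have key : ∀ q, q ∈ W \ Lx E W x → q ∈ W ∧ q ≠ x ∧ q ∉ Tset E W x := by
      intro q hq
      rw [mem_sdiff, Lx, mem_insert, not_or] at hq
      exact hq
    rintro q (rfl | rfl)
    · exact key _ h1
    · exact key _ h2
  have hmem : ∀ p q, (p, q) ∈ domE E W x z q₁ q₂ ↔
      ((p, q) ∈ E ∧ p ∉ Tset E W x ∧ q ∉ Tset E W x) ∨ (p = x ∧ q = z) ∨
        (p = z ∧ (q = q₁ ∨ q = q₂)) := by
    intro p q
    simp only [domE, mem_union, mem_filter, mem_insert, mem_singleton, Prod.mk.injEq]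
    tauto
  have hxz : x ≠ z := fun e => hxT (e ▸ hz)
  refine ⟨fun hv hcz => ?_, fun hv => ⟨?_, ?_⟩⟩
  · rw [val_insert (fun h => (mem_sdiff.1 h).2 hz)]
    · refine ⟨Val.congr_arcs (fun p hp q hq' h => ?_) hv, fun p hp q hq' hzp hqz hcp hcq => ?_⟩
      · rcases (hmem p q).1 h with h | h | h
        · exact h.1
        · exact absurd hz (h.2 ▸ (mem_sdiff.1 hq').2)
        · exact absurd hz (h.1 ▸ (mem_sdiff.1 hp).2)
      · exfalso
        rcases (hmem q z).1 hqz with h | h | h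
        · exact h.2.2 hz
        · rw [h.1, hcz] at hcq
          simp at hcq
        · exact (mem_sdiff.1 hq').2 (h.1 ▸ hz)
    · intro h
      rcases (hmem z z).1 h with h | h | h
      · exact h.2.1 hz
      · exact hxz h.1.symm
      · exact (hq z h.2).2.2 hz
  · refine Val.congr_arcs (E := domE E W x z q₁ q₂) (fun p hp q hq' h => ?_)
      (hv.anti (Finset.Subset.refl _) (Finset.subset_insert _ _))
    exact (hmem p q).2 (Or.inl ⟨h, (mem_sdiff.1 hp).2, (mem_sdiff.1 hq').2⟩)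
  · intro hcz q hqq hqx
    obtain ⟨hqW, hqne, hqT⟩ := hq q hqq
    by_contra hne
    have hcq : c q = c x := by
      cases h : c q <;> cases h' : c x <;> simp_all
    have hx' : x ∈ insert z (W \ Tset E W x) := mem_insert_of_mem (mem_sdiff.2 ⟨hx, hxT⟩)
    have hq' : q ∈ insert z (W \ Tset E W x) := mem_insert_of_mem (mem_sdiff.2 ⟨hqW, hqT⟩)
    have hz' : z ∈ insert z (W \ Tset E W x) := mem_insert_self _ _
    have m1 : Mono (domE E W x z q₁ q₂) (insert z (W \ Tset E W x)) c x z :=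
      ⟨(hmem x z).2 (Or.inr (Or.inl ⟨rfl, rfl⟩)), hx', hz', hcz.symm⟩
    have m2 : Mono (domE E W x z q₁ q₂) (insert z (W \ Tset E W x)) c z q :=
      ⟨(hmem z q).2 (Or.inr (Or.inr ⟨rfl, hqq⟩)), hz', hq', hcz.trans hcq.symm⟩
    have m3 : Mono (domE E W x z q₁ q₂) (insert z (W \ Tset E W x)) c q x :=
      ⟨(hmem q x).2 (Or.inl ⟨hqx, hqT, hxT⟩), hq', hx', hcq⟩
    exact hv x (((TransGen.single m1).tail m2).tail m3)

end Mix
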