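import Pool.Agent.Lib.MP_784a73_co.Mix.SV1

/-! # MP_784a73_co, row S-V3 -/

namespace Mix

open Finset Relation

set_option linter.unusedSectionVars false

variable {V : Type*} [DecidableEq V] [Fintype V] {E : Finset (V × V)} {W : Finset V} {x : V}

theorem sv3_TP {c : V → Bool} {k : Bool} {v : V} (h : TP E W x v) : setT E W x k c v = k := by
  simp [setT, h]

theorem sv3_TM {c : V → Bool} {k : Bool} {v : V} (h : TM E W x v) : setT E W x k c v = !k := by
  have h' : ¬ TP E W x v := fun h' => h'.not_TM h
  simp [setT, h, h']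

theorem sv3_out {c : V → Bool} {k : Bool} {v : V} (h : v ∉ Tset E W x) : setT E W x k c v = c v := by
  rw [mem_Tset, not_or] at h
  simp [setT, h.1, h.2]

theorem sv3_fill_out {c : V → Bool} {v : V} (h : v ∉ Tset E W x) : fill E W x c v = c v := by
  simp [fill, h]

theorem sv3_setT_flip (hO : Ori E W) {c : V → Bool} {k : Bool} :
    setT E W x k (flip c x) = flip (setT E W x k c) x := by
  have hxT : x ∉ Tset E W x := not_mem_Tset hO
  funext v
  by_cases hv : v = x
  · subst hv
    rw [sv3_out hxT, flip_self, flip_self, sv3_out hxT]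
  · rw [flip_of_ne hv]
    by_cases hT : v ∈ Tset E W x
    · rcases mem_Tset.1 hT with h | h
      · rw [sv3_TP h, sv3_TP h]
      · rw [sv3_TM h, sv3_TM h]
    · rw [sv3_out hT, sv3_out hT, flip_of_ne hv]

/-- if `setT h` is valid with both colours of `x` then the `x`-flip is good (`reach_same`, one flip) -/
theorem good_flip (hO : Ori E W) (hx : x ∈ W) {c : V → Bool} {h : Bool} (hc : Val E (W \ Tset E W x) c)
    (hc' : Val E (W \ Tset E W x) (flip c x))
    (h1 : Val E W (setT E W x h c)) (h2 : Val E W (setT E W x h (flip c x))) :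
    Reach E W (fill E W x c) (fill E W x (flip c x)) := by
  have a1 : Reach E W (fill E W x c) (setT E W x h c) := by
    refine reach_same (x := x) hO (val_fill hO hc) h1 fun v hv => ?_
    have hv' := (Finset.mem_sdiff.1 hv).2
    rw [sv3_fill_out hv', sv3_out hv']
  have a2 : Reach E W (setT E W x h c) (setT E W x h (flip c x)) := by
    rw [sv3_setT_flip hO] at h2 ⊢
    exact Reach.flip h1 h2
  have a3 : Reach E W (setT E W x h (flip c x)) (fill E W x (flip c x)) := by
    refine reach_same (x := x) hO h2 (val_fill hO hc') fun v hv => ?_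
    have hv' := (Finset.mem_sdiff.1 hv).2
    rw [sv3_fill_out hv', sv3_out hv']
  exact (a1.trans a2).trans a3

theorem sv3_good0 (hO : Ori E W) (hx : x ∈ W) {d : V → Bool} (g : Bool) (hd : Val E (W \ Tset E W x) d)
    (hm : ∀ i ∈ Em E W x, d i = g) (hp : ∀ o ∈ Ep E W x, d o = !g) : Val E W (setT E W x (!g) d) := by
  have hxT : x ∉ Tset E W x := not_mem_Tset hO
  have hout : ∀ q ∈ W, (x, q) ∈ E → setT E W x (!g) d q = !g := by
    intro q hq hxq
    by_cases hT : q ∈ Tset E W x
    · rcases mem_Tset.1 hT with h | h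
      · rw [sv3_TP h]
      · exact absurd (TM.arc h).1 (hO x hx q hq hxq)
    · rw [sv3_out hT]
      refine hp q ?_
      rw [Ep, Finset.mem_sdiff, outN, Finset.mem_filter]
      exact ⟨⟨hq, hxq⟩, hT⟩
  have hin : ∀ p ∈ W, (p, x) ∈ E → setT E W x (!g) d p = g := by
    intro p hp' hpx
    by_cases hT : p ∈ Tset E W x
    · rcases mem_Tset.1 hT with h | h
      · exact absurd (TP.arc h).1 (hO p hp' x hx hpx)
      · rw [sv3_TM h, Bool.not_not]
    · rw [sv3_out hT]
      refine hm p ?_
      rw [Em, Finset.mem_sdiff, inN, Finset.mem_filter]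
      exact ⟨⟨hp', hpx⟩, hT⟩
  have hdx : ∀ v ∈ ({x} : Finset V), Dead E W (setT E W x (!g) d) v := by
    intro v hv
    rw [Finset.mem_singleton] at hv
    subst hv
    by_cases hg : setT E W v (!g) d v = g
    · right
      intro q hq hxq
      rw [hout q hq hxq, hg]
      cases g <;> simp
    · left
      intro p hp' hpx
      rw [hin p hp' hpx]
      exact fun h => hg h.symm
  rw [val_dead hdx]
  have hdT : ∀ v ∈ Tset E W x, Dead E (W \ {x}) (setT E W x (!g) d) v := by
    intro v hv
    rcases mem_Tset.1 hv with h | h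
    · left
      intro p hp' hpv
      rw [Finset.mem_sdiff, Finset.mem_singleton] at hp'
      exact absurd (TP.in_eq h hp'.1 hpv) hp'.2
    · right
      intro q hq hvq
      rw [Finset.mem_sdiff, Finset.mem_singleton] at hq
      exact absurd (TM.out_eq h hq.1 hvq) hq.2
  rw [val_dead hdT]
  have hsub : (W \ {x}) \ Tset E W x ⊆ W \ Tset E W x := by
    intro v hv
    rw [Finset.mem_sdiff, Finset.mem_sdiff] at hv
    exact Finset.mem_sdiff.2 ⟨hv.1.1, hv.2⟩
  refine Val.congr (fun v hv => ?_) (Val.anti (fun _ h => h) hsub hd)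
  rw [sv3_out (Finset.mem_sdiff.1 hv).2]

/-- ROW V3 (G0). `c = g` on `E⁻`, `c = !g` on `E⁺`: the `x`-flip is good. Colouring `setT (!g)`: `T⁺ := !g`, `T⁻ := g`; then `x` is dead for both of its colours (`c x = g`: no out-neighbour of colour
`g`; `c x = !g`: no in-neighbour of colour `!g`), delete `x` (`val_dead`); in `W \ {x}` the vertices of `T⁺` have no in-neighbours, those of `T⁻` no out-neighbours (`val_dead` again). -/
theorem good0 (hO : Ori E W) (hx : x ∈ W) {c : V → Bool} (g : Bool) (hc : Val E (W \ Tset E W x) c)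
    (hc' : Val E (W \ Tset E W x) (flip c x)) (hm : ∀ i ∈ Em E W x, c i = g) (hp : ∀ o ∈ Ep E W x, c o = !g) :
    Reach E W (fill E W x c) (fill E W x (flip c x)) := by
  have hloop : (x, x) ∉ E := fun h => hO x hx x hx h h
  have hne : ∀ i ∈ Em E W x, i ≠ x := by
    rintro i hi rfl
    rw [Em, Finset.mem_sdiff, inN, Finset.mem_filter] at hi
    exact hloop hi.1.2
  have hne' : ∀ i ∈ Ep E W x, i ≠ x := by
    rintro i hi rfl
    rw [Ep, Finset.mem_sdiff, outN, Finset.mem_filter] at hi
    exact hloop hi.1.2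
  refine good_flip hO hx hc hc' (sv3_good0 hO hx g hc hm hp) (sv3_good0 hO hx g hc' ?_ ?_)
  · intro i hi
    rw [flip_of_ne (hne i hi)]
    exact hm i hi
  · intro i hi
    rw [flip_of_ne (hne' i hi)]
    exact hp i hi

theorem sv3_good1 (hO : Ori E W) {d : V → Bool} (g : Bool) (hd : Val E (W \ Tset E W x) d)
    (hp : ∀ v w, TP E W x v → w ∈ outN E W v → w ∉ Tset E W x → w ≠ x → d w = g)
    (hm : ∀ v y, TM E W x v → y ∈ inN E W v → y ∉ Tset E W x → y ≠ x → d y = !g) :
    Val E W (setT E W x (!g) d) := by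
  have hdT : ∀ v ∈ Tset E W x, Dead E W (setT E W x (!g) d) v := by
    intro v hv
    rcases mem_Tset.1 hv with h | h
    · right
      intro q hq hvq
      have hvW := (TP.arc h).2.2
      have hxW := (TP.arc h).2.1
      have hqx : q ≠ x := by
        rintro rfl
        exact hO v hvW q hxW hvq (TP.arc h).1
      rw [sv3_TP h]
      by_cases hT : q ∈ Tset E W x
      · rcases mem_Tset.1 hT with h' | h'
        · exact absurd (TP.in_eq h' hvW hvq) (TP.ne hO h)
        · rw [sv3_TM h']
          cases g <;> simp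
      · rw [sv3_out hT, hp v q h (Finset.mem_filter.2 ⟨hq, hvq⟩) hT hqx]
        cases g <;> simp
    · left
      intro p hp' hpv
      have hvW := (TM.arc h).2.2
      have hxW := (TM.arc h).2.1
      have hpx : p ≠ x := by
        rintro rfl
        exact hO p hxW v hvW hpv (TM.arc h).1
      rw [sv3_TM h]
      by_cases hT : p ∈ Tset E W x
      · rcases mem_Tset.1 hT with h' | h'
        · rw [sv3_TP h']
          cases g <;> simp
        · exact absurd (TM.out_eq h' hvW hpv) (TM.ne hO h)
      · rw [sv3_out hT, hm v p h (Finset.mem_filter.2 ⟨hp', hpv⟩) hT hpx]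
        cases g <;> simp
  rw [val_dead hdT]
  refine Val.congr (fun v hv => ?_) hd
  rw [sv3_out (Finset.mem_sdiff.1 hv).2]

/-- ROW V3 (G1). the outside vertices touched by `T⁺` have colour `g`, those touched by `T⁻` have colour `!g`: the `x`-flip is good. Colouring `setT (!g)`: `T⁺ := !g` has
only out-neighbours of colour `g` (`T⁻` or outside; never `x`), `T⁻ := g` has only in-neighbours of colour `!g`: all of `T(x)` is dead for both colours of `x`: `val_dead`. -/
theorem good1 (hO : Ori E W) (hx : x ∈ W) {c : V → Bool} (g : Bool) (hc : Val E (W \ Tset E W x) c)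
    (hc' : Val E (W \ Tset E W x) (flip c x))
    (hp : ∀ v w, TP E W x v → w ∈ outN E W v → w ∉ Tset E W x → c w = g)
    (hm : ∀ v y, TM E W x v → y ∈ inN E W v → y ∉ Tset E W x → c y = !g) :
    Reach E W (fill E W x c) (fill E W x (flip c x)) := by
  refine good_flip hO hx hc hc' (sv3_good1 hO g hc (fun v w h1 h2 h3 _ => hp v w h1 h2 h3)
    (fun v y h1 h2 h3 _ => hm v y h1 h2 h3)) (sv3_good1 hO g hc' ?_ ?_)
  · intro v w h1 h2 h3 h4
    rw [flip_of_ne h4]
    exact hp v w h1 h2 h3
  · intro v w h1 h2 h3 h4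
    rw [flip_of_ne h4]
    exact hm v w h1 h2 h3

end Mix
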