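import Pool.Agent.Lib.MP_784a73_co.Mix.SV1
import Pool.Agent.Lib.MP_784a73_co.Mix.SV3
import Pool.Agent.Lib.MP_784a73_co.Mix.SD1
import Pool.Agent.Lib.MP_784a73_co.Mix.SD2

/-! # MP_784a73_co, row S-D3 -/

namespace Mix

open Finset Relation

set_option linter.unusedSectionVars false

variable {V : Type*} [DecidableEq V] [Fintype V] {E : Finset (V × V)} {W : Finset V} {x : V}

/-- ROW D3 (case R of the paper). `E⁻ = {i₁, i₂}`, `E⁺ = {o}`, `o → i₁` and `|T(x)| ≥ 2`: contradiction. Take `z ∈ T(x)`. The auxiliary digraph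
`domE E W x z i₁ i₂` on `insert z (W \ T(x))` is good and has fewer vertices, so it is connected (`CE.ih`). Claim: for valid `d, d'` of it, `fill d` and `fill d'` are joined in `(E, W)`:
`Conn.induct`; a flip of `z` does not change `fill`, a flip of `y ≠ x, z`: `fill_flip`; a flip of `x` at `d`: put `h := d z`; the one of `d`, `flip d x` with the colour `h` at `x` gives (`dom_val`)
`d i₁ = d i₂ = !h`; the other one (`x` coloured `!h`) and `x → o → i₁ → x` give `d o = h`. So `E⁻ = !h`, `E⁺ = h`: `good0` with `g = !h`. Now for `c, c'` valid on `W`: `reach_fill`, change `c z` to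
`!c x` (`dom_val`). So `(E, W)` is connected. -/
theorem CE.caseR (hC : CE E W) {o i₁ i₂ : V} (hx : x ∈ W) (hT : 2 ≤ (Tset E W x).card)
    (ho : Ep E W x = {o}) (hi : Em E W x = {i₁, i₂}) (hoi : (o, i₁) ∈ E) : False := by
  have hO : Ori E W := hC.good.1
  obtain ⟨z, hz⟩ : (Tset E W x).Nonempty := by rw [← Finset.card_pos]; omega
  have hxT : x ∉ Tset E W x := not_mem_Tset hO
  have hzx : z ≠ x := fun h => hxT (h ▸ hz)
  have hi1m : i₁ ∈ Em E W x := by rw [hi]; simp
  have hi2m : i₂ ∈ Em E W x := by rw [hi]; simp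
  have hom : o ∈ Ep E W x := by rw [ho]; simp
  have hi1 : i₁ ∈ W \ Lx E W x := Em_sub hO hx hi1m
  have hi2 : i₂ ∈ W \ Lx E W x := Em_sub hO hx hi2m
  have hoW : o ∈ W \ Lx E W x := Ep_sub hO hx hom
  have hnL : ∀ {v : V}, v ∈ W \ Lx E W x → v ∈ W ∧ v ≠ x ∧ v ∉ Tset E W x := by
    intro v hv
    rw [Finset.mem_sdiff, Lx, Finset.mem_insert, not_or] at hv
    exact ⟨hv.1, hv.2.1, hv.2.2⟩
  have hi1x : (i₁, x) ∈ E := (mem_inN.1 (Finset.mem_sdiff.1 hi1m).1).2
  have hi2x : (i₂, x) ∈ E := (mem_inN.1 (Finset.mem_sdiff.1 hi2m).1).2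
  have hxo : (x, o) ∈ E := (mem_outN.1 (Finset.mem_sdiff.1 hom).1).2
  -- the auxiliary digraph
  have hGood := hC.good_dom hx hz hi1 hi2
  have hsubT : Tset E W x ⊆ W := Tset_sub
  have hcard : (insert z (W \ Tset E W x)).card < W.card := by
    have h1 : (insert z (W \ Tset E W x)).card ≤ (W \ Tset E W x).card + 1 := Finset.card_insert_le _ _
    have h2 : (W \ Tset E W x).card = W.card - (Tset E W x).card := Finset.card_sdiff_of_subset hsubT
    have h3 : (Tset E W x).card ≤ W.card := Finset.card_le_card hsubT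
    omega
  have hConn := hC.ih _ _ hcard hGood
  have hdv := fun c => @dom_val V _ _ E W x hO z i₁ i₂ hx hz hi1 hi2 c
  -- the claim
  have hclaim : ∀ d0, Val (domE E W x z i₁ i₂) (insert z (W \ Tset E W x)) d0 →
      ∀ d, Val (domE E W x z i₁ i₂) (insert z (W \ Tset E W x)) d →
        Reach E W (fill E W x d0) (fill E W x d) := by
    intro d0 hd0
    refine Conn.induct hConn hd0 ReflTransGen.refl ?_
    intro c hc hP y hy
    refine Reach.trans hP ?_
    obtain ⟨hc1, hc2⟩ := (hdv c).2 hc
    obtain ⟨hf1, hf2⟩ := (hdv (flip c y)).2 hy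
    by_cases hyx : y = x
    · subst hyx
      have hzc : (flip c y) z = c z := flip_of_ne hzx
      have hi1n : i₁ ≠ y := (hnL hi1).2.1
      have hi2n : i₂ ≠ y := (hnL hi2).2.1
      have hon : o ≠ y := (hnL hoW).2.1
      have hcol : c i₁ = !c z ∧ c i₂ = !c z := by
        by_cases h : c z = c y
        · exact ⟨by rw [h]; exact hc2 h i₁ (Or.inl rfl) hi1x, by rw [h]; exact hc2 h i₂ (Or.inr rfl) hi2x⟩
        · have hzy : (flip c y) z = (flip c y) y := by
            rw [hzc, flip_self]
            cases h1 : c z <;> cases h2 : c y <;> simp_all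
          have e1 := hf2 hzy i₁ (Or.inl rfl) hi1x
          have e2 := hf2 hzy i₂ (Or.inr rfl) hi2x
          rw [flip_of_ne hi1n, ← hzy, hzc] at e1
          rw [flip_of_ne hi2n, ← hzy, hzc] at e2
          exact ⟨e1, e2⟩
      have hoc : c o = c z := by
        by_contra hne
        have ho' : c o = !c z := by cases h1 : c o <;> cases h2 : c z <;> simp_all
        -- the colouring with `y` coloured `!c z`
        have htri : ∀ e : V → Bool, Val E (W \ Tset E W y) e → e y = e o → e o = e i₁ → False := by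
          intro e he h1 h2
          have hyW : y ∈ W \ Tset E W y := Finset.mem_sdiff.2 ⟨hx, hxT⟩
          have hoW' : o ∈ W \ Tset E W y := Finset.mem_sdiff.2 ⟨(hnL hoW).1, (hnL hoW).2.2⟩
          have hiW' : i₁ ∈ W \ Tset E W y := Finset.mem_sdiff.2 ⟨(hnL hi1).1, (hnL hi1).2.2⟩
          refine he y ?_
          refine TransGen.tail (TransGen.tail (TransGen.single (?_ : Mono E (W \ Tset E W y) e y o))
            (?_ : Mono E (W \ Tset E W y) e o i₁)) (?_ : Mono E (W \ Tset E W y) e i₁ y)
          · exact ⟨hxo, hyW, hoW', h1⟩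
          · exact ⟨hoi, hoW', hiW', h2⟩
          · exact ⟨hi1x, hiW', hyW, by rw [h1, h2]⟩
        by_cases h : c z = c y
        · refine htri (flip c y) hf1 ?_ ?_
          · rw [flip_self, flip_of_ne hon, ho', h]
          · rw [flip_of_ne hon, flip_of_ne hi1n, ho', hcol.1]
        · refine htri c hc1 ?_ ?_
          · rw [ho']; cases h1 : c z <;> cases h2 : c y <;> simp_all
          · rw [ho', hcol.1]
      refine good0 hO hx (!c z) hc1 hf1 ?_ ?_
      · intro i hi'
        rw [hi, Finset.mem_insert, Finset.mem_singleton] at hi'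
        rcases hi' with rfl | rfl
        · exact hcol.1
        · exact hcol.2
      · intro o' ho'
        rw [ho, Finset.mem_singleton] at ho'
        subst ho'
        rw [hoc]; simp
    · exact fill_flip hO hyx hc1 hf1
  -- conclusion
  refine hC.disc ?_
  intro c c' hc hc'
  have hup : ∀ e : V → Bool, Val E W e →
      Val (domE E W x z i₁ i₂) (insert z (W \ Tset E W x)) (Function.update e z (!e x)) ∧
      fill E W x (Function.update e z (!e x)) = fill E W x e := by
    intro e he
    constructor
    · refine (hdv _).1 ?_ ?_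
      · refine Val.congr (c := e) ?_ (he.anti (Finset.Subset.refl E) Finset.sdiff_subset)
        intro v hv
        have hvz : v ≠ z := fun h => (Finset.mem_sdiff.1 hv).2 (h ▸ hz)
        rw [Function.update_of_ne hvz]
      · rw [Function.update_self, Function.update_of_ne (Ne.symm hzx)]
    · funext v
      unfold fill
      by_cases hv : v ∈ Tset E W x
      · rw [if_pos hv, if_pos hv, Function.update_of_ne (Ne.symm hzx)]
      · rw [if_neg hv, if_neg hv]
        have hvz : v ≠ z := fun h => hv (h ▸ hz)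
        rw [Function.update_of_ne hvz]
  have h1 := reach_fill (x := x) hO hc
  have h2 := reach_fill (x := x) hO hc'
  have h3 := hclaim _ (hup c hc).1 _ (hup c' hc').1
  rw [(hup c hc).2, (hup c' hc').2] at h3
  exact h1.trans (h3.trans h2.symm)

end Mix
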