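import Pool.Agent.Lib.MP_784a73_co.Mix.SV2
import Pool.Agent.Lib.MP_784a73_co.Mix.SV3

/-! # MP_784a73_co, row S-D4 -/

namespace Mix

open Finset Relation

set_option linter.unusedSectionVars false

variable {V : Type*} [DecidableEq V] [Fintype V] {E : Finset (V × V)} {W : Finset V} {x : V}

/-- ROW D4 (case Q of the paper). `E⁺ = {o}` and `o → i` for all `i ∈ E⁻`: neutrality of `x` gives `c i = !c o` for all `i ∈ E⁻` (`x → o → i → x`), so every `x`-flip is good
(`good0` with `g = !c o`): `conn_lift`. -/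
theorem CE.caseQ (hC : CE E W) (hx : x ∈ W) (hT : (Tset E W x).Nonempty) {o : V}
    (ho : Ep E W x = {o}) (hall : ∀ i ∈ Em E W x, (o, i) ∈ E) : False := by
  have hO : Ori E W := hC.good.1
  have hoE : o ∈ Ep E W x := by rw [ho]; exact mem_singleton_self o
  have ho1 := Ep_sub hO hx hoE
  rw [Ep, mem_sdiff, mem_outN] at hoE
  have hxT : x ∈ W \ Tset E W x := mem_sdiff.2 ⟨hx, not_mem_Tset hO⟩
  have hoT : o ∈ W \ Tset E W x := mem_sdiff.2 ⟨hoE.1.1, hoE.2⟩
  have hox : o ≠ x := by
    rintro rfl
    exact hO.loop hx hoE.1.2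
  refine hC.conn_lift hT fun c hc hc' => ?_
  refine good0 hO hx (!c o) hc hc' (fun i hi => ?_) (fun o' ho' => ?_)
  · have hoi := hall i hi
    rw [Em, mem_sdiff, mem_inN] at hi
    have hiT : i ∈ W \ Tset E W x := mem_sdiff.2 ⟨hi.1.1, hi.2⟩
    have hix : i ≠ x := by
      rintro rfl
      exact hO.loop hx hi.1.2
    have key : ∀ d : V → Bool, Val E (W \ Tset E W x) d → d x = d o → d i = d o → False := by
      intro d hd h1 h2
      refine hd x ((TransGen.single ⟨hoE.1.2, hxT, hoT, h1⟩).tail
        ⟨hoi, hoT, hiT, h2.symm⟩ |>.tail ⟨hi.1.2, hiT, hxT, ?_⟩)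
      rw [h2, h1]
    by_contra hne
    have hio : c i = c o := by
      revert hne
      cases c i <;> cases c o <;> simp
    by_cases h : c x = c o
    · exact key c hc h hio
    · refine key (flip c x) hc' ?_ ?_
      · rw [flip_self, flip_of_ne hox]
        revert h
        cases c x <;> cases c o <;> simp
      · rw [flip_of_ne hix, flip_of_ne hox]
        exact hio
  · rw [ho, mem_singleton] at ho'
    rw [ho', Bool.not_not]

end Mix
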