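import Pool.Agent.Lib.MP_784a73_co.Mix.S4Defs

/-! # MP_784a73_co, row S-EX1 -/

namespace Mix

open Finset Relation

set_option linter.unusedSectionVars false

variable {V : Type*} [DecidableEq V] [Fintype V] {E : Finset (V × V)} {W : Finset V} {x : V}

/-- an oriented graph with at most two arcs has no directed cycle: three consecutive arcs of a closed walk are different -/
theorem val_of_two_arcs {P : Finset V} (hO : Ori E P) (he : ecard E P ≤ 2) (c : V → Bool) : Val E P c := by
  intro v hv
  obtain ⟨w, h1, h2⟩ := TransGen.head'_iff.1 hv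
  have hwv : v ≠ w := by
    rintro rfl
    exact hO _ h1.2.1 _ h1.2.1 h1.1 h1.1
  rcases ReflTransGen.cases_head h2 with h | ⟨u, h3, h4⟩
  · exact hwv h.symm
  have huv : v ≠ u := by
    rintro rfl
    exact hO _ h1.2.1 _ h1.2.2.1 h1.1 h3.1
  have hwu : w ≠ u := by
    rintro rfl
    exact hO _ h3.2.1 _ h3.2.1 h3.1 h3.1
  rcases ReflTransGen.cases_head h4 with h | ⟨t, h5, -⟩
  · exact huv h.symm
  have hsub : ({(v, w), (w, u), (u, t)} : Finset (V × V)) ⊆
      E.filter (fun a => a.1 ∈ P ∧ a.2 ∈ P) := by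
    intro a ha
    rw [mem_insert, mem_insert, mem_singleton] at ha
    rcases ha with rfl | rfl | rfl
    · exact mem_filter.2 ⟨h1.1, h1.2.1, h1.2.2.1⟩
    · exact mem_filter.2 ⟨h3.1, h3.2.1, h3.2.2.1⟩
    · exact mem_filter.2 ⟨h5.1, h5.2.1, h5.2.2.1⟩
  have hcard : ({(v, w), (w, u), (u, t)} : Finset (V × V)).card = 3 := by
    rw [card_insert_of_notMem, card_insert_of_notMem, card_singleton]
    · rw [mem_singleton]
      intro h
      exact hwu (Prod.mk.inj h).1
    · rw [mem_insert, mem_singleton, not_or]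
      exact ⟨fun h => hwv (Prod.mk.inj h).1, fun h => huv (Prod.mk.inj h).1⟩
  have := card_le_card hsub
  rw [hcard] at this
  unfold ecard at he
  omega

end Mix
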