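import Pool.Agent.Lib.MP_784a73_co.Mix.SK1

/-! # MP_784a73_co, row S-K3 -/

namespace Mix

open Finset Relation

set_option linter.unusedSectionVars false

variable {V : Type*} [DecidableEq V] [Fintype V] {E : Finset (V × V)} {W : Finset V} {x : V}

private theorem SK3_outN_inter {T : Finset V} (hT : T ⊆ W) (z : V) : outN E T z = outN E W z ∩ T := by
  ext p
  simp only [mem_outN, Finset.mem_inter]
  exact ⟨fun h => ⟨⟨hT h.1, h.2⟩, h.1⟩, fun h => ⟨h.2, h.1.2⟩⟩

private theorem SK3_inN_inter {T : Finset V} (hT : T ⊆ W) (z : V) : inN E T z = inN E W z ∩ T := by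
  ext p
  simp only [mem_inN, Finset.mem_inter]
  exact ⟨fun h => ⟨⟨hT h.1, h.2⟩, h.1⟩, fun h => ⟨h.2, h.1.2⟩⟩

private theorem SK3_TP (hO : Ori E W) {z : V} (hz : TP E W x z) :
    ((outN E W z \ Tset E W x).card : ℤ) = 2 - (deg E (Tset E W x) z : ℤ) := by
  have h1 : inN E (Tset E W x) z = ∅ := by
    rw [SK3_inN_inter Tset_sub, hz.2.1, Finset.singleton_inter_of_notMem (not_mem_Tset hO)]
  have h2 : (outN E W z \ Tset E W x).card + (outN E W z ∩ Tset E W x).card = 2 := by
    rw [Finset.card_sdiff_add_card_inter, hz.2.2]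
  rw [deg, h1, SK3_outN_inter Tset_sub]
  simp only [Finset.card_empty, zero_add]
  have h3 : ((outN E W z \ Tset E W x).card : ℤ) + ((outN E W z ∩ Tset E W x).card : ℤ) = 2 := by
    exact_mod_cast h2
  linarith

private theorem SK3_TM (hO : Ori E W) {z : V} (hz : TM E W x z) :
    ((inN E W z \ Tset E W x).card : ℤ) = 2 - (deg E (Tset E W x) z : ℤ) := by
  have h := SK3_TP (E := rev E) (x := x) hO.rev (TP_rev.2 hz)
  rwa [outN_rev, Tset_rev, deg_rev] at h

/-- the number of arcs between `T(x)` and `W \ L(x)` is `2 κ`, so `|Op| + |Om| ≤ 2 κ`.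
(`2 ff T = ∑_{z ∈ T} (4 - deg T z)` (`sum_deg`) and `deg T z = 3 - 1 - #(outside arcs at z)`; an element of `Op` is the head of an arc of the first kind, an element
of `Om` the tail of an arc of the second kind.) -/
theorem CE.card_O (hC : CE E W) (hx : x ∈ W) :
    ((Op E W x).card : ℤ) + ((Om E W x).card : ℤ) ≤ 2 * (ff E (Tset E W x) - ((Tset E W x).card : ℤ)) := by
  classical
  have hO : Ori E W := hC.good.1
  set T := Tset E W x with hT
  have hTW : T ⊆ W := Tset_sub
  have hsum : ∑ z ∈ T, (2 - (deg E T z : ℤ)) = 2 * (ff E T - (T.card : ℤ)) := by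
    have h1 := sum_deg (E := E) (W := T) (fun z hz => hO.loop (hTW hz))
    have h2 : ∑ z ∈ T, (4 - (deg E T z : ℤ)) = ∑ z ∈ T, (2 - (deg E T z : ℤ)) + 2 * (T.card : ℤ) := by
      rw [Finset.card_eq_sum_ones, Nat.cast_sum, Finset.mul_sum, ← Finset.sum_add_distrib]
      refine Finset.sum_congr rfl fun z _ => ?_
      push_cast
      ring
    linarith
  let g : V → Finset V := fun z => if TP E W x z then outN E W z \ T else ∅
  let h : V → Finset V := fun z => if TM E W x z then inN E W z \ T else ∅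
  have hOp : Op E W x ⊆ T.biUnion g := by
    intro w hw
    obtain ⟨hw1, v, hv, hvw⟩ := mem_Op.1 hw
    refine Finset.mem_biUnion.2 ⟨v, mem_Tset.2 (Or.inl hv), ?_⟩
    simp only [g, if_pos hv, Finset.mem_sdiff]
    refine ⟨hvw, fun hwT => ?_⟩
    exact (Finset.mem_sdiff.1 hw1).2 (Finset.mem_insert_of_mem hwT)
  have hOm : Om E W x ⊆ T.biUnion h := by
    intro w hw
    obtain ⟨hw1, v, hv, hvw⟩ := mem_Om.1 hw
    refine Finset.mem_biUnion.2 ⟨v, mem_Tset.2 (Or.inr hv), ?_⟩
    simp only [h, if_pos hv, Finset.mem_sdiff]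
    refine ⟨hvw, fun hwT => ?_⟩
    exact (Finset.mem_sdiff.1 hw1).2 (Finset.mem_insert_of_mem hwT)
  have c1 : ((Op E W x).card : ℤ) ≤ ∑ z ∈ T, ((g z).card : ℤ) := by
    have := (Finset.card_le_card hOp).trans Finset.card_biUnion_le
    exact_mod_cast this
  have c2 : ((Om E W x).card : ℤ) ≤ ∑ z ∈ T, ((h z).card : ℤ) := by
    have := (Finset.card_le_card hOm).trans Finset.card_biUnion_le
    exact_mod_cast this
  have c3 : ∑ z ∈ T, (((g z).card : ℤ) + ((h z).card : ℤ)) ≤ ∑ z ∈ T, (2 - (deg E T z : ℤ)) := by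
    refine Finset.sum_le_sum fun z hz => ?_
    rcases mem_Tset.1 hz with hP | hM
    · have hM : ¬ TM E W x z := hP.not_TM
      simp only [g, h, if_pos hP, if_neg hM, Finset.card_empty, Nat.cast_zero, add_zero]
      exact (SK3_TP hO hP).le
    · have hP : ¬ TP E W x z := fun hP => hP.not_TM hM
      simp only [g, h, if_neg hP, if_pos hM, Finset.card_empty, Nat.cast_zero, zero_add]
      exact (SK3_TM hO hM).le
  rw [Finset.sum_add_distrib] at c3
  linarith

end Mix
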