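import Pool.Agent.Lib.MP_784a73_co.Mix.SK2
import Pool.Agent.Lib.MP_784a73_co.Mix.SK3
import Pool.Agent.Lib.MP_784a73_co.Mix.SEX1

/-! # MP_784a73_co, row S-EX3 -/

namespace Mix

open Finset Relation

set_option linter.unusedSectionVars false

variable {V : Type*} [DecidableEq V] [Fintype V] {E : Finset (V × V)} {W : Finset V} {x : V}

/-- the in-neighbours of `x` in a set between `E⁻` and the complement of `T(x)` are `E⁻` -/
theorem SEX3_in {R : Finset V} (hR : R ⊆ W \ Tset E W x) (hE : Em E W x ⊆ R) :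
    inN E R x = Em E W x := by
  ext p
  constructor
  · intro hp
    rw [mem_inN] at hp
    have h1 := hR hp.1
    rw [Finset.mem_sdiff] at h1
    rw [Em, Finset.mem_sdiff, mem_inN]
    exact ⟨⟨h1.1, hp.2⟩, h1.2⟩
  · intro hp
    have h2 := hE hp
    rw [Em, Finset.mem_sdiff, mem_inN] at hp
    rw [mem_inN]
    exact ⟨h2, hp.1.2⟩

/-- the out-neighbours of `x` in a set between `E⁺` and the complement of `T(x)` are `E⁺` -/
theorem SEX3_out {R : Finset V} (hR : R ⊆ W \ Tset E W x) (hE : Ep E W x ⊆ R) :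
    outN E R x = Ep E W x := by
  ext p
  constructor
  · intro hp
    rw [mem_outN] at hp
    have h1 := hR hp.1
    rw [Finset.mem_sdiff] at h1
    rw [Ep, Finset.mem_sdiff, mem_outN]
    exact ⟨⟨h1.1, hp.2⟩, h1.2⟩
  · intro hp
    have h2 := hE hp
    rw [Ep, Finset.mem_sdiff, mem_outN] at hp
    rw [mem_outN]
    exact ⟨h2, hp.1.2⟩

/-- the basic counting identity: `ff (Y ∪ P) = ff (T ∪ insert x (Y ∪ P)) + 1 + κ` -/
theorem CE.SEX3_ff (hC : CE E W) (hx : x ∈ W)
    (h3 : (Em E W x).card + (Ep E W x).card = 3) (hp : Op E W x = Em E W x) (hm : Om E W x = Ep E W x)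
    {Y : Finset V} (hY : Y ⊆ (W \ Lx E W x) \ (Em E W x ∪ Ep E W x)) :
    ff E (Y ∪ (Em E W x ∪ Ep E W x)) =
      ff E (Tset E W x ∪ insert x (Y ∪ (Em E W x ∪ Ep E W x))) + 1
        + (ff E (Tset E W x) - ((Tset E W x).card : ℤ)) := by
  have hO : Ori E W := hC.good.1
  set P := Em E W x ∪ Ep E W x with hPdef
  have hPsub : P ⊆ W \ Lx E W x := Finset.union_subset (Em_sub hO hx) (Ep_sub hO hx)
  have hYsub : Y ⊆ W \ Lx E W x := fun y hy => (Finset.mem_sdiff.1 (hY hy)).1
  have hYP : Y ∪ P ⊆ W \ Lx E W x := Finset.union_subset hYsub hPsub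
  have hLT : W \ Lx E W x ⊆ W \ Tset E W x := by
    intro y hy
    rw [Finset.mem_sdiff] at hy ⊢
    refine ⟨hy.1, fun h => hy.2 ?_⟩
    rw [Lx]; exact Finset.mem_insert_of_mem h
  have hYPT : Y ∪ P ⊆ W \ Tset E W x := hYP.trans hLT
  have hxYP : x ∉ Y ∪ P := by
    intro h
    have := (Finset.mem_sdiff.1 (hYP h)).2
    exact this (by rw [Lx]; exact Finset.mem_insert_self _ _)
  have hEmR : Em E W x ⊆ Y ∪ P := fun y hy => Finset.mem_union_right _ (Finset.mem_union_left _ hy)
  have hEpR : Ep E W x ⊆ Y ∪ P := fun y hy => Finset.mem_union_right _ (Finset.mem_union_right _ hy)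
  have hdeg : deg E (Y ∪ P) x = 3 := by
    rw [deg, SEX3_in hYPT hEmR, SEX3_out hYPT hEpR]; exact h3
  have h1 : ff E (insert x (Y ∪ P)) = ff E (Y ∪ P) + 2 - (deg E (Y ∪ P) x : ℤ) :=
    ff_insert hxYP (hO.loop hx)
  have hR : insert x (Y ∪ P) ⊆ W \ Tset E W x := by
    intro y hy
    rcases Finset.mem_insert.1 hy with rfl | hy
    · exact Finset.mem_sdiff.2 ⟨hx, not_mem_Tset hO⟩
    · exact hYPT hy
  have h2 := hC.ff_add_T (x := x) hR (Finset.mem_insert_self _ _)
    (by rw [hp]; exact fun y hy => Finset.mem_insert_of_mem (hEmR hy))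
    (by rw [hm]; exact fun y hy => Finset.mem_insert_of_mem (hEpR hy))
  rw [hdeg] at h1
  push_cast at h1
  linarith

/-- existence of a valid colouring with `E⁻` coloured `true` and `E⁺` coloured `false` if all three vertices of `P = E⁻ ∪ E⁺` are touched and have degree `≥ 4`.
`κ := ff T - |T| ≥ 2` (`card_O`). `ff (Y ∪ P) = ff (Y ∪ P ∪ L(x)) + 1 + κ` for `Y ⊆ Q := W \ L(x) \ P` (`ff_insert` for `x`, which has exactly the neighbours `P` outside `T`, then `ff_add_T`).
`Y = ∅`: `e(P) = 6 - ff P ≤ 6 - 1 - 1 - 2 = 2`, so every colouring of `P` is valid (`val_of_two_arcs`). Nonempty `Y ⊂ Q`: `ff (Y ∪ P) ≥ 2 + 3`,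
`∑_{z ∈ Y} (4 - deg (Y ∪ P) z) = ff Y + ff (Y ∪ P) - ff P ≥ 2 + 5 - 6 > 0`. `Y = Q`: `∑_{z ∈ W} (4 - deg W z) = 2 ff W ≥ 2`, the part of `L(x)` is
`4 - (3 + |T|) + |T| = 1`, the part of `P` is `≤ 0`, so the part of `Q` is positive (and `deg W z = deg (Q ∪ P) z` for `z ∈ Q`: no arcs between `Q` and `L(x)`). So there is always a vertex
of degree `≤ 3`: `ext_single`. -/
theorem CE.exists_tgt (hC : CE E W) (hx : x ∈ W) (hDT : AllDT E W x)
    (h3 : (Em E W x).card + (Ep E W x).card = 3) (hp : Op E W x = Em E W x) (hm : Om E W x = Ep E W x)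
    (h4 : ∀ p ∈ Em E W x ∪ Ep E W x, 4 ≤ deg E W p) :
    ∃ c, Val E (W \ Lx E W x) c ∧ (∀ i ∈ Em E W x, c i = true) ∧ ∀ o ∈ Ep E W x, c o = false := by
  classical
  have hO : Ori E W := hC.good.1
  have hκ : 2 ≤ ff E (Tset E W x) - ((Tset E W x).card : ℤ) := by
    have h := hC.card_O hx
    rw [hp, hm] at h
    have h' : ((Em E W x).card : ℤ) + ((Ep E W x).card : ℤ) = 3 := by exact_mod_cast h3
    omega
  have hffY := fun {Y : Finset V} (hY : Y ⊆ (W \ Lx E W x) \ (Em E W x ∪ Ep E W x)) =>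
    hC.SEX3_ff hx h3 hp hm hY
  have hdisj := Em_disj_Ep hO hx
  set P := Em E W x ∪ Ep E W x with hPdef
  have hPsub : P ⊆ W \ Lx E W x := Finset.union_subset (Em_sub hO hx) (Ep_sub hO hx)
  have hPW : P ⊆ W := hPsub.trans Finset.sdiff_subset
  set Q := (W \ Lx E W x) \ P with hQdef
  have hQW : Q ⊆ W := Finset.sdiff_subset.trans Finset.sdiff_subset
  have hPcard : P.card = 3 := by rw [hPdef, Finset.card_union_of_disjoint hdisj, h3]
  have hxQ : x ∉ Q := fun h =>
    (Finset.mem_sdiff.1 (Finset.mem_sdiff.1 h).1).2 (by rw [Lx]; exact Finset.mem_insert_self _ _)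
  have hLW : Lx E W x ⊆ W := Lx_sub hx
  have hunion : Q ∪ P = W \ Lx E W x := Finset.sdiff_union_of_subset hPsub
  have hZ : ∀ {Y : Finset V}, Y ⊆ Q → 1 ≤ ff E (Tset E W x ∪ insert x (Y ∪ P)) := by
    intro Y hY
    refine hC.good.2 _ ?_ ⟨x, Finset.mem_union_right _ (Finset.mem_insert_self _ _)⟩
    refine Finset.union_subset Tset_sub ?_
    intro y hy
    rcases Finset.mem_insert.1 hy with rfl | hy
    · exact hx
    · rcases Finset.mem_union.1 hy with hy | hy
      · exact hQW (hY hy)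
      · exact hPW hy
  have hZ2 : ∀ {Y : Finset V}, Y ⊆ Q → Y ≠ Q → 2 ≤ ff E (Tset E W x ∪ insert x (Y ∪ P)) := by
    intro Y hY hne
    refine hC.two _ ?_ ⟨x, Finset.mem_union_right _ (Finset.mem_insert_self _ _)⟩ ?_
    · refine Finset.union_subset Tset_sub ?_
      intro y hy
      rcases Finset.mem_insert.1 hy with rfl | hy
      · exact hx
      · rcases Finset.mem_union.1 hy with hy | hy
        · exact hQW (hY hy)
        · exact hPW hy
    · intro heq
      apply hne
      apply Finset.Subset.antisymm hY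
      intro q hq
      have hqW : q ∈ Tset E W x ∪ insert x (Y ∪ P) := by rw [heq]; exact hQW hq
      have hq1 := Finset.mem_sdiff.1 hq
      have hq2 := (Finset.mem_sdiff.1 hq1.1).2
      rw [Lx, Finset.mem_insert, not_or] at hq2
      rcases Finset.mem_union.1 hqW with h | h
      · exact absurd h hq2.2
      · rcases Finset.mem_insert.1 h with h | h
        · exact absurd h hq2.1
        · rcases Finset.mem_union.1 h with h | h
          · exact h
          · exact absurd h hq1.2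
  -- the set `P`
  have hffP : 4 ≤ ff E P := by
    have h := hffY (Y := ∅) (Finset.empty_subset _)
    rw [Finset.empty_union] at h
    have h' := hZ (Y := ∅) (Finset.empty_subset _)
    rw [Finset.empty_union] at h'
    linarith
  have hffP' : ff E P = 6 - (ecard E P : ℤ) := by
    rw [ff, hPcard]; norm_num
  have heP : ecard E P ≤ 2 := by
    have : (ecard E P : ℤ) ≤ 2 := by linarith
    exact_mod_cast this
  have hffP6 : ff E P ≤ 6 := by
    have : (0 : ℤ) ≤ (ecard E P : ℤ) := Int.natCast_nonneg _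
    linarith
  have hval : Val E P (fun v => decide (v ∈ Em E W x)) := val_of_two_arcs (hO.sub hPW) heP _
  have hQP : Disjoint Q P := Finset.sdiff_disjoint
  -- a vertex of small degree
  have hdeg : ∀ Y' ⊆ Q, Y'.Nonempty → ∃ z ∈ Y', deg E (Y' ∪ P) z ≤ 3 := by
    intro Y hY hYn
    have hYW : Y ⊆ W := hY.trans hQW
    have hYP : Disjoint Y P := Finset.disjoint_of_subset_left hY hQP
    by_contra hcon
    push Not at hcon
    have hle : ∀ z ∈ Y, (4 : ℤ) - (deg E (Y ∪ P) z : ℤ) ≤ 0 := by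
      intro z hz
      have : 4 ≤ deg E (Y ∪ P) z := hcon z hz
      have : (4 : ℤ) ≤ (deg E (Y ∪ P) z : ℤ) := by exact_mod_cast this
      linarith
    by_cases hYQ : Y = Q
    · subst hYQ
      -- degree sum over `W`
      have hsum := sum_deg (E := E) (W := W) (fun z hz => hO.loop hz)
      have hffW : 1 ≤ ff E W := hC.good.2 W (Finset.Subset.refl _) ⟨x, hx⟩
      have hsplit : W = Lx E W x ∪ (Q ∪ P) := by
        rw [hunion, Finset.union_sdiff_of_subset hLW]
      have hd1 : Disjoint (Lx E W x) (Q ∪ P) := by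
        rw [hunion]; exact Finset.disjoint_sdiff
      have hs2 : ∑ z ∈ W, (4 - (deg E W z : ℤ))
          = ∑ z ∈ Lx E W x, (4 - (deg E W z : ℤ)) + (∑ z ∈ Q, (4 - (deg E W z : ℤ))
            + ∑ z ∈ P, (4 - (deg E W z : ℤ))) := by
        rw [← Finset.sum_union hQP, ← Finset.sum_union hd1]
        exact Finset.sum_congr hsplit (fun _ _ => rfl)
      have hL : ∑ z ∈ Lx E W x, (4 - (deg E W z : ℤ)) = 1 := by
        rw [Lx, Finset.sum_insert (not_mem_Tset hO), deg_x hO hx]
        have hT : ∑ z ∈ Tset E W x, (4 - (deg E W z : ℤ)) = ((Tset E W x).card : ℤ) := by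
          rw [Finset.card_eq_sum_ones, Nat.cast_sum]
          refine Finset.sum_congr rfl (fun z hz => ?_)
          rcases mem_Tset.1 hz with h | h
          · rw [h.deg]; norm_num
          · rw [h.deg]; norm_num
        rw [hT, h3]
        push_cast
        ring
      have hPs : ∑ z ∈ P, (4 - (deg E W z : ℤ)) ≤ 0 := by
        refine Finset.sum_nonpos (fun z hz => ?_)
        have : (4 : ℤ) ≤ (deg E W z : ℤ) := by exact_mod_cast h4 z hz
        linarith
      have hYs : ∑ z ∈ Q, (4 - (deg E W z : ℤ)) ≤ 0 := by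
        refine Finset.sum_nonpos (fun z hz => ?_)
        have h5 : deg E (Q ∪ P) z ≤ deg E W z := deg_mono (Finset.union_subset hQW hPW) z
        have h6 : 4 ≤ deg E (Q ∪ P) z := hcon z hz
        have : (4 : ℤ) ≤ (deg E W z : ℤ) := by exact_mod_cast h6.trans h5
        linarith
      rw [hs2, hL] at hsum
      linarith
    · have hsum := sum_deg_pin (E := E) hYP (fun z hz => hO.loop (hYW hz))
      have h1 := hffY (Y := Y) hY
      have h2 := hZ2 hY hYQ
      have h3' : 2 ≤ ff E Y := by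
        refine hC.two Y hYW hYn ?_
        rintro rfl
        exact hxQ (hY hx)
      have h4' : ∑ z ∈ Y, (4 - (deg E (Y ∪ P) z : ℤ)) ≤ 0 := Finset.sum_nonpos hle
      linarith
  obtain ⟨c, hc1, hc2⟩ := ext_single (E := E) hQP (fun z hz => hO.loop (hQW hz)) hval hdeg
  rw [hunion] at hc2
  refine ⟨c, hc2, ?_, ?_⟩
  · intro i hi
    rw [hc1 i (Finset.mem_union_left _ hi)]
    simp [hi]
  · intro o ho
    rw [hc1 o (Finset.mem_union_right _ ho)]
    have : o ∉ Em E W x := fun h => (Finset.disjoint_left.1 hdisj) h ho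
    simp [this]

end Mix
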