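import Pool.Agent.Lib.MP_784a73_co.Mix.SK1

/-! # MP_784a73_co, row S-F1 -/

namespace Mix

open Finset Relation

set_option linter.unusedSectionVars false

variable {V : Type*} [DecidableEq V] [Fintype V] {E : Finset (V × V)} {W : Finset V} {x : V}

/-- target colouring on the touched vertices: `E' = E ∪ E⁻ × E⁺` good on `W \ L(x)`, at most two touched vertices (`Op ⊆ E⁻`, `Om ⊆ E⁺`): there is a colouring valid for `E'` and `g` with
`c = g` on `Op`, `c = !g` on `Om`. At most one touched: any valid colouring (`Good.exists_val`). Two: `Conn.exists_eq` / `Conn.exists_ne`. -/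
theorem CE.tgt_two (hC : CE E W) (hx : x ∈ W) (hT : (Tset E W x).Nonempty) (hDT : AllDT E W x)
    (hG : Good (E ∪ Em E W x ×ˢ Ep E W x) (W \ Lx E W x)) (h2 : (Op E W x).card + (Om E W x).card ≤ 2) :
    ∃ c g, Val (E ∪ Em E W x ×ˢ Ep E W x) (W \ Lx E W x) c ∧ (∀ w ∈ Op E W x, c w = g) ∧ ∀ y ∈ Om E W x, c y = !g := by
  have hO : Ori E W := hC.good.1
  have hss : W \ Lx E W x ⊂ W := by
    refine ⟨sdiff_subset, fun h => ?_⟩
    have := h hx
    rw [mem_sdiff, Lx, mem_insert, not_or] at this
    exact this.2.1 rfl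
  have hcn := hC.conn_good hss hG
  obtain ⟨c0, hc0⟩ := hG.exists_val
  obtain ⟨hs1, hs2⟩ := hC.Op_sub hDT
  have hdis : Disjoint (Op E W x) (Om E W x) :=
    Disjoint.mono hs1 hs2 (Em_disj_Ep hO hx)
  rcases Nat.lt_or_ge (Op E W x).card 1 with h0 | h0
  · have hOp : Op E W x = ∅ := card_eq_zero.1 (by omega)
    rcases Nat.lt_or_ge (Om E W x).card 1 with h0' | h0'
    · have hOm : Om E W x = ∅ := card_eq_zero.1 (by omega)
      refine ⟨c0, true, hc0, ?_, ?_⟩
      · rw [hOp]; intro w hw; exact absurd hw (notMem_empty w)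
      · rw [hOm]; intro w hw; exact absurd hw (notMem_empty w)
    · rcases Nat.lt_or_ge (Om E W x).card 2 with h1 | h1
      · obtain ⟨y, hy⟩ := card_eq_one.1 (by omega : (Om E W x).card = 1)
        refine ⟨c0, !c0 y, hc0, ?_, ?_⟩
        · rw [hOp]; intro w hw; exact absurd hw (notMem_empty w)
        · rw [hy]; intro w hw
          rw [mem_singleton.1 hw, Bool.not_not]
      · obtain ⟨p, q, hpq, hy⟩ := card_eq_two.1 (by omega : (Om E W x).card = 2)
        obtain ⟨c, hc, hcpq⟩ := hcn.exists_eq hc0 hpq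
        refine ⟨c, !c p, hc, ?_, ?_⟩
        · rw [hOp]; intro w hw; exact absurd hw (notMem_empty w)
        · rw [hy]; intro w hw
          rw [mem_insert, mem_singleton] at hw
          rcases hw with rfl | rfl
          · rw [Bool.not_not]
          · rw [Bool.not_not, hcpq]
  · rcases Nat.lt_or_ge (Op E W x).card 2 with h1 | h1
    · obtain ⟨p, hp⟩ := card_eq_one.1 (by omega : (Op E W x).card = 1)
      rcases Nat.lt_or_ge (Om E W x).card 1 with h0' | h0'
      · have hOm : Om E W x = ∅ := card_eq_zero.1 (by omega)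
        refine ⟨c0, c0 p, hc0, ?_, ?_⟩
        · rw [hp]; intro w hw
          rw [mem_singleton.1 hw]
        · rw [hOm]; intro w hw; exact absurd hw (notMem_empty w)
      · obtain ⟨q, hq⟩ := card_eq_one.1 (by omega : (Om E W x).card = 1)
        have hpq : p ≠ q := by
          rintro rfl
          rw [hp, hq] at hdis
          exact Finset.disjoint_left.1 hdis (mem_singleton_self p) (mem_singleton_self p)
        obtain ⟨c, hc, hcpq⟩ := hcn.exists_ne hc0 hpq
        refine ⟨c, c p, hc, ?_, ?_⟩
        · rw [hp]; intro w hw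
          rw [mem_singleton.1 hw]
        · rw [hq]; intro w hw
          rw [mem_singleton.1 hw, hcpq, Bool.not_not]
    · have hOm : Om E W x = ∅ := card_eq_zero.1 (by omega)
      obtain ⟨p, q, hpq, hy⟩ := card_eq_two.1 (by omega : (Op E W x).card = 2)
      obtain ⟨c, hc, hcpq⟩ := hcn.exists_eq hc0 hpq
      refine ⟨c, c p, hc, ?_, ?_⟩
      · rw [hy]; intro w hw
        rw [mem_insert, mem_singleton] at hw
        rcases hw with rfl | rfl
        · rfl
        · exact hcpq.symm
      · rw [hOm]; intro w hw; exact absurd hw (notMem_empty w)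

end Mix
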