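import Pool.Agent.Lib.MP_784a73_co.Mix.SV2

/-! # MP_784a73_co, row S-V4 -/

namespace Mix

open Finset Relation

set_option linter.unusedSectionVars false

variable {V : Type*} [DecidableEq V] [Fintype V] {E : Finset (V × V)} {W : Finset V} {x : V}

/-- `E'` describes the colourings of `W \ L(x)` for which `x` is neutral; if this space is connected and contains one colouring with a good
`x`-flip, then `(E, W)` is connected. Proof: `conn_lift`; for an `x`-flip at `c`: walk in `R(E', W \ L(x))` from `c` to `c₁` with the colour of `x` fixed (`hN2`,
`fill_flip`), flip `x` there, walk back. (`Conn.induct` on `(E', W \ L(x))` for `P d := ∀ g, Reach (fill (d, x ↦ g)) (fill (c₁, x ↦ g))`, `(d, x ↦ g) := Function.update d x g`.) -/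
theorem CE.conn_neutral (hC : CE E W) (hx : x ∈ W) (hT : (Tset E W x).Nonempty) {E' : Finset (V × V)}
    (hG : Good E' (W \ Lx E W x))
    (hN1 : ∀ c, Val E (W \ Tset E W x) c → Val E (W \ Tset E W x) (flip c x) → Val E' (W \ Lx E W x) c)
    (hN2 : ∀ c, Val E' (W \ Lx E W x) c → Val E (W \ Tset E W x) c)
    {c₁ : V → Bool} (h1 : Val E' (W \ Lx E W x) c₁)
    (hgood : Reach E W (fill E W x c₁) (fill E W x (flip c₁ x))) : False := by
  have hO : Ori E W := hC.good.1
  have hxn : x ∉ W \ Lx E W x := by
    intro h
    exact (Finset.mem_sdiff.1 h).2 (Finset.mem_insert_self _ _)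
  have hcard : (W \ Lx E W x).card < W.card := by
    refine Finset.card_lt_card ?_
    rw [Finset.ssubset_iff_of_subset Finset.sdiff_subset]
    exact ⟨x, hx, hxn⟩
  have hconn : Conn E' (W \ Lx E W x) := hC.ih E' _ hcard hG
  have hcg : ∀ (d : V → Bool) (g : Bool), Val E' (W \ Lx E W x) d →
      Val E' (W \ Lx E W x) (Function.update d x g) := by
    intro d g hd
    refine hd.congr ?_
    intro v hv
    have hvx : v ≠ x := by
      rintro rfl
      exact hxn hv
    simp [hvx]
  have hP : ∀ c, Val E' (W \ Lx E W x) c → ∀ g,
      Reach E W (fill E W x (Function.update c x g)) (fill E W x (Function.update c₁ x g)) := by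
    refine hconn.induct (P := fun d => ∀ g,
      Reach E W (fill E W x (Function.update d x g)) (fill E W x (Function.update c₁ x g))) h1
      (fun g => ReflTransGen.refl) ?_
    intro d hd hPd z hz g
    by_cases hzx : z = x
    · subst hzx
      have : Function.update (flip d z) z g = Function.update d z g := by
        simp [flip]
      rw [this]
      exact hPd g
    · have he : Function.update (flip d z) x g = flip (Function.update d x g) z := by
        funext v
        by_cases hvx : v = x
        · subst hvx
          rw [flip_of_ne (Ne.symm hzx)]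
          simp
        · by_cases hvz : v = z
          · subst hvz
            simp [hvx]
          · simp [hvx, hvz]
      rw [he]
      have v1 : Val E (W \ Tset E W x) (Function.update d x g) := hN2 _ (hcg d g hd)
      have v2 : Val E (W \ Tset E W x) (flip (Function.update d x g) z) := by
        rw [← he]
        exact hN2 _ (hcg _ g hz)
      exact (fill_flip hO hzx v1 v2).symm.trans (hPd g)
  refine hC.conn_lift hT ?_
  intro c hc hc'
  have hv : Val E' (W \ Lx E W x) c := hN1 c hc hc'
  have e1 : Function.update c x (c x) = c := Function.update_eq_self x c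
  have e2 : Function.update c x (!c x) = flip c x := rfl
  have r1 := hP c hv (c x)
  have r2 := hP c hv (!c x)
  rw [e1] at r1
  rw [e2] at r2
  by_cases hg : c₁ x = c x
  · have e3 : Function.update c₁ x (c x) = c₁ := by
      rw [← hg]; exact Function.update_eq_self x c₁
    have e4 : Function.update c₁ x (!c x) = flip c₁ x := by
      rw [← hg]; rfl
    rw [e3] at r1
    rw [e4] at r2
    exact r1.trans (hgood.trans r2.symm)
  · have hg' : c x = !c₁ x := by
      cases h1 : c x <;> cases h2 : c₁ x <;> simp_all
    have e3 : Function.update c₁ x (c x) = flip c₁ x := by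
      rw [hg']; rfl
    have e4 : Function.update c₁ x (!c x) = c₁ := by
      rw [hg', Bool.not_not]; exact Function.update_eq_self x c₁
    rw [e3] at r1
    rw [e4] at r2
    exact r1.trans (hgood.symm.trans r2.symm)

end Mix
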