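import Pool.Agent.Lib.MP_784a73_co.Mix.SF1
import Pool.Agent.Lib.MP_784a73_co.Mix.SEX3
import Pool.Agent.Lib.MP_784a73_co.Mix.SV3
import Pool.Agent.Lib.MP_784a73_co.Mix.SV4
import Pool.Agent.Lib.MP_784a73_co.Mix.SV5
import Pool.Agent.Lib.MP_784a73_co.Mix.SV5b

/-! # MP_784a73_co, row S-F2 -/

namespace Mix

open Finset Relation

set_option linter.unusedSectionVars false

variable {V : Type*} [DecidableEq V] [Fintype V] {E : Finset (V × V)} {W : Finset V} {x : V}

/-- ROW F2 (case P2). all DT, `|E⁺| ≤ 1`, no arc `E⁺ → E⁻`; either at most two vertices are touched or all touched vertices have degree `≥ 4`. `E' := E ∪ E⁻ × E⁺`,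
`(E', W \ L(x))` is good (`good_neutral`) and describes neutrality (`neutral_iff`). `conn_neutral` with the colouring of `tgt_two` or of `exists_tgt` (valid for `E'` too because the new arcs are
bichromatic), which has a good `x`-flip by `good1` (`Op_sub`). -/
theorem CE.caseP2 (hC : CE E W) (hx : x ∈ W) (hT : (Tset E W x).Nonempty) (hDT : AllDT E W x)
    (h3 : (Em E W x).card + (Ep E W x).card ≤ 3) (ho : (Ep E W x).card ≤ 1)
    (hno : ∀ i ∈ Em E W x, ∀ o ∈ Ep E W x, (o, i) ∉ E)
    (h4 : (Em E W x).card + (Ep E W x).card = 3 → Op E W x = Em E W x → Om E W x = Ep E W x →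
      ∀ p ∈ Em E W x ∪ Ep E W x, 4 ≤ deg E W p) : False := by
  classical
  have hO : Ori E W := hC.good.1
  have hG := hC.good_neutral hx hT ho h3 hno
  have hsub := hC.Op_sub hDT
  -- the target colouring
  have key : ∃ c g, Val (E ∪ Em E W x ×ˢ Ep E W x) (W \ Lx E W x) c ∧ (∀ w ∈ Op E W x, c w = g) ∧
      ∀ y ∈ Om E W x, c y = !g := by
    by_cases h2 : (Op E W x).card + (Om E W x).card ≤ 2
    · exact hC.tgt_two hx hT hDT hG h2
    · have e1 := Finset.card_le_card hsub.1
      have e2 := Finset.card_le_card hsub.2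
      have h33 : (Em E W x).card + (Ep E W x).card = 3 := by omega
      have hp : Op E W x = Em E W x := Finset.eq_of_subset_of_card_le hsub.1 (by omega)
      have hm : Om E W x = Ep E W x := Finset.eq_of_subset_of_card_le hsub.2 (by omega)
      obtain ⟨c, hc, hi, ho'⟩ := hC.exists_tgt hx hDT h33 hp hm (h4 h33 hp hm)
      refine ⟨c, true, ?_, ?_, ?_⟩
      · intro v hv
        refine hc v (tg_mono (fun p q hpq => ?_) hv)
        obtain ⟨h5, h6, h7, h8⟩ := hpq
        rcases Finset.mem_union.1 h5 with h9 | h9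
        · exact ⟨h9, h6, h7, h8⟩
        · exfalso
          have h10 := Finset.mem_product.1 h9
          rw [hi p h10.1, ho' q h10.2] at h8
          exact absurd h8 (by decide)
      · intro w hw
        rw [hp] at hw
        exact hi w hw
      · intro y hy
        rw [hm] at hy
        exact ho' y hy
  obtain ⟨c, g, hc, hp, hm⟩ := key
  have hn := (neutral_iff hO hx ho).2 hc
  refine hC.conn_neutral hx hT hG (fun d h5 h6 => (neutral_iff hO hx ho).1 ⟨h5, h6⟩)
    (fun d h5 => ((neutral_iff hO hx ho).2 h5).1) hc ?_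
  refine good1 hO hx g hn.1 hn.2 ?_ ?_
  · intro v w hv hw hwT
    refine hp w (mem_Op.2 ⟨?_, v, hv, hw⟩)
    refine Finset.mem_sdiff.2 ⟨(mem_outN.1 hw).1, fun h => ?_⟩
    rcases Finset.mem_insert.1 h with h | h
    · exact (hC.out_cases hv hw).1 h
    · exact hwT h
  · intro v y hv hy hyT
    refine hm y (mem_Om.2 ⟨?_, v, hv, hy⟩)
    refine Finset.mem_sdiff.2 ⟨(mem_inN.1 hy).1, fun h => ?_⟩
    rcases Finset.mem_insert.1 h with h | h
    · exact (hC.in_cases hv hy).1 h
    · exact hyT h

end Mix
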