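import Pool.Agent.Lib.MP_784a73_co.Mix.SB4
import Pool.Agent.Lib.MP_784a73_co.Mix.SF2
import Pool.Agent.Lib.MP_784a73_co.Mix.SD4

/-! # MP_784a73_co, row S-G1 -/

namespace Mix

open Finset Relation

set_option linter.unusedSectionVars false

variable {V : Type*} [DecidableEq V] [Fintype V] {E : Finset (V × V)} {W : Finset V} {x : V}

theorem sg1_aux (hC : CE E W) (hx : x ∈ W) (hT : (Tset E W x).Nonempty)
    (h2 : (Em E W x).card + (Ep E W x).card ≤ 2) (h1 : (Ep E W x).card ≤ 1) : False := by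
  by_cases hno : ∀ i ∈ Em E W x, ∀ o ∈ Ep E W x, (o, i) ∉ E
  · by_cases hB : ∃ v w, BP E W x v w ∨ BM E W x v w
    · exact hC.caseP1 hx hB (by omega) h1 hno
    · have hDT : AllDT E W x := by
        refine ⟨fun v hv w hw => ?_, fun v hv y hy => ?_⟩
        · by_contra hcon
          exact hB ⟨v, w, Or.inl ⟨hv, hw, hcon⟩⟩
        · by_contra hcon
          exact hB ⟨v, y, Or.inr ⟨hv, hy, hcon⟩⟩
      exact hC.caseP2 hx hT hDT (by omega) h1 hno (fun h => by omega)
  · push Not at hno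
    obtain ⟨i, hi, o, ho, hoi⟩ := hno
    have h3 : (Ep E W x).card = 1 := by
      have := card_pos.2 ⟨o, ho⟩
      omega
    obtain ⟨o', ho'⟩ := card_eq_one.1 h3
    have h4 : o = o' := by rw [ho'] at ho; exact mem_singleton.1 ho
    have h5 : (Em E W x).card = 1 := by
      have := card_pos.2 ⟨i, hi⟩
      omega
    obtain ⟨i', hi'⟩ := card_eq_one.1 h5
    have h6 : i = i' := by rw [hi'] at hi; exact mem_singleton.1 hi
    refine hC.caseQ hx hT (o := o) (by rw [ho', h4]) fun j hj => ?_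
    rw [hi', mem_singleton] at hj
    rw [hj, ← h6]
    exact hoi

/-- ROW G1 (theorem 4A for `|E| ≤ 2`). By reversal (`CE.rev`, `Em_rev`, `Ep_rev`, `Tset_rev`) `|E⁺| ≤ 1`. No arc `E⁺ → E⁻` (in particular if `E⁻` or `E⁺` is empty): `caseP1` / `caseP2`. Otherwise
`E⁺ = {o}`, `E⁻ = {i}`, `o → i`: `caseQ`. -/
theorem CE.two_false (hC : CE E W) (hx : x ∈ W) (hT : (Tset E W x).Nonempty)
    (h2 : (Em E W x).card + (Ep E W x).card ≤ 2) : False := by
  rcases le_or_gt (Ep E W x).card 1 with h1 | h1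
  · exact sg1_aux hC hx hT h2 h1
  · refine sg1_aux hC.rev (x := x) hx (by rw [Tset_rev]; exact hT) ?_ ?_
    · rw [Em_rev, Ep_rev]; omega
    · rw [Ep_rev]; omega

end Mix
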