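import Pool.Agent.Lib.MP_784a73_co.Mix.SG1

/-! # MP_784a73_co, row S-G2 -/

namespace Mix

open Finset Relation

set_option linter.unusedSectionVars false

variable {V : Type*} [DecidableEq V] [Fintype V] {E : Finset (V × V)} {W : Finset V} {x : V}

/-- the apex of a vertex of degree three has degree at least 4 (`deg_x`) -/
theorem CE.deg_apex (hC : CE E W) {v : V} (hv : TP E W x v ∨ TM E W x v) : 4 ≤ deg E W x := by
  have hx : x ∈ W := by
    rcases hv with h | h
    · exact h.arc.2.1
    · exact h.arc.2.1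
  have hT : (Tset E W x).Nonempty := ⟨v, mem_Tset.2 hv⟩
  have h1 := deg_x hC.good.1 hx
  have h2 := card_pos.2 hT
  by_contra hcon
  exact hC.two_false hx hT (by omega)

/-- if all three vertices of `E⁻ ∪ E⁺` are touched (`Op = E⁻`, `Om = E⁺`) then they have degree at least 4.
`p ∈ E⁻`: `p → x` and `v → p` for some `v ∈ T⁺`. If `deg p = 3`, `p` has an apex (`CE.apex`): it is not `x` (`p ∉ T(x)`), so the unique out-neighbour is not the apex and `p` has the unique
in-neighbour `v`, which is its apex and has degree 3: contradiction to `deg_apex`. -/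
theorem CE.deg_touched (hC : CE E W) (hx : x ∈ W) (hp : Op E W x = Em E W x) (hm : Om E W x = Ep E W x) :
    ∀ p ∈ Em E W x ∪ Ep E W x, 4 ≤ deg E W p := by
  intro p hpm
  rw [mem_union] at hpm
  rcases hpm with hpE | hpE
  · have h1 := hpE
    rw [Em, mem_sdiff, mem_inN] at h1
    have h2 : p ∈ Op E W x := by rw [hp]; exact hpE
    simp only [Op, mem_filter] at h2
    obtain ⟨_, v, hv, hvp⟩ := h2
    have h3 := (hC.deg_ge h1.1.1).1
    by_contra hcon
    obtain ⟨u, hu⟩ := hC.apex h1.1.1 (by omega)
    rcases hu with hu | hu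
    · have hvu := hu.in_eq hv.arc.2.2 hvp
      have h4 := hC.deg_apex (Or.inl hu)
      rw [← hvu, hv.deg] at h4
      omega
    · have hxu := hu.out_eq hx h1.1.2
      rw [← hxu] at hu
      exact h1.2 (mem_Tset.2 (Or.inr hu))
  · have h1 := hpE
    rw [Ep, mem_sdiff, mem_outN] at h1
    have h2 : p ∈ Om E W x := by rw [hm]; exact hpE
    simp only [Om, mem_filter] at h2
    obtain ⟨_, v, hv, hvp⟩ := h2
    have h3 := (hC.deg_ge h1.1.1).1
    by_contra hcon
    obtain ⟨u, hu⟩ := hC.apex h1.1.1 (by omega)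
    rcases hu with hu | hu
    · have hxu := hu.in_eq hx h1.1.2
      rw [← hxu] at hu
      exact h1.2 (mem_Tset.2 (Or.inl hu))
    · have hvu := hu.out_eq hv.arc.2.2 hvp
      have h4 := hC.deg_apex (Or.inr hu)
      rw [← hvu, hv.deg] at h4
      omega

end Mix
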