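import Pool.Agent.Lib.MP_784a73_co.Mix.SG2
import Pool.Agent.Lib.MP_784a73_co.Mix.SD3

/-! # MP_784a73_co, row S-G3 -/

namespace Mix

open Finset Relation

set_option linter.unusedSectionVars false

variable {V : Type*} [DecidableEq V] [Fintype V] {E : Finset (V × V)} {W : Finset V} {x : V}

/-- ROW G3 (theorem 4A). `|E⁻| + |E⁺| ≤ 3` and `T(x) ≠ ∅`: up to reversal `T(x) = {v}`, `E⁻ = {i₁, i₂}`, `E⁺ = {o}` and `o → i₁`, no arc `o → i₂`. By reversal `|E⁺| ≤ 1`; no arc `E⁺ → E⁻`: `caseP1`, `caseP2`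
with `deg_touched`; all arcs: `caseQ`; otherwise `caseR` unless `|T(x)| = 1`. -/
theorem CE.four (hC : CE E W) (hx : x ∈ W) (hT : (Tset E W x).Nonempty)
    (h3 : (Em E W x).card + (Ep E W x).card ≤ 3) (ho : (Ep E W x).card ≤ 1) :
    ∃ v o i₁ i₂, i₁ ≠ i₂ ∧ Tset E W x = {v} ∧ Em E W x = {i₁, i₂} ∧ Ep E W x = {o} ∧ (o, i₁) ∈ E ∧ (o, i₂) ∉ E := by
  by_cases hno : ∀ i ∈ Em E W x, ∀ o ∈ Ep E W x, (o, i) ∉ E
  · exfalso
    by_cases hDT : AllDT E W x
    · exact hC.caseP2 hx hT hDT h3 ho hno (fun _ hp hm => hC.deg_touched hx hp hm)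
    · exact hC.caseP1 hx (not_AllDT hDT) h3 ho hno
  · push Not at hno
    obtain ⟨i₁, hi₁, o, hoE, ha⟩ := hno
    have hEp : Ep E W x = {o} := by
      apply Finset.eq_singleton_iff_unique_mem.2
      exact ⟨hoE, fun y hy => Finset.card_le_one.1 ho y hy o hoE⟩
    have hcp : (Ep E W x).card = 1 := by rw [hEp]; simp
    by_cases hall : ∀ i ∈ Em E W x, (o, i) ∈ E
    · exact (hC.caseQ hx hT hEp hall).elim
    · push Not at hall
      obtain ⟨i₂, hi₂, ha2⟩ := hall
      have hne : i₁ ≠ i₂ := by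
        rintro rfl
        exact ha2 ha
      have hEm : Em E W x = {i₁, i₂} := by
        symm
        apply Finset.eq_of_subset_of_card_le
        · intro z hz
          rw [Finset.mem_insert, Finset.mem_singleton] at hz
          rcases hz with rfl | rfl
          · exact hi₁
          · exact hi₂
        · rw [Finset.card_pair hne]
          omega
      by_cases hT2 : 2 ≤ (Tset E W x).card
      · exact (hC.caseR hx hT2 hEp hEm ha).elim
      · have h1 : (Tset E W x).card = 1 := by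
          have := hT.card_pos
          omega
        obtain ⟨v, hv⟩ := Finset.card_eq_one.1 h1
        exact ⟨v, o, i₁, i₂, hne, hv, hEm, hEp, ha, ha2⟩

/-- in particular `|E⁻| + |E⁺| ≥ 4` if `deg x ≥ 5` and `T(x) ≠ ∅` (reversal if `|E⁺| ≥ 2`) -/
theorem CE.five (hC : CE E W) (hx : x ∈ W) (hT : (Tset E W x).Nonempty) (h5 : 5 ≤ deg E W x) :
    4 ≤ (Em E W x).card + (Ep E W x).card := by
  by_contra hlt
  push Not at hlt
  have hd := deg_x hC.good.1 hx
  by_cases ho : (Ep E W x).card ≤ 1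
  · obtain ⟨v, o, i₁, i₂, -, hv, -⟩ := hC.four hx hT (by omega) ho
    rw [hv, Finset.card_singleton] at hd
    omega
  · have hT' : (Tset (Mix.rev E) W x).Nonempty := by rw [Tset_rev]; exact hT
    have h3 : (Em (Mix.rev E) W x).card + (Ep (Mix.rev E) W x).card ≤ 3 := by
      rw [Em_rev, Ep_rev]; omega
    have ho' : (Ep (Mix.rev E) W x).card ≤ 1 := by
      rw [Ep_rev]; omega
    obtain ⟨v, o, i₁, i₂, -, hv, -⟩ := hC.rev.four hx hT' h3 ho'
    rw [Tset_rev] at hv
    rw [hv, Finset.card_singleton] at hd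
    omega

end Mix
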