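import Pool.Agent.Lib.MP_784a73_co.Mix.SV0b

/-! # MP_784a73_co, row S-H0 -/

namespace Mix

open Finset Relation

set_option linter.unusedSectionVars false

variable {V : Type*} [DecidableEq V] [Fintype V] {E : Finset (V × V)} {W : Finset V} {x : V}

theorem mem_Sset {v : V} : v ∈ Sset E W x ↔ ∃ u a b w, SP E W x v u a b w ∨ SP (rev E) W x v u a b w := by
  classical
  simp only [Sset, Finset.mem_filter]
  refine ⟨fun h => h.2, fun h => ⟨?_, h⟩⟩
  obtain ⟨u, a, b, w, h | h⟩ := h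
  · exact h.vW
  · exact h.vW

private theorem SH0_rev_rev : rev (rev E) = E := by
  ext ⟨p, q⟩
  simp [rev]

theorem Sset_rev : Sset (rev E) W x = Sset E W x := by
  ext v
  rw [mem_Sset, mem_Sset, SH0_rev_rev]
  constructor
  · rintro ⟨u, a, b, w, h⟩
    exact ⟨u, a, b, w, h.symm⟩
  · rintro ⟨u, a, b, w, h⟩
    exact ⟨u, a, b, w, h.symm⟩

/-- position of the vertices of a structure. `v, a, w → x` and `x → u`. `v ∉ T(x)`: its unique in-neighbour is `u ≠ x`, it has two out-neighbours. `a ∉ T(x)`: `a → u` and `a → x`.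
`u ∉ T(x)`: `deg u = 4`. `w ∉ T(x)` for `w ≠ a`: otherwise `TM x w`, and `v ∈ inN w` with `v → x` contradicts `in_cases`. -/
theorem SP.pos (hC : CE E W) {v u a b w : V} (hs : SP E W x v u a b w) :
    x ∈ W ∧ v ∈ Em E W x ∧ a ∈ Em E W x ∧ w ∈ Em E W x ∧ u ∈ Ep E W x ∧ b ∈ inN E W x ∧
      v ≠ a ∧ v ≠ w ∧ a ≠ b ∧ u ≠ v ∧ u ≠ a ∧ u ≠ b := by
  have hO : Ori E W := hC.good.1
  have hI : ∀ {p q : V}, p ∈ inN E W q ↔ p ∈ W ∧ (p, q) ∈ E := fun {p q} => by simp [inN]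
  have hU : ∀ {p q : V}, p ∈ outN E W q ↔ p ∈ W ∧ (q, p) ∈ E := fun {p q} => by simp [outN]
  have hv := hs.vW
  have h1 : x ∈ outN E W v := by rw [hs.outv]; simp
  have h2 : w ∈ outN E W v := by rw [hs.outv]; simp
  have h3 : u ∈ inN E W v := by rw [hs.inv]; simp
  have h4 : x ∈ inN E W u := by rw [hs.inu]; simp
  have h5 : a ∈ inN E W u := by rw [hs.inu]; simp
  have h6 : v ∈ outN E W u := by rw [hs.outu]; simp
  have h7 : b ∈ outN E W u := by rw [hs.outu]; simp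
  rw [hU] at h1 h2 h6 h7
  rw [hI] at h3 h4 h5
  have irr : ∀ p ∈ W, (p, p) ∉ E := fun p hp h => hO p hp p hp h h
  have hxW := h1.1
  have hux : u ≠ x := by
    rintro rfl
    exact irr _ hxW h4.2
  have hvx : v ≠ x := by
    rintro rfl
    exact irr _ hxW h1.2
  have hT1 : v ∉ Tset E W x := by
    rw [mem_Tset]
    rintro (⟨_, h, _⟩ | ⟨_, h, _⟩)
    · rw [hs.inv] at h
      exact hux (Finset.singleton_injective h)
    · have : w ∈ outN E W v := hU.2 h2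
      rw [h, Finset.mem_singleton] at this
      exact hs.hxw this.symm
  have hT2 : a ∉ Tset E W x := by
    rw [mem_Tset]
    rintro (⟨_, h, _⟩ | ⟨_, h, _⟩)
    · have : x ∈ inN E W a := by rw [h]; simp
      exact hO x hxW a h5.1 (hI.1 this).2 hs.ax
    · have : u ∈ outN E W a := hU.2 ⟨h3.1, h5.2⟩
      rw [h, Finset.mem_singleton] at this
      exact hux this
  have hT3 : w ∉ Tset E W x := by
    rw [mem_Tset]
    rintro (⟨_, h, _⟩ | hT)
    · have : v ∈ inN E W w := hI.2 ⟨hv, h2.2⟩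
      rw [h, Finset.mem_singleton] at this
      exact hvx this
    · have h8 := hC.in_cases hT (hI.2 ⟨hv, h2.2⟩)
      exact h8.2.1 h1.2
  have hT4 : u ∉ Tset E W x := by
    rw [mem_Tset]
    rintro (⟨_, h, _⟩ | ⟨_, h, _⟩)
    · have : a ∈ inN E W u := hI.2 h5
      rw [h, Finset.mem_singleton] at this
      exact hs.hxa this.symm
    · have : v ∈ outN E W u := hU.2 h6
      rw [h, Finset.mem_singleton] at this
      exact hvx this
  refine ⟨hxW, Finset.mem_sdiff.2 ⟨hI.2 ⟨hv, h1.2⟩, hT1⟩, Finset.mem_sdiff.2 ⟨hI.2 ⟨h5.1, hs.ax⟩, hT2⟩,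
    Finset.mem_sdiff.2 ⟨hI.2 ⟨h2.1, hs.wx⟩, hT3⟩, Finset.mem_sdiff.2 ⟨hU.2 ⟨h3.1, h4.2⟩, hT4⟩,
    hI.2 ⟨h7.1, hs.bx⟩, ?_, ?_, ?_, ?_, ?_, ?_⟩
  · rintro rfl
    exact hO _ hv _ h3.1 h5.2 h3.2
  · rintro rfl
    exact irr _ hv h2.2
  · rintro rfl
    exact hO _ h5.1 _ h3.1 h5.2 h7.2
  · rintro rfl
    exact irr _ hv h3.2
  · rintro rfl
    exact irr _ h3.1 h5.2
  · rintro rfl
    exact irr _ h3.1 h7.2

theorem SP.tp {v u a b w : V} (hs : SP E W x v u a b w) : TP E W u v :=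
  ⟨hs.vW, hs.inv, by rw [hs.outv]; exact Finset.card_pair hs.hxw⟩

end Mix
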