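import Pool.Agent.Lib.MP_784a73_co.Mix.SH0
import Pool.Agent.Lib.MP_784a73_co.Mix.SV1
import Pool.Agent.Lib.MP_784a73_co.Mix.S40

/-! # MP_784a73_co, row S-H1 -/

namespace Mix

open Finset Relation

set_option linter.unusedSectionVars false

variable {V : Type*} [DecidableEq V] [Fintype V] {E : Finset (V × V)} {W : Finset V} {x : V}

/-- the class `K = {c | Bad c, c x = true}` is closed (`x` cannot be flipped because `c u = !c x` for all `Bad c`) and contains an element whose colours on `T(x)` are all `false`. -/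
theorem SP.closed (hC : CE E W) {v u a b w : V} (hs : SP E W x v u a b w) :
    Closed E W (Kx E W x) ∧ ∃ c ∈ Kx E W x, ∀ t ∈ Tset E W x, c t = false := by
  have hO := hC.good.1
  obtain ⟨hxW, hv1, ha1, hw1, hu1, hb1, hva1, hvw1, hab1, huv1, hua1, hub1⟩ := hs.pos hC
  have hux : u ≠ x := by
    rintro rfl
    exact (Finset.mem_sdiff.1 (Ep_sub hO hxW hu1)).2 (by simp [Lx])
  have hcl : Closed E W (Kx E W x) := by
    refine Bad.closed_frozen true fun c hc hv => ?_
    obtain ⟨h1, -, -, -⟩ := hs.bad c hc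
    obtain ⟨h2, -, -, -⟩ := hs.bad _ (hc.flip hv)
    rw [flip_of_ne hux, flip_self, h1] at h2
    cases hcx : c x <;> rw [hcx] at h2 <;> exact absurd h2 (by decide)
  obtain ⟨c, hc⟩ := SP.exists_bad hC hs
  have hex : ∃ c, c ∈ Kx E W x := by
    cases hcx : c x
    · exact ⟨neg c, hc.neg, by rw [neg_apply, hcx]; rfl⟩
    · exact ⟨c, hc, hcx⟩
  obtain ⟨c₀, hc₀⟩ := hex
  have hf : fill E W x c₀ ∈ Kx E W x := hcl.reach hc₀ (reach_fill hO (hcl.val c₀ hc₀))
  refine ⟨hcl, fill E W x c₀, hf, fun t ht => ?_⟩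
  have hx1 : c₀ x = true := hc₀.2
  simp only [fill, if_pos ht, hx1]
  rfl

end Mix
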