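import Pool.Agent.Lib.MP_784a73_co.Mix.SH2

/-! # MP_784a73_co, row S-H5 -/

namespace Mix

open Finset Relation

set_option linter.unusedSectionVars false

variable {V : Type*} [DecidableEq V] [Fintype V] {E : Finset (V × V)} {W : Finset V} {x : V}

/-- dead vertices of `T(x)` when `T(x)` has the colour opposite to `x` -/
private theorem SH5_deadT {c : V → Bool} (hx : c x = true) (hT : ∀ t ∈ Tset E W x, c t = false) :
    ∀ t ∈ Tset E W x, Dead E W c t := by
  intro t ht
  have hct := hT t ht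
  rcases mem_Tset.1 ht with h | h
  · left
    intro p hp hpt he
    have := h.in_eq hp hpt
    subst this
    rw [hx, hct] at he
    exact absurd he (by decide)
  · right
    intro q hq hqt he
    have := h.out_eq hq hqt
    subst this
    rw [hx, hct] at he
    exact absurd he (by decide)

/-- two structures with `E⁻ = {v₁, v₂, a}`, `E⁺ = {u₁, u₂}`. Then `a₁ = a₂ = w₁ = w₂ = a`; `bᵢ → x`, `bᵢ ∉ E⁻` (`bᵢ ≠ vⱼ` because the unique in-neighbour of `vⱼ` is `uⱼ` (`SP.inj`), `bᵢ ≠ a` because `a → uᵢ → bᵢ`), so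
`bᵢ ∈ T(x)`. `L = L(x) ∪ {u₁, v₁, u₂, v₂}`, `E' = E`, `c₀` from `SP.closed`. Colourings with the colours of `c₀` on `L` (`x` `true`, `T` `false`, `uᵢ` `false`, `vᵢ` `true`): `T(x)` is dead (`x`), then in `W \ T(x)`: `x` (out-neighbours `u₁, u₂`),
`uᵢ` (out-neighbour `vᵢ`), `vᵢ` (in-neighbour `uᵢ`) are dead: valid iff valid on `W \ L`. `a` is frozen: `princX_false`. -/
theorem SP.two (hC : CE E W) {v₁ u₁ a₁ b₁ w₁ v₂ u₂ a₂ b₂ w₂ : V} (h₁ : SP E W x v₁ u₁ a₁ b₁ w₁)
    (h₂ : SP E W x v₂ u₂ a₂ b₂ w₂) (hne : v₁ ≠ v₂) (hm : (Em E W x).card ≤ 3) (hp : Ep E W x = {u₁, u₂}) : False := by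
  have hO := hC.good.1
  obtain ⟨hxW, hv1, ha1, hw1, hu1, hb1, hva1, hvw1, hab1, huv1, hua1, hub1⟩ := h₁.pos hC
  obtain ⟨-, hv2, ha2, hw2, hu2, hb2, hva2, hvw2, hab2, huv2, hua2, hub2⟩ := h₂.pos hC
  have hdis : ∀ p ∈ Em E W x, ∀ q ∈ Ep E W x, p ≠ q := fun p hp q hq e =>
    Finset.disjoint_left.1 (Em_disj_Ep hO hxW) hp (e ▸ hq)
  have hEmW := Em_sub hO hxW
  have hEpW := Ep_sub hO hxW
  have hxEm : x ∉ Em E W x := fun h => (Finset.mem_sdiff.1 (hEmW h)).2 (by simp [Lx])
  have hxEp : x ∉ Ep E W x := fun h => (Finset.mem_sdiff.1 (hEpW h)).2 (by simp [Lx])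
  have huu : u₁ ≠ u₂ := by
    rintro rfl
    exact hne (SP.inj hC h₁ h₂)
  -- general fact: the vertices `a`, `w` of one structure are not the `v` of the other
  have key : ∀ {v u a b w v' u' a' b' w' : V}, SP E W x v u a b w → SP E W x v' u' a' b' w' →
      v ∈ Em E W x → u ∈ Ep E W x → u' ∈ Ep E W x → w' ∈ Em E W x → a ≠ v' ∧ w ≠ v' := by
    intro v u a b w v' u' a' b' w' hs hs' hv hu hu' hw'
    constructor
    · rintro rfl
      have h1 : a ∈ inN E W u := by rw [hs.inu]; simp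
      have h2 : u ∈ outN E W a := mem_outN.2 ⟨(Finset.mem_sdiff.1 (hEpW hu)).1, (mem_inN.1 h1).2⟩
      rw [hs'.outv, Finset.mem_insert, Finset.mem_singleton] at h2
      rcases h2 with h2 | h2
      · exact hxEp (h2 ▸ hu)
      · exact hdis w' hw' u hu h2.symm
    · rintro rfl
      have h1 : w ∈ outN E W v := by rw [hs.outv]; simp
      have h2 : v ∈ inN E W w := mem_inN.2 ⟨hs.vW, (mem_outN.1 h1).2⟩
      rw [hs'.inv, Finset.mem_singleton] at h2
      exact hdis v hv u' hu' h2
  obtain ⟨k1, k2⟩ := key h₁ h₂ hv1 hu1 hu2 hw2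
  obtain ⟨k3, k4⟩ := key h₂ h₁ hv2 hu2 hu1 hw1
  -- at most one further vertex
  have hcard : ((Em E W x) \ {v₁, v₂}).card ≤ 1 := by
    have h1 : ({v₁, v₂} : Finset V) ⊆ Em E W x := by
      intro z hz
      rw [Finset.mem_insert, Finset.mem_singleton] at hz
      rcases hz with rfl | rfl
      · exact hv1
      · exact hv2
    rw [Finset.card_sdiff_of_subset h1, Finset.card_pair hne]
    omega
  have hmem : ∀ {z : V}, z ∈ Em E W x → z ≠ v₁ → z ≠ v₂ → z ∈ (Em E W x) \ {v₁, v₂} := by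
    intro z hz h1 h2
    rw [Finset.mem_sdiff, Finset.mem_insert, Finset.mem_singleton]
    exact ⟨hz, fun h => h.elim h1 h2⟩
  have e2 : a₂ = a₁ := Finset.card_le_one.1 hcard _ (hmem ha2 k3 hva2.symm) _ (hmem ha1 hva1.symm k1)
  subst e2
  -- `b₁`, `b₂` are in `T(x)`
  have hbT : ∀ {v u b w v' : V}, SP E W x v u a₂ b w → b ∈ inN E W x → a₂ ≠ b →
      (∀ z, z ∈ Em E W x → z ≠ a₂ → z ≠ v → z = v') → u ∉ inN E W v' → b ∈ Tset E W x := by
    intro v u b w v' hs hb hab hcase hu
    by_contra hbT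
    have hbE : b ∈ Em E W x := Finset.mem_sdiff.2 ⟨hb, hbT⟩
    have := hcase b hbE hab.symm hs.hvb.symm
    apply hu
    have h1 : b ∈ outN E W u := by rw [hs.outu]; simp
    have h2 : u ∈ W := by
      have h3 : u ∈ inN E W v := by rw [hs.inv]; simp
      exact (mem_inN.1 h3).1
    rw [← this]
    exact mem_inN.2 ⟨h2, (mem_outN.1 h1).2⟩
  have hcases : ∀ z ∈ Em E W x, z = a₂ ∨ z = v₁ ∨ z = v₂ := by
    intro z hz
    by_cases h1 : z = v₁
    · exact Or.inr (Or.inl h1)
    · by_cases h2 : z = v₂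
      · exact Or.inr (Or.inr h2)
      · exact Or.inl (Finset.card_le_one.1 hcard _ (hmem hz h1 h2) _ (hmem ha1 hva1.symm k1))
  have hb1T : b₁ ∈ Tset E W x := by
    refine hbT h₁ hb1 hab1 (v' := v₂) (fun z hz h1 h2 => ?_) ?_
    · rcases hcases z hz with h | h | h
      · exact absurd h h1
      · exact absurd h h2
      · exact h
    · rw [h₂.inv, Finset.mem_singleton]; exact huu
  have hb2T : b₂ ∈ Tset E W x := by
    refine hbT h₂ hb2 hab2 (v' := v₁) (fun z hz h1 h2 => ?_) ?_
    · rcases hcases z hz with h | h | h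
      · exact absurd h h1
      · exact h
      · exact absurd h h2
    · rw [h₁.inv, Finset.mem_singleton]; exact huu.symm
  -- the class and the colouring `c₀`
  obtain ⟨hK, c₀, hc₀, hT₀⟩ := SP.closed hC h₁
  have hx₀ : c₀ x = true := hc₀.2
  obtain ⟨hcu1, hcv1, -, -⟩ := h₁.bad c₀ hc₀.1
  obtain ⟨hcu2, hcv2, hca2, -⟩ := h₂.bad c₀ hc₀.1
  rw [hx₀] at hcu1 hcv1 hcu2 hcv2 hca2
  set L : Finset V := Lx E W x ∪ {x, u₁, v₁, u₂, v₂} with hLdef
  have hxT : x ∉ Tset E W x := not_mem_Tset hO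
  have hLW : L ⊆ W := by
    intro z hz
    rw [hLdef, Finset.mem_union] at hz
    rcases hz with hz | hz
    · exact Lx_sub hxW hz
    · simp only [Finset.mem_insert, Finset.mem_singleton] at hz
      rcases hz with rfl | rfl | rfl | rfl | rfl
      · exact hxW
      · exact (Finset.mem_sdiff.1 (hEpW hu1)).1
      · exact h₁.vW
      · exact (Finset.mem_sdiff.1 (hEpW hu2)).1
      · exact h₂.vW
  -- the claim on validity
  have claim : ∀ c : V → Bool, (∀ l ∈ L, c l = c₀ l) → Val E (W \ L) c → Val E W c := by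
    intro c hc hv
    have cT : ∀ t ∈ Tset E W x, c t = false := by
      intro t ht
      rw [hc t (by rw [hLdef, Finset.mem_union]; left; simp [Lx, ht]), hT₀ t ht]
    have cx : c x = true := by rw [hc x (by simp [hLdef])]; exact hx₀
    have cu1 : c u₁ = false := by rw [hc u₁ (by simp [hLdef]), hcu1]; rfl
    have cu2 : c u₂ = false := by rw [hc u₂ (by simp [hLdef]), hcu2]; rfl
    have cv1 : c v₁ = true := by rw [hc v₁ (by simp [hLdef]), hcv1]
    have cv2 : c v₂ = true := by rw [hc v₂ (by simp [hLdef]), hcv2]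
    rw [val_dead (SH5_deadT cx cT)]
    have hdu : ∀ {v u a b w : V}, SP E W x v u a b w → b ∈ Tset E W x → c v = true → c u = false →
        Dead E (W \ Tset E W x) c u := by
      intro v u a b w hs hb hcv hcu
      right
      intro q hq hqe he
      obtain ⟨hqW, hqT⟩ := Finset.mem_sdiff.1 hq
      have hq' : q ∈ outN E W u := mem_outN.2 ⟨hqW, hqe⟩
      rw [hs.outu, Finset.mem_insert, Finset.mem_singleton] at hq'
      rcases hq' with rfl | rfl
      · rw [hcv, hcu] at he
        exact absurd he (by decide)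
      · exact hqT hb
    have hdv : ∀ {v u a b w : V}, SP E W x v u a b w → c v = true → c u = false →
        Dead E (W \ Tset E W x) c v := by
      intro v u a b w hs hcv hcu
      left
      intro q hq hqe he
      obtain ⟨hqW, hqT⟩ := Finset.mem_sdiff.1 hq
      have hq' : q ∈ inN E W v := mem_inN.2 ⟨hqW, hqe⟩
      rw [hs.inv, Finset.mem_singleton] at hq'
      subst hq'
      rw [hcv, hcu] at he
      exact absurd he (by decide)
    have hD : ∀ v ∈ ({x, u₁, v₁, u₂, v₂} : Finset V), Dead E (W \ Tset E W x) c v := by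
      intro v hvm
      simp only [Finset.mem_insert, Finset.mem_singleton] at hvm
      rcases hvm with rfl | rfl | rfl | rfl | rfl
      · right
        intro q hq hqe he
        obtain ⟨hqW, hqT⟩ := Finset.mem_sdiff.1 hq
        have hqE : q ∈ Ep E W v := Finset.mem_sdiff.2 ⟨mem_outN.2 ⟨hqW, hqe⟩, hqT⟩
        rw [hp, Finset.mem_insert, Finset.mem_singleton] at hqE
        rcases hqE with rfl | rfl
        · rw [cx, cu1] at he
          exact absurd he (by decide)
        · rw [cx, cu2] at he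
          exact absurd he (by decide)
      · exact hdu h₁ hb1T cv1 cu1
      · exact hdv h₁ cv1 cu1
      · exact hdu h₂ hb2T cv2 cu2
      · exact hdv h₂ cv2 cu2
    rw [val_dead hD]
    have hset : (W \ Tset E W x) \ {x, u₁, v₁, u₂, v₂} = W \ L := by
      ext z
      simp only [hLdef, Lx, Finset.mem_sdiff, Finset.mem_union, Finset.mem_insert,
        Finset.mem_singleton]
      tauto
    rw [hset]
    exact hv
  have haL : a₂ ∈ W \ L := by
    obtain ⟨h1, h2⟩ := Finset.mem_sdiff.1 (hEmW ha2)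
    rw [Finset.mem_sdiff]
    refine ⟨h1, fun h => ?_⟩
    rw [hLdef, Finset.mem_union] at h
    rcases h with h | h
    · exact h2 h
    · simp only [Finset.mem_insert, Finset.mem_singleton] at h
      rcases h with h | h | h | h | h
      · exact hxEm (h ▸ ha2)
      · exact hua1 h.symm
      · exact hva1 h.symm
      · exact hua2 h.symm
      · exact hva2 h.symm
  refine princX_false hC hLW ⟨x, by simp [hLdef]⟩ (hC.good.sub Finset.sdiff_subset) hK hc₀
    ((hK.val c₀ hc₀).anti (Finset.Subset.refl E) Finset.sdiff_subset) ?_ haL ?_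
  · intro c _ hc _ z hz hvz
    apply claim _ _ hvz
    intro l hl
    have hlz : l ≠ z := by
      rintro rfl
      exact (Finset.mem_sdiff.1 hz).2 hl
    rw [flip_of_ne hlz, hc l hl]
  · intro c hc
    obtain ⟨-, -, h3, -⟩ := h₂.bad c hc.1
    rw [h3, hc.2, hca2]

end Mix
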