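import Pool.Agent.Lib.MP_784a73_co.Mix.SH1

/-! # MP_784a73_co, row S-H6 -/

namespace Mix

open Finset Relation

set_option linter.unusedSectionVars false

variable {V : Type*} [DecidableEq V] [Fintype V] {E : Finset (V × V)} {W : Finset V} {x : V}

/-- `E⁺ = {u}`. `L = L(x) ∪ {u, v}`, `E' = insert (a, b) E` (`Good.add_one`, `(b, a) ∉ E`), `c₀` from `SP.closed` (valid for `E'`: `a → b` can be replaced by `a → u → b`). For colourings with the colours of
`c₀` on `L` (`x` `true`, `T` `false`, `u` `false`, `v` `true`): `T(x)`, `v` (in-neighbour `u`), `x` (out-neighbours `u` and `T⁺`) are dead; `u` has only the in-neighbour `a` and the out-neighbour `b` left (`val_insert`), and `E'` excludes mono paths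
`b ⇒ a` (`val_insert_arc`). `a` is frozen: `princX_false`. -/
theorem SP.one_out (hC : CE E W) {v u a b w : V} (hs : SP E W x v u a b w) (hp : Ep E W x = {u}) : False := by
  have hO : Ori E W := hC.good.1
  obtain ⟨hxW, hvm, ham, hwm, hup, hbx, hva, hvw, hab, huv, hua, hub⟩ := hs.pos hC
  obtain ⟨hK, c0, hc0, hT0⟩ := hs.closed hC
  have hxT : x ∉ Tset E W x := not_mem_Tset hO
  have haL := Em_sub hO hxW ham
  have hvL := Em_sub hO hxW hvm
  have huL := Ep_sub hO hxW hup
  have hnL : ∀ {y : V}, y ∈ W \ Lx E W x → y ∈ W ∧ y ≠ x ∧ y ∉ Tset E W x := by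
    intro y hy
    rw [Finset.mem_sdiff, Lx, Finset.mem_insert, not_or] at hy
    exact ⟨hy.1, hy.2.1, hy.2.2⟩
  obtain ⟨huW, hux, huT⟩ := hnL huL
  obtain ⟨hvW, hvx, hvT⟩ := hnL hvL
  obtain ⟨haW, hax, haT⟩ := hnL haL
  set L : Finset V := Lx E W x ∪ {u, v} with hLdef
  have hLW : L ⊆ W := by
    intro y hy
    rw [hLdef, Finset.mem_union, Finset.mem_insert, Finset.mem_singleton] at hy
    rcases hy with h | rfl | rfl
    · exact Lx_sub hxW h
    · exact huW
    · exact hvW
  have hxL : x ∈ L := by
    rw [hLdef, Finset.mem_union]; left; rw [Lx]; exact Finset.mem_insert_self _ _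
  have huL' : u ∈ L := by rw [hLdef]; simp
  have hvL' : v ∈ L := by rw [hLdef]; simp
  have hTL : ∀ t ∈ Tset E W x, t ∈ L := by
    intro t ht
    rw [hLdef, Finset.mem_union]; left; rw [Lx]; exact Finset.mem_insert_of_mem ht
  have haL' : a ∈ W \ L := by
    rw [Finset.mem_sdiff, hLdef, Finset.mem_union, Finset.mem_insert, Finset.mem_singleton]
    refine ⟨haW, ?_⟩
    rintro (h | h | h)
    · exact (Finset.mem_sdiff.1 haL).2 h
    · exact hua h.symm
    · exact hva h.symm
  have hss : W \ L ⊂ W := by
    refine Finset.sdiff_ssubset hLW ⟨x, hxL⟩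
  -- colours of c0
  have hbad0 := hs.bad c0 hc0.1
  have hx0 : c0 x = true := hc0.2
  have hu0 : c0 u = false := by rw [hbad0.1, hx0]; rfl
  have hv0 : c0 v = true := by rw [hbad0.2.1, hx0]
  have ha0 : c0 a = false := by rw [hbad0.2.2.1, hx0]; rfl
  have hval0 : Val E W c0 := hc0.1.1
  -- arcs at u
  have hau : (a, u) ∈ E := by
    have : a ∈ inN E W u := by rw [hs.inu]; simp
    exact (mem_inN.1 this).2
  have hubE : (u, b) ∈ E ∧ b ∈ W := by
    have : b ∈ outN E W u := by rw [hs.outu]; simp
    exact ⟨(mem_outN.1 this).2, (mem_outN.1 this).1⟩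
  have hGood : Good (insert (a, b) E) (W \ L) :=
    Good.add_one (hO.sub Finset.sdiff_subset) (hC.two' hss) hab hs.ba
  have h0v : Val (insert (a, b) E) (W \ L) c0 := by
    rw [val_insert_arc]
    refine ⟨hval0.anti (Finset.Subset.refl E) Finset.sdiff_subset, ?_⟩
    intro ha hb hcol hpath
    have hb0 : c0 b = false := by rw [← hcol]; exact ha0
    have hpath' : ReflTransGen (Mono E W c0) b a :=
      rtg_mono (fun p q hpq => Mono.mono (Finset.Subset.refl E) Finset.sdiff_subset hpq) hpath
    have m1 : Mono E W c0 a u := ⟨hau, haW, huW, by rw [ha0, hu0]⟩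
    have m2 : Mono E W c0 u b := ⟨hubE.1, huW, hubE.2, by rw [hu0, hb0]⟩
    exact hval0.no_back m2 (hpath'.tail m1)
  have hext : ∀ d : V → Bool, (∀ l ∈ L, d l = c0 l) → Val (insert (a, b) E) (W \ L) d → Val E W d := by
    intro d hdL hd
    have hdx : d x = true := by rw [hdL x hxL]; exact hx0
    have hdu : d u = false := by rw [hdL u huL']; exact hu0
    have hdv : d v = true := by rw [hdL v hvL']; exact hv0
    have hdT : ∀ t ∈ Tset E W x, d t = false := fun t ht => by rw [hdL t (hTL t ht)]; exact hT0 t ht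
    rw [val_insert_arc] at hd
    have hdead : ∀ y ∈ Tset E W x ∪ {x, v}, Dead E W d y := by
      intro y hy
      rw [Finset.mem_union, Finset.mem_insert, Finset.mem_singleton] at hy
      rcases hy with hy | rfl | rfl
      · rcases mem_Tset.1 hy with h | h
        · left
          intro p hpW hpy
          rw [h.in_eq hpW hpy, hdx, hdT y hy]; simp
        · right
          intro q hqW hyq
          rw [h.out_eq hqW hyq, hdx, hdT y hy]; simp
      · right
        intro q hqW hxq
        have hqo : q ∈ outN E W y := mem_outN.2 ⟨hqW, hxq⟩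
        by_cases hqT : q ∈ Tset E W y
        · rw [hdT q hqT, hdx]; simp
        · have : q ∈ Ep E W y := Finset.mem_sdiff.2 ⟨hqo, hqT⟩
          rw [hp, Finset.mem_singleton] at this
          rw [this, hdu, hdx]; simp
      · left
        intro p hpW hpv
        have : p ∈ inN E W y := mem_inN.2 ⟨hpW, hpv⟩
        rw [hs.inv, Finset.mem_singleton] at this
        rw [this, hdu, hdv]; simp
    rw [val_dead hdead]
    have hset : W \ (Tset E W x ∪ {x, v}) = insert u (W \ L) := by
      ext y
      rw [Finset.mem_sdiff, Finset.mem_insert, Finset.mem_sdiff, hLdef, Lx]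
      simp only [Finset.mem_union, Finset.mem_insert, Finset.mem_singleton]
      constructor
      · rintro ⟨h1, h2⟩
        by_cases hyu : y = u
        · exact Or.inl hyu
        · right
          refine ⟨h1, ?_⟩
          rintro ((h | h) | h | h)
          · exact h2 (Or.inr (Or.inl h))
          · exact h2 (Or.inl h)
          · exact hyu h
          · exact h2 (Or.inr (Or.inr h))
      · rintro (rfl | ⟨h1, h2⟩)
        · refine ⟨huW, ?_⟩
          rintro (h | h | h)
          · exact huT h
          · exact hux h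
          · exact huv h
        · refine ⟨h1, ?_⟩
          rintro (h | h | h)
          · exact h2 (Or.inl (Or.inr h))
          · exact h2 (Or.inl (Or.inl h))
          · exact h2 (Or.inr (Or.inr h))
    rw [hset]
    have hunot : u ∉ W \ L := fun h => (Finset.mem_sdiff.1 h).2 huL'
    rw [val_insert hunot (hO.loop huW)]
    refine ⟨hd.1, ?_⟩
    intro p hpW q hqW hup' hqu hcp hcq hpath
    have hp' : p ∈ outN E W u := mem_outN.2 ⟨(Finset.mem_sdiff.1 hpW).1, hup'⟩
    rw [hs.outu, Finset.mem_insert, Finset.mem_singleton] at hp'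
    have hq' : q ∈ inN E W u := mem_inN.2 ⟨(Finset.mem_sdiff.1 hqW).1, hqu⟩
    rw [hs.inu, Finset.mem_insert, Finset.mem_singleton] at hq'
    rcases hp' with rfl | rfl
    · exact (Finset.mem_sdiff.1 hpW).2 hvL'
    · rcases hq' with rfl | rfl
      · exact (Finset.mem_sdiff.1 hqW).2 hxL
      · exact hd.2 hqW hpW (by rw [hcp, hcq]) hpath
  refine princX_false (E' := insert (a, b) E) hC hLW ⟨x, hxL⟩ hGood hK hc0 h0v ?_ haL' ?_
  · intro c _ hcL _ z hz hv'
    refine hext _ ?_ hv'
    intro l hl
    have hlz : l ≠ z := fun h => (Finset.mem_sdiff.1 hz).2 (h ▸ hl)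
    rw [flip_of_ne hlz, hcL l hl]
  · intro c hc
    rw [ha0, (hs.bad c hc.1).2.2.1, hc.2]; rfl

end Mix
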