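import Pool.Agent.Lib.MP_784a73_co.Mix.SH8

/-! # MP_784a73_co, row S-H9 -/

namespace Mix

open Finset Relation

set_option linter.unusedSectionVars false

variable {V : Type*} [DecidableEq V] [Fintype V] {E : Finset (V × V)} {W : Finset V} {x : V}

/-- `(o, a) ∉ E`: `princX_false` with `E' = insert (a, o) E`, `c₀` the colouring of `max_set` with `c o = true` (`c a = false`, so it is valid for `E'`), `val_ext`, `val_insert_arc`; `a` is frozen.
`(o, a) ∈ E`: `princFX` with `b := a`, `w := o`, `om := false`, `A' := ∅`, `H₀` of `max_set` (`deg E H₀ o = 1`: adjacent to `a`, and `ff (H₀ ∪ {o}) ≥ 3`): `hext` by `val_ext` (`c a = false`); `hno`: if the `a`-flip of such a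
`c ∈ Kx` with `c o = false` is valid on `W \ L` then it is valid on `W` (`val_ext`), but `a` is frozen. -/
theorem SP.last (hC : CE E W) {v u a b o : V} (hs : SP E W x v u a b a) (hm : Em E W x = {v, a}) (hp : Ep E W x = {u, o}) (huo : u ≠ o) : False := by
  classical
  obtain ⟨hxW, -, -, -, -, -, -, -, -, -, -, -⟩ := SP.pos hC hs
  have hvW : v ∈ W := hs.vW
  have huW : u ∈ W := by
    have : u ∈ inN E W v := by rw [hs.inv]; simp
    exact (mem_inN.1 this).1
  obtain ⟨H0, hH0, haH, hoH, hff, hg, c0, hc0, hT0, ho0⟩ := SP.max_set hC hs hm hp huo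
  have hK : Closed E W (Kx E W x) := (SP.closed hC hs).1
  set L : Finset V := Lx E W x ∪ {u, v} with hLdef
  have haL : a ∈ W \ L := hH0 haH
  have hoL : o ∈ W \ L := (Finset.mem_sdiff.1 hoH).1
  have hoH0 : o ∉ H0 := (Finset.mem_sdiff.1 hoH).2
  have hao : a ≠ o := fun h => hoH0 (h ▸ haH)
  have hO : Ori E W := hC.good.1
  have hxL : x ∈ L := by simp [hLdef, Lx]
  have huL : u ∈ L := by simp [hLdef]
  have hvL : v ∈ L := by simp [hLdef]
  have hTL : ∀ t ∈ Tset E W x, t ∈ L := by
    intro t ht; simp [hLdef, Lx, ht]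
  have hLW : L ⊆ W := by
    intro t ht
    rw [hLdef, Finset.mem_union] at ht
    rcases ht with ht | ht
    · exact Lx_sub hxW ht
    · rw [Finset.mem_insert, Finset.mem_singleton] at ht
      rcases ht with rfl | rfl
      · exact huW
      · exact hvW
  have hLne : L.Nonempty := ⟨x, hxL⟩
  have hss : W \ L ⊂ W := by
    refine ⟨Finset.sdiff_subset, fun h => ?_⟩
    exact (Finset.mem_sdiff.1 (h hxW)).2 hxL
  have hbad : ∀ c ∈ Kx E W x, c x = true ∧ c u = false ∧ c v = true ∧ c a = false := by
    intro c hc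
    have hcx : c x = true := hc.2
    obtain ⟨h1, h2, h3, -⟩ := hs.bad c hc.1
    rw [hcx] at h1 h2 h3
    exact ⟨hcx, by simpa using h1, h2, by simpa using h3⟩
  obtain ⟨h0x, h0u, h0v, h0a⟩ := hbad c0 hc0
  have hval : ∀ c : V → Bool, (∀ l ∈ L, c l = c0 l) → (Val E W c ↔ Val E (W \ L) c ∧
      (c o = true → c a = true → ¬ ReflTransGen (Mono E (W \ L) c) o a)) := by
    intro c hc
    exact SP.val_ext hC hs hm hp huo (by rw [hc x hxL, h0x])
      (fun t ht => by rw [hc t (hTL t ht), hT0 t ht]) (by rw [hc u huL, h0u]) (by rw [hc v hvL, h0v])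
  have hflipL : ∀ c : V → Bool, (∀ l ∈ L, c l = c0 l) → ∀ z ∈ W \ L, ∀ l ∈ L, flip c z l = c0 l := by
    intro c hc z hz l hl
    have hne : l ≠ z := fun h => (Finset.mem_sdiff.1 hz).2 (h ▸ hl)
    rw [flip_of_ne hne, hc l hl]
  by_cases hoa : (o, a) ∈ E
  · -- second case
    have hloop : (o, o) ∉ E := hO.loop (Finset.mem_sdiff.1 hoL).1
    have hdeg : deg E H0 o = 1 := by
      have h1 := hg {o} (by
        intro t ht
        rw [Finset.mem_singleton] at ht
        subst ht
        exact hoH) ⟨o, Finset.mem_singleton_self o⟩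
      have h2 : ff E (insert o H0) = ff E H0 + 2 - (deg E H0 o : ℤ) := ff_insert hoH0 hloop
      have h3 : ({o} : Finset V) ∪ H0 = insert o H0 := by
        ext t; simp
      rw [h3, h2] at h1
      have h4 : 1 ≤ (outN E H0 o).card :=
        Finset.card_pos.2 ⟨a, mem_outN.2 ⟨haH, hoa⟩⟩
      have h5 : (outN E H0 o).card ≤ deg E H0 o := by rw [deg]; omega
      omega
    have hinempty : ∀ q ∈ H0, (q, o) ∉ E := by
      intro q hq hqo
      have h4 : 1 ≤ (outN E H0 o).card :=
        Finset.card_pos.2 ⟨a, mem_outN.2 ⟨haH, hoa⟩⟩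
      have h5 : 1 ≤ (inN E H0 o).card :=
        Finset.card_pos.2 ⟨q, mem_inN.2 ⟨hq, hqo⟩⟩
      rw [deg] at hdeg
      omega
    refine princFX (A' := ∅) (om := false) hC hLW hLne hH0 hg hK hc0 haH hoH hdeg ?_ ?_ ?_ ?_
    · intro c hc hca hv
      refine (hval c hc).2 ⟨hv, fun _ h => ?_⟩
      rw [hca, h0a] at h
      exact absurd h (by simp)
    · intro t ht
      simp at ht
    · intro h hh hhf hha _
      rw [Finset.union_empty]
      refine (val_insert hoH0 hloop).2 ⟨?_, ?_⟩
      · refine hhf.congr ?_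
        intro t ht
        have hne : t ≠ o := fun h => hoH0 (h ▸ ht)
        rw [Function.update_of_ne hne]
      · intro p _ q hq _ hqo
        exact absurd hqo (hinempty q hq)
    · intro c hc hcL hca hco hv
      rw [Finset.union_empty] at hv
      have hW : Val E W (flip c a) := by
        refine (hval _ (hflipL c hcL a haL)).2 ⟨hv, fun h => ?_⟩
        rw [flip_of_ne hao.symm, hco] at h
        exact absurd h (by simp)
      have hmem := hK.step c hc a hW
      have h1 := (hbad _ hmem).2.2.2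
      have h2 := (hbad _ hc).2.2.2
      rw [flip_self, h2] at h1
      exact absurd h1 (by simp)
  · -- first case
    have hG : Good (insert (a, o) E) (W \ L) :=
      Good.add_one (hO.sub hss.1) (hC.two' hss) hao hoa
    refine princX_false (p := a) hC hLW hLne hG hK hc0 ?_ ?_ haL ?_
    · rw [val_insert_arc]
      refine ⟨(hK.val c0 hc0).anti (fun _ h => h) hss.1, fun _ _ h => ?_⟩
      rw [h0a, ho0] at h
      exact absurd h (by simp)
    · intro c _ hcL _ z hz hvz
      rw [val_insert_arc] at hvz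
      refine (hval _ (hflipL c hcL z hz)).2 ⟨hvz.1, fun h1 h2 => ?_⟩
      exact hvz.2 haL hoL (by rw [h1, h2])
    · intro c hc
      rw [(hbad c hc).2.2.2, h0a]

end Mix
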