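import Pool.Agent.Lib.MP_784a73_co.Mix.SH4
import Pool.Agent.Lib.MP_784a73_co.Mix.SH5
import Pool.Agent.Lib.MP_784a73_co.Mix.SH6
import Pool.Agent.Lib.MP_784a73_co.Mix.SH9

/-! # MP_784a73_co, row S-H10 -/

namespace Mix

open Finset Relation

set_option linter.unusedSectionVars false

variable {V : Type*} [DecidableEq V] [Fintype V] {E : Finset (V × V)} {W : Finset V} {x : V}

/-- assembly for one type: `S ≠ ∅`, all structures of the first type, `|E⁻| + |E⁺| ≤ |S| + 3`: contradiction. `SP.count`: `|E⁻| ≥ |S| + 1`, `|E⁺| ≥ |S|`, so `|S| ≤ 2`. `|S| = 2`: `|E⁻| = 3`, `|E⁺| = 2`: `SP.two`. `|S| = 1`: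
`E⁺ = {u}`: `SP.one_out`. Otherwise `|E⁺| = 2`, `|E⁻| = 2`, `E⁻ = {v, a}`, so `w = a`: `SP.last`. -/
theorem SP.false (hC : CE E W) {v u a b w : V} (hs : SP E W x v u a b w)
    (hall : ∀ s ∈ Sset E W x, ∃ u a b w, SP E W x s u a b w)
    (h3 : (Em E W x).card + (Ep E W x).card ≤ (Sset E W x).card + 3) : False := by
  have hpos := SP.pos hC hs
  obtain ⟨hxW, hvE, haE, hwE, huE, hbE, hva, hvw, hab, huv, hua, hub⟩ := hpos
  obtain ⟨hsub, haS, hcard⟩ := SP.count hC hs hall
  have hvS : v ∈ Sset E W x := mem_Sset.2 ⟨u, a, b, w, Or.inl hs⟩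
  have h1 : (insert a (Sset E W x)).card = (Sset E W x).card + 1 := Finset.card_insert_of_notMem haS
  have h2 := Finset.card_le_card hsub
  have hS1 : 1 ≤ (Sset E W x).card := Finset.card_pos.2 ⟨v, hvS⟩
  have hcases : (Sset E W x).card = 1 ∨ (Sset E W x).card = 2 := by omega
  rcases hcases with hc | hc
  · obtain ⟨s₀, hs₀⟩ := Finset.card_eq_one.1 hc
    have hsv : s₀ = v := by
      rw [hs₀] at hvS
      exact (Finset.mem_singleton.1 hvS).symm
    subst hsv
    by_cases hp1 : (Ep E W x).card = 1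
    · obtain ⟨u', hu'⟩ := Finset.card_eq_one.1 hp1
      have : u = u' := by
        rw [hu'] at huE
        exact Finset.mem_singleton.1 huE
      subst this
      exact SP.one_out hC hs hu'
    · have hp2 : (Ep E W x).card = 2 := by omega
      have hm2 : (Em E W x).card = 2 := by omega
      have hEm : Em E W x = {s₀, a} := by
        have : insert a (Sset E W x) = Em E W x := Finset.eq_of_subset_of_card_le hsub (by omega)
        rw [← this, hs₀, Finset.pair_comm]
      have hwa : w = a := by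
        rw [hEm] at hwE
        rcases Finset.mem_insert.1 hwE with h | h
        · exact absurd h.symm hvw
        · exact Finset.mem_singleton.1 h
      subst hwa
      obtain ⟨o₁, o₂, ho, hE⟩ := Finset.card_eq_two.1 hp2
      rw [hE] at huE
      rcases Finset.mem_insert.1 huE with h | h
      · subst h
        exact SP.last hC hs hEm hE ho
      · have h := Finset.mem_singleton.1 h
        subst h
        exact SP.last hC hs hEm (by rw [hE, Finset.pair_comm]) ho.symm
  · obtain ⟨s₁, s₂, hs12, hS⟩ := Finset.card_eq_two.1 hc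
    have hex : ∃ v₂, v₂ ∈ Sset E W x ∧ v₂ ≠ v := by
      rw [hS] at hvS
      rcases Finset.mem_insert.1 hvS with h | h
      · exact ⟨s₂, by rw [hS]; simp, fun h' => hs12 (h ▸ h'.symm)⟩
      · have h := Finset.mem_singleton.1 h
        exact ⟨s₁, by rw [hS]; simp, fun h' => hs12 (h' ▸ h)⟩
    obtain ⟨v₂, hv₂S, hne⟩ := hex
    obtain ⟨u₂, a₂, b₂, w₂, hs₂⟩ := hall v₂ hv₂S
    have hune : u ≠ u₂ := by
      rintro rfl
      exact hne (SP.inj hC hs₂ hs)
    have hu₂E := (SP.pos hC hs₂).2.2.2.2.1
    have hp2 : (Ep E W x).card = 2 := by omega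
    have hEp : Ep E W x = {u, u₂} := by
      symm
      refine Finset.eq_of_subset_of_card_le ?_ ?_
      · intro y hy
        rcases Finset.mem_insert.1 hy with h | h
        · exact h ▸ huE
        · exact (Finset.mem_singleton.1 h) ▸ hu₂E
      · rw [hp2, Finset.card_pair hune]
    exact SP.two hC hs hs₂ hne.symm (by omega) hEp

end Mix
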