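import Pool.Agent.Lib.MP_784a73_co.Mix.SH0
import Pool.Agent.Lib.MP_784a73_co.Mix.SG2
import Pool.Agent.Lib.MP_784a73_co.Mix.S40

/-! # MP_784a73_co, row S-H11 -/

namespace Mix

open Finset Relation

set_option linter.unusedSectionVars false

variable {V : Type*} [DecidableEq V] [Fintype V] {E : Finset (V × V)} {W : Finset V} {x : V}

theorem sh11_ne (hC : CE E W) : W.Nonempty := by
  by_contra hW
  rw [not_nonempty_iff_eq_empty] at hW
  refine hC.disc fun c c' hc _ => reach_of_agree hc fun v hv => ?_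
  rw [hW] at hv
  simp at hv

theorem sh11_TP (hC : CE E W) {u v : V} (hv : TP E W u v) (h3 : ¬ 5 ≤ deg E W u) :
    ∃ x ∈ W, 5 ≤ deg E W x ∧ v ∈ Sset E W x := by
  have h4 := hC.deg_apex (Or.inl hv)
  obtain ⟨x, a, b, w, h5, hs⟩ := hC.apex_four hv (by omega)
  have hx : x ∈ outN E W v := by rw [hs.outv]; simp
  exact ⟨x, (mem_outN.1 hx).1, h5, mem_Sset.2 ⟨u, a, b, w, Or.inl hs⟩⟩

theorem sh11_key (hC : CE E W) {v : V} (hv : v ∈ W) (h3 : deg E W v = 3) :
    ∃ x ∈ W, 5 ≤ deg E W x ∧ (v ∈ Tset E W x ∨ v ∈ Sset E W x) := by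
  obtain ⟨u, hu⟩ := hC.apex hv h3
  by_cases h5 : 5 ≤ deg E W u
  · have huW : u ∈ W := by
      rcases hu with hu | hu
      · have : u ∈ inN E W v := by rw [hu.2.1]; simp
        exact (mem_inN.1 this).1
      · have : u ∈ outN E W v := by rw [hu.2.1]; simp
        exact (mem_outN.1 this).1
    exact ⟨u, huW, h5, Or.inl (mem_Tset.2 hu)⟩
  · rcases hu with hu | hu
    · obtain ⟨x, hx, h6, h7⟩ := sh11_TP hC hu h5
      exact ⟨x, hx, h6, Or.inr h7⟩
    · obtain ⟨x, hx, h6, h7⟩ := sh11_TP hC.rev (TP_rev.2 hu) (by rw [deg_rev]; exact h5)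
      rw [deg_rev] at h6
      rw [Sset_rev] at h7
      exact ⟨x, hx, h6, Or.inr h7⟩

/-- discharging. `∑ (4 - deg z) = 2 ff W > 0` (`sum_deg`). All degrees are at least 3 (`deg_ge`). Every `v` of degree 3 has an apex `u` (`CE.apex`) of degree `≥ 4` (`deg_apex`); if `deg u ≥ 5` then
`v ∈ T(u)`, if `deg u = 4` then `v ∈ S(x)` for some `x` of degree `≥ 5` (`apex_four`, also for `rev E`). So `#deg 3 ≤ ∑_{deg x ≥ 5} (|T(x)| + |S(x)|)` and for some `x`: `deg x - 4 < |T(x)| + |S(x)|`. -/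
theorem CE.discharge (hC : CE E W) : ∃ x ∈ W, 5 ≤ deg E W x ∧
    deg E W x ≤ (Tset E W x).card + (Sset E W x).card + 3 := by
  classical
  by_contra hcon
  push Not at hcon
  have hff : 1 ≤ ff E W := hC.good.2 W (Subset.refl _) (sh11_ne hC)
  have hsum := sum_deg (E := E) (W := W) (fun z hz => hC.good.1.loop hz)
  have h1 : W.filter (fun v => deg E W v = 3) ⊆
      (W.filter (fun x => 5 ≤ deg E W x)).biUnion (fun x => Tset E W x ∪ Sset E W x) := by
    intro v hv
    rw [mem_filter] at hv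
    obtain ⟨x, hx, h5, h6⟩ := sh11_key hC hv.1 hv.2
    rw [mem_biUnion]
    exact ⟨x, mem_filter.2 ⟨hx, h5⟩, mem_union.2 h6⟩
  have h2 : (W.filter (fun v => deg E W v = 3)).card ≤
      ∑ x ∈ W.filter (fun x => 5 ≤ deg E W x), ((Tset E W x).card + (Sset E W x).card) :=
    (card_le_card h1).trans (card_biUnion_le.trans (sum_le_sum fun x _ => card_union_le _ _))
  have h3 : ∑ x ∈ W.filter (fun x => 5 ≤ deg E W x), ((Tset E W x).card + (Sset E W x).card : ℤ) ≤
      ∑ x ∈ W.filter (fun x => 5 ≤ deg E W x), ((deg E W x : ℤ) - 4) := by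
    refine sum_le_sum fun x hx => ?_
    rw [mem_filter] at hx
    have := hcon x hx.1 hx.2
    omega
  have h4 : ∑ z ∈ W, (4 - (deg E W z : ℤ)) ≤
      ∑ z ∈ W, ((if deg E W z = 3 then (1 : ℤ) else 0) - (if 5 ≤ deg E W z then (deg E W z : ℤ) - 4 else 0)) := by
    refine sum_le_sum fun z hz => ?_
    have := (hC.deg_ge hz).1
    split_ifs <;> omega
  rw [hsum, sum_sub_distrib, ← sum_filter, ← sum_filter] at h4
  have h5 : ∑ z ∈ W.filter (fun z => deg E W z = 3), (1 : ℤ) = ((W.filter (fun v => deg E W v = 3)).card : ℤ) := by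
    simp
  have h6 : ((W.filter (fun v => deg E W v = 3)).card : ℤ) ≤
      ∑ x ∈ W.filter (fun x => 5 ≤ deg E W x), ((Tset E W x).card + (Sset E W x).card : ℤ) := by
    exact_mod_cast h2
  rw [h5] at h4
  linarith

end Mix
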