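import Pool.Agent.Lib.MP_784a73_co.Mix.SH3
import Pool.Agent.Lib.MP_784a73_co.Mix.SH10
import Pool.Agent.Lib.MP_784a73_co.Mix.SH11
import Pool.Agent.Lib.MP_784a73_co.Mix.SG3

/-! # MP_784a73_co, row S-H12 -/

namespace Mix

open Finset Relation

set_option linter.unusedSectionVars false

variable {V : Type*} [DecidableEq V] [Fintype V] {E : Finset (V × V)} {W : Finset V} {x : V}

/-- there is no minimal counterexample: `discharge`, `deg_x`. `S = ∅`: `|E⁻| + |E⁺| ≤ 3`, so `T ≠ ∅`: `CE.five`. `S ≠ ∅`: a structure of each type: `SP.mixed`; otherwise `SP.false` for `E` or `rev E`. -/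
theorem CE.false (hC : CE E W) : False := by
  obtain ⟨x, hx, h5, hd⟩ := CE.discharge hC
  have hdx := deg_x hC.good.1 hx
  by_cases hS : (Sset E W x).card = 0
  · have hT : (Tset E W x).Nonempty := by
      rw [← Finset.card_pos]
      omega
    have := CE.five hC hx hT h5
    omega
  · obtain ⟨v, hv⟩ := Finset.card_pos.1 (Nat.pos_of_ne_zero hS)
    have h3 : (Em E W x).card + (Ep E W x).card ≤ (Sset E W x).card + 3 := by omega
    by_cases hall : ∀ s ∈ Sset E W x, ∃ u a b w, SP E W x s u a b w
    · obtain ⟨u, a, b, w, hs⟩ := hall v hv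
      exact SP.false hC hs hall h3
    · by_cases hall' : ∀ s ∈ Sset E W x, ∃ u a b w, SP (Mix.rev E) W x s u a b w
      · obtain ⟨u, a, b, w, hs⟩ := hall' v hv
        refine SP.false hC.rev hs ?_ ?_
        · rw [Sset_rev]
          exact hall'
        · rw [Sset_rev, Em_rev, Ep_rev]
          omega
      · push Not at hall hall'
        obtain ⟨s₁, hs₁, h₁⟩ := hall
        obtain ⟨s₂, hs₂, h₂⟩ := hall'
        obtain ⟨u₁, a₁, b₁, w₁, h₁'⟩ := mem_Sset.1 hs₁
        obtain ⟨u₂, a₂, b₂, w₂, h₂'⟩ := mem_Sset.1 hs₂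
        have g₁ : SP (Mix.rev E) W x s₁ u₁ a₁ b₁ w₁ := h₁'.resolve_left (h₁ u₁ a₁ b₁ w₁)
        have g₂ : SP E W x s₂ u₂ a₂ b₂ w₂ := h₂'.resolve_right (h₂ u₂ a₂ b₂ w₂)
        have := SP.mixed hC g₂ g₁
        omega

/-- the main theorem: strong induction on `|W|`; if `(E, W)` is not connected it is a minimal counterexample (`T1` for `two`). -/
theorem main {E : Finset (V × V)} {W : Finset V} (hG : Good E W) : Conn E W := by
  classical
  have key : ∀ (n : ℕ) (E : Finset (V × V)) (W : Finset V), W.card = n → Good E W → Conn E W := by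
    intro n
    induction n using Nat.strong_induction_on with
    | _ n ih =>
      intro E W hn hG
      subst hn
      have hIH : IH V W.card := fun E' W' hlt hG' => ih W'.card hlt E' W' rfl hG'
      by_contra hdisc
      refine CE.false (E := E) (W := W) ⟨hIH, hG, fun H hH hne hneW => ?_, hdisc⟩
      by_contra hlt
      have h1 := hG.2 H hH hne
      exact hdisc (T1 hG hIH hH hne hneW (by omega))
  exact key W.card E W rfl hG

end Mix
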