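import Pool.Agent.Lib.MP_784a73_co.Mix.SH1

/-! # MP_784a73_co, row S-H2 -/

namespace Mix

open Finset Relation

set_option linter.unusedSectionVars false

variable {V : Type*} [DecidableEq V] [Fintype V] {E : Finset (V × V)} {W : Finset V} {x : V}

/-- different vertices have different apices. `v₁ ≠ v₂`: `outN u = {v₁, v₂}`, `L = {u, v₁, v₂}`, `E' = E`; for `c = c₀` on `L` (`u` `false`, `vᵢ` `true`) `u` and `vᵢ` are dead, so `c` is valid iff valid
on `W \ L`; `a ∈ W \ L` is frozen: `princX_false`. -/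
theorem SP.inj (hC : CE E W) {v₁ v₂ u a₁ b₁ w₁ a₂ b₂ w₂ : V} (h₁ : SP E W x v₁ u a₁ b₁ w₁) (h₂ : SP E W x v₂ u a₂ b₂ w₂) : v₁ = v₂ := by
  by_contra hne
  have hO := hC.good.1
  obtain ⟨hxW, hv1, ha1, hw1, hu1, hb1, hva1, hvw1, hab1, huv1, hua1, hub1⟩ := h₁.pos hC
  obtain ⟨-, hv2, ha2, hw2, hu2, hb2, hva2, hvw2, hab2, huv2, hua2, hub2⟩ := h₂.pos hC
  have hb : v₂ = b₁ := by
    have h : v₂ ∈ outN E W u := by rw [h₂.outu]; simp
    rw [h₁.outu, Finset.mem_insert, Finset.mem_singleton] at h
    rcases h with h | h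
    · exact absurd h.symm hne
    · exact h
  have hout : outN E W u = {v₁, v₂} := by rw [h₁.outu, hb]
  have huW : u ∈ W := by
    have h : u ∈ inN E W v₁ := by rw [h₁.inv]; simp
    exact (mem_inN.1 h).1
  obtain ⟨hK, c₀, hc₀, -⟩ := SP.closed hC h₁
  obtain ⟨hcu, hcv1, hca1, -⟩ := h₁.bad c₀ hc₀.1
  obtain ⟨-, hcv2, -, -⟩ := h₂.bad c₀ hc₀.1
  rw [hc₀.2] at hcu hcv1 hca1 hcv2
  have hLW : ({u, v₁, v₂} : Finset V) ⊆ W := by
    intro z hz
    simp only [Finset.mem_insert, Finset.mem_singleton] at hz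
    rcases hz with rfl | rfl | rfl
    · exact huW
    · exact h₁.vW
    · exact h₂.vW
  have claim : ∀ c : V → Bool, (∀ l ∈ ({u, v₁, v₂} : Finset V), c l = c₀ l) →
      Val E (W \ {u, v₁, v₂}) c → Val E W c := by
    intro c hc hv
    have cu : c u = false := by rw [hc u (by simp), hcu]; rfl
    have cv1 : c v₁ = true := by rw [hc v₁ (by simp), hcv1]
    have cv2 : c v₂ = true := by rw [hc v₂ (by simp), hcv2]
    have hD : ∀ v ∈ ({u, v₁, v₂} : Finset V), Dead E W c v := by
      intro v hvm
      simp only [Finset.mem_insert, Finset.mem_singleton] at hvm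
      rcases hvm with rfl | rfl | rfl
      · right
        intro q hqW hqe he
        have hq' : q ∈ outN E W v := mem_outN.2 ⟨hqW, hqe⟩
        rw [hout, Finset.mem_insert, Finset.mem_singleton] at hq'
        rcases hq' with rfl | rfl
        · rw [cv1, cu] at he
          exact absurd he (by decide)
        · rw [cv2, cu] at he
          exact absurd he (by decide)
      · left
        intro q hqW hqe he
        have hq' : q ∈ inN E W v := mem_inN.2 ⟨hqW, hqe⟩
        rw [h₁.inv, Finset.mem_singleton] at hq'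
        subst hq'
        rw [cu, cv1] at he
        exact absurd he (by decide)
      · left
        intro q hqW hqe he
        have hq' : q ∈ inN E W v := mem_inN.2 ⟨hqW, hqe⟩
        rw [h₂.inv, Finset.mem_singleton] at hq'
        subst hq'
        rw [cu, cv2] at he
        exact absurd he (by decide)
    exact (val_dead hD).2 hv
  have haL : a₁ ∈ W \ {u, v₁, v₂} := by
    rw [Finset.mem_sdiff]
    refine ⟨(Finset.mem_sdiff.1 (Em_sub hO hxW ha1)).1, fun h => ?_⟩
    simp only [Finset.mem_insert, Finset.mem_singleton] at h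
    rcases h with h | h | h
    · exact hua1 h.symm
    · exact hva1 h.symm
    · exact hab1 (h.trans hb)
  refine princX_false hC hLW ⟨u, by simp⟩ (hC.good.sub Finset.sdiff_subset) hK hc₀
    ((hK.val c₀ hc₀).anti (Finset.Subset.refl E) Finset.sdiff_subset) ?_ haL ?_
  · intro c _ hc _ z hz hvz
    apply claim _ _ hvz
    intro l hl
    have hlz : l ≠ z := by
      rintro rfl
      exact (Finset.mem_sdiff.1 hz).2 hl
    rw [flip_of_ne hlz, hc l hl]
  · intro c hc
    obtain ⟨-, -, h3, -⟩ := h₁.bad c hc.1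
    rw [h3, hc.2, hca1]

end Mix
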