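import Pool.Agent.Lib.MP_784a73_co.Mix.SH1

/-! # MP_784a73_co, row S-H3 -/

namespace Mix

open Finset Relation

set_option linter.unusedSectionVars false

variable {V : Type*} [DecidableEq V] [Fintype V] {E : Finset (V × V)} {W : Finset V} {x : V}

/-- structures of both types at `x`: `|E⁻| + |E⁺| ≥ |S| + 4`. Take `c` `Bad`. All `s ∈ S` are in `E⁻ ∪ E⁺` with `c s = c x`. `a₁, w₁, u₂ ∈ E⁻` and `a₂, w₂, u₁ ∈ E⁺` have the other colour. `a₁, w₁, u₂` are not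
all equal (otherwise `v₁ → w₁ = u₂`, so `v₁ ∈ inN u₂ = {v₂, b₂}`, but `v₁ → x` and `x → v₂, b₂`), the same for `a₂, w₂, u₁`. -/
theorem SP.mixed (hC : CE E W) {v₁ u₁ a₁ b₁ w₁ v₂ u₂ a₂ b₂ w₂ : V} (h₁ : SP E W x v₁ u₁ a₁ b₁ w₁)
    (h₂ : SP (rev E) W x v₂ u₂ a₂ b₂ w₂) : (Sset E W x).card + 4 ≤ (Em E W x).card + (Ep E W x).card := by
  classical
  have hO : Ori E W := hC.good.1
  obtain ⟨-, c, hcK, -⟩ := h₁.closed hC
  have hbad : Bad E W c := hcK.1
  obtain ⟨hxW, hv1, ha1, hw1, hu1, hb1, -⟩ := h₁.pos hC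
  obtain ⟨-, hv2, ha2, hw2, hu2, hb2, -⟩ := h₂.pos hC.rev
  rw [Em_rev] at hv2 ha2 hw2
  rw [Ep_rev] at hu2
  rw [inN_rev] at hb2
  have hdisj := Em_disj_Ep (x := x) hO hxW
  obtain ⟨c1, c2, c3, c4⟩ := h₁.bad c hbad
  obtain ⟨d1, d2, d3, d4⟩ := h₂.bad c (Bad.rev_iff.2 hbad)
  -- arcs
  have arcEm : ∀ z, z ∈ Em E W x → (z, x) ∈ E ∧ z ∈ W := by
    intro z hz
    rw [Em, Finset.mem_sdiff, mem_inN] at hz
    exact ⟨hz.1.2, hz.1.1⟩
  have arcEp : ∀ z, z ∈ Ep E W x → (x, z) ∈ E ∧ z ∈ W := by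
    intro z hz
    rw [Ep, Finset.mem_sdiff, mem_outN] at hz
    exact ⟨hz.1.2, hz.1.1⟩
  have ne1 : w₁ ≠ u₂ := by
    intro h
    have h3 : w₁ ∈ outN E W v₁ := by rw [h₁.outv]; simp
    rw [mem_outN] at h3
    have h4 : v₁ ∈ inN E W u₂ := by
      rw [mem_inN]; exact ⟨h₁.vW, h ▸ h3.2⟩
    have h5 : outN (rev E) W u₂ = {v₂, b₂} := h₂.outu
    rw [outN_rev] at h5
    rw [h5, Finset.mem_insert, Finset.mem_singleton] at h4
    rcases h4 with h4 | h4
    · exact Finset.disjoint_left.1 hdisj hv1 (h4 ▸ hv2)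
    · rw [mem_outN] at hb2
      have := arcEm v₁ hv1
      exact hO v₁ this.2 x hxW this.1 (h4 ▸ hb2.2)
  have ne2 : w₂ ≠ u₁ := by
    intro h
    have h3 : w₂ ∈ outN (rev E) W v₂ := by rw [h₂.outv]; simp
    rw [outN_rev, mem_inN] at h3
    have hv2W : v₂ ∈ W := h₂.vW
    have h4 : v₂ ∈ outN E W u₁ := by
      rw [mem_outN]; exact ⟨hv2W, h ▸ h3.2⟩
    rw [h₁.outu, Finset.mem_insert, Finset.mem_singleton] at h4
    rcases h4 with h4 | h4
    · exact Finset.disjoint_left.1 hdisj hv1 (h4 ▸ hv2)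
    · rw [mem_inN] at hb1
      have := arcEp v₂ hv2
      exact hO v₂ this.2 x hxW (h4 ▸ hb1.2) this.1
  -- colour classes
  have hS : Sset E W x ⊆ (Em E W x ∪ Ep E W x).filter (fun z => c z = c x) := by
    intro s hs
    rw [mem_Sset] at hs
    obtain ⟨u, a, b, w, h | h⟩ := hs
    · rw [Finset.mem_filter, Finset.mem_union]
      exact ⟨Or.inl (h.pos hC).2.1, (h.bad c hbad).2.1⟩
    · rw [Finset.mem_filter, Finset.mem_union]
      have := (h.pos hC.rev).2.1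
      rw [Em_rev] at this
      exact ⟨Or.inr this, (h.bad c (Bad.rev_iff.2 hbad)).2.1⟩
  have hcx : ∀ z, c z = !c x → ¬ c z = c x := by
    intro z hz
    rw [hz]
    cases c x <;> simp
  have hF : ({w₁, u₂, w₂, u₁} : Finset V) ⊆ (Em E W x ∪ Ep E W x).filter (fun z => ¬ c z = c x) := by
    intro z hz
    rw [Finset.mem_filter, Finset.mem_union]
    simp only [Finset.mem_insert, Finset.mem_singleton] at hz
    rcases hz with rfl | rfl | rfl | rfl
    · exact ⟨Or.inl hw1, hcx _ c4⟩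
    · exact ⟨Or.inl hu2, hcx _ d1⟩
    · exact ⟨Or.inr hw2, hcx _ d4⟩
    · exact ⟨Or.inr hu1, hcx _ c1⟩
  have hcard4 : ({w₁, u₂, w₂, u₁} : Finset V).card = 4 := by
    have e1 : w₁ ≠ w₂ := fun h => Finset.disjoint_left.1 hdisj hw1 (h ▸ hw2)
    have e2 : w₁ ≠ u₁ := fun h => Finset.disjoint_left.1 hdisj hw1 (h ▸ hu1)
    have e3 : u₂ ≠ w₂ := fun h => Finset.disjoint_left.1 hdisj hu2 (h ▸ hw2)
    have e4 : u₂ ≠ u₁ := fun h => Finset.disjoint_left.1 hdisj hu2 (h ▸ hu1)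
    rw [Finset.card_insert_of_notMem, Finset.card_insert_of_notMem, Finset.card_insert_of_notMem,
      Finset.card_singleton]
    · simpa using ne2
    · simp only [Finset.mem_insert, Finset.mem_singleton, not_or]
      exact ⟨e3, e4⟩
    · simp only [Finset.mem_insert, Finset.mem_singleton, not_or]
      exact ⟨ne1, e1, e2⟩
  have htot := Finset.card_filter_add_card_filter_not (s := Em E W x ∪ Ep E W x) (fun z => c z = c x)
  have hu := Finset.card_union_of_disjoint hdisj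
  have k1 := Finset.card_le_card hS
  have k2 := Finset.card_le_card hF
  omega

end Mix
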