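import Pool.Agent.Lib.MP_784a73_co.Mix.SH2

/-! # MP_784a73_co, row S-H4 -/

namespace Mix

open Finset Relation

set_option linter.unusedSectionVars false

variable {V : Type*} [DecidableEq V] [Fintype V] {E : Finset (V × V)} {W : Finset V} {x : V}

/-- only structures of the first type: `S ∪ {a} ⊆ E⁻` (`c s = c x`, `c a = !c x` for `Bad c`), `s ↦ u_s` is injective from `S` to `E⁺` (`SP.inj`). -/
theorem SP.count (hC : CE E W) {v u a b w : V} (hs : SP E W x v u a b w)
    (hall : ∀ s ∈ Sset E W x, ∃ u a b w, SP E W x s u a b w) :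
    insert a (Sset E W x) ⊆ Em E W x ∧ a ∉ Sset E W x ∧ (Sset E W x).card ≤ (Ep E W x).card := by
  classical
  obtain ⟨hxW, hv1, ha1, hw1, hu1, hb1, hva1, hvw1, hab1, huv1, hua1, hub1⟩ := hs.pos hC
  refine ⟨?_, ?_, ?_⟩
  · intro s hsm
    rw [Finset.mem_insert] at hsm
    rcases hsm with rfl | hsm
    · exact ha1
    · obtain ⟨u', a', b', w', h'⟩ := hall s hsm
      exact (h'.pos hC).2.1
  · intro haS
    obtain ⟨u', a', b', w', h'⟩ := hall a haS
    obtain ⟨-, c₀, hc₀, -⟩ := SP.closed hC hs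
    obtain ⟨-, -, h3, -⟩ := hs.bad c₀ hc₀.1
    obtain ⟨-, h4, -, -⟩ := h'.bad c₀ hc₀.1
    rw [h4] at h3
    cases hcx : c₀ x <;> rw [hcx] at h3 <;> exact absurd h3 (by decide)
  · choose! f g h k hf using hall
    refine Finset.card_le_card_of_injOn f (fun s hsm => ?_) (fun s hsm t htm hst => ?_)
    · exact ((hf s hsm).pos hC).2.2.2.2.1
    · have h1 := hf s hsm
      have h2 := hf t htm
      rw [hst] at h1
      exact SP.inj hC h1 h2

end Mix
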