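import Pool.Agent.Lib.MP_784a73_co.Mix.SH1

/-! # MP_784a73_co, row S-H7 -/

namespace Mix

open Finset Relation

set_option linter.unusedSectionVars false

variable {V : Type*} [DecidableEq V] [Fintype V] {E : Finset (V × V)} {W : Finset V} {x : V}

/-- the remaining case: `w = a`, `E⁻ = {v, a}`, `E⁺ = {u, o}`, `u ≠ o`. `b → x`, `b ∉ E⁻`, so `b ∈ T(x)`. `L := L(x) ∪ {u, v}`. Colourings with `x` `true`, `T` `false`, `u` `false`, `v` `true` are valid iff valid on
`W \ L` and no mono path `o ⇒ a` of colour `true` (`T` dead; then `v` dead, `u` dead (out-neighbour `v` only); `val_insert` for `x`: out-neighbour `o`, in-neighbour `a`). -/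
theorem SP.val_ext (hC : CE E W) {v u a b o : V} (hs : SP E W x v u a b a) (hm : Em E W x = {v, a}) (hp : Ep E W x = {u, o}) (huo : u ≠ o)
    {c : V → Bool} (h1 : c x = true) (h2 : ∀ t ∈ Tset E W x, c t = false) (h3 : c u = false) (h4 : c v = true) :
    Val E W c ↔ Val E (W \ (Lx E W x ∪ {u, v})) c ∧
      (c o = true → c a = true → ¬ ReflTransGen (Mono E (W \ (Lx E W x ∪ {u, v})) c) o a) := by
  have hO : Ori E W := hC.good.1
  obtain ⟨hxW, hvm, ham, -, hup, hbin, hva, -, hab, huv, hua, hub⟩ := hs.pos hC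
  have hxT : x ∉ Tset E W x := not_mem_Tset hO
  have hEmsub := Em_sub (x := x) hO hxW
  have hEpsub := Ep_sub (x := x) hO hxW
  have hdisj := Em_disj_Ep (x := x) hO hxW
  -- membership helpers
  have hnot : ∀ z, z ∈ W \ Lx E W x → z ∈ W ∧ z ≠ x ∧ z ∉ Tset E W x := by
    intro z hz
    rw [Finset.mem_sdiff, Lx, Finset.mem_insert, not_or] at hz
    exact ⟨hz.1, hz.2.1, hz.2.2⟩
  have hv' := hnot v (hEmsub hvm)
  have ha' := hnot a (hEmsub ham)
  have hu' := hnot u (hEpsub hup)
  have hoEp : o ∈ Ep E W x := by rw [hp]; simp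
  have ho' := hnot o (hEpsub hoEp)
  have hbT : b ∈ Tset E W x := by
    by_contra hbT
    have : b ∈ Em E W x := by
      rw [Em, Finset.mem_sdiff]
      exact ⟨hbin, hbT⟩
    rw [hm, Finset.mem_insert, Finset.mem_singleton] at this
    rcases this with h | h
    · exact hs.hvb h.symm
    · exact hab h.symm
  have hov : o ≠ v := by
    intro h
    exact Finset.disjoint_left.1 hdisj hvm (h ▸ hoEp)
  -- step 1
  have s1 : Val E W c ↔ Val E (W \ Tset E W x) c := by
    apply val_dead
    intro t ht
    have hct := h2 t ht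
    rcases mem_Tset.1 ht with h | h
    · left
      intro p hpW hpt
      have := h.in_eq hpW hpt
      rw [this, h1, hct]
      simp
    · right
      intro p hpW hpt
      have := h.out_eq hpW hpt
      rw [this, h1, hct]
      simp
  -- step 2
  have s2 : Val E (W \ Tset E W x) c ↔ Val E ((W \ Tset E W x) \ {u, v}) c := by
    apply val_dead
    intro t ht
    rw [Finset.mem_insert, Finset.mem_singleton] at ht
    rcases ht with rfl | rfl
    · right
      intro q hq hqe
      have hqW := (Finset.mem_sdiff.1 hq).1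
      have hqT := (Finset.mem_sdiff.1 hq).2
      have : q ∈ outN E W t := by
        rw [mem_outN]
        exact ⟨hqW, hqe⟩
      rw [hs.outu, Finset.mem_insert, Finset.mem_singleton] at this
      rcases this with h | h
      · rw [h, h3, h4]; simp
      · exact absurd (h ▸ hbT) hqT
    · left
      intro q hq hqe
      have hqW := (Finset.mem_sdiff.1 hq).1
      have : q ∈ inN E W t := by
        rw [mem_inN]
        exact ⟨hqW, hqe⟩
      rw [hs.inv, Finset.mem_singleton] at this
      rw [this, h3, h4]; simp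
  -- step 3
  have hW : (W \ Tset E W x) \ {u, v} = insert x (W \ (Lx E W x ∪ {u, v})) := by
    ext z
    simp only [Finset.mem_sdiff, Finset.mem_insert, Finset.mem_singleton, Finset.mem_union, Lx]
    constructor
    · rintro ⟨⟨hz1, hz2⟩, hz3⟩
      by_cases hzx : z = x
      · exact Or.inl hzx
      · exact Or.inr ⟨hz1, by tauto⟩
    · rintro (rfl | ⟨hz1, hz2⟩)
      · refine ⟨⟨hxW, hxT⟩, ?_⟩
        rintro (h | h)
        · exact hu'.2.1 h.symm
        · exact hv'.2.1 h.symm
      · refine ⟨⟨hz1, ?_⟩, ?_⟩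
        · tauto
        · tauto
  have hx2 : x ∉ W \ (Lx E W x ∪ {u, v}) := by
    simp [Lx]
  rw [s1, s2, hW, val_insert hx2 (hO.loop hxW)]
  have hmemL : ∀ z, z ∈ W \ (Lx E W x ∪ {u, v}) → z ∈ W ∧ z ∉ Tset E W x ∧ z ≠ u ∧ z ≠ v := by
    intro z hz
    rw [Finset.mem_sdiff, Lx, Finset.mem_union, Finset.mem_insert, Finset.mem_insert, Finset.mem_singleton] at hz
    tauto
  have hoW : o ∈ W \ (Lx E W x ∪ {u, v}) := by
    rw [Finset.mem_sdiff, Lx, Finset.mem_union, Finset.mem_insert, Finset.mem_insert, Finset.mem_singleton]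
    refine ⟨ho'.1, ?_⟩
    rintro ((h | h) | (h | h))
    · exact ho'.2.1 h
    · exact ho'.2.2 h
    · exact huo h.symm
    · exact hov h
  have haW : a ∈ W \ (Lx E W x ∪ {u, v}) := by
    rw [Finset.mem_sdiff, Lx, Finset.mem_union, Finset.mem_insert, Finset.mem_insert, Finset.mem_singleton]
    refine ⟨ha'.1, ?_⟩
    rintro ((h | h) | (h | h))
    · exact ha'.2.1 h
    · exact ha'.2.2 h
    · exact hua h.symm
    · exact hva h.symm
  constructor
  · rintro ⟨hV, hP⟩
    refine ⟨hV, ?_⟩
    intro hco hca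
    have hxo : (x, o) ∈ E := by
      have := hoEp
      rw [Ep, Finset.mem_sdiff, mem_outN] at this
      exact this.1.2
    exact hP o hoW a haW hxo hs.ax (by rw [hco, h1]) (by rw [hca, h1])
  · rintro ⟨hV, hP⟩
    refine ⟨hV, ?_⟩
    intro p hpW q hqW hxp hqx hcp hcq
    have hp' := hmemL p hpW
    have hq' := hmemL q hqW
    have hpo : p = o := by
      have : p ∈ Ep E W x := by
        rw [Ep, Finset.mem_sdiff, mem_outN]
        exact ⟨⟨hp'.1, hxp⟩, hp'.2.1⟩
      rw [hp, Finset.mem_insert, Finset.mem_singleton] at this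
      rcases this with h | h
      · exact absurd h hp'.2.2.1
      · exact h
    have hqa : q = a := by
      have : q ∈ Em E W x := by
        rw [Em, Finset.mem_sdiff, mem_inN]
        exact ⟨⟨hq'.1, hqx⟩, hq'.2.1⟩
      rw [hm, Finset.mem_insert, Finset.mem_singleton] at this
      rcases this with h | h
      · exact absurd h hq'.2.2.2
      · exact h
    subst hpo
    subst hqa
    exact hP (by rw [hcp, h1]) (by rw [hcq, h1])

end Mix
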