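import Pool.Agent.Lib.MP_784a73_co.Mix.SH7

/-! # MP_784a73_co, row S-H8 -/

namespace Mix

open Finset Relation

set_option linter.unusedSectionVars false

variable {V : Type*} [DecidableEq V] [Fintype V] {E : Finset (V × V)} {W : Finset V} {x : V}

/-- two vertices of `H` joined to `z` by an arc give `deg E H z ≥ 2` (in this form: one in-neighbour and one out-neighbour, or more) -/
theorem SH8_deg_two {H : Finset V} {z p q : V} (hp : p ∈ H) (hpz : (p, z) ∈ E) (hq : q ∈ H) (hzq : (z, q) ∈ E) :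
    2 ≤ deg E H z := by
  have h1 : 1 ≤ (inN E H z).card := Finset.card_pos.2 ⟨p, mem_inN.2 ⟨hp, hpz⟩⟩
  have h2 : 1 ≤ (outN E H z).card := Finset.card_pos.2 ⟨q, mem_outN.2 ⟨hq, hzq⟩⟩
  unfold deg
  omega

theorem SH8_deg_two' {H : Finset V} {z p q : V} (hpq : p ≠ q) (hp : p ∈ H) (hpz : (p, z) ∈ E) (hq : q ∈ H) (hqz : (q, z) ∈ E) :
    2 ≤ deg E H z := by
  have h1 : 1 < (inN E H z).card :=
    Finset.one_lt_card.2 ⟨p, mem_inN.2 ⟨hp, hpz⟩, q, mem_inN.2 ⟨hq, hqz⟩, hpq⟩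
  unfold deg
  omega

theorem SH8_deg_three {H : Finset V} {z p q r : V} (hqr : q ≠ r) (hp : p ∈ H) (hpz : (p, z) ∈ E) (hq : q ∈ H) (hzq : (z, q) ∈ E)
    (hr : r ∈ H) (hzr : (z, r) ∈ E) : 3 ≤ deg E H z := by
  have h1 : 1 ≤ (inN E H z).card := Finset.card_pos.2 ⟨p, mem_inN.2 ⟨hp, hpz⟩⟩
  have h2 : 1 < (outN E H z).card :=
    Finset.one_lt_card.2 ⟨q, mem_outN.2 ⟨hq, hzq⟩, r, mem_outN.2 ⟨hr, hzr⟩, hqr⟩
  unfold deg
  omega

/-- `H₀ :=` largest minimiser of `ff E` containing `a` in `W \ L` (`exists_max_min`; `ff H₀ = 2`). `o ∉ H₀`: otherwise `ff (H₀ ∪ {x}) = 2`, `ff (H₀ ∪ {x, u}) = 2`, `ff (H₀ ∪ {x, u, v}) = 1` and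
`b` is missing. `princPX` (`E' = E`, `val_ext` with `c a = false`): there is `c` in `Kx` with the colours of `c₀` on `L` and `c o = true`. -/
theorem SP.max_set (hC : CE E W) {v u a b o : V} (hs : SP E W x v u a b a) (hm : Em E W x = {v, a}) (hp : Ep E W x = {u, o}) (huo : u ≠ o) :
    ∃ H0 ⊆ W \ (Lx E W x ∪ {u, v}), a ∈ H0 ∧ o ∈ (W \ (Lx E W x ∪ {u, v})) \ H0 ∧ ff E H0 = 2 ∧
      (∀ Y ⊆ (W \ (Lx E W x ∪ {u, v})) \ H0, Y.Nonempty → ff E H0 + 1 ≤ ff E (Y ∪ H0)) ∧
      ∃ c ∈ Kx E W x, (∀ t ∈ Tset E W x, c t = false) ∧ c o = true := by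
  have hO : Ori E W := hC.good.1
  obtain ⟨hxW, hvm, ham, hwm, hup, hbx, hva, hvw, hab, huv, hua, hub⟩ := hs.pos hC
  obtain ⟨hK, c0, hc0, hT0⟩ := hs.closed hC
  have hxT : x ∉ Tset E W x := not_mem_Tset hO
  have hom : o ∈ Ep E W x := by rw [hp]; simp
  have haL := Em_sub hO hxW ham
  have hvL := Em_sub hO hxW hvm
  have huL := Ep_sub hO hxW hup
  have hoL := Ep_sub hO hxW hom
  have hnL : ∀ {y : V}, y ∈ W \ Lx E W x → y ∈ W ∧ y ≠ x ∧ y ∉ Tset E W x := by
    intro y hy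
    rw [Finset.mem_sdiff, Lx, Finset.mem_insert, not_or] at hy
    exact ⟨hy.1, hy.2.1, hy.2.2⟩
  obtain ⟨huW, hux, huT⟩ := hnL huL
  obtain ⟨hvW, hvx, hvT⟩ := hnL hvL
  obtain ⟨haW, hax, haT⟩ := hnL haL
  obtain ⟨hoW, hox, hoT⟩ := hnL hoL
  have hov : o ≠ v := by
    intro h
    exact (Finset.disjoint_left.1 (Em_disj_Ep hO hxW)) hvm (h ▸ hom)
  have hoa : o ≠ a := by
    intro h
    exact (Finset.disjoint_left.1 (Em_disj_Ep hO hxW)) ham (h ▸ hom)
  have hbT : b ∈ Tset E W x := by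
    by_contra h
    have : b ∈ Em E W x := Finset.mem_sdiff.2 ⟨hbx, h⟩
    rw [hm, Finset.mem_insert, Finset.mem_singleton] at this
    rcases this with h | h
    · exact hs.hvb h.symm
    · exact hab h.symm
  set L : Finset V := Lx E W x ∪ {u, v} with hLdef
  have hLW : L ⊆ W := by
    intro y hy
    rw [hLdef, Finset.mem_union, Finset.mem_insert, Finset.mem_singleton] at hy
    rcases hy with h | rfl | rfl
    · exact Lx_sub hxW h
    · exact huW
    · exact hvW
  have hxL : x ∈ L := by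
    rw [hLdef, Finset.mem_union]; left; rw [Lx]; exact Finset.mem_insert_self _ _
  have huL' : u ∈ L := by rw [hLdef]; simp
  have hvL' : v ∈ L := by rw [hLdef]; simp
  have hTL : ∀ t ∈ Tset E W x, t ∈ L := by
    intro t ht
    rw [hLdef, Finset.mem_union]; left; rw [Lx]; exact Finset.mem_insert_of_mem ht
  have haL' : a ∈ W \ L := by
    rw [Finset.mem_sdiff, hLdef, Finset.mem_union, Finset.mem_insert, Finset.mem_singleton]
    refine ⟨haW, ?_⟩
    rintro (h | h | h)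
    · exact (Finset.mem_sdiff.1 haL).2 h
    · exact hua h.symm
    · exact hva h.symm
  have hoL' : o ∈ W \ L := by
    rw [Finset.mem_sdiff, hLdef, Finset.mem_union, Finset.mem_insert, Finset.mem_singleton]
    refine ⟨hoW, ?_⟩
    rintro (h | h | h)
    · exact (Finset.mem_sdiff.1 hoL).2 h
    · exact huo h.symm
    · exact hov h
  have hss : W \ L ⊂ W := Finset.sdiff_ssubset hLW ⟨x, hxL⟩
  -- colours of c0
  have hbad0 := hs.bad c0 hc0.1
  have hx0 : c0 x = true := hc0.2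
  have hu0 : c0 u = false := by rw [hbad0.1, hx0]; rfl
  have hv0 : c0 v = true := by rw [hbad0.2.1, hx0]
  have ha0 : c0 a = false := by rw [hbad0.2.2.1, hx0]; rfl
  have hval0 : Val E W c0 := hc0.1.1
  obtain ⟨H0, hH0M, haH0, hffle, -, hg⟩ := exists_max_min (E := E) haL' (hO.loop haW)
  have hff : ff E H0 = 2 := by
    have := hC.two' hss H0 hH0M ⟨a, haH0⟩
    omega
  have hnotH0 : ∀ {y : V}, y ∈ L → y ∉ H0 := fun hy h => (Finset.mem_sdiff.1 (hH0M h)).2 hy
  have hxa : (a, x) ∈ E := hs.ax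
  have hxo : (x, o) ∈ E := (mem_outN.1 (Finset.mem_sdiff.1 hom).1).2
  have hxu : (x, u) ∈ E := (mem_outN.1 (Finset.mem_sdiff.1 hup).1).2
  have hau : (a, u) ∈ E := by
    have : a ∈ inN E W u := by rw [hs.inu]; simp
    exact (mem_inN.1 this).2
  have huvE : (u, v) ∈ E := by
    have : v ∈ outN E W u := by rw [hs.outu]; simp
    exact (mem_outN.1 this).2
  have hvxE : (v, x) ∈ E := by
    have : x ∈ outN E W v := by rw [hs.outv]; simp
    exact (mem_outN.1 this).2
  have hvaE : (v, a) ∈ E := by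
    have : a ∈ outN E W v := by rw [hs.outv]; simp
    exact (mem_outN.1 this).2
  have hoH0 : o ∉ H0 := by
    intro hoH0
    have hx1 : x ∉ H0 := hnotH0 hxL
    have e1 := ff_insert (E := E) hx1 (hO.loop hxW)
    have d1 := SH8_deg_two haH0 hxa hoH0 hxo
    have hu1 : u ∉ insert x H0 := by
      rw [Finset.mem_insert, not_or]; exact ⟨hux, hnotH0 huL'⟩
    have e2 := ff_insert (E := E) hu1 (hO.loop huW)
    have d2 := SH8_deg_two' (E := E) (H := insert x H0) (z := u) (p := x) (q := a) (Ne.symm hax)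
      (Finset.mem_insert_self _ _) hxu (Finset.mem_insert_of_mem haH0) hau
    have hv1 : v ∉ insert u (insert x H0) := by
      rw [Finset.mem_insert, Finset.mem_insert, not_or, not_or]
      exact ⟨Ne.symm huv, hvx, hnotH0 hvL'⟩
    have e3 := ff_insert (E := E) hv1 (hO.loop hvW)
    have d3 := SH8_deg_three (E := E) (H := insert u (insert x H0)) (z := v) (p := u) (q := x) (r := a) (Ne.symm hax)
      (Finset.mem_insert_self _ _) huvE (Finset.mem_insert_of_mem (Finset.mem_insert_self _ _)) hvxE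
      (Finset.mem_insert_of_mem (Finset.mem_insert_of_mem haH0)) hvaE
    have hsub : insert v (insert u (insert x H0)) ⊆ W := by
      intro y hy
      rw [Finset.mem_insert, Finset.mem_insert, Finset.mem_insert] at hy
      rcases hy with rfl | rfl | rfl | h
      · exact hvW
      · exact huW
      · exact hxW
      · exact (Finset.mem_sdiff.1 (hH0M h)).1
    have hbW : b ∈ W := (mem_inN.1 hbx).1
    have hbne : b ∉ insert v (insert u (insert x H0)) := by
      rw [Finset.mem_insert, Finset.mem_insert, Finset.mem_insert]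
      rintro (h | h | h | h)
      · exact hs.hvb h.symm
      · exact hub h.symm
      · exact hxT (h ▸ hbT)
      · exact hnotH0 (hTL b hbT) h
    have h2 := hC.two _ hsub ⟨v, Finset.mem_insert_self _ _⟩ (fun h => hbne (h ▸ hbW))
    have d1' : (2 : ℤ) ≤ (deg E H0 x : ℤ) := by exact_mod_cast d1
    have d2' : (2 : ℤ) ≤ (deg E (insert x H0) u : ℤ) := by exact_mod_cast d2
    have d3' : (3 : ℤ) ≤ (deg E (insert u (insert x H0)) v : ℤ) := by exact_mod_cast d3
    omega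
  have hoM : o ∈ (W \ L) \ H0 := Finset.mem_sdiff.2 ⟨hoL', hoH0⟩
  refine ⟨H0, hH0M, haH0, hoM, hff, hg, ?_⟩
  have hres := princPX (E' := E) hC hLW ⟨x, hxL⟩ (hC.good.sub Finset.sdiff_subset) hH0M hg hK hc0
    (hval0.anti (Finset.Subset.refl E) Finset.sdiff_subset) ?_ hoM true
  · obtain ⟨c, hcK, hcL, -, -, hco⟩ := hres
    exact ⟨c, hcK, fun t ht => by rw [hcL t (hTL t ht)]; exact hT0 t ht, hco⟩
  · intro c hcL hcH hcv
    rw [hs.val_ext hC hm hp huo (by rw [hcL x hxL]; exact hx0) (fun t ht => by rw [hcL t (hTL t ht)]; exact hT0 t ht)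
      (by rw [hcL u huL']; exact hu0) (by rw [hcL v hvL']; exact hv0)]
    refine ⟨hcv, ?_⟩
    intro _ hca
    rw [hcH a haH0, ha0] at hca
    exact absurd hca (by simp)

end Mix
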