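import Pool.Agent.Lib.MP_784a73_co.Mix.SV0b

/-! # MP_784a73_co, row S-K1 -/

namespace Mix

open Finset Relation

set_option linter.unusedSectionVars false

variable {V : Type*} [DecidableEq V] [Fintype V] {E : Finset (V × V)} {W : Finset V} {x : V}

theorem mem_Op {w : V} : w ∈ Op E W x ↔ w ∈ W \ Lx E W x ∧ ∃ v, TP E W x v ∧ w ∈ outN E W v := by
  classical
  unfold Op
  rw [Finset.mem_filter]
  constructor
  · rintro ⟨h1, v, hv, hvw⟩
    refine ⟨h1, v, hv, ?_⟩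
    rw [outN, Finset.mem_filter]
    exact ⟨(Finset.mem_sdiff.1 h1).1, hvw⟩
  · rintro ⟨h1, v, hv, hvw⟩
    rw [outN, Finset.mem_filter] at hvw
    exact ⟨h1, v, hv, hvw.2⟩

theorem mem_Om {y : V} : y ∈ Om E W x ↔ y ∈ W \ Lx E W x ∧ ∃ v, TM E W x v ∧ y ∈ inN E W v := by
  classical
  unfold Om
  rw [Finset.mem_filter]
  constructor
  · rintro ⟨h1, v, hv, hvw⟩
    refine ⟨h1, v, hv, ?_⟩
    rw [inN, Finset.mem_filter]
    exact ⟨(Finset.mem_sdiff.1 h1).1, hvw⟩
  · rintro ⟨h1, v, hv, hvw⟩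
    rw [inN, Finset.mem_filter] at hvw
    exact ⟨h1, v, hv, hvw.2⟩

theorem Op_rev : Op (rev E) W x = Om E W x := by
  ext w
  rw [mem_Op, mem_Om, Lx_rev]
  refine and_congr_right (fun _ => exists_congr (fun v => ?_))
  rw [TP_rev, outN_rev]

theorem Om_rev : Om (rev E) W x = Op E W x := by
  ext w
  rw [mem_Om, mem_Op, Lx_rev]
  refine and_congr_right (fun _ => exists_congr (fun v => ?_))
  rw [TM_rev, inN_rev]

/-- if all vertices of `T(x)` are DT, then the touched vertices are in `E⁻`, `E⁺` -/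
theorem CE.Op_sub (hC : CE E W) (hDT : AllDT E W x) : Op E W x ⊆ Em E W x ∧ Om E W x ⊆ Ep E W x := by
  constructor
  · intro w hw
    rw [mem_Op] at hw
    obtain ⟨h1, v, hv, hvw⟩ := hw
    rw [Finset.mem_sdiff] at h1
    rw [Em, Finset.mem_sdiff]
    refine ⟨?_, fun ht => h1.2 ?_⟩
    · rw [inN, Finset.mem_filter]
      exact ⟨h1.1, hDT.1 v hv w hvw⟩
    · rw [Lx]
      exact Finset.mem_insert_of_mem ht
  · intro w hw
    rw [mem_Om] at hw
    obtain ⟨h1, v, hv, hvw⟩ := hw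
    rw [Finset.mem_sdiff] at h1
    rw [Ep, Finset.mem_sdiff]
    refine ⟨?_, fun ht => h1.2 ?_⟩
    · rw [outN, Finset.mem_filter]
      exact ⟨h1.1, hDT.2 v hv w hvw⟩
    · rw [Lx]
      exact Finset.mem_insert_of_mem ht

end Mix
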