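import Pool.Agent.Lib.MP_784a73_co.Mix.SK1

/-! # MP_784a73_co, row S-K2 -/

namespace Mix

open Finset Relation

set_option linter.unusedSectionVars false

variable {V : Type*} [DecidableEq V] [Fintype V] {E : Finset (V × V)} {W : Finset V} {x : V}

theorem SK2_deg {R : Finset V} (hR : R ⊆ W \ Tset E W x) (hx : x ∈ R)
    (hO : Op E W x ⊆ R) (hI : Om E W x ⊆ R) {z : V} (hz : z ∈ Tset E W x) :
    deg E (Tset E W x ∪ R) z = 3 := by
  have hsub : Tset E W x ∪ R ⊆ W :=
    Finset.union_subset Tset_sub (hR.trans Finset.sdiff_subset)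
  have hL : ∀ w ∈ W, (w ∉ Lx E W x → w ∈ R) → w ∈ Tset E W x ∪ R := by
    intro w _ h
    by_cases hw : w ∈ Lx E W x
    · rcases Finset.mem_insert.1 hw with h1 | h1
      · rw [h1]
        exact Finset.mem_union_right _ hx
      · exact Finset.mem_union_left _ h1
    · exact Finset.mem_union_right _ (h hw)
  rcases mem_Tset.1 hz with h | h
  · have h1 : inN E (Tset E W x ∪ R) z = inN E W z := by
      ext p
      rw [mem_inN, mem_inN]
      constructor
      · rintro ⟨hp, hpz⟩
        exact ⟨hsub hp, hpz⟩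
      · rintro ⟨hp, hpz⟩
        have := h.in_eq hp hpz
        rw [this]
        exact ⟨Finset.mem_union_right _ hx, h.arc.1⟩
    have h2 : outN E (Tset E W x ∪ R) z = outN E W z := by
      ext p
      rw [mem_outN, mem_outN]
      constructor
      · rintro ⟨hp, hpz⟩
        exact ⟨hsub hp, hpz⟩
      · rintro ⟨hp, hpz⟩
        refine ⟨hL p hp (fun hpL => hO ?_), hpz⟩
        exact mem_Op.2 ⟨Finset.mem_sdiff.2 ⟨hp, hpL⟩, z, h, mem_outN.2 ⟨hp, hpz⟩⟩
    show (inN E (Tset E W x ∪ R) z).card + (outN E (Tset E W x ∪ R) z).card = 3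
    rw [h1, h2]
    exact h.deg
  · have h1 : outN E (Tset E W x ∪ R) z = outN E W z := by
      ext p
      rw [mem_outN, mem_outN]
      constructor
      · rintro ⟨hp, hpz⟩
        exact ⟨hsub hp, hpz⟩
      · rintro ⟨hp, hpz⟩
        have := h.out_eq hp hpz
        rw [this]
        exact ⟨Finset.mem_union_right _ hx, h.arc.1⟩
    have h2 : inN E (Tset E W x ∪ R) z = inN E W z := by
      ext p
      rw [mem_inN, mem_inN]
      constructor
      · rintro ⟨hp, hpz⟩
        exact ⟨hsub hp, hpz⟩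
      · rintro ⟨hp, hpz⟩
        refine ⟨hL p hp (fun hpL => hI ?_), hpz⟩
        exact mem_Om.2 ⟨Finset.mem_sdiff.2 ⟨hp, hpL⟩, z, h, mem_inN.2 ⟨hp, hpz⟩⟩
    show (inN E (Tset E W x ∪ R) z).card + (outN E (Tset E W x ∪ R) z).card = 3
    rw [h1, h2]
    exact h.deg

/-- `κ = ff T - |T|`; if `R ⊆ W \ T(x)` contains `x` and all outside vertices touched by `T(x)`, then `ff (R ∪ T) = ff R - κ`.
(`sum_deg_pin` for `Y = T(x)`, `P = R`: all `z ∈ T(x)` have all their three neighbours in `T ∪ R`, so `|T| = ff T + ff (T ∪ R) - ff R`.) -/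
theorem CE.ff_add_T (hC : CE E W) {R : Finset V} (hR : R ⊆ W \ Tset E W x) (hx : x ∈ R)
    (hO : Op E W x ⊆ R) (hI : Om E W x ⊆ R) :
    ff E (Tset E W x ∪ R) = ff E R - (ff E (Tset E W x) - ((Tset E W x).card : ℤ)) := by
  have hd : Disjoint (Tset E W x) R := by
    rw [Finset.disjoint_left]
    intro a ha haR
    exact (Finset.mem_sdiff.1 (hR haR)).2 ha
  have hs := sum_deg_pin (E := E) hd (fun z hz => hC.good.1.loop (Tset_sub hz))
  have hs2 : ∑ z ∈ Tset E W x, (4 - (deg E (Tset E W x ∪ R) z : ℤ)) =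
      ((Tset E W x).card : ℤ) := by
    rw [Finset.sum_congr rfl (g := fun _ => (1 : ℤ)) (fun z hz => by
      rw [SK2_deg hR hx hO hI hz]
      norm_num)]
    simp
  rw [hs2] at hs
  linarith

end Mix
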