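import Pool.Agent.Lib.MP_784a73_co.Mix.S4Defs

/-! # MP_784a73_co, row S-V0 -/

namespace Mix

open Finset Relation

set_option linter.unusedSectionVars false

variable {V : Type*} [DecidableEq V] [Fintype V] {E : Finset (V × V)} {W : Finset V} {x v w : V}

theorem TP.arc (h : TP E W x v) : (x, v) ∈ E ∧ x ∈ W ∧ v ∈ W := by
  have hx : x ∈ inN E W v := by
    rw [h.2.1]
    exact Finset.mem_singleton_self x
  rw [mem_inN] at hx
  exact ⟨hx.2, hx.1, h.1⟩

theorem TM.arc (h : TM E W x v) : (v, x) ∈ E ∧ x ∈ W ∧ v ∈ W := by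
  have hx : x ∈ outN E W v := by
    rw [h.2.1]
    exact Finset.mem_singleton_self x
  rw [mem_outN] at hx
  exact ⟨hx.2, hx.1, h.1⟩

theorem TP.in_eq (h : TP E W x v) {p : V} (hp : p ∈ W) (hpv : (p, v) ∈ E) : p = x := by
  have h1 : p ∈ inN E W v := mem_inN.2 ⟨hp, hpv⟩
  rw [h.2.1] at h1
  exact Finset.mem_singleton.1 h1

theorem TM.out_eq (h : TM E W x v) {p : V} (hp : p ∈ W) (hpv : (v, p) ∈ E) : p = x := by
  have h1 : p ∈ outN E W v := mem_outN.2 ⟨hp, hpv⟩
  rw [h.2.1] at h1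
  exact Finset.mem_singleton.1 h1

theorem TP.not_TM (h : TP E W x v) {y : V} : ¬ TM E W y v := by
  intro h'
  have h1 := h'.2.2
  rw [h.2.1, Finset.card_singleton] at h1
  omega

theorem TP.ne (hO : Ori E W) (h : TP E W x v) : v ≠ x := by
  rintro rfl
  exact hO.loop h.1 h.arc.1

theorem TM.ne (hO : Ori E W) (h : TM E W x v) : v ≠ x := by
  rintro rfl
  exact hO.loop h.1 h.arc.1

theorem TP.deg (h : TP E W x v) : deg E W v = 3 := by
  show (inN E W v).card + (outN E W v).card = 3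
  rw [h.2.1, h.2.2, Finset.card_singleton]

theorem TM.deg (h : TM E W x v) : deg E W v = 3 := by
  show (inN E W v).card + (outN E W v).card = 3
  rw [h.2.1, h.2.2, Finset.card_singleton]

theorem not_mem_Tset (hO : Ori E W) : x ∉ Tset E W x := by
  intro h
  rcases mem_Tset.1 h with h | h
  · exact h.ne hO rfl
  · exact h.ne hO rfl

theorem Tset_sub : Tset E W x ⊆ W := by
  intro v hv
  rcases mem_Tset.1 hv with h | h
  · exact h.1
  · exact h.1

theorem Lx_sub (hx : x ∈ W) : Lx E W x ⊆ W := by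
  unfold Lx
  exact Finset.insert_subset hx Tset_sub

theorem Lx_rev : Lx (rev E) W x = Lx E W x := by
  unfold Lx
  rw [Tset_rev]

theorem Em_rev : Em (rev E) W x = Ep E W x := by
  unfold Em Ep
  rw [Tset_rev, inN_rev]

theorem Ep_rev : Ep (rev E) W x = Em E W x := by
  unfold Em Ep
  rw [Tset_rev, outN_rev]

theorem AllDT_rev : AllDT (rev E) W x ↔ AllDT E W x := by
  unfold AllDT
  simp only [TP_rev, TM_rev, inN_rev, outN_rev, mem_rev]
  exact and_comm

end Mix
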