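import Pool.Agent.Lib.MP_784a73_co.Mix.SV0

/-! # MP_784a73_co, row S-V0b -/

namespace Mix

open Finset Relation

set_option linter.unusedSectionVars false

variable {V : Type*} [DecidableEq V] [Fintype V] {E : Finset (V × V)} {W : Finset V} {x v w : V}

/-- out-neighbours of a vertex `v` with `x → v` are in `E⁻`, or in `T⁻(x)`, or not adjacent to `x` -/
theorem CE.out_cases (hC : CE E W) (hv : TP E W x v) (hw : w ∈ outN E W v) :
    w ≠ x ∧ (x, w) ∉ E ∧ (TM E W x w ∨ w ∈ Em E W x ∨ (w ∉ Lx E W x ∧ (w, x) ∉ E)) := by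
  have hO : Ori E W := hC.good.1
  obtain ⟨hxv, hx, hvW⟩ := hv.arc
  obtain ⟨hwW, hvw⟩ := mem_outN.1 hw
  have hne : w ≠ x := by
    rintro rfl
    exact hO _ hx _ hvW hxv hvw
  have hxw : (x, w) ∉ E := by
    by_cases hwx : (w, x) ∈ E
    · exact hO w hwW x hx hwx
    · exact (hC.nonadj hv hw hwx).1
  refine ⟨hne, hxw, ?_⟩
  by_cases hwx : (w, x) ∈ E
  · by_cases hT : w ∈ Tset E W x
    · rcases mem_Tset.1 hT with h | h
      · exact absurd h.arc.1 hxw
      · exact Or.inl h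
    · refine Or.inr (Or.inl ?_)
      rw [Em, mem_sdiff, mem_inN]
      exact ⟨⟨hwW, hwx⟩, hT⟩
  · refine Or.inr (Or.inr ⟨?_, hwx⟩)
    rw [Lx, mem_insert, not_or]
    refine ⟨hne, fun hT => ?_⟩
    rcases mem_Tset.1 hT with h | h
    · exact hxw h.arc.1
    · exact hwx h.arc.1

theorem CE.in_cases (hC : CE E W) (hv : TM E W x v) (hw : w ∈ inN E W v) :
    w ≠ x ∧ (w, x) ∉ E ∧ (TP E W x w ∨ w ∈ Ep E W x ∨ (w ∉ Lx E W x ∧ (x, w) ∉ E)) := by
  have hw' : w ∈ outN (Mix.rev E) W v := by rw [outN_rev]; exact hw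
  have h := hC.rev.out_cases (TP_rev.2 hv) hw'
  rw [TM_rev, Em_rev, Lx_rev, mem_rev, mem_rev] at h
  exact h

theorem Em_disj_Ep (hO : Ori E W) (hx : x ∈ W) : Disjoint (Em E W x) (Ep E W x) := by
  rw [Finset.disjoint_left]
  intro p hp hp'
  rw [Em, mem_sdiff, mem_inN] at hp
  rw [Ep, mem_sdiff, mem_outN] at hp'
  exact hO p hp.1.1 x hx hp.1.2 hp'.1.2

theorem Em_sub (hO : Ori E W) (hx : x ∈ W) : Em E W x ⊆ W \ Lx E W x := by
  intro p hp
  rw [Em, mem_sdiff, mem_inN] at hp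
  rw [mem_sdiff, Lx, mem_insert, not_or]
  refine ⟨hp.1.1, ?_, hp.2⟩
  rintro rfl
  exact hO.loop hx hp.1.2

theorem Ep_sub (hO : Ori E W) (hx : x ∈ W) : Ep E W x ⊆ W \ Lx E W x := by
  intro p hp
  rw [Ep, mem_sdiff, mem_outN] at hp
  rw [mem_sdiff, Lx, mem_insert, not_or]
  refine ⟨hp.1.1, ?_, hp.2⟩
  rintro rfl
  exact hO.loop hx hp.1.2

/-- `d(x) = |E⁻| + |E⁺| + |T(x)|` -/
theorem deg_x (hO : Ori E W) (hx : x ∈ W) :
    deg E W x = (Em E W x).card + (Ep E W x).card + (Tset E W x).card := by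
  have h1 : (inN E W x).card = (inN E W x ∩ Tset E W x).card + (Em E W x).card := by
    rw [Em, Finset.card_inter_add_card_sdiff]
  have h2 : (outN E W x).card = (outN E W x ∩ Tset E W x).card + (Ep E W x).card := by
    rw [Ep, Finset.card_inter_add_card_sdiff]
  have h3 : Tset E W x = (inN E W x ∩ Tset E W x) ∪ (outN E W x ∩ Tset E W x) := by
    ext p
    rw [mem_union, mem_inter, mem_inter, mem_inN, mem_outN]
    constructor
    · intro hp
      rcases mem_Tset.1 hp with h | h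
      · exact Or.inr ⟨⟨h.arc.2.2, h.arc.1⟩, hp⟩
      · exact Or.inl ⟨⟨h.arc.2.2, h.arc.1⟩, hp⟩
    · rintro (h | h)
      · exact h.2
      · exact h.2
  have h4 : Disjoint (inN E W x ∩ Tset E W x) (outN E W x ∩ Tset E W x) := by
    rw [Finset.disjoint_left]
    intro p hp hp'
    rw [mem_inter, mem_inN] at hp
    rw [mem_inter, mem_outN] at hp'
    exact hO p hp.1.1 x hx hp.1.2 hp'.1.2
  have h5 : (Tset E W x).card = (inN E W x ∩ Tset E W x).card + (outN E W x ∩ Tset E W x).card := by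
    rw [← Finset.card_union_of_disjoint h4, ← h3]
  rw [deg, h1, h2, h5]
  omega

end Mix
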