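import Pool.Agent.Lib.MP_784a73_co.Mix.SV1

/-! # MP_784a73_co, row S-V2 -/

namespace Mix

open Finset Relation

set_option linter.unusedSectionVars false

variable {V : Type*} [DecidableEq V] [Fintype V] {E : Finset (V × V)} {W : Finset V} {x : V}

/-- if for every `x`-flip on `W \ T(x)` the two `fill`s are joined, then `(E, W)` is connected, contradiction. `(E, W \ T(x))` is connected (`conn_ssub`),
`Conn.induct` on it for `P c := Reach (fill c₀) (fill c)`; flips of `z ≠ x`: `fill_flip` (for `z ∈ T(x)` too: `reach_same`); then `reach_fill` at both ends. -/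
theorem CE.conn_lift (hC : CE E W) (hT : (Tset E W x).Nonempty)
    (hgood : ∀ c, Val E (W \ Tset E W x) c → Val E (W \ Tset E W x) (flip c x) →
      Reach E W (fill E W x c) (fill E W x (flip c x))) : False := by
  have hO : Ori E W := hC.good.1
  have hss : W \ Tset E W x ⊂ W := by
    obtain ⟨v, hv⟩ := hT
    refine Finset.ssubset_iff_subset_ne.2 ⟨Finset.sdiff_subset, fun h => ?_⟩
    have hvW : v ∈ W := Tset_sub hv
    rw [← h] at hvW
    exact (Finset.mem_sdiff.1 hvW).2 hv
  have hconn : Conn E (W \ Tset E W x) := hC.conn_ssub hss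
  refine hC.disc fun c c' hc hc' => ?_
  have hcW : Val E (W \ Tset E W x) c := Val.anti (Finset.Subset.refl E) Finset.sdiff_subset hc
  have hcW' : Val E (W \ Tset E W x) c' := Val.anti (Finset.Subset.refl E) Finset.sdiff_subset hc'
  have key : Reach E W (fill E W x c) (fill E W x c') := by
    refine hconn.induct (P := fun d => Reach E W (fill E W x c) (fill E W x d)) hcW
      ReflTransGen.refl (fun d hd hP z hz => ?_) c' hcW'
    by_cases hzx : z = x
    · subst hzx
      exact hP.trans (hgood d hd hz)
    · exact hP.trans (fill_flip hO hzx hd hz)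
  exact (reach_fill (x := x) hO hc).trans (key.trans (reach_fill (x := x) hO hc').symm)

end Mix
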