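import Pool.Agent.Lib.MP_784a73_co.Mix.Nb

/-! # A vertex `v` of degree 3 with an apex `u` of degree 4: notation (row U0: elementary facts) -/

namespace Mix

open Finset Relation

set_option linter.unusedSectionVars false

variable {V : Type*} [DecidableEq V] [Fintype V]

/-- `N⁻(v) = {u}`, `N⁻(u) = {w, a}`, `N⁺(u) = {v, b}`, `v` has two out-neighbours, one of them is `w` -/
structure Four (E : Finset (V × V)) (W : Finset V) (u v b w a : V) : Prop where
  tp : TP E W u v
  inu : inN E W u = {w, a}
  outu : outN E W u = {v, b}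
  hwa : w ≠ a
  hvb : v ≠ b
  vw : (v, w) ∈ E

/-- all consequences used later: membership, distinctness, arcs -/
structure FourFacts (E : Finset (V × V)) (W : Finset V) (u v b w a : V) : Prop where
  uW : u ∈ W
  vW : v ∈ W
  bW : b ∈ W
  wW : w ∈ W
  aW : a ∈ W
  huv : u ≠ v
  hub : u ≠ b
  huw : u ≠ w
  hua : u ≠ a
  hvb : v ≠ b
  hvw : v ≠ w
  hva : v ≠ a
  hbw : b ≠ w
  hba : b ≠ a
  hwa : w ≠ a
  uv : (u, v) ∈ E
  ub : (u, b) ∈ E
  wu : (w, u) ∈ E
  au : (a, u) ∈ E
  vw : (v, w) ∈ E
  /-- the neighbours -/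
  inv : ∀ p ∈ W, (p, v) ∈ E → p = u
  inu : ∀ p ∈ W, (p, u) ∈ E → p = w ∨ p = a
  outu : ∀ p ∈ W, (u, p) ∈ E → p = v ∨ p = b
  /-- a set containing `b, w, a` but neither `u` nor `v` has `f ≥ 3` -/
  three : ∀ Y ⊆ W, u ∉ Y → v ∉ Y → b ∈ Y → w ∈ Y → a ∈ Y → 3 ≤ ff E Y

/-- ROW U0 (`three`: `CE.ff_three` with `u`: `deg E Y u ≥ 3`, `insert u Y ≠ W` because of `v`) -/
theorem Four.facts {E : Finset (V × V)} {W : Finset V} (h : CE E W) {u v b w a : V} (q : Four E W u v b w a) :
    FourFacts E W u v b w a := by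
  have hO : Ori E W := h.good.1
  have hvW : v ∈ W := q.tp.1
  have hu : u ∈ W ∧ (u, v) ∈ E := by
    have : u ∈ inN E W v := by rw [q.tp.2.1]; exact Finset.mem_singleton_self u
    exact mem_inN.1 this
  have hw : w ∈ W ∧ (w, u) ∈ E := by
    have : w ∈ inN E W u := by rw [q.inu]; simp
    exact mem_inN.1 this
  have ha : a ∈ W ∧ (a, u) ∈ E := by
    have : a ∈ inN E W u := by rw [q.inu]; simp
    exact mem_inN.1 this
  have hb : b ∈ W ∧ (u, b) ∈ E := by
    have : b ∈ outN E W u := by rw [q.outu]; simp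
    exact mem_outN.1 this
  have huv : u ≠ v := by
    rintro rfl
    exact hO.loop hvW hu.2
  have hvb : v ≠ b := q.hvb
  refine
    { uW := hu.1
      vW := hvW
      bW := hb.1
      wW := hw.1
      aW := ha.1
      huv := huv
      hub := ?_
      huw := ?_
      hua := ?_
      hvb := hvb
      hvw := ?_
      hva := ?_
      hbw := ?_
      hba := ?_
      hwa := q.hwa
      uv := hu.2
      ub := hb.2
      wu := hw.2
      au := ha.2
      vw := q.vw
      inv := ?_
      inu := ?_
      outu := ?_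
      three := ?_ }
  · rintro rfl
    exact hO.loop hu.1 hb.2
  · rintro rfl
    exact hO.loop hu.1 hw.2
  · rintro rfl
    exact hO.loop hu.1 ha.2
  · rintro rfl
    exact hO.loop hvW q.vw
  · rintro rfl
    exact hO v hvW u hu.1 ha.2 hu.2
  · rintro rfl
    exact hO b hb.1 u hu.1 hw.2 hb.2
  · rintro rfl
    exact hO b hb.1 u hu.1 ha.2 hb.2
  · intro p hp hpv
    have : p ∈ inN E W v := mem_inN.2 ⟨hp, hpv⟩
    rw [q.tp.2.1] at this
    exact Finset.mem_singleton.1 this
  · intro p hp hpu
    have : p ∈ inN E W u := mem_inN.2 ⟨hp, hpu⟩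
    rw [q.inu] at this
    simpa using this
  · intro p hp hup
    have : p ∈ outN E W u := mem_outN.2 ⟨hp, hup⟩
    rw [q.outu] at this
    simpa using this
  · intro Y hY huY hvY hbY hwY haY
    refine CE.ff_three h huY (Finset.insert_subset hu.1 hY) ?_ ?_
    · intro he
      have : v ∈ insert u Y := by rw [he]; exact hvW
      rcases Finset.mem_insert.1 this with h1 | h1
      · exact huv h1.symm
      · exact hvY h1
    · have h1 : ({w, a} : Finset V) ⊆ inN E Y u := by
        intro p hp
        simp only [Finset.mem_insert, Finset.mem_singleton] at hp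
        rcases hp with rfl | rfl
        · exact mem_inN.2 ⟨hwY, hw.2⟩
        · exact mem_inN.2 ⟨haY, ha.2⟩
      have h2 : ({b} : Finset V) ⊆ outN E Y u := by
        intro p hp
        rw [Finset.mem_singleton] at hp
        subst hp
        exact mem_outN.2 ⟨hbY, hb.2⟩
      have h3 := Finset.card_le_card h1
      have h4 := Finset.card_le_card h2
      rw [Finset.card_pair q.hwa] at h3
      rw [Finset.card_singleton] at h4
      unfold deg
      omega

/-- ROW U0. `L = {u, v}`: if `c v = !c u` then `c` is valid on `W` iff it is valid on `W \ {u, v}` and there is no mono path of colour `c u` from `b` to `w` or `a` in `W \ {u, v}`.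
(`v` is dead: `val_dead`, `val_insert` for `u`.) -/
theorem Four.val_iff {E : Finset (V × V)} {W : Finset V} (h : CE E W) {u v b w a : V} (q : Four E W u v b w a)
    {c : V → Bool} (hc : c v = !c u) :
    Val E W c ↔ Val E (W \ {u, v}) c ∧ (c b = c u → c w = c u → ¬ ReflTransGen (Mono E (W \ {u, v}) c) b w) ∧
      (c b = c u → c a = c u → ¬ ReflTransGen (Mono E (W \ {u, v}) c) b a) := by
  have F := q.facts h
  have hO : Ori E W := h.good.1
  have hdead : Dead E W c v := by
    refine Or.inl fun p hp hpv => ?_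
    rw [F.inv p hp hpv, hc]
    cases c u <;> simp
  have h1 : Val E W c ↔ Val E (W \ {v}) c :=
    val_dead (T := {v}) (fun x hx => by
      rw [Finset.mem_singleton] at hx
      subst hx
      exact hdead)
  have hWe : W \ {v} = insert u (W \ {u, v}) := by
    ext x
    simp only [Finset.mem_sdiff, Finset.mem_singleton, Finset.mem_insert, not_or]
    constructor
    · rintro ⟨hx, hxv⟩
      by_cases hxu : x = u
      · exact Or.inl hxu
      · exact Or.inr ⟨hx, hxu, hxv⟩
    · rintro (rfl | ⟨hx, _, hxv⟩)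
      · exact ⟨F.uW, F.huv⟩
      · exact ⟨hx, hxv⟩
  have hmem : ∀ {x}, x ∈ W → x ≠ u → x ≠ v → x ∈ W \ {u, v} := by
    intro x hx hxu hxv
    simp only [Finset.mem_sdiff, Finset.mem_insert, Finset.mem_singleton, not_or]
    exact ⟨hx, hxu, hxv⟩
  have hbW : b ∈ W \ {u, v} := hmem F.bW F.hub.symm F.hvb.symm
  have hwW : w ∈ W \ {u, v} := hmem F.wW F.huw.symm F.hvw.symm
  have haW : a ∈ W \ {u, v} := hmem F.aW F.hua.symm F.hva.symm
  rw [h1, hWe, val_insert (by simp) (hO.loop F.uW)]
  refine and_congr_right fun _ => ?_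
  constructor
  · intro H
    exact ⟨fun hb hw => H b hbW w hwW F.ub F.wu hb hw, fun hb ha => H b hbW a haW F.ub F.au hb ha⟩
  · rintro ⟨H1, H2⟩ p hp r hr hup hru hcp hcr
    rw [Finset.mem_sdiff] at hp hr
    have hpb : p = b := by
      rcases F.outu p hp.1 hup with h | h
      · exact absurd (by simp [h]) hp.2
      · exact h
    subst hpb
    rcases F.inu r hr.1 hru with h | h
    · subst h
      exact H1 hcp hcr
    · subst h
      exact H2 hcp hcr

end Mix
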