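import Pool.Agent.Lib.MP_784a73_co.Mix.Nb

/-! # ROW UA: in a closed set with a frozen vertex there is a bad flip

`W' := W.erase v`, `Conn E W'` (`h.conn_ssub`), `ĉ := Function.update c v (!c x)` (valid on `W` if `c` is valid on `W'`: `v` is dead).
Suppose the conclusion fails.  Claim: `P c := ĉ ∈ K` holds for all `c` valid on `W'` (`Conn.induct`, start: any `c₀ ∈ K`: `ĉ₀` is `c₀` or `flip c₀ v`).
Step: `c`, `flip c z` valid on `W'`, `ĉ ∈ K`.  `z ≠ x`: `(flip c z)^ = flip ĉ z` (or `ĉ` if `z = v`; `Closed.agree` if `z ∉ W`) is valid, so in `K`.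
`z = x`: by assumption (for `ĉ ∈ K`: `flip ĉ x` is valid on `W'`) `c w₁ = c w₂ =: d`.  `ĉ → update c v (!d) → update (flip c x) v (!d) → (flip c x)^` : all valid (`v` is dead as it has no mono out-arc if its colour
is `!d`), each step a flip or nothing, so all in `K`.
Then `(neg c₀)^ ∈ K`, so `c₀ p = a` and `!c₀ p = a` (`p ≠ v`): contradiction. -/

namespace Mix

open Finset Relation

set_option linter.unusedSectionVars false

variable {V : Type*} [DecidableEq V] [Fintype V]

private theorem UA_noin {E : Finset (V × V)} {W : Finset V} {v : V} {d : V → Bool}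
    (hd : Val E (W.erase v) d) (hno : ∀ q, ¬ Mono E W d q v) : Val E W d := by
  refine val_of_no_back (fun p q hpq hqp => ?_)
  -- no path in `W` can enter `v`
  have key : ∀ {p q : V}, p ≠ v → ReflTransGen (Mono E W d) p q →
      ReflTransGen (Mono E (W.erase v) d) p q := by
    intro p q hp hpq
    rcases rtg_erase_or hpq hp with h | ⟨r, _, _, hr, _⟩
    · exact h
    · exact absurd hr (hno r)
  by_cases hqv : q = v
  · subst hqv; exact hno p hpq
  · have h1 := key hqv hqp
    by_cases hpv : p = v
    · subst hpv
      rcases ReflTransGen.cases_tail hqp with h | ⟨y, _, hy⟩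
      · exact hqv h.symm
      · exact hno y hy
    · exact hd.no_back ⟨hpq.1, Finset.mem_erase.2 ⟨hpv, hpq.2.1⟩,
        Finset.mem_erase.2 ⟨hqv, hpq.2.2.1⟩, hpq.2.2.2⟩ h1

private theorem UA_noout {E : Finset (V × V)} {W : Finset V} {v : V} {d : V → Bool}
    (hd : Val E (W.erase v) d) (hno : ∀ q, ¬ Mono E W d v q) : Val E W d := by
  refine val_of_no_back (fun p q hpq hqp => ?_)
  have hpv : p ≠ v := fun h => hno q (h ▸ hpq)
  have hqv : q ≠ v := by
    rintro rfl
    rcases ReflTransGen.cases_head hqp with h | ⟨y, hy, _⟩
    · exact hpv h.symm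
    · exact hno y hy
  rcases rtg_erase_or hqp hqv with h | ⟨r, _, _, hr, hvp⟩
  · exact hd.no_back ⟨hpq.1, Finset.mem_erase.2 ⟨hpv, hpq.2.1⟩,
        Finset.mem_erase.2 ⟨hqv, hpq.2.2.1⟩, hpq.2.2.2⟩ h
  · rcases ReflTransGen.cases_head hvp with h | ⟨y, hy, _⟩
    · exact hpv h.symm
    · exact hno y hy

theorem CE.exists_badflip {E : Finset (V × V)} {W : Finset V} (h : CE E W) {x v w₁ w₂ : V} (hv : TP E W x v)
    (hout : outN E W v = {w₁, w₂}) {K : Set (V → Bool)} (hK : Closed E W K) (hne : ∃ c, c ∈ K)
    {p : V} (hp : p ∈ W) (hpv : p ≠ v) {a : Bool} (hfr : ∀ c ∈ K, c p = a) :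
    ∃ c ∈ K, c v = (!c x) ∧ Val E (W.erase v) (flip c x) ∧ c w₁ ≠ c w₂ := by
  by_contra hcon
  push Not at hcon
  obtain ⟨hvW, hin, _⟩ := hv
  have hx : x ∈ W ∧ (x, v) ∈ E := by
    have : x ∈ inN E W v := by rw [hin]; exact Finset.mem_singleton_self x
    exact mem_inN.1 this
  have hw1 : w₁ ∈ W ∧ (v, w₁) ∈ E := by
    have : w₁ ∈ outN E W v := by rw [hout]; simp
    exact mem_outN.1 this
  have hw2 : w₂ ∈ W ∧ (v, w₂) ∈ E := by
    have : w₂ ∈ outN E W v := by rw [hout]; simp
    exact mem_outN.1 this
  have hO : Ori E W := h.good.1
  have hloop : (v, v) ∉ E := hO.loop hvW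
  have hxv : x ≠ v := by rintro rfl; exact hloop hx.2
  have hw1v : w₁ ≠ v := by rintro rfl; exact hloop hw1.2
  have hw2v : w₂ ≠ v := by rintro rfl; exact hloop hw2.2
  have hw1x : w₁ ≠ x := by rintro rfl; exact hO _ hx.1 v hvW hx.2 hw1.2
  have hw2x : w₂ ≠ x := by rintro rfl; exact hO _ hx.1 v hvW hx.2 hw2.2
  have hinq : ∀ q ∈ W, (q, v) ∈ E → q = x := by
    intro q hq hqv
    have : q ∈ inN E W v := mem_inN.2 ⟨hq, hqv⟩
    rw [hin] at this
    exact Finset.mem_singleton.1 this
  have houtq : ∀ q ∈ W, (v, q) ∈ E → q = w₁ ∨ q = w₂ := by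
    intro q hq hqv
    have : q ∈ outN E W v := mem_outN.2 ⟨hq, hqv⟩
    rw [hout] at this
    simpa using this
  -- values agree off `v`
  have hag : ∀ (d : V → Bool) (b : Bool), Val E (W.erase v) d →
      Val E (W.erase v) (Function.update d v b) := by
    intro d b hd
    refine hd.congr (fun z hz => ?_)
    rw [Function.update_of_ne (Finset.ne_of_mem_erase hz)]
  -- valid extensions
  have hA : ∀ d : V → Bool, Val E (W.erase v) d → Val E W (Function.update d v (!d x)) := by
    intro d hd
    refine UA_noin (hag d _ hd) (fun q hq => ?_)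
    have := hinq q hq.2.1 hq.1
    subst this
    have h2 := hq.2.2.2
    rw [Function.update_self, Function.update_of_ne hxv] at h2
    cases hd' : d q <;> rw [hd'] at h2 <;> simp at h2
  have hB : ∀ (d : V → Bool) (b : Bool), Val E (W.erase v) d → d w₁ = b → d w₂ = b →
      Val E W (Function.update d v (!b)) := by
    intro d b hd h1 h2
    refine UA_noout (hag d _ hd) (fun q hq => ?_)
    have h3 := hq.2.2.2
    rw [Function.update_self] at h3
    rcases houtq q hq.2.2.1 hq.1 with rfl | rfl
    · rw [Function.update_of_ne hw1v, h1] at h3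
      cases b <;> simp at h3
    · rw [Function.update_of_ne hw2v, h2] at h3
      cases b <;> simp at h3
  -- changing the value at `v`
  have hV : ∀ (d : V → Bool) (b b' : Bool), Function.update d v b ∈ K →
      Val E W (Function.update d v b') → Function.update d v b' ∈ K := by
    intro d b b' hd hd'
    by_cases hbb : b = b'
    · rw [← hbb]; exact hd
    · have e : flip (Function.update d v b) v = Function.update d v b' := by
        funext z
        by_cases hz : z = v
        · subst hz
          rw [flip_self, Function.update_self, Function.update_self]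
          cases b <;> cases b' <;> simp_all
        · rw [flip_of_ne hz, Function.update_of_ne hz, Function.update_of_ne hz]
      rw [← e]
      exact hK.step _ hd v (by rw [e]; exact hd')
  have hC : Conn E (W.erase v) := h.conn_ssub (Finset.erase_ssubset hvW)
  obtain ⟨c₀, hc₀⟩ := hne
  have hc₀v : Val E (W.erase v) c₀ := (hK.val c₀ hc₀).anti (Finset.Subset.refl _) (Finset.erase_subset _ _)
  have hstart : Function.update c₀ v (!c₀ x) ∈ K := by
    refine hV c₀ (c₀ v) _ ?_ (hA c₀ hc₀v)
    rw [Function.update_eq_self]; exact hc₀
  have hmain : ∀ c, Val E (W.erase v) c → Function.update c v (!c x) ∈ K := by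
    refine hC.induct (P := fun c => Function.update c v (!c x) ∈ K) hc₀v hstart ?_
    intro c hc hcK z hz
    by_cases hzv : z = v
    · subst hzv
      have e : Function.update (flip c z) z (!(flip c z) x) = Function.update c z (!c x) := by
        funext y
        by_cases hy : y = z
        · subst hy
          rw [Function.update_self, Function.update_self, flip_of_ne hxv]
        · rw [Function.update_of_ne hy, Function.update_of_ne hy, flip_of_ne hy]
      rw [e]; exact hcK
    · by_cases hzx : z = x
      · subst hzx
        have hv1 : Function.update c v (!c z) v = (!Function.update c v (!c z) z) := by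
          rw [Function.update_self, Function.update_of_ne hxv]
        have hv2 : Val E (W.erase v) (flip (Function.update c v (!c z)) z) := by
          refine hz.congr (fun y hy => ?_)
          have hyv : y ≠ v := Finset.ne_of_mem_erase hy
          by_cases hyz : y = z
          · subst hyz
            rw [flip_self, flip_self, Function.update_of_ne hyv]
          · rw [flip_of_ne hyz, flip_of_ne hyz, Function.update_of_ne hyv]
        have h12 := hcon _ hcK hv1 hv2
        rw [Function.update_of_ne hw1v, Function.update_of_ne hw2v] at h12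
        have s1 : Function.update c v (!c w₁) ∈ K :=
          hV c _ _ hcK (hB c (c w₁) hc rfl h12.symm)
        have hval2 : Val E W (Function.update (flip c z) v (!c w₁)) := by
          refine hB (flip c z) (c w₁) hz ?_ ?_
          · rw [flip_of_ne hw1x]
          · rw [flip_of_ne hw2x]; exact h12.symm
        have e2 : flip (Function.update c v (!c w₁)) z = Function.update (flip c z) v (!c w₁) := by
          funext y
          by_cases hyv : y = v
          · subst hyv
            rw [flip_of_ne (Ne.symm hxv), Function.update_self, Function.update_self]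
          · rw [Function.update_of_ne hyv]
            by_cases hyz : y = z
            · subst hyz
              rw [flip_self, flip_self, Function.update_of_ne hyv]
            · rw [flip_of_ne hyz, flip_of_ne hyz, Function.update_of_ne hyv]
        have s2 : Function.update (flip c z) v (!c w₁) ∈ K := by
          rw [← e2]
          exact hK.step _ s1 z (by rw [e2]; exact hval2)
        exact hV (flip c z) _ _ s2 (hA (flip c z) hz)
      · have e : flip (Function.update c v (!c x)) z = Function.update (flip c z) v (!(flip c z) x) := by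
          funext y
          by_cases hyv : y = v
          · subst hyv
            rw [flip_of_ne (Ne.symm hzv), Function.update_self, Function.update_self,
              flip_of_ne (Ne.symm hzx)]
          · rw [Function.update_of_ne hyv]
            by_cases hyz : y = z
            · subst hyz
              rw [flip_self, flip_self, Function.update_of_ne hyv]
            · rw [flip_of_ne hyz, flip_of_ne hyz, Function.update_of_ne hyv]
        rw [← e]
        exact hK.step _ hcK z (by rw [e]; exact hA (flip c z) hz)
  have k1 := hfr _ (hmain c₀ hc₀v)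
  have k2 := hfr _ (hmain (neg c₀) hc₀v.neg)
  rw [Function.update_of_ne hpv] at k1 k2
  rw [neg_apply, k1] at k2
  cases a <;> simp at k2

end Mix
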