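import Pool.Agent.Lib.MP_784a73_co.Mix.U0
import Pool.Agent.Lib.MP_784a73_co.Mix.UA

/-! # Type II (3.8): `v → w, y`, `w → u`, `y` not adjacent to `u` -/

namespace Mix

open Finset Relation

set_option linter.unusedSectionVars false

variable {V : Type*} [DecidableEq V] [Fintype V] {E : Finset (V × V)} {W : Finset V} {u v b w a y : V}

/-- ROW UB (3.8). In `Bad` colourings `c v = !c u`, `c y = c u` (`bad_beta`), `c w = !c u`, `c a = c u`.
Proof. (1) `c w ≠ c a` for every `Bad` `c`: both equal to `!c u`: the mono path `y ⇒ u` (`bad_beta`) must enter `u` through `w` or `a`, impossible (`y ≠ u`).  Both equal to `c u`: `flip c u` is valid: `u` then has no mono in-arc,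
so it is dead: contradiction to `bad_beta_frozen`.  (2) So no `Bad` `c` can be flipped at `w`; also not at `u` (`bad_beta_frozen`).  Suppose `c₀` is `Bad` with `c₀ w = c₀ u`.  `K := {c | Bad c ∧ c u = c₀ u ∧ c w = c₀ u}` is closed and
nonempty, `u` is frozen in it.  `exists_badflip` (with `w₁ := w, w₂ := y`): `c ∈ K` with `c w ≠ c y`, but `c y = c u = c w`: contradiction. -/
theorem Four.bad_two (h : CE E W) (q : Four E W u v b w a) (hy : outN E W v = {w, y}) (hyu : (y, u) ∉ E) (hwy : w ≠ y)
    {c : V → Bool} (hc : Bad E W c) : c v = (!c u) ∧ c y = c u ∧ c w = (!c u) ∧ c a = c u := by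
  have F := q.facts h
  have hO : Ori E W := h.good.1
  have hymem : y ∈ outN E W v := by rw [hy]; simp
  have hyW : y ∈ W := (Finset.mem_filter.1 hymem).1
  have hvy : (v, y) ∈ E := (Finset.mem_filter.1 hymem).2
  have hyu' : y ≠ u := by
    rintro rfl
    exact hO _ F.uW _ F.vW F.uv hvy
  have hbb : ∀ c, Bad E W c → ReflTransGen (Mono E (W.erase v) c) y u ∧ c y = c u ∧ c v = !c u :=
    fun c hc => h.bad_beta q.tp hymem hyu hc
  have hfz : ∀ c, Bad E W c → ¬ Val E W (flip c u) ∧ ¬ Val E W (flip c v) ∧ ¬ Val E W (flip c y) :=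
    fun c hc => h.bad_beta_frozen q.tp hymem hyu hc
  -- (1)
  have h1 : ∀ c, Bad E W c → c w ≠ c a := by
    intro c hc hwa
    obtain ⟨hp, -, -⟩ := hbb c hc
    by_cases hwu : c w = c u
    · -- `u` is dead in `flip c u`
      apply (hfz c hc).1
      have hdead : ∀ t ∈ ({u} : Finset V), Dead E W (flip c u) t := by
        intro t ht
        rw [Finset.mem_singleton] at ht
        subst ht
        left
        intro p hpW hpu
        rcases F.inu p hpW hpu with rfl | rfl
        · rw [flip_of_ne (Ne.symm F.huw), flip_self, hwu]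
          cases c t <;> simp
        · rw [flip_of_ne (Ne.symm F.hua), flip_self, ← hwa, hwu]
          cases c t <;> simp
      rw [val_dead hdead]
      have hv1 : Val E (W \ {u}) c := hc.1.anti (Finset.Subset.refl _) Finset.sdiff_subset
      refine hv1.congr ?_
      intro t ht
      have : t ≠ u := by
        rintro rfl
        simp at ht
      rw [flip_of_ne this]
    · rcases ReflTransGen.cases_tail hp with he | ⟨r, _, hr⟩
      · exact hyu' he.symm
      · have hrW : r ∈ W := Finset.mem_of_mem_erase hr.2.1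
        rcases F.inu r hrW hr.1 with rfl | rfl
        · exact hwu hr.2.2.2
        · exact hwu (hwa.trans hr.2.2.2)
  -- (2)
  have h2 : ∀ c, Bad E W c → ¬ Val E W (flip c w) := by
    intro c hc hv
    have hb := hc.flip hv
    have hne := h1 _ hb
    have hne0 := h1 _ hc
    rw [flip_self, flip_of_ne (Ne.symm F.hwa)] at hne
    cases hcw : c w <;> cases hca : c a <;> simp_all
  have h3 : c w ≠ c u := by
    intro hcu
    have hK : Closed E W {d | Bad E W d ∧ d u = c u ∧ d w = c u} := by
      refine ⟨fun d hd => hd.1.1, fun d hd z hz => ⟨hd.1.flip hz, ?_, ?_⟩⟩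
      · by_cases hzu : z = u
        · subst hzu; exact absurd hz (hfz d hd.1).1
        · rw [flip_of_ne (Ne.symm hzu)]; exact hd.2.1
      · by_cases hzw : z = w
        · subst hzw; exact absurd hz (h2 d hd.1)
        · rw [flip_of_ne (Ne.symm hzw)]; exact hd.2.2
    obtain ⟨d, hd, -, -, hne⟩ := h.exists_badflip q.tp hy hK ⟨c, hc, rfl, hcu⟩ F.uW F.huv
      (a := c u) (fun d hd => hd.2.1)
    have := (hbb d hd.1).2.1
    exact hne (by rw [this, hd.2.2, hd.2.1])
  obtain ⟨-, hb1, hb2⟩ := hbb c hc
  have h4 := h1 c hc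
  refine ⟨hb2, hb1, ?_, ?_⟩
  · cases hcw : c w <;> cases hcu : c u <;> simp_all
  · cases hcw : c w <;> cases hcu : c u <;> cases hca : c a <;> simp_all

end Mix
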