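import Pool.Agent.Lib.MP_784a73_co.Mix.U0

/-! # ROW UC2: arcs between `a, b, w` if `c v = c w = !c u`, `c a = c u` in all `Bad` colourings -/

namespace Mix

open Finset Relation

set_option linter.unusedSectionVars false

variable {V : Type*} [DecidableEq V] [Fintype V] {E : Finset (V × V)} {W : Finset V} {u v b w a y : V}

/-- ROW UC2 (3.8 (ii)). `a → w`.
Otherwise `L := {u, v}`, `E' := insert (a, b) (insert (w, a) E)`, good on `W \ L` (`Good.add_two`, `FourFacts.three`).  `K := {c | Bad c ∧ c u = c₀ u}` closed (`Bad.closed_frozen`: `u` cannot be flipped since `c a = c u` in all `Bad`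
colourings).  `c₀` is valid for `E'` on `W \ L`: (`val_insert_arc` twice) `w → a` is not mono; a mono path `b ⇒ a` in `W \ L` with `c₀ b = c₀ a = c₀ u` contradicts `Four.val_iff`.  `hstep` of `princX_false`: let `c ∈ K`, `c' := flip c z` valid for `E'`,
`z ∈ W \ L`; `Four.val_iff` for `c'` (`c' u = c u`, `c' v = c v`): a mono path `b ⇒ a` in `W \ L` closes with `a → b`; a mono path `b ⇒ w` of colour `c u`: `c' w = c u` so `z = w`, `c' a = c u`, and `b ⇒ w → a → b` is a mono cycle for `E'`.
`a` is frozen in `K`: `princX_false`. -/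
theorem Four.aw (h : CE E W) (q : Four E W u v b w a) (hex : ∃ c, Bad E W c)
    (hbad : ∀ c, Bad E W c → c v = (!c u) ∧ c w = (!c u) ∧ c a = c u) (hba : (b, a) ∉ E) : (a, w) ∈ E := by
  by_contra haw
  have F := q.facts h
  obtain ⟨c₀, hc₀⟩ := hex
  have hLW : ({u, v} : Finset V) ⊆ W := by
    intro p hp
    rcases Finset.mem_insert.1 hp with rfl | hp
    · exact F.uW
    · rw [Finset.mem_singleton.1 hp]; exact F.vW
  have hL : ({u, v} : Finset V).Nonempty := ⟨u, Finset.mem_insert_self _ _⟩
  have hss := sdiff_ssub hLW hL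
  have hmem : ∀ p ∈ W, p ≠ u → p ≠ v → p ∈ W \ {u, v} := by
    intro p hp h1 h2
    rw [Finset.mem_sdiff, Finset.mem_insert, Finset.mem_singleton, not_or]
    exact ⟨hp, h1, h2⟩
  have ha' : a ∈ W \ {u, v} := hmem a F.aW F.hua.symm F.hva.symm
  have hb' : b ∈ W \ {u, v} := hmem b F.bW F.hub.symm F.hvb.symm
  have hw' : w ∈ W \ {u, v} := hmem w F.wW F.huw.symm F.hvw.symm
  have hG : Good (insert (a, b) (insert (w, a) E)) (W \ {u, v}) := by
    refine Good.add_two (fun p hp r hr => h.good.1 p (hss.1 hp) r (hss.1 hr)) (h.two' hss) F.hba.symm hba F.hwa haw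
      (fun hh => F.hbw hh.2) ?_
    intro H hH h1 h2 h3 _
    have hnu : u ∉ H := fun hu => (Finset.mem_sdiff.1 (hH hu)).2 (Finset.mem_insert_self _ _)
    have hnv : v ∉ H := fun hv => (Finset.mem_sdiff.1 (hH hv)).2
      (Finset.mem_insert_of_mem (Finset.mem_singleton_self _))
    exact F.three H (hH.trans hss.1) hnu hnv h2 h3 h1
  have hfrz : ∀ c, Bad E W c → ¬ Val E W (Mix.flip c u) := by
    intro c hc hv
    have h1 := (hbad _ (hc.flip hv)).2.2
    have h2 := (hbad _ hc).2.2
    rw [flip_self, flip_of_ne F.hua.symm, h2] at h1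
    revert h1
    cases c u <;> simp
  have hK := Bad.closed_frozen (E := E) (W := W) (x := u) (c₀ u) hfrz
  have h0v : Val (insert (a, b) (insert (w, a) E)) (W \ {u, v}) c₀ := by
    obtain ⟨b1, b2, b3⟩ := hbad _ hc₀
    have hv0 := (Four.val_iff h q b1).1 hc₀.1
    have hwa0 : c₀ w ≠ c₀ a := by
      rw [b2, b3]
      cases c₀ u <;> simp
    refine val_insert_arc.2 ⟨val_insert_arc.2 ⟨hv0.1, fun _ _ e => absurd e hwa0⟩, fun _ _ e hp => ?_⟩
    have hp' : ReflTransGen (Mono E (W \ {u, v}) c₀) b a := by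
      refine rtg_mono (fun p r hm => ?_) hp
      rcases Finset.mem_insert.1 hm.1 with e1 | e1
      · rw [Prod.mk.injEq] at e1
        exact absurd (by rw [← e1.1, ← e1.2]; exact hm.2.2.2) hwa0
      · exact ⟨e1, hm.2⟩
    exact hv0.2.2 (e.symm.trans b3) b3 hp'
  refine princX_false h hLW hL hG hK (c0 := c₀) ⟨hc₀, rfl⟩ h0v ?_ (p := a) ha' ?_
  · intro c hc hcl hcv z hz hcz
    obtain ⟨b1, b2, b3⟩ := hbad _ hc.1
    have hzu : u ≠ z := by
      rintro rfl
      exact (Finset.mem_sdiff.1 hz).2 (Finset.mem_insert_self _ _)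
    have hzv : v ≠ z := by
      rintro rfl
      exact (Finset.mem_sdiff.1 hz).2 (Finset.mem_insert_of_mem (Finset.mem_singleton_self _))
    have e1 : Mix.flip c z u = c u := flip_of_ne hzu
    have e2 : Mix.flip c z v = c v := flip_of_ne hzv
    have hsub : E ⊆ insert (a, b) (insert (w, a) E) :=
      (Finset.subset_insert _ _).trans (Finset.subset_insert _ _)
    refine (Four.val_iff h q (by rw [e1, e2, b1])).2
      ⟨hcz.anti hsub (Finset.Subset.refl _), fun h1 h2 hp => ?_, fun h1 h2 hp => ?_⟩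
    · have hzw : w = z := by
        by_contra hne
        rw [flip_of_ne hne, e1, b2] at h2
        revert h2
        cases c u <;> simp
      have h3 : Mix.flip c z a = c u := by
        rw [flip_of_ne (fun e => F.hwa (hzw.trans e.symm)), b3]
      rw [e1] at h1 h2
      have m1 : Mono (insert (a, b) (insert (w, a) E)) (W \ {u, v}) (Mix.flip c z) w a :=
        ⟨Finset.mem_insert_of_mem (Finset.mem_insert_self _ _), hw', ha', h2.trans h3.symm⟩
      have m2 : Mono (insert (a, b) (insert (w, a) E)) (W \ {u, v}) (Mix.flip c z) a b :=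
        ⟨Finset.mem_insert_self _ _, ha', hb', h3.trans h1.symm⟩
      have hp' : ReflTransGen (Mono (insert (a, b) (insert (w, a) E)) (W \ {u, v}) (Mix.flip c z)) b w :=
        rtg_mono (fun p r hm => hm.mono hsub (Finset.Subset.refl _)) hp
      exact hcz.no_back m1 (ReflTransGen.head m2 hp')
    · have m2 : Mono (insert (a, b) (insert (w, a) E)) (W \ {u, v}) (Mix.flip c z) a b :=
        ⟨Finset.mem_insert_self _ _, ha', hb', h2.trans h1.symm⟩
      have hp' : ReflTransGen (Mono (insert (a, b) (insert (w, a) E)) (W \ {u, v}) (Mix.flip c z)) b a :=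
        rtg_mono (fun p r hm => hm.mono hsub (Finset.Subset.refl _)) hp
      exact hcz.no_back m2 hp'
  · intro c hc
    rw [(hbad _ hc.1).2.2, (hbad _ hc₀).2.2]
    exact hc.2

end Mix
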