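import Pool.Agent.Lib.MP_784a73_co.Mix.U0

/-! # ROW UC1: arcs between `a, b, w` if `c v = c w = !c u`, `c a = c u` in all `Bad` colourings -/

namespace Mix

open Finset Relation

set_option linter.unusedSectionVars false

variable {V : Type*} [DecidableEq V] [Fintype V] {E : Finset (V × V)} {W : Finset V} {u v b w a y : V}

/-- ROW UC1 (3.8 (i)). `b → a` is impossible.
`K := {c | Bad E W c}` (`Bad.closed`), `c₀` `Bad`.  `u → b → a → u` and `c₀ a = c₀ u`: `c₀ b = !c₀ u` (mono triangle otherwise).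
`L := {u, v}`, `M := W \ L`, `H₀` from `exists_max_min` (`M`, `b`); `ff E H₀ = 2` (`≤ 2`, and `≥ 2` by `h.two`).  Every `c` valid on `M` with `c = c₀` on `L` and on `H₀ ∋ b` is valid on `W` (`Four.val_iff`: `c b ≠ c u`).
`princPX` (`E' := E`): a vertex of `M \ H₀` takes both colours in `K` with `c u = c₀ u`; so `a, w ∈ H₀` (`hbad`).  `ff E (insert u H₀) ≤ 2 + 2 - 3 = 1` (`ff_insert`, `b, w, a` are neighbours of `u`), `insert u H₀ ≠ W` (`v`): contradiction to `h.two`. -/
theorem Four.not_ba (h : CE E W) (q : Four E W u v b w a) (hex : ∃ c, Bad E W c)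
    (hbad : ∀ c, Bad E W c → c v = (!c u) ∧ c w = (!c u) ∧ c a = c u) : (b, a) ∉ E := by
  classical
  intro hba
  obtain ⟨c0, hc0⟩ := hex
  have F := q.facts h
  obtain ⟨h0v, h0w, h0a⟩ := hbad c0 hc0
  have hval0 : Val E W c0 := hc0.1
  have h0b : c0 b = !c0 u := by
    by_contra hne
    have hbu : c0 b = c0 u := by
      cases h1 : c0 b <;> cases h2 : c0 u <;> simp_all
    have m1 : Mono E W c0 u b := ⟨F.ub, F.uW, F.bW, hbu.symm⟩
    have m2 : Mono E W c0 b a := ⟨hba, F.bW, F.aW, by rw [hbu, h0a]⟩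
    have m3 : Mono E W c0 a u := ⟨F.au, F.aW, F.uW, h0a⟩
    exact hval0 u (((TransGen.single m1).tail m2).tail m3)
  have hbM : b ∈ W \ ({u, v} : Finset V) := by
    simp only [Finset.mem_sdiff, Finset.mem_insert, Finset.mem_singleton, not_or]
    exact ⟨F.bW, F.hub.symm, F.hvb.symm⟩
  have haM : a ∈ W \ ({u, v} : Finset V) := by
    simp only [Finset.mem_sdiff, Finset.mem_insert, Finset.mem_singleton, not_or]
    exact ⟨F.aW, F.hua.symm, F.hva.symm⟩
  have hwM : w ∈ W \ ({u, v} : Finset V) := by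
    simp only [Finset.mem_sdiff, Finset.mem_insert, Finset.mem_singleton, not_or]
    exact ⟨F.wW, F.huw.symm, F.hvw.symm⟩
  obtain ⟨H0, hH0, hbH, hff, -, hg⟩ := exists_max_min (E := E) hbM (h.good.1.loop F.bW)
  have hLW : ({u, v} : Finset V) ⊆ W := by
    intro t ht
    rw [Finset.mem_insert, Finset.mem_singleton] at ht
    rcases ht with rfl | rfl
    · exact F.uW
    · exact F.vW
  have huL : u ∈ ({u, v} : Finset V) := by simp
  have hvL : v ∈ ({u, v} : Finset V) := by simp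
  have hG : Good E (W \ ({u, v} : Finset V)) := h.good.sub Finset.sdiff_subset
  have hK : Closed E W {c | Bad E W c} := Bad.closed E W
  have h0V : Val E (W \ ({u, v} : Finset V)) c0 := hval0.anti (fun _ h => h) Finset.sdiff_subset
  have hext : ∀ c, (∀ l ∈ ({u, v} : Finset V), c l = c0 l) → (∀ p ∈ H0, c p = c0 p) →
      Val E (W \ ({u, v} : Finset V)) c → Val E W c := by
    intro c hcL hcH hv
    have hcv : c v = !c u := by rw [hcL v hvL, hcL u huL, h0v]
    have hcb : c b ≠ c u := by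
      rw [hcH b hbH, hcL u huL, h0b]
      cases c0 u <;> simp
    exact (q.val_iff h hcv).2 ⟨hv, fun h1 => absurd h1 hcb, fun h1 => absurd h1 hcb⟩
  have key : ∀ x ∈ W \ ({u, v} : Finset V), (∀ c, Bad E W c → c u = c0 u → c x = c0 x) → x ∈ H0 := by
    intro x hx hfr
    by_contra hxH
    obtain ⟨c, hcK, hcL, -, -, hcx⟩ := princPX h hLW ⟨u, huL⟩ hG hH0 hg hK hc0 h0V hext
      (x := x) (Finset.mem_sdiff.2 ⟨hx, hxH⟩) (!c0 x)
    have h1 := hfr c hcK (hcL u huL)
    rw [h1] at hcx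
    cases h2 : c0 x <;> simp [h2] at hcx
  have haH : a ∈ H0 := key a haM (fun c hc hcu => by rw [(hbad c hc).2.2, hcu, h0a])
  have hwH : w ∈ H0 := key w hwM (fun c hc hcu => by rw [(hbad c hc).2.1, hcu, h0w])
  have h3 := F.three H0 (hH0.trans Finset.sdiff_subset)
    (fun hu => (Finset.mem_sdiff.1 (hH0 hu)).2 huL) (fun hv => (Finset.mem_sdiff.1 (hH0 hv)).2 hvL)
    hbH hwH haH
  omega

end Mix
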