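import Pool.Agent.Lib.MP_784a73_co.Mix.UB

/-! # ROW UD (3.8 (iv)): `y → w`

Otherwise `L := {u, v}`, `E' := insert (a, b) (insert (w, y) E)`, good on `W \ L` (`Good.add_two`, `FourFacts.three`; `y ≠ a`, `y ≠ b`, `y ≠ u` because `y` is not adjacent to `u` (`CE.nonadj`)).
`K := {c | Bad c ∧ c u = c₀ u}`, closed (`Bad.closed_frozen`).  `c₀` is valid for `E'`: `w → y` is not mono (`c w = !c u`, `c y = c u`); `a → b`: a mono path `b ⇒ a` of colour `c u` contradicts `Four.val_iff`.  `hstep`: `c ∈ K` valid for `E'`,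
`c' := flip c z` valid for `E'`, `z ∈ W \ L`.  `Four.val_iff` for `c'`: a mono path `b ⇒ a` closes with `a → b`.  A mono path `b ⇒ w` of colour `c u` in `c'`: then `z = w`, `c' a = c a = c u`, `c' y = c y = c u`.  By `bad_beta` for `c` there is a mono path
`y ⇒ u` in `W.erase v`, its last arc is `a → u` (`c w ≠ c u`), so there is a mono path `y ⇒ a` in `W \ {u, v}` for `c` (`rtg_erase_or` at `u`); it avoids `w` (`c w = !c u`), so it is mono for `c'`.  `b ⇒ w → y ⇒ a → b` is a mono cycle for `E'`, `c'`.
`a` is frozen in `K`: `princX_false`. -/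

namespace Mix

open Finset Relation

set_option linter.unusedSectionVars false

variable {V : Type*} [DecidableEq V] [Fintype V] {E : Finset (V × V)} {W : Finset V} {u v b w a y : V}

theorem Four.yw (h : CE E W) (q : Four E W u v b w a) (hy : outN E W v = {w, y}) (hyu : (y, u) ∉ E) (hwy : w ≠ y)
    (hba : (b, a) ∉ E) : (y, w) ∈ E := by
  by_contra hyw
  have F := q.facts h
  have hO : Ori E W := h.good.1
  have hymem : y ∈ outN E W v := by rw [hy]; simp
  have hyW : y ∈ W := (mem_outN.1 hymem).1
  have hvy : (v, y) ∈ E := (mem_outN.1 hymem).2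
  have huy : (u, y) ∉ E := (h.nonadj q.tp hymem hyu).1
  have hyneu : y ≠ u := fun e => hO u F.uW v F.vW F.uv (e ▸ hvy)
  have hynev : y ≠ v := fun e => hO.loop F.vW (by have h1 := hvy; rw [e] at h1; exact h1)
  have hynea : y ≠ a := fun e => hyu (by rw [e]; exact F.au)
  have hyneb : y ≠ b := fun e => huy (by rw [e]; exact F.ub)
  obtain ⟨c0, hc0⟩ := h.exists_bad q.tp hymem hyu
  have hmW' : ∀ z, z ∈ W \ ({u, v} : Finset V) ↔ z ∈ W ∧ z ≠ u ∧ z ≠ v := by
    intro z
    rw [Finset.mem_sdiff, Finset.mem_insert, Finset.mem_singleton, not_or]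
  have haW' : a ∈ W \ ({u, v} : Finset V) := (hmW' a).2 ⟨F.aW, F.hua.symm, F.hva.symm⟩
  have hbW' : b ∈ W \ ({u, v} : Finset V) := (hmW' b).2 ⟨F.bW, F.hub.symm, F.hvb.symm⟩
  have hwW' : w ∈ W \ ({u, v} : Finset V) := (hmW' w).2 ⟨F.wW, F.huw.symm, F.hvw.symm⟩
  have hyW' : y ∈ W \ ({u, v} : Finset V) := (hmW' y).2 ⟨hyW, hyneu, hynev⟩
  have hLW : ({u, v} : Finset V) ⊆ W := by
    intro z hz
    rw [Finset.mem_insert, Finset.mem_singleton] at hz
    rcases hz with rfl | rfl
    · exact F.uW
    · exact F.vW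
  have hL : ({u, v} : Finset V).Nonempty := ⟨u, by simp⟩
  have hss : W \ ({u, v} : Finset V) ⊂ W := sdiff_ssub hLW hL
  have hG : Good (insert (a, b) (insert (w, y) E)) (W \ {u, v}) := by
    refine Good.add_two (hO.sub hss.1) (h.two' hss) F.hba.symm hba hwy hyw ?_ ?_
    · rintro ⟨h1, _⟩
      exact hynea h1.symm
    · intro H hH ha hb hw _
      have hHW : H ⊆ W := hH.trans hss.1
      have hu : u ∉ H := fun hu => ((hmW' u).1 (hH hu)).2.1 rfl
      have hv : v ∉ H := fun hv => ((hmW' v).1 (hH hv)).2.2 rfl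
      exact F.three H hHW hu hv hb hw ha
  have hfz : ∀ c, Bad E W c → ¬ Val E W (Mix.flip c u) := fun c hc =>
    (h.bad_beta_frozen q.tp hymem hyu hc).1
  have hK : Closed E W {c | Bad E W c ∧ c u = c0 u} := Bad.closed_frozen (c0 u) hfz
  have h0 : c0 ∈ {c | Bad E W c ∧ c u = c0 u} := ⟨hc0, rfl⟩
  have hE' : E ⊆ insert (a, b) (insert (w, y) E) := fun p hp =>
    Finset.mem_insert_of_mem (Finset.mem_insert_of_mem hp)
  obtain ⟨h01, h02, h03, h04⟩ := q.bad_two h hy hyu hwy hc0
  have hne0 : ∀ c : V → Bool, c y = c u → c w = (!c u) → c w ≠ c y := by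
    intro c h1 h2 h3
    rw [h1, h2] at h3
    revert h3
    cases c u <;> simp
  have h0v : Val (insert (a, b) (insert (w, y) E)) (W \ {u, v}) c0 := by
    have hmono : ∀ p r, Mono (insert (w, y) E) (W \ {u, v}) c0 p r → Mono E (W \ {u, v}) c0 p r := by
      intro p r hpr
      refine ⟨?_, hpr.2⟩
      rcases Finset.mem_insert.1 hpr.1 with h1 | h1
      · exfalso
        have e1 : p = w := (Prod.ext_iff.1 h1).1
        have e2 : r = y := (Prod.ext_iff.1 h1).2
        exact hne0 c0 h02 h03 (by rw [← e1, ← e2]; exact hpr.2.2.2)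
      · exact h1
    have hv := (q.val_iff h h01).1 hc0.1
    rw [val_insert_arc]
    refine ⟨fun z hz => hv.1 z (tg_mono hmono hz), ?_⟩
    intro _ _ hab hp
    exact hv.2.2 (by rw [← hab]; exact h04) h04 (rtg_mono hmono hp)
  refine princX_false h hLW hL hG hK h0 h0v ?_ haW' ?_
  · intro c hc hcL hcv z hz hfv
    obtain ⟨hcB, hcu⟩ := hc
    obtain ⟨k1, k2, k3, k4⟩ := q.bad_two h hy hyu hwy hcB
    have hzu : z ≠ u := ((hmW' z).1 hz).2.1
    have hzv : z ≠ v := ((hmW' z).1 hz).2.2
    have eu : flip c z u = c u := flip_of_ne hzu.symm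
    have ev : flip c z v = c v := flip_of_ne hzv.symm
    have hiff := q.val_iff h (c := flip c z) (by rw [eu, ev]; exact k1)
    rw [hiff]
    refine ⟨Val.anti hE' (le_refl _) hfv, ?_, ?_⟩
    · intro hb1 hw1 hp
      have hzw : z = w := by
        by_contra hzw
        have e1 : flip c z w = c w := flip_of_ne (fun e => hzw e.symm)
        rw [e1, eu, k3] at hw1
        revert hw1
        cases c u <;> simp
      subst hzw
      have ea : flip c z a = c a := flip_of_ne F.hwa.symm
      have ey : flip c z y = c y := flip_of_ne hwy.symm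
      obtain ⟨hpath, _, _⟩ := h.bad_beta q.tp hymem hyu hcB
      have hpath2 : ReflTransGen (Mono E ((W.erase v).erase u) c) y a := by
        rcases rtg_erase_or hpath hyneu with h1 | ⟨r, hru, h1, h2, _⟩
        · exfalso
          rcases ReflTransGen.cases_tail h1 with h2 | ⟨r, _, h3⟩
          · exact hyneu h2.symm
          · exact Finset.notMem_erase _ _ h3.2.2.1
        · have hrW : r ∈ W := Finset.mem_of_mem_erase h2.2.1
          rcases F.inu r hrW h2.1 with e | e
          · exfalso
            have h3 := h2.2.2.2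
            rw [e, k3] at h3
            revert h3
            cases c u <;> simp
          · rw [← e]; exact h1
      have hset : (W.erase v).erase u = W \ {u, v} := by
        ext t
        rw [hmW' t, Finset.mem_erase, Finset.mem_erase]
        tauto
      rw [hset] at hpath2
      have hcz : c z ≠ c u := by
        rw [k3]; cases c u <;> simp
      have hpath3 : ∀ t, ReflTransGen (Mono E (W \ {u, v}) c) y t →
          ReflTransGen (Mono E (W \ {u, v}) (flip c z)) y t := by
        intro t ht
        induction ht with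
        | refl => exact ReflTransGen.refl
        | @tail s t hs hst ih =>
          have cs : c s = c u := by rw [← rtg_color hs]; exact k2
          have ct : c t = c u := by rw [← hst.2.2.2]; exact cs
          have hsz : s ≠ z := fun e => hcz (by rw [← e]; exact cs)
          have htz : t ≠ z := fun e => hcz (by rw [← e]; exact ct)
          refine ih.tail ⟨hst.1, hst.2.1, hst.2.2.1, ?_⟩
          rw [flip_of_ne hsz, flip_of_ne htz]
          exact hst.2.2.2
      have hya := hpath3 a hpath2
      have hlift : ∀ p r, Mono E (W \ {u, v}) (flip c z) p r →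
          Mono (insert (a, b) (insert (z, y) E)) (W \ {u, v}) (flip c z) p r :=
        fun p r hpr => Mono.mono hE' (le_refl _) hpr
      have marc : Mono (insert (a, b) (insert (z, y) E)) (W \ {u, v}) (flip c z) z y := by
        refine ⟨Finset.mem_insert_of_mem (Finset.mem_insert_self _ _), hz, hyW', ?_⟩
        rw [hw1, eu, ey, k2]
      have mab : Mono (insert (a, b) (insert (z, y) E)) (W \ {u, v}) (flip c z) a b := by
        refine ⟨Finset.mem_insert_self _ _, haW', hbW', ?_⟩
        rw [ea, k4, hb1, eu]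
      exact hfv.no_back mab (((rtg_mono hlift hp).tail marc).trans (rtg_mono hlift hya))
    · intro hb1 ha1 hp
      have hlift : ∀ p r, Mono E (W \ {u, v}) (flip c z) p r →
          Mono (insert (a, b) (insert (w, y) E)) (W \ {u, v}) (flip c z) p r :=
        fun p r hpr => Mono.mono hE' (le_refl _) hpr
      have mab : Mono (insert (a, b) (insert (w, y) E)) (W \ {u, v}) (flip c z) a b := by
        refine ⟨Finset.mem_insert_self _ _, haW', hbW', ?_⟩
        rw [ha1, hb1]
      exact hfv.no_back mab (rtg_mono hlift hp)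
  · intro c hc
    obtain ⟨_, _, _, k4⟩ := q.bad_two h hy hyu hwy hc.1
    rw [k4, h04]
    exact hc.2

end Mix
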