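import Pool.Agent.Lib.MP_784a73_co.Mix.UC
import Pool.Agent.Lib.MP_784a73_co.Mix.UD
import Pool.Agent.Lib.MP_784a73_co.Mix.S4Defs

/-! # ROW UE: type II, result

`not_ba` is used with the roles: `Four.bad_two`, `Four.aw`, `Four.yw`.  `deg E W w ≥ 5`: `u` is an out-neighbour, `v, a, b, y` are four different in-neighbours of `w` (`y ≠ a, b` because `y` is not adjacent to `u`: `CE.nonadj`).
`nofl`: `flip c w` would be `Bad` (`Bad.flip`) with `(flip c w) w = c u`, contradiction to `bad_two`.  `ex`: `CE.exists_bad`. -/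

namespace Mix

open Finset Relation

set_option linter.unusedSectionVars false

variable {V : Type*} [DecidableEq V] [Fintype V] {E : Finset (V × V)} {W : Finset V} {u v b w a y : V}

theorem Four.typeII (h : CE E W) (q : Four E W u v b w a) (hy : outN E W v = {w, y}) (hyu : (y, u) ∉ E) (hwy : w ≠ y)
    (hba : (b, a) ∉ E) (hbw : (b, w) ∈ E) : 5 ≤ deg E W w ∧ SP E W w v u a b y := by
  have F := q.facts h
  have hO : Ori E W := h.good.1
  have hyo : y ∈ outN E W v := by rw [hy]; simp
  have hyW : y ∈ W := (mem_outN.1 hyo).1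
  have hvy : (v, y) ∈ E := (mem_outN.1 hyo).2
  have hex : ∃ c, Bad E W c := h.exists_bad q.tp hyo hyu
  have B : ∀ c, Bad E W c → c v = (!c u) ∧ c y = c u ∧ c w = (!c u) ∧ c a = c u :=
    fun c hc => q.bad_two h hy hyu hwy hc
  have hbad : ∀ c, Bad E W c → c v = (!c u) ∧ c w = (!c u) ∧ c a = c u :=
    fun c hc => ⟨(B c hc).1, (B c hc).2.2.1, (B c hc).2.2.2⟩
  have haw := q.aw h hex hbad hba
  have hyw := q.yw h hy hyu hwy hba
  have huy : (u, y) ∉ E := (h.nonadj q.tp hyo hyu).1
  have hvy' : v ≠ y := by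
    rintro rfl
    exact hO.loop F.vW hvy
  have hya : y ≠ a := by
    rintro rfl
    exact hyu F.au
  have hyb : y ≠ b := by
    rintro rfl
    exact huy F.ub
  refine ⟨?_, ⟨F.vW, q.tp.2.1, hy, q.inu, q.outu, hwy, q.hwa, q.hvb, haw, hbw, hyw, hba,
    Or.inr ⟨hyu, huy⟩, ?_⟩⟩
  · have h1 : ({v, a, b, y} : Finset V) ⊆ inN E W w := by
      intro p hp
      simp only [Finset.mem_insert, Finset.mem_singleton] at hp
      rcases hp with rfl | rfl | rfl | rfl
      · exact mem_inN.2 ⟨F.vW, F.vw⟩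
      · exact mem_inN.2 ⟨F.aW, haw⟩
      · exact mem_inN.2 ⟨F.bW, hbw⟩
      · exact mem_inN.2 ⟨hyW, hyw⟩
    have h2 : ({v, a, b, y} : Finset V).card = 4 := by
      rw [Finset.card_insert_of_notMem, Finset.card_insert_of_notMem, Finset.card_pair (Ne.symm hyb)]
      · simp only [Finset.mem_insert, Finset.mem_singleton, not_or]
        exact ⟨F.hba.symm, Ne.symm hya⟩
      · simp only [Finset.mem_insert, Finset.mem_singleton, not_or]
        exact ⟨F.hva, F.hvb, hvy'⟩
    have h3 : ({u} : Finset V) ⊆ outN E W w := by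
      intro p hp
      rw [Finset.mem_singleton] at hp
      rw [hp]
      exact mem_outN.2 ⟨F.uW, F.wu⟩
    have h4 := Finset.card_le_card h1
    have h5 := Finset.card_le_card h3
    rw [h2] at h4
    rw [Finset.card_singleton] at h5
    unfold deg
    omega
  · intro c hc
    obtain ⟨b1, b2, b3, b4⟩ := B c hc
    rw [b1, b2, b3, b4]
    simp

end Mix
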