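import Pool.Agent.Lib.MP_784a73_co.Mix.U0

/-! # ROW UF (3.10, III.1): `v → w, a`, `b → w`, `a` and `b` not adjacent; joining

`W' := W.erase v`, `E' := insert (b, a) E`, good on `W'` (`Good.add_one`, `h.two'`), so `Conn E' W'` (`h.conn_good`).  `ĉ := Function.update c v (!c u)` is valid on `(E, W)` if `c` is valid on `(E', W')` (`v` dead).
`Conn.induct` on `(E', W')`, `P c := Reach E W ĉ₀ ĉ`.  A flip of `z ≠ u` lifts to one flip (or nothing).  `z = u`, `c` and `flip c u` valid on `(E', W')`: for the one of them with `u` coloured `c b`: `u → b → w → u` and `u → b → a → u` are not mono,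
so `c w = c a = !c b =: d`.  `ĉ → update c v (!d) → update (flip c u) v (!d) → (flip c u)^`: `v` coloured `!d` has no mono out-arc, hence is dead; all valid; each step is a flip or nothing.
`join`: `c` valid on `(E, W)` without a mono path `a ⇒ b` in `W'` is valid on `(E', W')` (`val_insert_arc`) and joined to `ĉ` (flip of `v` or nothing).
`path`: `c` `Bad`, otherwise `join` with `c' := neg c`.  `exists_bad`: by `h.disc` there are `c, c'` valid, not joined; one of them, say `c`, is not joined to any colouring without such a path (all these are joined);
all `d` with `Reach E W c d` have a mono path `a ⇒ b`, so `d a = d b`, `d a` is constant on this class, so `neg c` is not in it: `c` is `Bad`. -/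

namespace Mix

open Finset Relation

set_option linter.unusedSectionVars false

variable {V : Type*} [DecidableEq V] [Fintype V] {E : Finset (V × V)} {W : Finset V} {u v b w a y : V}

private theorem UF_ne (s : Bool) : s ≠ !s := by cases s <;> decide

/-- `v` is dead because its only in-neighbour `u` has the other colour -/
private theorem UF_val_in {c : V → Bool} {g : Bool} (hin : inN E W v = {u}) (huv : u ≠ v)
    (hc : Val E (W.erase v) c) (hg : c u ≠ g) : Val E W (Function.update c v g) := by
  have hd : ∀ z ∈ ({v} : Finset V), Dead E W (Function.update c v g) z := by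
    intro z hz
    rw [Finset.mem_singleton] at hz
    subst hz
    left
    intro p hp hpz
    have hpx : p ∈ inN E W z := mem_inN.2 ⟨hp, hpz⟩
    rw [hin, Finset.mem_singleton] at hpx
    subst hpx
    rw [Function.update_of_ne huv, Function.update_self]
    exact hg
  rw [val_dead hd, Finset.sdiff_singleton_eq_erase]
  refine hc.congr fun p hp => ?_
  rw [Function.update_of_ne (Finset.ne_of_mem_erase hp)]

/-- `v` is dead because its out-neighbours `w, a` have the other colour -/
private theorem UF_val_out {c : V → Bool} {g : Bool} (hout : outN E W v = {w, a}) (hwv : w ≠ v) (hav : a ≠ v)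
    (hc : Val E (W.erase v) c) (hgw : c w ≠ g) (hga : c a ≠ g) : Val E W (Function.update c v g) := by
  have hd : ∀ z ∈ ({v} : Finset V), Dead E W (Function.update c v g) z := by
    intro z hz
    rw [Finset.mem_singleton] at hz
    subst hz
    right
    intro p hp hpz
    have hpx : p ∈ outN E W z := mem_outN.2 ⟨hp, hpz⟩
    rw [hout, Finset.mem_insert, Finset.mem_singleton] at hpx
    rcases hpx with hpx | hpx
    · subst hpx
      rw [Function.update_of_ne hwv, Function.update_self]
      exact hgw
    · subst hpx
      rw [Function.update_of_ne hav, Function.update_self]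
      exact hga
  rw [val_dead hd, Finset.sdiff_singleton_eq_erase]
  refine hc.congr fun p hp => ?_
  rw [Function.update_of_ne (Finset.ne_of_mem_erase hp)]

private theorem UF_reach_update {c : V → Bool} {s t : Bool} (ha : Val E W (Function.update c v s))
    (hb : Val E W (Function.update c v t)) :
    Reach E W (Function.update c v s) (Function.update c v t) := by
  by_cases hab : s = t
  · subst hab
    exact ReflTransGen.refl
  · have he : Function.update c v t = flip (Function.update c v s) v := by
      have hba : t = !s := by
        cases s <;> cases t <;> simp_all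
      rw [flip, Function.update_self, Function.update_idem, hba]
    rw [he] at hb ⊢
    exact Reach.flip ha hb

/-- if `u` has the colour of `b` then `w` and `a` have the other colour (triangles `u → b → w → u`, `u → b → a → u`) -/
private theorem UF_tri {c : V → Bool} (F : FourFacts E W u v b w a) (hbw : (b, w) ∈ E)
    (hc : Val (insert (b, a) E) (W.erase v) c) (hub : c u = c b) : c w ≠ c b ∧ c a ≠ c b := by
  have hu : u ∈ W.erase v := Finset.mem_erase.2 ⟨F.huv, F.uW⟩
  have hb : b ∈ W.erase v := Finset.mem_erase.2 ⟨F.hvb.symm, F.bW⟩
  have hw : w ∈ W.erase v := Finset.mem_erase.2 ⟨F.hvw.symm, F.wW⟩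
  have ha : a ∈ W.erase v := Finset.mem_erase.2 ⟨F.hva.symm, F.aW⟩
  constructor
  · intro h1
    refine hc.no_back (p := u) (q := b) ⟨Finset.mem_insert_of_mem F.ub, hu, hb, hub⟩ ?_
    refine ReflTransGen.head (b := w) ⟨Finset.mem_insert_of_mem hbw, hb, hw, h1.symm⟩ ?_
    exact ReflTransGen.single ⟨Finset.mem_insert_of_mem F.wu, hw, hu, h1.trans hub.symm⟩
  · intro h1
    refine hc.no_back (p := u) (q := b) ⟨Finset.mem_insert_of_mem F.ub, hu, hb, hub⟩ ?_
    refine ReflTransGen.head (b := a) ⟨Finset.mem_insert_self _ _, hb, ha, h1.symm⟩ ?_
    exact ReflTransGen.single ⟨Finset.mem_insert_of_mem F.au, ha, hu, h1.trans hub.symm⟩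

private theorem UF_val {c : V → Bool} (hc : Val E W c)
    (hp : ¬ ReflTransGen (Mono E (W.erase v) c) a b) : Val (insert (b, a) E) (W.erase v) c := by
  rw [val_insert_arc]
  exact ⟨Val.anti (Finset.Subset.refl _) (Finset.erase_subset _ _) hc, fun _ _ _ => hp⟩

theorem Four.join (h : CE E W) (q : Four E W u v b w a) (hout : outN E W v = {w, a}) (hbw : (b, w) ∈ E)
    (hba : (b, a) ∉ E) (hab : (a, b) ∉ E) {c c' : V → Bool} (hc : Val E W c) (hc' : Val E W c')
    (hp : ¬ ReflTransGen (Mono E (W.erase v) c) a b) (hp' : ¬ ReflTransGen (Mono E (W.erase v) c') a b) :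
    Reach E W c c' := by
  have F := q.facts h
  have hin : inN E W v = {u} := q.tp.2.1
  have hss : W.erase v ⊂ W := Finset.erase_ssubset F.vW
  have hG : Good (insert (b, a) E) (W.erase v) :=
    Good.add_one (h.good.1.sub (Finset.erase_subset _ _)) (h.two' hss) F.hba hab
  have hConn : Conn (insert (b, a) E) (W.erase v) := h.conn_good hss hG
  have hsub : ∀ d : V → Bool, Val (insert (b, a) E) (W.erase v) d → Val E (W.erase v) d :=
    fun d hd => Val.anti (Finset.subset_insert _ _) (Finset.Subset.refl _) hd
  have hval : ∀ d : V → Bool, Val (insert (b, a) E) (W.erase v) d →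
      Val E W (Function.update d v (!d u)) :=
    fun d hd => UF_val_in hin F.huv (hsub d hd) (UF_ne _)
  have hstep : ∀ d : V → Bool, Val (insert (b, a) E) (W.erase v) d → ∀ z,
      Val (insert (b, a) E) (W.erase v) (flip d z) →
      Reach E W (Function.update d v (!d u)) (Function.update (flip d z) v (!(flip d z) u)) := by
    intro d hd z hz
    by_cases hzx : z = u
    · subst hzx
      -- `d w` and `d a` are the colour `!d b`
      have hbne : b ≠ z := F.hub.symm
      have hwne : w ≠ z := F.huw.symm
      have hane : a ≠ z := F.hua.symm
      have hwa : d w ≠ d b ∧ d a ≠ d b := by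
        by_cases hzb : d z = d b
        · exact UF_tri F hbw hd hzb
        · have h1 : flip d z z = flip d z b := by
            rw [flip_self, flip_of_ne hbne]
            cases h1 : d z <;> cases h2 : d b <;> simp_all
          have h2 := UF_tri F hbw hz h1
          rw [flip_of_ne hwne, flip_of_ne hane, flip_of_ne hbne] at h2
          exact h2
      have hu1 : Val E W (Function.update d v (d b)) :=
        UF_val_out hout F.hvw.symm F.hva.symm (hsub d hd) hwa.1 hwa.2
      have hu2 : Val E W (Function.update (flip d z) v (d b)) :=
        UF_val_out hout F.hvw.symm F.hva.symm (hsub _ hz) (by rw [flip_of_ne hwne]; exact hwa.1)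
          (by rw [flip_of_ne hane]; exact hwa.2)
      have he : Function.update (flip d z) v (d b) = flip (Function.update d v (d b)) z := by
        rw [flip, flip, Function.update_of_ne F.huv, Function.update_comm F.huv.symm]
      have h1 := UF_reach_update (hval d hd) hu1
      have h2 : Reach E W (Function.update d v (d b)) (Function.update (flip d z) v (d b)) := by
        rw [he] at hu2 ⊢
        exact Reach.flip hu1 hu2
      have h3 := UF_reach_update hu2 (hval _ hz)
      exact (h1.trans h2).trans h3
    · have hx' : flip d z u = d u := flip_of_ne (Ne.symm hzx)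
      rw [hx']
      by_cases hzv : z = v
      · subst hzv
        have he : Function.update (flip d z) z (!d u) = Function.update d z (!d u) := by
          rw [flip, Function.update_idem]
        rw [he]
        exact ReflTransGen.refl
      · have he : Function.update (flip d z) v (!d u) = flip (Function.update d v (!d u)) z := by
          rw [flip, flip, Function.update_of_ne hzv, Function.update_comm (Ne.symm hzv)]
        have hv2 := hval _ hz
        rw [hx', he] at hv2
        rw [he]
        exact Reach.flip (hval d hd) hv2
  have hcv := UF_val hc hp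
  have hcv' := UF_val hc' hp'
  have hall : ∀ d, Val (insert (b, a) E) (W.erase v) d →
      Reach E W (Function.update c v (!c u)) (Function.update d v (!d u)) := by
    refine Conn.induct hConn (P := fun d => Reach E W (Function.update c v (!c u))
      (Function.update d v (!d u))) hcv ReflTransGen.refl ?_
    intro d hd hP z hz
    exact Reach.trans hP (hstep d hd z hz)
  have hto : ∀ d : V → Bool, Val E W d → Val (insert (b, a) E) (W.erase v) d →
      Reach E W d (Function.update d v (!d u)) := by
    intro d hd hd2
    have he : Function.update d v (d v) = d := Function.update_eq_self v d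
    have h1 : Val E W (Function.update d v (d v)) := by rw [he]; exact hd
    have h2 := UF_reach_update h1 (hval d hd2)
    rw [he] at h2
    exact h2
  exact ((hto c hc hcv).trans (hall c' hcv')).trans (hto c' hc' hcv').symm

theorem Four.path (h : CE E W) (q : Four E W u v b w a) (hout : outN E W v = {w, a}) (hbw : (b, w) ∈ E)
    (hba : (b, a) ∉ E) (hab : (a, b) ∉ E) {c : V → Bool} (hc : Bad E W c) :
    ReflTransGen (Mono E (W.erase v) c) a b ∧ c a = c b := by
  have hP : ReflTransGen (Mono E (W.erase v) c) a b := by
    by_contra hno
    refine hc.2 (q.join h hout hbw hba hab hc.1 hc.1.neg hno fun hp' => hno ?_)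
    exact rtg_mono (fun _ _ hm => Mono.neg_iff.1 hm) hp'
  exact ⟨hP, rtg_color hP⟩

theorem Four.exists_bad (h : CE E W) (q : Four E W u v b w a) (hout : outN E W v = {w, a}) (hbw : (b, w) ∈ E)
    (hba : (b, a) ∉ E) (hab : (a, b) ∉ E) : ∃ c, Bad E W c := by
  have F := q.facts h
  by_contra hbad
  have hall : ∀ c, Val E W c → Reach E W c (neg c) := by
    intro c hc
    by_contra hno
    exact hbad ⟨c, hc, hno⟩
  -- every valid colouring is joined to one without the path
  have key : ∀ d, Val E W d → ∃ e, Reach E W d e ∧ ¬ ReflTransGen (Mono E (W.erase v) e) a b := by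
    intro d hd
    by_contra hno
    have hpath : ∀ e, Reach E W d e → ReflTransGen (Mono E (W.erase v) e) a b := by
      intro e he
      by_contra hne
      exact hno ⟨e, he, hne⟩
    have hconst : ∀ e, Reach E W d e → e b = d b := by
      intro e he
      induction he with
      | refl => rfl
      | @tail f e hdf hst ih =>
        obtain ⟨hb1, hb2, z, rfl⟩ := hst
        have hde : Reach E W d (flip f z) := ReflTransGen.tail hdf ⟨hb1, hb2, z, rfl⟩
        by_cases hzx : z = b
        · subst hzx
          have h1 : f a = f z := rtg_color (hpath f hdf)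
          have h2 : flip f z a = flip f z z := rtg_color (hpath _ hde)
          rw [flip_self, flip_of_ne F.hba.symm, h1] at h2
          exact absurd h2 (UF_ne _)
        · rw [flip_of_ne (Ne.symm hzx)]
          exact ih
    have h1 := hconst (neg d) (hall d hd)
    rw [neg_apply] at h1
    exact UF_ne _ h1.symm
  apply h.disc
  intro c c' hc hc'
  obtain ⟨e, he, hne⟩ := key c hc
  obtain ⟨e', he', hne'⟩ := key c' hc'
  exact (he.trans (q.join h hout hbw hba hab (he.val hc) (he'.val hc') hne hne')).trans he'.symm

end Mix
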