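import Pool.Agent.Lib.MP_784a73_co.Mix.UF

/-! # ROW UG1 (III.1): `u`, `a`, `b` cannot be flipped in `Bad` colourings

`frozen`: `flip c a` valid would be `Bad` (`Bad.flip`) and `path` for it and for `c` gives `c a = c b` and `!c a = c b`; same for `b`.  `u`: let `c` and `flip c u` be valid (both `Bad`).  For the one of the two in which `u` has the colour `c v`:
`u → v → w → u`, `u → v → a → u` are not mono, so `c w = c a = !c v`; `c b = c a` (`path`).  For the other one (`u` coloured `!c v`) `u → b → w → u` is mono: contradiction. -/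

namespace Mix

open Finset Relation

set_option linter.unusedSectionVars false

variable {V : Type*} [DecidableEq V] [Fintype V] {E : Finset (V × V)} {W : Finset V} {u v b w a y : V}

/-- no mono triangle in a valid colouring -/
private theorem UG1_tri {c : V → Bool} (hc : Val E W c) {p q r : V} (hp : p ∈ W) (hq : q ∈ W) (hr : r ∈ W)
    (h1 : (p, q) ∈ E) (h2 : (q, r) ∈ E) (h3 : (r, p) ∈ E) (e1 : c p = c q) (e2 : c q = c r) : False := by
  have m1 : Mono E W c p q := ⟨h1, hp, hq, e1⟩
  have m2 : Mono E W c q r := ⟨h2, hq, hr, e2⟩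
  have m3 : Mono E W c r p := ⟨h3, hr, hp, by rw [e1, e2]⟩
  have t1 : TransGen (Mono E W c) p q := TransGen.single m1
  have t2 : TransGen (Mono E W c) p r := TransGen.tail t1 m2
  have t3 : TransGen (Mono E W c) p p := TransGen.tail t2 m3
  exact hc p t3

private theorem UG1_aux (f : FourFacts E W u v b w a) (hva : (v, a) ∈ E) (hbw : (b, w) ∈ E) {c : V → Bool}
    (hc : Val E W c) (hf : Val E W (flip c u)) (hab : c a = c b) (huv : c u = c v) : False := by
  have hw : c v ≠ c w := fun e => UG1_tri hc f.uW f.vW f.wW f.uv f.vw f.wu huv e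
  have ha : c v ≠ c a := fun e => UG1_tri hc f.uW f.vW f.aW f.uv hva f.au huv e
  have hub : flip c u u = flip c u b := by
    rw [flip_self, flip_of_ne f.hub.symm, huv, ← hab]
    cases h1 : c v <;> cases h2 : c a <;> simp_all
  have hbw' : flip c u b = flip c u w := by
    rw [flip_of_ne f.hub.symm, flip_of_ne f.huw.symm, ← hab]
    cases h1 : c v <;> cases h2 : c a <;> cases h3 : c w <;> simp_all
  exact UG1_tri hf f.uW f.bW f.wW f.ub hbw f.wu hub hbw'

theorem Four.frozen (h : CE E W) (q : Four E W u v b w a) (hout : outN E W v = {w, a}) (hbw : (b, w) ∈ E)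
    (hba : (b, a) ∉ E) (hab : (a, b) ∉ E) {c : V → Bool} (hc : Bad E W c) :
    ¬ Val E W (flip c u) ∧ ¬ Val E W (flip c a) ∧ ¬ Val E W (flip c b) := by
  have f := q.facts h
  have hva : (v, a) ∈ E := by
    have h1 : a ∈ outN E W v := by rw [hout]; simp
    exact (mem_outN.1 h1).2
  have hcab := (q.path h hout hbw hba hab hc).2
  refine ⟨fun hf => ?_, fun hf => ?_, fun hf => ?_⟩
  · by_cases huv : c u = c v
    · exact UG1_aux f hva hbw hc.1 hf hcab huv
    · refine UG1_aux f hva hbw hf (by rw [flip_flip]; exact hc.1) ?_ ?_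
      · rw [flip_of_ne f.hua.symm, flip_of_ne f.hub.symm, hcab]
      · rw [flip_self, flip_of_ne f.huv.symm]
        cases h1 : c u <;> cases h2 : c v <;> simp_all
  · have h1 := (q.path h hout hbw hba hab (hc.flip hf)).2
    rw [flip_self, flip_of_ne f.hba, ← hcab] at h1
    cases h2 : c a <;> simp [h2] at h1
  · have h1 := (q.path h hout hbw hba hab (hc.flip hf)).2
    rw [flip_self, flip_of_ne f.hba.symm, hcab] at h1
    cases h2 : c b <;> simp [h2] at h1

end Mix
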