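import Pool.Agent.Lib.MP_784a73_co.Mix.UG1

/-! # ROW UG2 (III.1): `c u = c a` in `Bad` colourings -/

namespace Mix

open Finset Relation

set_option linter.unusedSectionVars false

variable {V : Type*} [DecidableEq V] [Fintype V] {E : Finset (V × V)} {W : Finset V} {u v b w a y : V}

theorem Four.eq (h : CE E W) (q : Four E W u v b w a) (hout : outN E W v = {w, a}) (hbw : (b, w) ∈ E)
    (hba : (b, a) ∉ E) (hab : (a, b) ∉ E) {c : V → Bool} (hc : Bad E W c) : c u = c a := by
  have F := q.facts h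
  by_contra hne
  -- normalise `v`
  obtain ⟨c₀, hB₀, hv₀, hua₀⟩ : ∃ c₀, Bad E W c₀ ∧ c₀ v = (!c₀ u) ∧ c₀ u ≠ c₀ a := by
    by_cases hv : c v = !c u
    · exact ⟨c, hc, hv, hne⟩
    · have hvu : c v = c u := by cases h1 : c v <;> cases h2 : c u <;> simp_all
      have e1 : flip c v v = !c u := by rw [flip_self, hvu]
      have e2 : flip c v u = c u := flip_of_ne F.huv
      have hval : Val E W (flip c v) := by
        have e3 : flip c v v = !flip c v u := by rw [e1, e2]
        have hd : ∀ z ∈ ({v} : Finset V), Dead E W (flip c v) z := by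
          intro z hz
          rw [Finset.mem_singleton.1 hz]
          left
          intro p hp hpv
          rw [F.inv p hp hpv, e1, e2]
          cases c u <;> simp
        rw [val_dead hd]
        refine Val.congr (c := c) ?_ (hc.1.anti (Finset.Subset.refl _) Finset.sdiff_subset)
        intro x hx
        have : x ≠ v := fun hxv => (Finset.mem_sdiff.1 hx).2 (by simp [hxv])
        rw [flip_of_ne this]
      refine ⟨flip c v, hc.flip hval, by rw [e1, e2], ?_⟩
      rw [e2, flip_of_ne F.hva.symm]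
      exact hne
  have hab₀ : c₀ a = c₀ b := (Four.path h q hout hbw hba hab hB₀).2
  have hua' : c₀ u = !c₀ a := by cases h1 : c₀ u <;> cases h2 : c₀ a <;> simp_all
  -- the closed set
  have hK : Closed E W {c | Bad E W c ∧ c u = c₀ u ∧ c a = c₀ a} := by
    refine ⟨fun c hc => hc.1.1, fun c hc z hz => ⟨hc.1.flip hz, ?_, ?_⟩⟩
    · by_cases hzu : z = u
      · subst hzu
        exact absurd hz (Four.frozen h q hout hbw hba hab hc.1).1
      · rw [flip_of_ne (Ne.symm hzu)]; exact hc.2.1
    · by_cases hza : z = a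
      · subst hza
        exact absurd hz (Four.frozen h q hout hbw hba hab hc.1).2.1
      · rw [flip_of_ne (Ne.symm hza)]; exact hc.2.2
  have hc₀ : c₀ ∈ {c | Bad E W c ∧ c u = c₀ u ∧ c a = c₀ a} := ⟨hB₀, rfl, rfl⟩
  have hLW : ({u, v} : Finset V) ⊆ W := by
    intro x hx
    rcases Finset.mem_insert.1 hx with rfl | hx
    · exact F.uW
    · rw [Finset.mem_singleton.1 hx]; exact F.vW
  have hL : ({u, v} : Finset V).Nonempty := ⟨u, Finset.mem_insert_self _ _⟩
  have hss := sdiff_ssub hLW hL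
  have hM : ∀ x ∈ W, x ≠ u → x ≠ v → x ∈ W \ {u, v} := by
    intro x hx h1 h2
    rw [Finset.mem_sdiff]
    refine ⟨hx, ?_⟩
    intro h3
    rcases Finset.mem_insert.1 h3 with h3 | h3
    · exact h1 h3
    · exact h2 (Finset.mem_singleton.1 h3)
  have hbM := hM b F.bW F.hub.symm F.hvb.symm
  have haM := hM a F.aW F.hua.symm F.hva.symm
  have hwM := hM w F.wW F.huw.symm F.hvw.symm
  have hlb : (b, b) ∉ E := h.good.1.loop F.bW
  have hlw : (w, w) ∉ E := h.good.1.loop F.wW
  obtain ⟨H₀, hH₀, hbH, hf2, -, hg⟩ := exists_max_min (E := E) hbM hlb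
  have hf : 2 ≤ ff E H₀ := h.two' hss H₀ hH₀ ⟨b, hbH⟩
  have hu0 : u ∉ H₀ := fun hx => (Finset.mem_sdiff.1 (hH₀ hx)).2 (by simp)
  have hv0 : v ∉ H₀ := fun hx => (Finset.mem_sdiff.1 (hH₀ hx)).2 (by simp)
  have hbu₀ : c₀ b ≠ c₀ u := by
    rw [hua', hab₀]; cases c₀ b <;> simp
  have hext : ∀ c, (∀ l ∈ ({u, v} : Finset V), c l = c₀ l) → c b = c₀ b → Val E (W \ {u, v}) c → Val E W c := by
    intro c hcL hcb' hval
    have h1 : c u = c₀ u := hcL u (by simp)
    have h2 : c v = c₀ v := hcL v (by simp)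
    have h3 : c v = !c u := by rw [h1, h2]; exact hv₀
    have h4 : c b ≠ c u := by rw [hcb', h1]; exact hbu₀
    exact (Four.val_iff h q h3).2 ⟨hval, fun h5 => absurd h5 h4, fun h5 => absurd h5 h4⟩
  have hv0M : Val E (W \ {u, v}) c₀ := hB₀.1.anti (Finset.Subset.refl _) Finset.sdiff_subset
  -- `a ∈ H₀`
  have haH : a ∈ H₀ := by
    by_contra hna
    obtain ⟨c, hcK, -, -, -, hcx⟩ := princPX h hLW hL (h.good.sub Finset.sdiff_subset) hH₀ hg hK hc₀ hv0M
      (fun c h1 h2 h3 => hext c h1 (h2 b hbH) h3) (x := a) (Finset.mem_sdiff.2 ⟨haM, hna⟩) (!c₀ a)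
    have h1 : c a = c₀ a := hcK.2.2
    rw [h1] at hcx
    revert hcx
    cases c₀ a <;> simp
  have hwH : w ∉ H₀ := by
    intro hwH
    have := F.three H₀ (hH₀.trans Finset.sdiff_subset) hu0 hv0 hbH hwH haH
    omega
  have hbin : b ∈ inN E H₀ w := mem_inN.2 ⟨hbH, hbw⟩
  have hdeg : deg E H₀ w = 1 := by
    have h1 : 1 ≤ (inN E H₀ w).card := Finset.card_pos.2 ⟨b, hbin⟩
    have h2 : 1 ≤ deg E H₀ w := by unfold deg; omega
    have h3 := hg {w} (by
      intro x hx
      rw [Finset.mem_singleton.1 hx]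
      exact Finset.mem_sdiff.2 ⟨hwM, hwH⟩) ⟨w, Finset.mem_singleton_self _⟩
    have h4 : ({w} : Finset V) ∪ H₀ = insert w H₀ := rfl
    rw [h4, ff_insert hwH hlw] at h3
    omega
  have hin : ∀ p ∈ H₀, (p, w) ∈ E → p = b := by
    intro p hp hpw
    have h1 : (inN E H₀ w).card ≤ 1 := by unfold deg at hdeg; omega
    exact Finset.card_le_one.1 h1 p (mem_inN.2 ⟨hp, hpw⟩) b hbin
  have hins : insert w H₀ \ {w} = H₀ := by
    ext x
    simp only [Finset.mem_sdiff, Finset.mem_insert, Finset.mem_singleton]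
    constructor
    · rintro ⟨h1 | h1, h2⟩
      · exact absurd h1 h2
      · exact h1
    · intro h1
      exact ⟨Or.inr h1, fun h2 => hwH (h2 ▸ h1)⟩
  have hwb : w ≠ b := F.hbw.symm
  refine princFX (A' := ∅) (om := c₀ b) h hLW hL hH₀ hg hK hc₀ hbH (Finset.mem_sdiff.2 ⟨hwM, hwH⟩) hdeg
    hext ?_ ?_ ?_
  · intro x hx
    simp at hx
  · intro g _ hg2 hgb _
    rw [Finset.union_empty]
    have hgw : Function.update (flip g b) w (c₀ b) w = c₀ b := by simp
    have hgb' : Function.update (flip g b) w (c₀ b) b = !c₀ b := by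
      rw [Function.update_of_ne hwb.symm, flip_self, hgb]
    have hdead : ∀ z ∈ ({w} : Finset V), Dead E (insert w H₀) (Function.update (flip g b) w (c₀ b)) z := by
      intro z hz
      rw [Finset.mem_singleton.1 hz]
      left
      intro p hp hpE
      have hpb : p = b := by
        rcases Finset.mem_insert.1 hp with h1 | h1
        · subst h1; exact absurd hpE hlw
        · exact hin p h1 hpE
      rw [hpb, hgb', hgw]
      cases c₀ b <;> simp
    rw [val_dead hdead, hins]
    refine hg2.congr ?_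
    intro x hx
    have hxw : x ≠ w := fun h1 => hwH (h1 ▸ hx)
    rw [Function.update_of_ne hxw]
  · intro c hc hcL hcb' hcw hvd
    rw [Finset.union_empty] at hvd
    have hu : c u = c₀ u := hcL u (by simp)
    have hvv : c v = c₀ v := hcL v (by simp)
    have hcaa : c a = c₀ a := hc.2.2
    -- `u` and `v` are dead in `flip c b`
    have hdead : ∀ z ∈ ({u, v} : Finset V), Dead E W (flip c b) z := by
      intro z hz
      rcases Finset.mem_insert.1 hz with rfl | hz
      · left
        intro p hp hpu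
        rcases F.inu p hp hpu with rfl | rfl
        · rw [flip_of_ne hwb, flip_of_ne F.hub, hcw, hu]
          exact hbu₀
        · rw [flip_of_ne F.hba.symm, flip_of_ne F.hub, hcaa, hu]
          exact Ne.symm hua₀
      · rw [Finset.mem_singleton.1 hz]
        left
        intro p hp hpv
        rw [F.inv p hp hpv, flip_of_ne F.hub, flip_of_ne F.hvb, hu, hvv, hv₀]
        cases c₀ u <;> simp
    have hvW : Val E W (flip c b) := (val_dead hdead).2 hvd
    exact (Four.frozen h q hout hbw hba hab hc.1).2.2 hvW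

end Mix
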