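import Pool.Agent.Lib.MP_784a73_co.Mix.UG
import Pool.Agent.Lib.MP_784a73_co.Mix.UC
import Pool.Agent.Lib.MP_784a73_co.Mix.S4Defs

/-! # ROW UH: type III.1, result

For `c` `Bad`: `c u = c a = c b` (`Four.eq`, `Four.path`); `u → b → w → u` gives `c w = !c u`, `v → a → u → v` gives `c v = !c u`.  `(a, w) ∈ E` by `Four.aw`.  Neighbours of `w`: in: `v, a, b`, out: `u`, so `deg E W w ≥ 4`.
Suppose `deg E W w = 4`: then `outN E W w = {u}`.  `L := {u, v, w}`, `E' := insert (a, b) E`, good on `W \ L` (`Good.add_one`).  `K := {c | Bad c ∧ c u = c₀ u}` (`Bad.closed_frozen`).  A colouring `c` with `c = c₀` on `L` (`c₀ v = c₀ w = !c₀ u`) is valid on `W` iff it is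
valid on `W \ L` and has no mono path `b ⇒ a` of colour `c u` in `W \ L` (`w` is dead: its only out-neighbour is `u`; `v` is dead; `val_insert` for `u`).  `c₀` is valid for `E'`; every `c` valid for `E'` on `W \ L` with `c = c₀` on `L` is valid on
`W`; `a` is frozen in `K`: `princX_false`. -/

namespace Mix

open Finset Relation

set_option linter.unusedSectionVars false

variable {V : Type*} [DecidableEq V] [Fintype V] {E : Finset (V × V)} {W : Finset V} {u v b w a y : V}

/-- a mono triangle is impossible -/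
private theorem no_tri {c : V → Bool} (hc : Val E W c) {p q r : V} (hp : p ∈ W) (hq : q ∈ W) (hr : r ∈ W)
    (h1 : (p, q) ∈ E) (h2 : (q, r) ∈ E) (h3 : (r, p) ∈ E) (e1 : c p = c q) (e2 : c q = c r) : False :=
  hc.no_back (p := p) (q := q) ⟨h1, hp, hq, e1⟩
    ((ReflTransGen.single ⟨h2, hq, hr, e2⟩).tail ⟨h3, hr, hp, by rw [← e2, ← e1]⟩)

private theorem bad_colours (h : CE E W) (q : Four E W u v b w a) (hout : outN E W v = {w, a}) (hbw : (b, w) ∈ E)
    (hba : (b, a) ∉ E) (hab : (a, b) ∉ E) :
    ∀ c, Bad E W c → c v = (!c u) ∧ c w = (!c u) ∧ c a = c u := by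
  intro c hc
  have f := Four.facts h q
  have e1 : c u = c a := Four.eq h q hout hbw hba hab hc
  have e2 : c a = c b := (Four.path h q hout hbw hba hab hc).2
  have hva : (v, a) ∈ E := (mem_outN.1 (by rw [hout]; simp : a ∈ outN E W v)).2
  refine ⟨?_, ?_, e1.symm⟩
  · by_contra hne
    have e3 : c v = c u := by cases h1 : c v <;> cases h2 : c u <;> simp_all
    exact no_tri hc.1 f.vW f.aW f.uW hva f.au f.uv (e3.trans e1) e1.symm
  · by_contra hne
    have e3 : c w = c u := by cases h1 : c w <;> cases h2 : c u <;> simp_all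
    exact no_tri hc.1 f.uW f.bW f.wW f.ub hbw f.wu (e1.trans e2) (by rw [← e2, ← e1, e3])

theorem Four.typeIII (h : CE E W) (q : Four E W u v b w a) (hout : outN E W v = {w, a}) (hbw : (b, w) ∈ E)
    (hba : (b, a) ∉ E) (hab : (a, b) ∉ E) : 5 ≤ deg E W w ∧ SP E W w v u a b a := by
  have f := Four.facts h q
  have hex : ∃ c, Bad E W c := Four.exists_bad h q hout hbw hba hab
  have hbad := bad_colours h q hout hbw hba hab
  have haw : (a, w) ∈ E := Four.aw h q hex hbad hba
  have hfroz : ∀ c, Bad E W c → ¬ Val E W (flip c u) := fun c hc => (Four.frozen h q hout hbw hba hab hc).1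
  refine ⟨?_, ?_⟩
  · -- the degree
    have hin : ({v, a, b} : Finset V) ⊆ inN E W w := by
      intro p hp
      simp only [Finset.mem_insert, Finset.mem_singleton] at hp
      rcases hp with rfl | rfl | rfl
      · exact mem_inN.2 ⟨f.vW, f.vw⟩
      · exact mem_inN.2 ⟨f.aW, haw⟩
      · exact mem_inN.2 ⟨f.bW, hbw⟩
    have hin3 : ({v, a, b} : Finset V).card = 3 := by
      rw [Finset.card_insert_of_notMem, Finset.card_insert_of_notMem, Finset.card_singleton]
      · simp only [Finset.mem_singleton]; exact f.hba.symm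
      · simp only [Finset.mem_insert, Finset.mem_singleton, not_or]; exact ⟨f.hva, f.hvb⟩
    have hin3' : 3 ≤ (inN E W w).card := by rw [← hin3]; exact Finset.card_le_card hin
    have huout : u ∈ outN E W w := mem_outN.2 ⟨f.uW, f.wu⟩
    by_contra hlt
    have hd : deg E W w ≤ 4 := by omega
    have hout1 : (outN E W w).card ≤ 1 := by unfold deg at hd; omega
    have hwout : ∀ p ∈ W, (w, p) ∈ E → p = u := by
      intro p hp hwp
      exact Finset.card_le_one.1 hout1 p (mem_outN.2 ⟨hp, hwp⟩) u huout
    obtain ⟨c₀, hc₀⟩ := hex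
    set L : Finset V := {u, v, w} with hLdef
    have hLW : L ⊆ W := by
      intro p hp
      simp only [hLdef, Finset.mem_insert, Finset.mem_singleton] at hp
      rcases hp with rfl | rfl | rfl
      · exact f.uW
      · exact f.vW
      · exact f.wW
    have hLne : L.Nonempty := ⟨u, by simp [hLdef]⟩
    have hss := sdiff_ssub hLW hLne
    have huL : u ∈ L := by simp [hLdef]
    have hvL : v ∈ L := by simp [hLdef]
    have hwL : w ∈ L := by simp [hLdef]
    have haL : a ∈ W \ L := by
      refine Finset.mem_sdiff.2 ⟨f.aW, ?_⟩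
      simp only [hLdef, Finset.mem_insert, Finset.mem_singleton, not_or]
      exact ⟨f.hua.symm, f.hva.symm, f.hwa.symm⟩
    have hbL : b ∈ W \ L := by
      refine Finset.mem_sdiff.2 ⟨f.bW, ?_⟩
      simp only [hLdef, Finset.mem_insert, Finset.mem_singleton, not_or]
      exact ⟨f.hub.symm, f.hvb.symm, f.hbw⟩
    have hG : Good (insert (a, b) E) (W \ L) :=
      Good.add_one (h.good.1.sub Finset.sdiff_subset) (h.two' hss) f.hba.symm hba
    have hK := Bad.closed_frozen (c₀ u) hfroz
    have hsubE : E ⊆ insert (a, b) E := Finset.subset_insert _ _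
    have hsd : (W \ {u, v}) \ {w} = W \ L := by
      ext p
      simp only [hLdef, Finset.mem_sdiff, Finset.mem_insert, Finset.mem_singleton]
      tauto
    have hsub : W \ L ⊆ W \ {u, v} := by rw [← hsd]; exact Finset.sdiff_subset
    have h0v : Val (insert (a, b) E) (W \ L) c₀ := by
      rw [val_insert_arc]
      refine ⟨hc₀.1.anti (Finset.Subset.refl E) Finset.sdiff_subset, fun _ _ e hpath => ?_⟩
      have hb := hbad c₀ hc₀
      have := ((Four.val_iff h q hb.1).1 hc₀.1).2.2 (by rw [← e]; exact hb.2.2) hb.2.2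
      exact this (rtg_mono (fun _ _ hm => Mono.mono (Finset.Subset.refl E) hsub hm) hpath)
    refine princX_false h hLW hLne hG hK (c0 := c₀) ⟨hc₀, rfl⟩ h0v ?_ haL ?_
    · intro c hcK hcL hcv z hz hfl
      have hzu : u ≠ z := fun e => (Finset.mem_sdiff.1 hz).2 (e ▸ huL)
      have hzv : v ≠ z := fun e => (Finset.mem_sdiff.1 hz).2 (e ▸ hvL)
      have hzw : w ≠ z := fun e => (Finset.mem_sdiff.1 hz).2 (e ▸ hwL)
      have hb := hbad c hcK.1
      have ev : flip c z v = (!flip c z u) := by rw [flip_of_ne hzv, flip_of_ne hzu]; exact hb.1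
      have ew : flip c z w = (!flip c z u) := by rw [flip_of_ne hzw, flip_of_ne hzu]; exact hb.2.1
      have hdead : ∀ p ∈ ({w} : Finset V), Dead E (W \ {u, v}) (flip c z) p := by
        intro p hp
        rw [Finset.mem_singleton] at hp
        subst hp
        refine Or.inr (fun q' hq' hwq => ?_)
        have := hwout q' (Finset.mem_sdiff.1 hq').1 hwq
        subst this
        exact absurd (by simp) (Finset.mem_sdiff.1 hq').2
      rw [val_insert_arc] at hfl
      rw [Four.val_iff h q ev]
      refine ⟨?_, ?_, ?_⟩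
      · rw [val_dead hdead, hsd]
        exact hfl.1
      · intro _ e2
        rw [ew] at e2
        cases hcu : flip c z u <;> simp [hcu] at e2
      · intro e1 e2 hpath
        have hpath' := rtg_dead hdead (p := b) (q := a) (by simpa using f.hbw) (by simpa using f.hwa.symm) hpath
        rw [hsd] at hpath'
        exact hfl.2 haL hbL (e2.trans e1.symm) hpath'
    · intro c hcK
      rw [(hbad c hcK.1).2.2, (hbad c₀ hc₀).2.2]
      exact hcK.2
  · exact
    { vW := f.vW
      inv := q.tp.2.1
      outv := hout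
      inu := q.inu
      outu := q.outu
      hxw := f.hwa
      hxa := f.hwa
      hvb := f.hvb
      ax := haw
      bx := hbw
      wx := haw
      ba := hba
      hw := Or.inl rfl
      bad := by
        intro c hc
        obtain ⟨e1, e2, e3⟩ := hbad c hc
        rw [e1, e2, e3]
        simp }

end Mix
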