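import Pool.Agent.Lib.MP_784a73_co.Mix.U0

/-! # ROW UJ (III.2): `v → w, a`, `b → w`, `a → b`: `a → w` is not an arc

Suppose `(a, w) ∈ E`.  `X₀ := {u, v, b, w, a}` contains the 9 arcs `(u,v), (u,b), (w,u), (a,u), (v,w), (v,a), (b,w), (a,b), (a,w)`, so `ff E X₀ ≤ 1` and `X₀ = W` (`h.two`).  So `inN E W b = {u, a}`, `outN E W b = {w}` (the others are excluded by `Ori` and by the
given neighbourhoods of `u`, `v`), i.e. `TM E W w b`.  Now `CE.nonadj` for the reversed graph (`h.rev`, `TP_rev`, in which `w → b → a`): `(a, w) ∉ rev E` (`Ori`), so `(w, a) ∉ rev E`, i.e. `(a, w) ∉ E`: contradiction. -/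

namespace Mix

open Finset Relation

set_option linter.unusedSectionVars false

variable {V : Type*} [DecidableEq V] [Fintype V] {E : Finset (V × V)} {W : Finset V} {u v b w a y : V}

theorem Four.not_aw (h : CE E W) (q : Four E W u v b w a) (hout : outN E W v = {w, a}) (hbw : (b, w) ∈ E)
    (hab : (a, b) ∈ E) : (a, w) ∉ E := by
  intro haw
  have F := q.facts h
  have hO : Ori E W := h.good.1
  have hva : (v, a) ∈ E := by
    have : a ∈ outN E W v := by rw [hout]; simp
    exact (mem_outN.1 this).2
  have hvn : ∀ p ∈ W, (v, p) ∈ E → p = w ∨ p = a := by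
    intro p hp hvp
    have : p ∈ outN E W v := mem_outN.2 ⟨hp, hvp⟩
    rw [hout] at this
    simpa using this
  -- the set of five vertices
  have hcard : ({u, v, b, w, a} : Finset V).card = 5 := by
    rw [Finset.card_insert_of_notMem, Finset.card_insert_of_notMem, Finset.card_insert_of_notMem,
      Finset.card_insert_of_notMem, Finset.card_singleton]
    · simp [F.hwa]
    · simp [F.hbw, F.hba]
    · simp [F.hvb, F.hvw, F.hva]
    · simp [F.huv, F.hub, F.huw, F.hua]
  have hsub : ({u, v, b, w, a} : Finset V) ⊆ W := by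
    intro p hp
    simp only [Finset.mem_insert, Finset.mem_singleton] at hp
    rcases hp with rfl | rfl | rfl | rfl | rfl
    exacts [F.uW, F.vW, F.bW, F.wW, F.aW]
  have hne : ({u, v, b, w, a} : Finset V).Nonempty := ⟨u, by simp⟩
  have hsubE : ({(u, v), (u, b), (w, u), (a, u), (v, w), (v, a), (b, w), (a, b), (a, w)} : Finset (V × V))
      ⊆ E.filter (fun z => z.1 ∈ ({u, v, b, w, a} : Finset V) ∧ z.2 ∈ ({u, v, b, w, a} : Finset V)) := by
    intro z hz
    simp only [Finset.mem_insert, Finset.mem_singleton] at hz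
    rw [Finset.mem_filter]
    rcases hz with rfl | rfl | rfl | rfl | rfl | rfl | rfl | rfl | rfl
    · exact ⟨F.uv, by simp, by simp⟩
    · exact ⟨F.ub, by simp, by simp⟩
    · exact ⟨F.wu, by simp, by simp⟩
    · exact ⟨F.au, by simp, by simp⟩
    · exact ⟨F.vw, by simp, by simp⟩
    · exact ⟨hva, by simp, by simp⟩
    · exact ⟨hbw, by simp, by simp⟩
    · exact ⟨hab, by simp, by simp⟩
    · exact ⟨haw, by simp, by simp⟩
  have hnine : ({(u, v), (u, b), (w, u), (a, u), (v, w), (v, a), (b, w), (a, b), (a, w)} :
      Finset (V × V)).card = 9 := by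
    have h1 := F.huv
    have h2 := F.hub
    have h3 := F.huw
    have h4 := F.hua
    have h5 := F.hvb
    have h6 := F.hvw
    have h7 := F.hva
    have h8 := F.hbw
    have h9 := F.hba
    have h10 := F.hwa
    rw [Finset.card_insert_of_notMem, Finset.card_insert_of_notMem, Finset.card_insert_of_notMem,
      Finset.card_insert_of_notMem, Finset.card_insert_of_notMem, Finset.card_insert_of_notMem,
      Finset.card_insert_of_notMem, Finset.card_insert_of_notMem, Finset.card_singleton] <;>
    simp [h1, h2, h3, h4, h5, h6, h7, h8, h9, h10, h1.symm, h2.symm, h3.symm, h4.symm, h5.symm,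
      h6.symm, h7.symm, h8.symm, h9.symm, h10.symm]
  have hff : ff E {u, v, b, w, a} ≤ 1 := by
    have := Finset.card_le_card hsubE
    rw [hnine] at this
    rw [ff, ecard, hcard]
    push_cast
    omega
  have hW : ({u, v, b, w, a} : Finset V) = W := by
    by_contra hcon
    have := h.two _ hsub hne hcon
    omega
  have hmemW : ∀ p ∈ W, p = u ∨ p = v ∨ p = b ∨ p = w ∨ p = a := by
    intro p hp
    rw [← hW] at hp
    simpa using hp
  have hin : inN E W b = {u, a} := by
    ext p
    rw [mem_inN]
    simp only [Finset.mem_insert, Finset.mem_singleton]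
    constructor
    · rintro ⟨hp, hpb⟩
      rcases hmemW p hp with rfl | rfl | rfl | rfl | rfl
      · exact Or.inl rfl
      · rcases hvn _ F.bW hpb with hh | hh
        · exact absurd hh F.hbw
        · exact absurd hh F.hba
      · exact absurd hpb (hO.loop hp)
      · exact absurd hpb (hO _ F.bW _ F.wW hbw)
      · exact Or.inr rfl
    · rintro (rfl | rfl)
      · exact ⟨F.uW, F.ub⟩
      · exact ⟨F.aW, hab⟩
  have hob : outN E W b = {w} := by
    ext p
    rw [mem_outN]
    simp only [Finset.mem_singleton]
    constructor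
    · rintro ⟨hp, hpb⟩
      rcases hmemW p hp with rfl | rfl | rfl | rfl | rfl
      · rcases F.inu _ F.bW hpb with hh | hh
        · exact absurd hh F.hbw
        · exact absurd hh F.hba
      · exact absurd (F.inv _ F.bW hpb) F.hub.symm
      · exact absurd hpb (hO.loop hp)
      · rfl
      · exact absurd hpb (hO _ F.aW _ F.bW hab)
    · rintro rfl
      exact ⟨F.wW, hbw⟩
  have hTM : TM E W w b := by
    refine ⟨F.bW, hob, ?_⟩
    rw [hin, Finset.card_pair F.hua]
  have hTP : TP (rev E) W w b := TP_rev.2 hTM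
  have ha : a ∈ outN (rev E) W b := by rw [outN_rev, hin]; simp
  have hnr : (a, w) ∉ rev E := by
    rw [mem_rev]
    exact hO _ F.aW _ F.wW haw
  have := (h.rev.nonadj hTP ha hnr).1
  rw [mem_rev] at this
  exact this haw

end Mix
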