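import Pool.Agent.Lib.MP_784a73_co.Mix.U0

/-! # ROW UK (III.2): the colourings `S c`

Arcs: `u → v, b`, `w, a → u`, `v → w, a`, `b → w`, `a → b`.  `M := W \ {u, v}`.
`upd c g := (c, u ↦ g, v ↦ !g)`.
`good_flip`: `c` valid on `M`, `c w = c a ≠ c b`: `upd c g` is valid for both `g` (`Four.val_iff`: `c b = g` and `c w = g` or `c a = g` is impossible) and `upd c g`, `upd c (!g)` are joined: let `d := c w = c a`; a vertex `v` of colour `!d` has no mono out-arc,
hence is dead.  `(c, u ↦ !d, v ↦ d) → (c, u ↦ !d, v ↦ !d) → (c, u ↦ d, v ↦ !d)` are flips of `v`, then of `u`.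
`S c := upd c (!c w)`, i.e. `u ↦ !c w, v ↦ c w`.  `val_S`: `c` valid on `M`: `S c` is valid on `W` (`Four.val_iff`: `c w ≠ c u`; a mono path `b ⇒ a` closes with the arc `a → b`).
`S_join`: `E' := insert (w, a) E`, good on `M` (`Good.add_one`, `(a, w) ∉ E`), `Conn E' M`.  `Conn.induct`, `P c := Reach E W (S c₀) (S c)`.  Flip of `z ≠ w`, `z ∈ M`: `S (flip c z) = flip (S c) z`, valid; `z = u, v`: `S (flip c z) = S c`; `z ∉ W`: flip.
Flip of `w`: `c, flip c w` valid for `E'` on `M`.  `c a ≠ c b`, since otherwise `a → b → w → a` is a mono cycle for `E'` in one of them.  By symmetry (`Reach.symm`) `c w = c a ≠ c b`.  `S c = upd c (!c w)`, joined to `upd c (c w)` (`good_flip`), and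
`flip (upd c (c w)) w = S (flip c w)` is valid (`val_S`). -/

namespace Mix

open Finset Relation

set_option linter.unusedSectionVars false

variable {V : Type*} [DecidableEq V] [Fintype V] {E : Finset (V × V)} {W : Finset V} {u v b w a y : V}

/-- `u ↦ g`, `v ↦ !g` -/
def upd (u v : V) (c : V → Bool) (g : Bool) : V → Bool :=
  Function.update (Function.update c u g) v (!g)

theorem uk_u {c : V → Bool} {g : Bool} (huv : u ≠ v) : upd u v c g u = g := by
  simp [upd, Function.update_of_ne huv]

theorem uk_v {c : V → Bool} {g : Bool} : upd u v c g v = !g := by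
  simp [upd]

theorem uk_o {c : V → Bool} {g : Bool} {x : V} (hu : x ≠ u) (hv : x ≠ v) : upd u v c g x = c x := by
  simp [upd, Function.update_of_ne hu, Function.update_of_ne hv]

theorem uk_bool {x y : Bool} (h : x ≠ y) : x = !y := by
  cases x <;> cases y <;> simp_all

theorem uk_mem {x : V} : x ∈ W \ {u, v} ↔ x ∈ W ∧ x ≠ u ∧ x ≠ v := by
  simp [Finset.mem_sdiff]

theorem uk_valM {c : V → Bool} (hc : Val E (W \ {u, v}) c) (g : Bool) : Val E (W \ {u, v}) (upd u v c g) :=
  hc.congr (fun x hx => by
    obtain ⟨_, h1, h2⟩ := uk_mem.1 hx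
    exact (uk_o h1 h2).symm)

theorem Four.uk_val (h : CE E W) (q : Four E W u v b w a)
    {c : V → Bool} (hc : Val E (W \ {u, v}) c) (h1 : c w = c a) (h2 : c b ≠ c w) (g : Bool) :
    Val E W (upd u v c g) := by
  have F := q.facts h
  have ew : upd u v c g w = c w := uk_o F.huw.symm F.hvw.symm
  have ea : upd u v c g a = c a := uk_o F.hua.symm F.hva.symm
  have eb : upd u v c g b = c b := uk_o F.hub.symm F.hvb.symm
  have eu : upd u v c g u = g := uk_u F.huv
  have ev : upd u v c g v = !g := uk_v
  refine (q.val_iff h (by rw [ev, eu])).2 ⟨uk_valM hc g, ?_, ?_⟩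
  · intro hb hw
    rw [eb, eu] at hb
    rw [ew, eu] at hw
    exact absurd (hb.trans hw.symm) h2
  · intro hb ha
    rw [eb, eu] at hb
    rw [ea, eu] at ha
    exact absurd (hb.trans (ha.symm.trans h1.symm)) h2

theorem Four.good_flip (h : CE E W) (q : Four E W u v b w a) (hout : outN E W v = {w, a})
    {c : V → Bool} (hc : Val E (W \ {u, v}) c) (h1 : c w = c a) (h2 : c b ≠ c w) (g : Bool) :
    Val E W (upd u v c g) ∧ Reach E W (upd u v c g) (upd u v c (!g)) := by
  refine ⟨q.uk_val h hc h1 h2 g, ?_⟩
  have F := q.facts h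
  -- the main path
  have key : Reach E W (upd u v c (!c w)) (upd u v c (c w)) := by
    have hV1 := q.uk_val h hc h1 h2 (!c w)
    have hV2 := q.uk_val h hc h1 h2 (c w)
    have hmid : Val E W (Mix.flip (upd u v c (!c w)) v) := by
      have hdead : ∀ x ∈ ({v} : Finset V), Dead E W (Mix.flip (upd u v c (!c w)) v) x := by
        intro x hx
        rw [Finset.mem_singleton] at hx
        subst hx
        right
        intro y hy hxy
        have hy2 : y ∈ outN E W x := mem_outN.2 ⟨hy, hxy⟩
        rw [hout, Finset.mem_insert, Finset.mem_singleton] at hy2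
        rw [flip_self, uk_v, Bool.not_not]
        rcases hy2 with rfl | rfl
        · rw [flip_of_ne F.hvw.symm, uk_o F.huw.symm F.hvw.symm]
          cases c y <;> simp
        · rw [flip_of_ne F.hva.symm, uk_o F.hua.symm F.hva.symm, h1]
          cases c y <;> simp
      refine (val_dead hdead).2 ?_
      refine Val.congr (c := upd u v c (!c w)) ?_ (hV1.anti (Finset.Subset.refl _) Finset.sdiff_subset)
      intro x hx
      rw [Finset.mem_sdiff, Finset.mem_singleton] at hx
      rw [flip_of_ne hx.2]
    have e2 : Mix.flip (Mix.flip (upd u v c (!c w)) v) u = upd u v c (c w) := by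
      funext x
      by_cases hxu : x = u
      · subst hxu
        rw [flip_self, flip_of_ne F.huv, uk_u F.huv, uk_u F.huv, Bool.not_not]
      · rw [flip_of_ne hxu]
        by_cases hxv : x = v
        · subst hxv
          rw [flip_self, uk_v, uk_v, Bool.not_not]
        · rw [flip_of_ne hxv, uk_o hxu hxv, uk_o hxu hxv]
    refine (Reach.flip hV1 hmid).trans ?_
    rw [← e2]
    exact Reach.flip hmid (by rw [e2]; exact hV2)
  by_cases hg : g = c w
  · rw [hg]; exact key.symm
  · rw [uk_bool hg, Bool.not_not]; exact key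

theorem Four.val_S (h : CE E W) (q : Four E W u v b w a) (hab : (a, b) ∈ E)
    {c : V → Bool} (hc : Val E (W \ {u, v}) c) : Val E W (upd u v c (!c w)) := by
  have F := q.facts h
  have ew : upd u v c (!c w) w = c w := uk_o F.huw.symm F.hvw.symm
  have ea : upd u v c (!c w) a = c a := uk_o F.hua.symm F.hva.symm
  have eb : upd u v c (!c w) b = c b := uk_o F.hub.symm F.hvb.symm
  have eu : upd u v c (!c w) u = !c w := uk_u F.huv
  have ev : upd u v c (!c w) v = !(!c w) := uk_v
  refine (q.val_iff h (by rw [ev, eu])).2 ⟨uk_valM hc _, ?_, ?_⟩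
  · intro hb hw
    rw [ew, eu] at hw
    exact absurd hw (by cases c w <;> simp)
  · intro hb ha hp
    have haM : a ∈ W \ {u, v} := uk_mem.2 ⟨F.aW, F.hua.symm, F.hva.symm⟩
    have hbM : b ∈ W \ {u, v} := uk_mem.2 ⟨F.bW, F.hub.symm, F.hvb.symm⟩
    exact (uk_valM hc _).no_back ⟨hab, haM, hbM, by rw [ha, hb]⟩ hp

theorem Four.uk_w (h : CE E W) (q : Four E W u v b w a) (hout : outN E W v = {w, a})
    (hab : (a, b) ∈ E) {c : V → Bool} (hc : Val E (W \ {u, v}) c)
    (hc' : Val E (W \ {u, v}) (Mix.flip c w)) (h1 : c w = c a) (h2 : c b ≠ c w) :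
    Reach E W (upd u v c (!c w)) (upd u v (Mix.flip c w) (!(Mix.flip c w) w)) := by
  have F := q.facts h
  have g1 := (q.good_flip h hout hc h1 h2 (!c w)).2
  rw [Bool.not_not] at g1
  have e2 : Mix.flip (upd u v c (c w)) w = upd u v (Mix.flip c w) (!(Mix.flip c w) w) := by
    funext x
    rw [flip_self, Bool.not_not]
    by_cases hxw : x = w
    · subst hxw
      rw [flip_self, uk_o F.huw.symm F.hvw.symm, uk_o F.huw.symm F.hvw.symm, flip_self]
    · rw [flip_of_ne hxw]
      by_cases hxv : x = v
      · subst hxv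
        rw [uk_v, uk_v]
      · by_cases hxu : x = u
        · subst hxu
          rw [uk_u F.huv, uk_u F.huv]
        · rw [uk_o hxu hxv, uk_o hxu hxv, flip_of_ne hxw]
  refine g1.trans ?_
  rw [← e2]
  exact Reach.flip (q.uk_val h hc h1 h2 (c w)) (by rw [e2]; exact q.val_S h hab hc')

theorem Four.uk_step (h : CE E W) (q : Four E W u v b w a) (hout : outN E W v = {w, a}) (hbw : (b, w) ∈ E)
    (hab : (a, b) ∈ E) {c : V → Bool} {z : V}
    (hc : Val (insert (w, a) E) (W \ {u, v}) c) (hc' : Val (insert (w, a) E) (W \ {u, v}) (Mix.flip c z)) :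
    Reach E W (upd u v c (!c w)) (upd u v (Mix.flip c z) (!(Mix.flip c z) w)) := by
  have F := q.facts h
  have haM : a ∈ W \ {u, v} := uk_mem.2 ⟨F.aW, F.hua.symm, F.hva.symm⟩
  have hbM : b ∈ W \ {u, v} := uk_mem.2 ⟨F.bW, F.hub.symm, F.hvb.symm⟩
  have hwM : w ∈ W \ {u, v} := uk_mem.2 ⟨F.wW, F.huw.symm, F.hvw.symm⟩
  have hsub : E ⊆ insert (w, a) E := Finset.subset_insert _ _
  have hcE : Val E (W \ {u, v}) c := hc.anti hsub (Finset.Subset.refl _)
  have hcE' : Val E (W \ {u, v}) (Mix.flip c z) := hc'.anti hsub (Finset.Subset.refl _)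
  by_cases hzu : z = u
  · have e : upd u v (Mix.flip c z) (!(Mix.flip c z) w) = upd u v c (!c w) := by
      funext x
      rw [flip_of_ne (v := w) (z := z) (by rw [hzu]; exact F.huw.symm)]
      by_cases hxv : x = v
      · subst hxv; rw [uk_v, uk_v]
      · by_cases hxu : x = u
        · subst hxu; rw [uk_u F.huv, uk_u F.huv]
        · rw [uk_o hxu hxv, uk_o hxu hxv, flip_of_ne (by rw [hzu]; exact hxu)]
    rw [e]
    exact ReflTransGen.refl
  · by_cases hzv : z = v
    · have e : upd u v (Mix.flip c z) (!(Mix.flip c z) w) = upd u v c (!c w) := by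
        funext x
        rw [flip_of_ne (v := w) (z := z) (by rw [hzv]; exact F.hvw.symm)]
        by_cases hxv : x = v
        · subst hxv; rw [uk_v, uk_v]
        · by_cases hxu : x = u
          · subst hxu; rw [uk_u F.huv, uk_u F.huv]
          · rw [uk_o hxu hxv, uk_o hxu hxv, flip_of_ne (by rw [hzv]; exact hxv)]
      rw [e]
      exact ReflTransGen.refl
    · by_cases hzw : z = w
      · subst hzw
        have hne : c a ≠ c b := by
          intro hab2
          by_cases hw : c z = c a
          · have m1 : Mono (insert (z, a) E) (W \ {u, v}) c z a :=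
              ⟨Finset.mem_insert_self _ _, hwM, haM, hw⟩
            have m2 : Mono (insert (z, a) E) (W \ {u, v}) c a b :=
              ⟨hsub hab, haM, hbM, hab2⟩
            have m3 : Mono (insert (z, a) E) (W \ {u, v}) c b z :=
              ⟨hsub hbw, hbM, hwM, by rw [hw, hab2]⟩
            exact hc.no_back m1 ((ReflTransGen.single m2).tail m3)
          · have ea : Mix.flip c z a = c a := flip_of_ne F.hwa.symm
            have eb : Mix.flip c z b = c b := flip_of_ne F.hbw
            have ew : Mix.flip c z z = c a := by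
              rw [flip_self, uk_bool hw, Bool.not_not]
            have m1 : Mono (insert (z, a) E) (W \ {u, v}) (Mix.flip c z) z a :=
              ⟨Finset.mem_insert_self _ _, hwM, haM, by rw [ea, ew]⟩
            have m2 : Mono (insert (z, a) E) (W \ {u, v}) (Mix.flip c z) a b :=
              ⟨hsub hab, haM, hbM, by rw [ea, eb, hab2]⟩
            have m3 : Mono (insert (z, a) E) (W \ {u, v}) (Mix.flip c z) b z :=
              ⟨hsub hbw, hbM, hwM, by rw [ew, eb, hab2]⟩
            exact hc'.no_back m1 ((ReflTransGen.single m2).tail m3)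
        by_cases hw : c z = c a
        · exact q.uk_w h hout hab hcE hcE' hw (by rw [hw]; exact hne.symm)
        · have ea : Mix.flip c z a = c a := flip_of_ne F.hwa.symm
          have eb : Mix.flip c z b = c b := flip_of_ne F.hbw
          have ew : Mix.flip c z z = c a := by
            rw [flip_self, uk_bool hw, Bool.not_not]
          have hr := q.uk_w h hout hab (c := Mix.flip c z) hcE' (by rw [flip_flip]; exact hcE)
            (by rw [ea, ew]) (by rw [eb, ew]; exact hne.symm)
          rw [flip_flip] at hr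
          exact hr.symm
      · have hw : Mix.flip c z w = c w := flip_of_ne (Ne.symm hzw)
        have e : upd u v (Mix.flip c z) (!(Mix.flip c z) w) = Mix.flip (upd u v c (!c w)) z := by
          funext x
          rw [hw]
          by_cases hxv : x = v
          · subst hxv; rw [flip_of_ne (Ne.symm hzv), uk_v, uk_v]
          · by_cases hxu : x = u
            · subst hxu; rw [flip_of_ne (Ne.symm hzu), uk_u F.huv, uk_u F.huv]
            · rw [uk_o hxu hxv]
              by_cases hxz : x = z
              · subst hxz; rw [flip_self, flip_self, uk_o hxu hxv]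
              · rw [flip_of_ne hxz, flip_of_ne hxz, uk_o hxu hxv]
        rw [e]
        exact Reach.flip (q.val_S h hab hcE) (by rw [← e]; exact q.val_S h hab hcE')

theorem Four.S_join (h : CE E W) (q : Four E W u v b w a) (hout : outN E W v = {w, a}) (hbw : (b, w) ∈ E)
    (hab : (a, b) ∈ E) (haw : (a, w) ∉ E) {c c' : V → Bool}
    (hc : Val (insert (w, a) E) (W \ {u, v}) c) (hc' : Val (insert (w, a) E) (W \ {u, v}) c') :
    Reach E W (upd u v c (!c w)) (upd u v c' (!c' w)) := by
  have F := q.facts h
  have hss : W \ {u, v} ⊂ W := sdiff_ssub (by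
    intro x hx
    rw [Finset.mem_insert, Finset.mem_singleton] at hx
    rcases hx with rfl | rfl
    · exact F.uW
    · exact F.vW) ⟨u, Finset.mem_insert_self _ _⟩
  have hG : Good (insert (w, a) E) (W \ {u, v}) :=
    Good.add_one (h.good.1.sub hss.1) (h.two' hss) F.hwa haw
  have hconn : Conn (insert (w, a) E) (W \ {u, v}) := h.conn_good hss hG
  exact hconn.induct (P := fun d => Reach E W (upd u v c (!c w)) (upd u v d (!d w))) hc
    ReflTransGen.refl (fun d hd hP z hz => hP.trans (q.uk_step h hout hbw hab hd hz)) c' hc'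

end Mix
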