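import Pool.Agent.Lib.MP_784a73_co.Mix.UA
import Pool.Agent.Lib.MP_784a73_co.Mix.UJ
import Pool.Agent.Lib.MP_784a73_co.Mix.UK

/-! # ROW UL (III.2): the colourings off the class of the `S c`

`E' := insert (w, a) E`, `M := W \ {u, v}`, `S c := upd u v c (!c w)`.  `Off c` : `c` is valid on `W` and not joined to any `S d`, `d` valid for `E'` on `M`.
`Off.exists`: by `h.disc`, `S_join` (two colourings which are both joined to some `S d` are joined).  `Off.closed`: clear.
`Off.cases`: `c` `Off`, `c v = !c u`, `c w ≠ c a`: then `c` is valid for `E'` on `M` (`w → a` is not mono, `val_insert_arc`), so `c ≠ S c`, i.e. `c u = c w` (if `c u = !c w`, then `c v = c w` and `c = S c`).  `u → b → w → u` is not mono: `c b ≠ c u`.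
`Off.frozen`: `flip c a` is not valid for `c` `Off`.  Suppose it is; it is `Off` too.  Replace `c` by `c` with `v ↦ !c u` (one flip, `v` dead; also valid for `flip c a`).  Let `d` be the one of `c, flip c a` with `d w ≠ d a`, `e := flip d a` the other one.
`Off.cases`: `d u = d w`, `d b = d a = !d w`.  `e w = e a = e u`, `e b = !e w`: `good_flip`: `e = upd e (e w)` is joined to `upd e (!e w)`, whose `a`-flip is `upd d (!d w) = S d`, valid (`val_S`); `d` is valid for `E'` on `M`.  So `e` is joined to `S d`: contradiction. -/

namespace Mix

open Finset Relation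

set_option linter.unusedSectionVars false

variable {V : Type*} [DecidableEq V] [Fintype V] {E : Finset (V × V)} {W : Finset V} {u v b w a y : V}

/-- valid and not joined to any `S d` -/
def Off (E : Finset (V × V)) (W : Finset V) (u v w a : V) (c : V → Bool) : Prop :=
  Val E W c ∧ ∀ d, Val (insert (w, a) E) (W \ {u, v}) d → ¬ Reach E W c (upd u v d (!d w))

theorem Off.closed : Closed E W {c | Off E W u v w a c} :=
  ⟨fun _ hc => hc.1, fun _ hc _ hz => ⟨hz, fun d hd hr => hc.2 d hd ((Reach.flip hc.1 hz).trans hr)⟩⟩

theorem Off.exists (h : CE E W) (q : Four E W u v b w a) (hout : outN E W v = {w, a}) (hbw : (b, w) ∈ E)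
    (hab : (a, b) ∈ E) (haw : (a, w) ∉ E) : ∃ c, Off E W u v w a c := by
  by_contra hcon
  push Not at hcon
  have key : ∀ c, Val E W c → ∃ d, Val (insert (w, a) E) (W \ {u, v}) d ∧ Reach E W c (upd u v d (!d w)) := by
    intro c hc
    by_contra hno
    push Not at hno
    exact hcon c ⟨hc, fun d hd => hno d hd⟩
  refine h.disc fun c c' hc hc' => ?_
  obtain ⟨d, hd, hr⟩ := key c hc
  obtain ⟨d', hd', hr'⟩ := key c' hc'
  exact (hr.trans (q.S_join h hout hbw hab haw hd hd')).trans hr'.symm

theorem Off.cases (h : CE E W) (q : Four E W u v b w a) (hbw : (b, w) ∈ E)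
    {c : V → Bool} (hc : Off E W u v w a c) (hv : c v = !c u) (hwa : c w ≠ c a) :
    Val (insert (w, a) E) (W \ {u, v}) c ∧ c u = c w ∧ c b = !c w ∧ c a = !c w := by
  have F := q.facts h
  have h1 : Val (insert (w, a) E) (W \ {u, v}) c :=
    val_insert_arc.2 ⟨hc.1.anti (Finset.Subset.refl _) Finset.sdiff_subset, fun _ _ he => absurd he hwa⟩
  have h2 : c u = c w := by
    by_contra hne
    have hu : c u = !c w := by
      cases h3 : c u <;> cases h4 : c w <;> simp_all
    have hS : upd u v c (!c w) = c := by
      funext z
      unfold upd
      by_cases hzv : z = v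
      · subst hzv
        rw [Function.update_self, hv, hu]
      · rw [Function.update_of_ne hzv]
        by_cases hzu : z = u
        · subst hzu
          rw [Function.update_self, hu]
        · rw [Function.update_of_ne hzu]
    refine hc.2 c h1 ?_
    rw [hS]
    exact ReflTransGen.refl
  refine ⟨h1, h2, ?_, ?_⟩
  · by_contra hne
    have hb : c b = c w := by
      cases h3 : c b <;> cases h4 : c w <;> simp_all
    refine hc.1 u ?_
    refine TransGen.tail (TransGen.tail (TransGen.single ⟨F.ub, F.uW, F.bW, ?_⟩) ⟨hbw, F.bW, F.wW, hb⟩)
      ⟨F.wu, F.wW, F.uW, h2.symm⟩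
    rw [h2, hb]
  · cases h3 : c a <;> cases h4 : c w <;> simp_all

/-- recolouring the dead vertex `v` -/
private theorem UL_val (h : CE E W) (q : Four E W u v b w a) {c : V → Bool} (hc : Val E W c) :
    Val E W (Function.update c v (!c u)) := by
  have F := q.facts h
  have hdead : ∀ z ∈ ({v} : Finset V), Dead E W (Function.update c v (!c u)) z := by
    intro z hz
    rw [Finset.mem_singleton] at hz
    subst hz
    left
    intro p hp hpv
    have := F.inv p hp hpv
    subst this
    rw [Function.update_self, Function.update_of_ne F.huv]
    simp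
  rw [val_dead hdead]
  refine (hc.anti (Finset.Subset.refl _) Finset.sdiff_subset).congr fun z hz => ?_
  have hzv : z ≠ v := fun hzv => (Finset.mem_sdiff.1 hz).2 (Finset.mem_singleton.2 hzv)
  rw [Function.update_of_ne hzv]

private theorem UL_core (h : CE E W) (q : Four E W u v b w a) (hout : outN E W v = {w, a}) (hbw : (b, w) ∈ E)
    (hab : (a, b) ∈ E) {d : V → Bool} (hd : Off E W u v w a d) (he : Off E W u v w a (flip d a))
    (hv : d v = !d u) (hwa : d w ≠ d a) : False := by
  have F := q.facts h
  obtain ⟨h1, h2, h3, h4⟩ := Off.cases h q hbw hd hv hwa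
  have e1 : flip d a w = d w := flip_of_ne F.hwa
  have e2 : flip d a a = d w := by rw [flip_self, h4, Bool.not_not]
  have e3 : flip d a u = d w := by rw [flip_of_ne F.hua, h2]
  have e4 : flip d a b = !d w := by rw [flip_of_ne F.hba, h3]
  have e5 : flip d a v = !d w := by rw [flip_of_ne F.hva, hv, h2]
  have hM : Val E (W \ {u, v}) (flip d a) := he.1.anti (Finset.Subset.refl _) Finset.sdiff_subset
  have hg := q.good_flip h hout hM (by rw [e1, e2]) (by rw [e4, e1]; simp) (d w)
  have hu1 : upd u v (flip d a) (d w) = flip d a := by
    funext z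
    unfold upd
    by_cases hzv : z = v
    · subst hzv
      rw [Function.update_self, e5]
    · rw [Function.update_of_ne hzv]
      by_cases hzu : z = u
      · subst hzu
        rw [Function.update_self, e3]
      · rw [Function.update_of_ne hzu]
  have hu2 : flip (upd u v (flip d a) (!d w)) a = upd u v d (!d w) := by
    funext z
    by_cases hza : z = a
    · subst hza
      rw [flip_self]
      unfold upd
      rw [Function.update_of_ne F.hva.symm, Function.update_of_ne F.hua.symm, Function.update_of_ne F.hva.symm,
        Function.update_of_ne F.hua.symm, flip_self, Bool.not_not]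
    · rw [flip_of_ne hza]
      unfold upd
      by_cases hzv : z = v
      · subst hzv
        rw [Function.update_self, Function.update_self]
      · rw [Function.update_of_ne hzv, Function.update_of_ne hzv]
        by_cases hzu : z = u
        · subst hzu
          rw [Function.update_self, Function.update_self]
        · rw [Function.update_of_ne hzu, Function.update_of_ne hzu, flip_of_ne hza]
  have hSv : Val E W (upd u v d (!d w)) := q.val_S h hab (hd.1.anti (Finset.Subset.refl _) Finset.sdiff_subset)
  have hr := hg.2
  rw [hu1] at hr
  have hg' := hr.val he.1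
  have hr2 : Reach E W (upd u v (flip d a) (!d w)) (flip (upd u v (flip d a) (!d w)) a) :=
    Reach.flip hg' (by rw [hu2]; exact hSv)
  rw [hu2] at hr2
  exact he.2 d h1 (hr.trans hr2)

theorem Off.frozen (h : CE E W) (q : Four E W u v b w a) (hout : outN E W v = {w, a}) (hbw : (b, w) ∈ E)
    (hab : (a, b) ∈ E) (haw : (a, w) ∉ E) {c : V → Bool} (hc : Off E W u v w a c) : ¬ Val E W (flip c a) := by
  intro hval
  have F := q.facts h
  have hcl : Closed E W {c | Off E W u v w a c} := Off.closed
  -- make `v` different from `u`
  have hc1 : Off E W u v w a (Function.update c v (!c u)) := by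
    by_cases hcv : c v = !c u
    · have : Function.update c v (!c u) = c := by
        rw [← hcv]
        exact Function.update_eq_self v c
      rw [this]
      exact hc
    · have : Function.update c v (!c u) = flip c v := by
        have hcv' : c v = c u := by
          cases h3 : c v <;> cases h4 : c u <;> simp_all
        rw [flip, hcv']
      rw [this]
      exact hcl.step c hc v (by rw [← this]; exact UL_val h q hc.1)
  have hfl : flip (Function.update c v (!c u)) a = Function.update (flip c a) v (!(flip c a) u) := by
    funext z
    by_cases hza : z = a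
    · subst hza
      rw [flip_self, Function.update_of_ne F.hva.symm, Function.update_of_ne F.hva.symm, flip_self]
    · rw [flip_of_ne hza]
      by_cases hzv : z = v
      · subst hzv
        rw [Function.update_self, Function.update_self, flip_of_ne F.hua]
      · rw [Function.update_of_ne hzv, Function.update_of_ne hzv, flip_of_ne hza]
  have hc2 : Off E W u v w a (flip (Function.update c v (!c u)) a) :=
    hcl.step _ hc1 a (by rw [hfl]; exact UL_val h q hval)
  have hcv1 : Function.update c v (!c u) v = !(Function.update c v (!c u)) u := by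
    rw [Function.update_self, Function.update_of_ne F.huv]
  generalize Function.update c v (!c u) = c1 at hc1 hc2 hcv1
  by_cases hwa : c1 w = c1 a
  · refine UL_core h q hout hbw hab hc2 (by rw [flip_flip]; exact hc1) ?_ ?_
    · rw [flip_of_ne F.hva, flip_of_ne F.hua, hcv1]
    · rw [flip_of_ne F.hwa, flip_self, hwa]
      simp
  · exact UL_core h q hout hbw hab hc1 hc2 hcv1 hwa

end Mix
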