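import Pool.Agent.Lib.MP_784a73_co.Mix.UL

/-! # ROW UM (III.2 is impossible)

`haw` by `Four.not_aw`.  Take `c₁` `Off` (`Off.exists`), `K := {c | Off c ∧ c a = c₁ a}`, closed (`Off.closed`, `Off.frozen`), nonempty.  `exists_badflip` (`x := u`, `w₁ := w`, `w₂ := a`, `p := a`): `c₀ ∈ K` with `c₀ v = !c₀ u`, `c₀ w ≠ c₀ a`.  `Off.cases`: `c₀ u = c₀ w`,
`c₀ b = c₀ a = !c₀ w`.  `L := {u, v}`, `M := W \ L`, `H₀` from `exists_max_min` for `M`, `b`, `ff E H₀ = 2`.  `hext`: `c` valid on `M`, `c = c₀` on `L`, `c b = c₀ b` is valid on `W` (`Four.val_iff`, `c b ≠ c u`).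
`a ∈ H₀`: `princPX` with `E' := E` (`a` is frozen in `K`).  `w ∉ H₀`: `FourFacts.three`.  `deg E H₀ w = 1`: `≥ 1` because of `b → w`, `≥ 2` contradicts `hg` for `{w}` (`ff_insert`).
`princFX` with `A' := {(w, a)}`, `om := c₀ b`.  `hAv`: `h a = c₀ a = c₀ b` (`a ∈ H₀`, `a` frozen in `K`); `w` has in `insert w H₀` the only in-neighbour `b` (`deg E H₀ w = 1`), of colour `!c₀ b`: `w` is dead; `val_dead`, and on `H₀` the arc `(w, a)` does not count (`w ∉ H₀`).
`hno`: let `c ∈ K`, `c = c₀` on `L`, `c b = c w = c₀ b` and `d := flip c b` valid for `E ∪ {(w, a)}` on `M`.  `d u = c₀ u = !c₀ b = !d w`, `d v = c₀ v = d w`, so `upd u v d (!d w) = d`, it is valid (`val_S`), so `d ∈ K` (`Closed.step`), but `d` is joined to `S d = d`: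
contradiction to `Off`. -/

namespace Mix

open Finset Relation

set_option linter.unusedSectionVars false

variable {V : Type*} [DecidableEq V] [Fintype V] {E : Finset (V × V)} {W : Finset V} {u v b w a y : V}

theorem Four.typeIII2_false (h : CE E W) (q : Four E W u v b w a) (hout : outN E W v = {w, a}) (hbw : (b, w) ∈ E)
    (hab : (a, b) ∈ E) : False := by
  have F := q.facts h
  have haw : (a, w) ∉ E := Four.not_aw h q hout hbw hab
  obtain ⟨c₁, hc₁⟩ := Off.exists h q hout hbw hab haw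
  -- the closed set
  have hK : Closed E W {c | Off E W u v w a c ∧ c a = c₁ a} := by
    refine ⟨fun c hc => hc.1.1, fun c hc z hz => ?_⟩
    have hoff : Off E W u v w a (flip c z) := (Off.closed (E := E) (W := W)).step c hc.1 z hz
    refine ⟨hoff, ?_⟩
    by_cases hza : z = a
    · subst hza
      exact absurd hz (Off.frozen h q hout hbw hab haw hc.1)
    · rw [flip_of_ne (Ne.symm hza)]; exact hc.2
  obtain ⟨c₀, hc₀, hv₀, -, hwa₀⟩ := CE.exists_badflip h q.tp hout hK ⟨c₁, hc₁, rfl⟩ F.aW F.hva.symm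
    (a := c₁ a) (fun c hc => hc.2)
  obtain ⟨-, hcu, hcb, hca⟩ := Off.cases h q hbw hc₀.1 hv₀ hwa₀
  have hLW : ({u, v} : Finset V) ⊆ W := by
    intro x hx
    rcases Finset.mem_insert.1 hx with rfl | hx
    · exact F.uW
    · rw [Finset.mem_singleton.1 hx]; exact F.vW
  have hL : ({u, v} : Finset V).Nonempty := ⟨u, Finset.mem_insert_self _ _⟩
  have hss := sdiff_ssub hLW hL
  have hM : ∀ x ∈ W, x ≠ u → x ≠ v → x ∈ W \ {u, v} := by
    intro x hx h1 h2
    rw [Finset.mem_sdiff]
    refine ⟨hx, ?_⟩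
    intro h3
    rcases Finset.mem_insert.1 h3 with h3 | h3
    · exact h1 h3
    · exact h2 (Finset.mem_singleton.1 h3)
  have hbM := hM b F.bW F.hub.symm F.hvb.symm
  have haM := hM a F.aW F.hua.symm F.hva.symm
  have hwM := hM w F.wW F.huw.symm F.hvw.symm
  have hlb : (b, b) ∉ E := h.good.1.loop F.bW
  have hlw : (w, w) ∉ E := h.good.1.loop F.wW
  obtain ⟨H₀, hH₀, hbH, hf2, -, hg⟩ := exists_max_min (E := E) hbM hlb
  have hf : 2 ≤ ff E H₀ := h.two' hss H₀ hH₀ ⟨b, hbH⟩
  have hu0 : u ∉ H₀ := fun hx => (Finset.mem_sdiff.1 (hH₀ hx)).2 (by simp)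
  have hv0 : v ∉ H₀ := fun hx => (Finset.mem_sdiff.1 (hH₀ hx)).2 (by simp)
  have hbu₀ : c₀ b ≠ c₀ u := by
    rw [hcb, hcu]; cases c₀ w <;> simp
  have hext : ∀ c, (∀ l ∈ ({u, v} : Finset V), c l = c₀ l) → c b = c₀ b → Val E (W \ {u, v}) c → Val E W c := by
    intro c hcL hcb' hval
    have h1 : c u = c₀ u := hcL u (by simp)
    have h2 : c v = c₀ v := hcL v (by simp)
    have h3 : c v = !c u := by rw [h1, h2]; exact hv₀
    have h4 : c b ≠ c u := by rw [hcb', h1]; exact hbu₀
    exact (Four.val_iff h q h3).2 ⟨hval, fun h5 => absurd h5 h4, fun h5 => absurd h5 h4⟩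
  have hv0M : Val E (W \ {u, v}) c₀ := hc₀.1.1.anti (Finset.Subset.refl _) Finset.sdiff_subset
  -- `a ∈ H₀`
  have haH : a ∈ H₀ := by
    by_contra hna
    obtain ⟨c, hcK, -, -, -, hcx⟩ := princPX h hLW hL (h.good.sub Finset.sdiff_subset) hH₀ hg hK hc₀ hv0M
      (fun c h1 h2 h3 => hext c h1 (h2 b hbH) h3) (x := a) (Finset.mem_sdiff.2 ⟨haM, hna⟩) (!c₀ a)
    have h1 : c a = c₁ a := hcK.2
    have h2 : c₀ a = c₁ a := hc₀.2
    rw [h1, ← h2] at hcx
    revert hcx
    cases c₀ a <;> simp
  have hwH : w ∉ H₀ := by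
    intro hwH
    have := F.three H₀ (hH₀.trans Finset.sdiff_subset) hu0 hv0 hbH hwH haH
    omega
  have hbin : b ∈ inN E H₀ w := mem_inN.2 ⟨hbH, hbw⟩
  have hdeg : deg E H₀ w = 1 := by
    have h1 : 1 ≤ (inN E H₀ w).card := Finset.card_pos.2 ⟨b, hbin⟩
    have h2 : 1 ≤ deg E H₀ w := by unfold deg; omega
    have h3 := hg {w} (by
      intro x hx
      rw [Finset.mem_singleton.1 hx]
      exact Finset.mem_sdiff.2 ⟨hwM, hwH⟩) ⟨w, Finset.mem_singleton_self _⟩
    have h4 : ({w} : Finset V) ∪ H₀ = insert w H₀ := rfl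
    rw [h4, ff_insert hwH hlw] at h3
    omega
  have hin : ∀ p ∈ H₀, (p, w) ∈ E → p = b := by
    intro p hp hpw
    have h1 : (inN E H₀ w).card ≤ 1 := by unfold deg at hdeg; omega
    exact Finset.card_le_one.1 h1 p (mem_inN.2 ⟨hp, hpw⟩) b hbin
  have hins : insert w H₀ \ {w} = H₀ := by
    ext x
    simp only [Finset.mem_sdiff, Finset.mem_insert, Finset.mem_singleton]
    constructor
    · rintro ⟨h1 | h1, h2⟩
      · exact absurd h1 h2
      · exact h1
    · intro h1
      exact ⟨Or.inr h1, fun h2 => hwH (h2 ▸ h1)⟩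
  have hwb : w ≠ b := F.hbw.symm
  refine princFX (A' := {(w, a)}) (om := c₀ b) h hLW hL hH₀ hg hK hc₀ hbH (Finset.mem_sdiff.2 ⟨hwM, hwH⟩) hdeg
    hext ?_ ?_ ?_
  · intro x hx
    rw [Finset.mem_singleton.1 hx]
    exact ⟨Finset.mem_insert_self _ _, Finset.mem_insert_of_mem haH⟩
  · intro g _ hg2 hgb _
    have hgw : Function.update (flip g b) w (c₀ b) w = c₀ b := by simp
    have hgb' : Function.update (flip g b) w (c₀ b) b = !c₀ b := by
      rw [Function.update_of_ne hwb.symm, flip_self, hgb]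
    have hdead : ∀ z ∈ ({w} : Finset V), Dead (E ∪ {(w, a)}) (insert w H₀) (Function.update (flip g b) w (c₀ b)) z := by
      intro z hz
      rw [Finset.mem_singleton.1 hz]
      left
      intro p hp hpw
      have hpE : (p, w) ∈ E := by
        rcases Finset.mem_union.1 hpw with h1 | h1
        · exact h1
        · exfalso
          have := Finset.mem_singleton.1 h1
          exact F.hwa (congrArg Prod.snd this)
      have hpb : p = b := by
        rcases Finset.mem_insert.1 hp with h1 | h1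
        · subst h1; exact absurd hpE hlw
        · exact hin p h1 hpE
      rw [hpb, hgb', hgw]
      cases c₀ b <;> simp
    rw [val_dead hdead, hins]
    have h1 : Val E H₀ (Function.update (flip g b) w (c₀ b)) := by
      refine hg2.congr ?_
      intro x hx
      have hxw : x ≠ w := fun h1 => hwH (h1 ▸ hx)
      rw [Function.update_of_ne hxw]
    refine h1.congr_arcs ?_
    intro p hp r _ hpr
    rcases Finset.mem_union.1 hpr with h2 | h2
    · exact h2
    · exfalso
      have h3 := Finset.mem_singleton.1 h2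
      have h4 : p = w := congrArg Prod.fst h3
      rw [h4] at hp
      exact hwH hp
  · intro c hc hcL hcb' hcw hvd
    have hu : c u = c₀ u := hcL u (by simp)
    have hvv : c v = c₀ v := hcL v (by simp)
    have hdw : flip c b w = c₀ b := by rw [flip_of_ne hwb, hcw]
    have hdu : flip c b u = !c₀ b := by
      rw [flip_of_ne F.hub, hu, hcu, hcb]; simp
    have hdv : flip c b v = c₀ b := by
      rw [flip_of_ne F.hvb, hvv, hv₀, hcu, hcb]
    have hS : upd u v (flip c b) (!flip c b w) = flip c b := by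
      funext x
      unfold upd
      by_cases hxv : x = v
      · subst hxv
        rw [Function.update_self, hdw, hdv]; simp
      · rw [Function.update_of_ne hxv]
        by_cases hxu : x = u
        · subst hxu
          rw [Function.update_self, hdw, hdu]
        · rw [Function.update_of_ne hxu]
    have hE' : E ∪ {(w, a)} = insert (w, a) E := by
      ext x; simp [or_comm]
    rw [hE'] at hvd
    have hvE : Val E (W \ {u, v}) (flip c b) := hvd.anti (Finset.subset_insert _ _) (Finset.Subset.refl _)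
    have hvW : Val E W (flip c b) := by
      have := Four.val_S h q hab hvE
      rwa [hS] at this
    have hdK := hK.step c hc b hvW
    have := hdK.1.2 (flip c b) hvd
    rw [hS] at this
    exact this ReflTransGen.refl

end Mix
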