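import Pool.Agent.Lib.MP_784a73_co.Mix.Nb

/-! # ROW UN: a vertex `v ∈ T⁻(u)` if `u` has only one out-neighbour

`v` has two in-neighbours, at most one of them is `o`; let `y` be an in-neighbour `≠ o`, so `(u, y) ∉ E`.  In the reversed graph (`h.rev`) `u → v → y` (`TP_rev`) with `(y, u) ∉ Mix.rev E`.  Take a `Bad` colouring `c` (`exists_bad`, `Bad.rev_iff`).  `bad_beta` (for `rev E`): mono path
`y ⇒ u` of `rev E` in `W.erase v`; its last arc (`y ≠ u`) is `(o, u) ∈ rev E`, so `c o = c u`.  Then `flip c u` is valid for `E`: the only out-neighbour `o` of `u` has the other colour, so `u` is dead (`val_dead` for `T = {u}`, validity on `W \ {u}` from `c`).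
Contradiction to `bad_beta_frozen`. -/

namespace Mix

open Finset Relation

set_option linter.unusedSectionVars false

variable {V : Type*} [DecidableEq V] [Fintype V] {E : Finset (V × V)} {W : Finset V}

theorem CE.tm_false (h : CE E W) {u v o : V} (hv : TM E W u v) (hout : outN E W u = {o}) : False := by
  have hO := h.good.1
  have hvW : v ∈ W := hv.1
  have hu : u ∈ outN E W v := by rw [hv.2.1]; exact Finset.mem_singleton_self u
  obtain ⟨huW, hvu⟩ := mem_outN.1 hu
  have ho : o ∈ outN E W u := by rw [hout]; exact Finset.mem_singleton_self o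
  obtain ⟨hoW, huo⟩ := mem_outN.1 ho
  have hou : o ≠ u := by
    rintro rfl
    exact hO o hoW o hoW huo huo
  have honly : ∀ q ∈ W, (u, q) ∈ E → q = o := by
    intro q hq huq
    have h1 : q ∈ outN E W u := mem_outN.2 ⟨hq, huq⟩
    rw [hout] at h1
    exact Finset.mem_singleton.1 h1
  obtain ⟨y, hy, hyo⟩ : ∃ y ∈ inN E W v, y ≠ o := by
    have h1 : 1 < (inN E W v).card := by rw [hv.2.2]; norm_num
    exact Finset.exists_mem_ne h1 o
  obtain ⟨hyW, hyv⟩ := mem_inN.1 hy
  have hyu : y ≠ u := by
    rintro rfl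
    exact hO y huW v hvW hyv hvu
  have hv' : TP (Mix.rev E) W u v := TP_rev.2 hv
  have hy' : y ∈ outN (Mix.rev E) W v := by rw [outN_rev]; exact hy
  have hyu' : (y, u) ∉ Mix.rev E := by
    intro h1
    exact hyo (honly y hyW (mem_rev.1 h1))
  obtain ⟨c, hc⟩ := h.rev.exists_bad hv' hy' hyu'
  obtain ⟨hP, -, -⟩ := h.rev.bad_beta hv' hy' hyu' hc
  have hfz := (h.rev.bad_beta_frozen hv' hy' hyu' hc).1
  have hco : c o = c u := by
    rcases ReflTransGen.cases_tail hP with h1 | ⟨z, _, hz⟩
    · exact absurd h1.symm hyu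
    · have hz1 : (u, z) ∈ E := mem_rev.1 hz.1
      have hzo : z = o := honly z (Finset.mem_of_mem_erase hz.2.1) hz1
      rw [← hzo]
      exact hz.2.2.2
  have hvalE : Val E W c := val_rev.1 hc.1
  apply hfz
  rw [val_rev]
  have hdead : ∀ t ∈ ({u} : Finset V), Dead E W (Mix.flip c u) t := by
    intro t ht
    rw [Finset.mem_singleton] at ht
    subst ht
    refine Or.inr (fun q hq huq => ?_)
    rw [honly q hq huq, flip_self, flip_of_ne hou, hco]
    cases c t <;> decide
  rw [val_dead hdead]
  refine Val.congr (c := c) (fun t ht => ?_) (hvalE.anti (Finset.Subset.refl E) Finset.sdiff_subset)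
  have htu : t ≠ u := by
    rintro rfl
    exact (Finset.mem_sdiff.1 ht).2 (Finset.mem_singleton_self t)
  rw [flip_of_ne htu]

end Mix
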