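import Pool.Agent.Lib.MP_784a73_co.Mix.UE
import Pool.Agent.Lib.MP_784a73_co.Mix.UH
import Pool.Agent.Lib.MP_784a73_co.Mix.UM
import Pool.Agent.Lib.MP_784a73_co.Mix.UN
import Pool.Agent.Lib.MP_784a73_co.Mix.SG3

/-! # ROW UZ: a vertex of degree 3 with an apex of degree 4 (Theorem 3Z)

Let `u → v`, `deg E W u = 4`.  `deg_x`: `|Em| + |Ep| + |Tset| = 4`, `v ∈ Tset`, so `|Em| + |Ep| ≤ 3`.
If `|Ep| ≥ 2` then `|Em| ≤ 1`: `CE.four` for `rev E` (`Em_rev`, `Ep_rev`, `Tset_rev`): `Tset = {v}`, `Em E W u = {o}`, so `outN (rev E) W u = inN E W u = {o}` (`v` is not an in-neighbour), and `TM (rev E) W u v`: `CE.tm_false` for `rev E`.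
So `|Ep| ≤ 1`; `CE.four`: `Tset = {v}`, `Em = {i₁, i₂}`, `Ep = {o}`, `o → i₁`, no arc `o → i₂`; `inN E W u = {i₁, i₂}`, `outN E W u = {v, o}`.  `outN E W v = {p, y}` with `(p, u) ∈ E` (`CE.one_adj`), `p ∈ {i₁, i₂}`.
* `(y, u) ∉ E`, `p = i₁`: `Four.typeII` with `w := i₁, a := i₂, b := o`.
* `(y, u) ∉ E`, `p = i₂`: `Four.not_ba` with `w := i₂, a := i₁, b := o` (colours from `Four.bad_two`): `(o, i₁) ∉ E`, contradiction.
* `(y, u) ∈ E`: `outN E W v = {i₁, i₂}`; `w := i₁, a := i₂, b := o`: `(a, b) ∈ E`: `Four.typeIII2_false`; otherwise `Four.typeIII`. -/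

namespace Mix

open Finset Relation

set_option linter.unusedSectionVars false

variable {V : Type*} [DecidableEq V] [Fintype V] {E : Finset (V × V)} {W : Finset V}

private theorem UZ_pair {A : Finset V} {p : V} (hA : A.card = 2) (hp : p ∈ A) :
    ∃ y, A = {p, y} ∧ p ≠ y := by
  obtain ⟨a, b, hab, rfl⟩ := Finset.card_eq_two.1 hA
  rw [Finset.mem_insert, Finset.mem_singleton] at hp
  rcases hp with rfl | rfl
  · exact ⟨b, rfl, hab⟩
  · exact ⟨a, Finset.pair_comm _ _, Ne.symm hab⟩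

theorem CE.apex_four (h : CE E W) {u v : V} (hv : TP E W u v) (hu : deg E W u = 4) :
    ∃ x a b w, 5 ≤ deg E W x ∧ SP E W x v u a b w := by
  have hO : Ori E W := h.good.1
  obtain ⟨huv, huW, hvW⟩ := hv.arc
  have hvT : v ∈ Tset E W u := mem_Tset.2 (Or.inl hv)
  have hT : (Tset E W u).Nonempty := ⟨v, hvT⟩
  have hd := deg_x hO huW
  have hTc := Finset.card_pos.2 hT
  have hvin : v ∉ inN E W u := fun hh => hO u huW v hvW huv (mem_inN.1 hh).2
  have hvout : v ∈ outN E W u := mem_outN.2 ⟨hvW, huv⟩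
  by_cases hEp : (Ep E W u).card ≤ 1
  · obtain ⟨v', o, i₁, i₂, hi, hTs, hEm, hEpo, ho1, ho2⟩ := h.four huW hT (by omega) hEp
    have hvv : v' = v := by
      rw [hTs, Finset.mem_singleton] at hvT
      exact hvT.symm
    subst hvv
    have hin : inN E W u = {i₁, i₂} := by
      rw [← hEm, Em, hTs, Finset.sdiff_singleton_eq_erase, Finset.erase_eq_of_notMem hvin]
    have hout : outN E W u = {v', o} := by
      have h1 : (outN E W u).erase v' = {o} := by
        rw [← hEpo, Ep, hTs, Finset.sdiff_singleton_eq_erase]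
      rw [← Finset.insert_erase hvout, h1]
    have hvo : v' ≠ o := by
      have : o ∈ Ep E W u := by rw [hEpo]; exact Finset.mem_singleton_self o
      rw [Ep, Finset.mem_sdiff] at this
      rintro rfl
      exact this.2 hvT
    obtain ⟨p, hp, hpu⟩ := h.one_adj hv
    have hpin : p ∈ inN E W u := mem_inN.2 ⟨(mem_outN.1 hp).1, hpu⟩
    obtain ⟨y, hy, hpy⟩ := UZ_pair hv.2.2 hp
    have hyout : y ∈ outN E W v' := by
      rw [hy]
      simp
    have hvp := (mem_outN.1 hp).2
    by_cases hyu : (y, u) ∈ E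
    · have hyin : y ∈ inN E W u := mem_inN.2 ⟨(mem_outN.1 hyout).1, hyu⟩
      rw [hin, Finset.mem_insert, Finset.mem_singleton] at hpin hyin
      have houtv : outN E W v' = {i₁, i₂} := by
        rcases hpin with rfl | rfl
        · rcases hyin with rfl | rfl
          · exact absurd rfl hpy
          · exact hy
        · rcases hyin with rfl | rfl
          · rw [hy, Finset.pair_comm]
          · exact absurd rfl hpy
      have hv1 : (v', i₁) ∈ E := (mem_outN.1 (show i₁ ∈ outN E W v' by rw [houtv]; simp)).2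
      have q : Four E W u v' o i₁ i₂ := ⟨hv, hin, hout, hi, hvo, hv1⟩
      by_cases hab : (i₂, o) ∈ E
      · exact (Four.typeIII2_false h q houtv ho1 hab).elim
      · obtain ⟨h5, hs⟩ := Four.typeIII h q houtv ho1 ho2 hab
        exact ⟨i₁, i₂, o, i₂, h5, hs⟩
    · rw [hin, Finset.mem_insert, Finset.mem_singleton] at hpin
      rcases hpin with rfl | rfl
      · have q : Four E W u v' o p i₂ := ⟨hv, hin, hout, hi, hvo, hvp⟩
        obtain ⟨h5, hs⟩ := Four.typeII h q hy hyu hpy ho2 ho1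
        exact ⟨p, i₂, o, y, h5, hs⟩
      · have q : Four E W u v' o p i₁ :=
          ⟨hv, by rw [hin, Finset.pair_comm], hout, Ne.symm hi, hvo, hvp⟩
        refine absurd ho1 (Four.not_ba h q (h.exists_bad hv hyout hyu) fun c hc => ?_)
        obtain ⟨e1, _, e3, e4⟩ := Four.bad_two h q hy hyu hpy hc
        exact ⟨e1, e3, e4⟩
  · exfalso
    have hT' : (Tset (Mix.rev E) W u).Nonempty := by rw [Tset_rev]; exact hT
    obtain ⟨v', o, i₁, i₂, hi, hTs, hEm, hEpo, ho1, ho2⟩ := h.rev.four huW hT'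
      (by rw [Em_rev, Ep_rev]; omega) (by rw [Ep_rev]; omega)
    rw [Tset_rev] at hTs
    rw [Ep_rev] at hEpo
    have hvv : v' = v := by
      rw [hTs, Finset.mem_singleton] at hvT
      exact hvT.symm
    subst hvv
    have hin : inN E W u = {o} := by
      rw [← hEpo, Em, hTs, Finset.sdiff_singleton_eq_erase, Finset.erase_eq_of_notMem hvin]
    exact CE.tm_false h.rev (TM_rev.2 hv) (by rw [outN_rev]; exact hin)

/-- if a structure exists then `Bad` colourings exist: `w` not adjacent to `u`: `CE.exists_bad`; `w = a`: `Four.exists_bad` with `Four E W u v b x a` (`(a, b) ∉ E` by `Four.typeIII2_false`) -/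
theorem SP.exists_bad {E : Finset (V × V)} {W : Finset V} (h : CE E W) {x v u a b w : V} (hs : SP E W x v u a b w) :
    ∃ c, Bad E W c := by
  have hv : TP E W u v := ⟨hs.vW, hs.inv, by rw [hs.outv, Finset.card_pair hs.hxw]⟩
  have hx : x ∈ outN E W v := by rw [hs.outv]; simp
  have hw : w ∈ outN E W v := by rw [hs.outv]; simp
  rcases hs.hw with rfl | ⟨h1, -⟩
  · have q : Four E W u v b x w := ⟨hv, hs.inu, hs.outu, hs.hxa, hs.hvb, (mem_outN.1 hx).2⟩
    have hab : (w, b) ∉ E := fun hab => Four.typeIII2_false h q hs.outv hs.bx hab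
    exact Four.exists_bad h q hs.outv hs.bx hs.ba hab
  · exact h.exists_bad hv hw h1

end Mix
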